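import Pool.Agent.P.MP_1672e2_an.Words

/-! Shadowing of sequences of tubes. -/

set_option autoImplicit false

namespace Pool.Agent.P.MP_1672e2_an

open MeasureTheory Set Metric Filter Topology

variable {M : Type*} [MetricSpace M]

/-- The orbit of `z` follows the tubes named by `x`. -/
def Follows (f : M ≃ₜ M) (T : ℕ → Set M) (x : Om) (z : M) : Prop :=
  ∀ t γ, x t = (γ, 0) → zp f.toEquiv t z ∈ T γ

variable {f : M ≃ₜ M} {Q : Set M} {k : M → ℝ × ℝ} {ρ C : ℝ} {l : ℕ → ℕ} {T : ℕ → Set M}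

lemma sh_pos {x : Om} (hx : x ∈ LS l) (t : ℤ) : 0 < l (x t).1 :=
  lt_of_le_of_lt (Nat.zero_le _) (LS_lt hx t)

lemma sh_pos' {x : Om} (hx : x ∈ LS l) {t : ℤ} {γ : ℕ} (h : x t = (γ, 0)) : 0 < l γ := by
  have := sh_pos hx t
  rwa [h] at this

lemma sh_start {x : Om} {t : ℤ} (h : (x t).2 = 0) : x t = ((x t).1, 0) := Prod.ext rfl h

lemma sh_memQ (hT : ∀ γ, 0 < l γ → Hyp f Q k ρ (l γ) (T γ)) {x : Om} (hx : x ∈ LS l) {z : M}
    (hz : Follows f T x z) {t : ℤ} (ht : (x t).2 = 0) : zp f.toEquiv t z ∈ Q :=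
  ((hT _ (sh_pos hx t)).mem _ (hz t _ (sh_start ht))).1

lemma sh_zp_add (t : ℤ) (n : ℕ) (z : M) :
    zp f.toEquiv (t + n) z = f^[n] (zp f.toEquiv t z) := zp_add_nat f.toEquiv t n z

lemma follows_est (hρ : 0 < ρ) (bd : ∀ y ∈ Q, ‖k y‖ ≤ ρ)
    (hT : ∀ γ, 0 < l γ → Hyp f Q k ρ (l γ) (T γ)) (m : ℕ) {x x' : Om} (hx : x ∈ LS l)
    (hx' : x' ∈ LS l) {z z' : M} (hz : Follows f T x z) (hz' : Follows f T x' z') {t : ℤ}
    (ht : (x t).2 = 0) {u v : List ℕ} (hu : m ≤ u.length) (hv : m ≤ v.length)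
    (h1 : Occ l x (t - len l u) (u ++ v)) (h2 : Occ l x' (t - len l u) (u ++ v)) :
    ‖k (zp f.toEquiv t z) - k (zp f.toEquiv t z')‖ ≤ 2 * ρ / 100 ^ m := by
  induction m generalizing t u v with
  | zero =>
    have ht' : (x' t).2 = 0 := by
      have := (occ_append.1 h2).2.start
      rwa [sub_add_cancel] at this
    have a1 := bd _ (sh_memQ hT hx hz ht)
    have a2 := bd _ (sh_memQ hT hx' hz' ht')
    have a3 := norm_sub_le (k (zp f.toEquiv t z)) (k (zp f.toEquiv t z'))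
    simp only [pow_zero, div_one]
    linarith
  | succ m ih =>
    obtain ⟨u', γ₁, rfl⟩ : ∃ u' γ₁, u = u' ++ [γ₁] := by
      rcases List.eq_nil_or_concat u with rfl | ⟨u', γ₁, rfl⟩
      · simp at hu
      · exact ⟨u', γ₁, by simp⟩
    obtain ⟨γ₂, v', rfl⟩ : ∃ γ₂ v', v = γ₂ :: v' := by
      cases v with
      | nil => simp at hv
      | cons a b => exact ⟨a, b, rfl⟩
    simp only [List.length_append, List.length_cons, List.length_nil] at hu hv
    have e1 : t - (len l (u' ++ [γ₁]) : ℕ) = (t - l γ₁) - (len l u' : ℕ) := by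
      simp only [len_append, len_cons, len_nil]; push_cast; ring
    have e2 : t - (len l (u' ++ [γ₁]) : ℕ) = (t + l γ₂) - (len l (u' ++ [γ₁] ++ [γ₂]) : ℕ) := by
      simp only [len_append, len_cons, len_nil]; push_cast; ring
    have key : ∀ {y : Om}, Occ l y (t - (len l (u' ++ [γ₁]) : ℕ)) (u' ++ [γ₁] ++ γ₂ :: v') →
        y (t - l γ₁) = (γ₁, 0) ∧ y t = (γ₂, 0) ∧ (y (t + l γ₂)).2 = 0 := fun {y} h => by
      have b1 := (occ_append.1 h).2
      rw [sub_add_cancel] at b1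
      have b2 := (occ_append.1 (occ_append.1 h).1).2
      rw [e1, sub_add_cancel] at b2
      exact ⟨b2.1, b1.1, b1.2.start⟩
    obtain ⟨p1, p2, p3⟩ := key h1
    obtain ⟨q1, q2, -⟩ := key h2
    have i1 := ih (t := t - l γ₁) (u := u') (v := γ₁ :: γ₂ :: v') (by rw [p1]) (by omega)
      (by simp only [List.length_cons]; omega) (by rw [← e1]; simpa using h1)
      (by rw [← e1]; simpa using h2)
    have i2 := ih (t := t + l γ₂) (u := u' ++ [γ₁] ++ [γ₂]) (v := v') p3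
      (by simp only [List.length_append, List.length_cons, List.length_nil]; omega) (by omega)
      (by rw [← e2]; simpa using h1) (by rw [← e2]; simpa using h2)
    have c1 := (hT _ (sh_pos' hx p1)).ls _ (hz _ _ p1) _ (hz' _ _ q1)
    have c2 := (hT _ (sh_pos' hx p2)).lu _ (hz _ _ p2) _ (hz' _ _ q2)
    rw [← sh_zp_add, ← sh_zp_add, sub_add_cancel] at c1
    rw [← sh_zp_add, ← sh_zp_add] at c2
    have d1 := (norm_fst_le _).trans i1
    have d2 := (norm_snd_le _).trans i2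
    rw [Real.norm_eq_abs] at d1 d2
    have e0 : 0 ≤ 2 * ρ / 100 ^ m := by positivity
    have e3 : 2 * ρ / 100 ^ (m + 1) = 2 * ρ / 100 ^ m / 100 := by rw [pow_succ, div_div]
    rw [e3, Prod.norm_def, Real.norm_eq_abs, Real.norm_eq_abs]
    generalize 2 * ρ / 100 ^ m = e at *
    generalize |(k (zp f.toEquiv t z) - k (zp f.toEquiv t z')).1| = a at *
    generalize |(k (zp f.toEquiv t z) - k (zp f.toEquiv t z')).2| = b at *
    have c3 : a ≤ max e b / 100 := c1.trans (by gcongr)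
    have c4 : b ≤ max a e / 100 := c2.trans (by gcongr)
    rw [max_le_iff]
    rcases le_total e b with g1 | g1 <;> rcases le_total a e with g2 | g2 <;>
      simp only [max_eq_left, max_eq_right, g1, g2] at c3 c4 <;> constructor <;> linarith

/-- Projection to the interval of radius `ρ`. -/
def clamp (ρ s : ℝ) : ℝ := max (-ρ) (min s ρ)

lemma clamp_le (hρ : 0 < ρ) (s : ℝ) : |clamp ρ s| ≤ ρ :=
  abs_le.2 ⟨le_max_left _ _, max_le (by linarith) (min_le_right _ _)⟩

lemma clamp_eq {s : ℝ} (h : |s| ≤ ρ) : clamp ρ s = s := by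
  rw [abs_le] at h
  rw [clamp, min_eq_left h.2, max_eq_right h.1]

lemma clamp_lip (s s' : ℝ) : |clamp ρ s - clamp ρ s'| ≤ |s - s'| := by
  refine (abs_max_sub_max_le_max _ _ _ _).trans (max_le (by simp) ?_)
  exact (abs_min_sub_min_le_max _ _ _ _).trans (max_le le_rfl (by simp))

lemma sh_prev {x : Om} (hx : x ∈ LS l) {t : ℤ} {γ : ℕ} (h : x t = (γ, 0)) :
    (x (t + l γ - 1)).1 = γ := by
  have h0 := sh_pos' hx h
  have := LS_run hx h (i := l γ - 1) (by omega)
  rw [show t + l γ - 1 = t + ((l γ - 1 : ℕ) : ℤ) by omega, this]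

lemma exists_follows (hρ : 0 < ρ) (bd : ∀ y ∈ Q, ‖k y‖ ≤ ρ)
    (lo : ∀ y ∈ Q, ∀ y' ∈ Q, dist y y' ≤ C * ‖k y - k y'‖)
    (hT : ∀ γ, 0 < l γ → Hyp f Q k ρ (l γ) (T γ)) {x : Om} (hx : x ∈ LS l) :
    ∃ z, Follows f T x z := by
  have H := fun t => hT _ (sh_pos hx t)
  choose Y y1 y2 y3 using fun (t : ℤ) (s u : ℝ) =>
    (H t).ex (clamp ρ s) (clamp ρ u) (clamp_le hρ s) (clamp_le hρ u)
  let G : (ℤ → ℝ × ℝ) → ℤ → ℝ × ℝ := fun w t =>
    ((k (f^[l (x (t - l (x (t - 1)).1)).1]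
      (Y (t - l (x (t - 1)).1) (w (t - l (x (t - 1)).1)).1 (w t).2))).1,
      (k (Y t (w t).1 (w (t + l (x t).1)).2)).2)
  have gb : ∀ w t, ‖G w t‖ ≤ ρ := fun w t => by
    rw [Prod.norm_def, max_le_iff]
    exact ⟨(norm_fst_le (k _)).trans (bd _ ((H _).mem _ (y1 _ _ _)).2),
      (norm_snd_le (k _)).trans (bd _ ((H _).mem _ (y1 _ _ _)).1)⟩
  let Φ : BoundedContinuousFunction ℤ (ℝ × ℝ) → BoundedContinuousFunction ℤ (ℝ × ℝ) := fun w =>
    BoundedContinuousFunction.ofNormedAddCommGroupDiscrete (G w) ρ (gb w)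
  have hΦ : ∀ w t, Φ w t = G w t := fun _ _ => rfl
  have hc : ContractingWith (1 / 100) Φ := by
    refine ⟨by norm_num, LipschitzWith.of_dist_le_mul fun w w' => ?_⟩
    have b0 : ∀ t t', max |clamp ρ (w t).1 - clamp ρ (w' t).1|
        |clamp ρ (w t').2 - clamp ρ (w' t').2| ≤ dist w w' := fun t t' => by
      refine max_le ((clamp_lip _ _).trans ?_) ((clamp_lip _ _).trans ?_)
      · have := BoundedContinuousFunction.dist_coe_le_dist (f := w) (g := w') t
        rw [dist_eq_norm] at this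
        exact (norm_fst_le (w t - w' t)).trans this
      · have := BoundedContinuousFunction.dist_coe_le_dist (f := w) (g := w') t'
        rw [dist_eq_norm] at this
        exact (norm_snd_le (w t' - w' t')).trans this
    rw [BoundedContinuousFunction.dist_le (by positivity)]
    intro t
    rw [hΦ, hΦ, dist_eq_norm, Prod.norm_def, max_le_iff, Real.norm_eq_abs, Real.norm_eq_abs]
    constructor
    · have := (H _).ls _ (y1 (t - l (x (t - 1)).1) (w (t - l (x (t - 1)).1)).1 (w t).2) _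
        (y1 (t - l (x (t - 1)).1) (w' (t - l (x (t - 1)).1)).1 (w' t).2)
      rw [Prod.fst_sub (k (Y _ _ _)), Prod.snd_sub, y2, y2, y3, y3] at this
      have b1 := b0 (t - l (x (t - 1)).1) t
      refine this.trans ?_
      push_cast
      linarith
    · have := (H _).lu _ (y1 t (w t).1 (w (t + l (x t).1)).2) _
        (y1 t (w' t).1 (w' (t + l (x t).1)).2)
      rw [Prod.fst_sub, Prod.snd_sub (k (f^[_] _)), y2, y2, y3, y3] at this
      have b1 := b0 t (t + l (x t).1)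
      refine this.trans ?_
      push_cast
      linarith
  obtain ⟨w, hw⟩ : ∃ w : ℤ → ℝ × ℝ, ∀ t, G w t = w t :=
    ⟨⇑(hc.fixedPoint Φ), fun t => by rw [← hΦ, hc.fixedPoint_isFixedPt]⟩
  have wb : ∀ t, ‖w t‖ ≤ ρ := fun t => hw t ▸ gb w t
  have w1 : ∀ t, clamp ρ (w t).1 = (w t).1 := fun t => clamp_eq ((norm_fst_le _).trans (wb t))
  have w2 : ∀ t, clamp ρ (w t).2 = (w t).2 := fun t => clamp_eq ((norm_snd_le _).trans (wb t))
  let y : ℤ → M := fun t => Y t (w t).1 (w (t + l (x t).1)).2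
  have k1 : ∀ t, k (y t) = w t := fun t =>
    Prod.ext ((y2 _ _ _).trans (w1 t)) (show (G w t).2 = (w t).2 from congrArg Prod.snd (hw t))
  have k2 : ∀ t γ, x t = (γ, 0) → f^[l γ] (y t) = y (t + l γ) := fun t γ h => by
    have e1 : (x t).1 = γ := by rw [h]
    have e2 : k (f^[l γ] (y t)) = w (t + l γ) := by
      refine Prod.ext ?_ ?_
      · have := congrArg Prod.fst (hw (t + l γ))
        simp only [G, sh_prev hx h, add_sub_cancel_right, e1] at this
        simp only [y, e1]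
        exact this
      · have := (y3 t (w t).1 (w (t + l (x t).1)).2).trans (w2 _)
        simp only [y]
        rw [← e1]
        exact this
    have m1 : f^[l γ] (y t) ∈ Q := e1 ▸ ((H t).mem _ (y1 _ _ _)).2
    have m2 : y (t + l γ) ∈ Q := ((H _).mem _ (y1 _ _ _)).1
    have := lo _ m1 _ m2
    rw [e2, k1, sub_self, norm_zero, mul_zero] at this
    exact dist_le_zero.1 this
  have k3 : ∀ (v : List ℕ) (s : ℤ), Occ l x s v →
      zp f.toEquiv (len l v) (y s) = y (s + len l v) := fun v => by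
    induction v with
    | nil => intro s _; simp
    | cons γ v ih =>
      intro s h
      have := ih _ h.2
      rw [← k2 s γ h.1] at this
      rw [len_cons, Nat.cast_add, ← add_assoc, ← this, add_comm, zp_add, zp_natCast]
      rfl
  obtain ⟨t₀, -, h₀⟩ := (LS_starts hx 0).1
  refine ⟨zp f.toEquiv (-t₀) (y t₀), fun t γ h => ?_⟩
  have e1 : (x t).1 = γ := by rw [h]
  have e2 : (x t).2 = 0 := by rw [h]
  have e3 : zp f.toEquiv t (zp f.toEquiv (-t₀) (y t₀)) = y t := by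
    rcases le_total t₀ t with c | c
    · obtain ⟨v, v1, v2⟩ := exists_occ hx h₀ e2 c
      rw [← zp_add, ← v2, ← k3 v _ v1]
      congr 1; ring
    · obtain ⟨v, v1, v2⟩ := exists_occ hx e2 h₀ c
      rw [← zp_add, ← v2, ← k3 v _ v1, ← zp_add,
        show t + -(t + (len l v : ℤ)) + len l v = 0 by ring, zp_zero]
  rw [e3, ← e1]
  exact y1 _ _ _

lemma sh_fwd {x : Om} (hx : x ∈ LS l) (m : ℕ) {t : ℤ} (ht : (x t).2 = 0) :
    ∃ v : List ℕ, m ≤ v.length ∧ Occ l x t v := by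
  induction m generalizing t with
  | zero => exact ⟨[], le_rfl, ht⟩
  | succ m ih =>
    obtain ⟨v, v1, v2⟩ := ih (LS_next hx (sh_start ht))
    exact ⟨(x t).1 :: v, by simpa using v1, sh_start ht, v2⟩

lemma sh_bwd {x : Om} (hx : x ∈ LS l) (m : ℕ) {t : ℤ} (ht : (x t).2 = 0) :
    ∃ u : List ℕ, m ≤ u.length ∧ Occ l x (t - len l u) u := by
  induction m with
  | zero => exact ⟨[], le_rfl, by simpa [Occ] using ht⟩
  | succ m ih =>
    obtain ⟨u, u1, u2⟩ := ih
    have a1 := hx (t - len l u - 1)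
    rw [sub_add_cancel] at a1
    have a2 := u2.start
    have a3 : (x (t - len l u - 1)).2 + 1 = l (x (t - len l u - 1)).1 := by
      rcases a1 with ⟨-, b⟩ | ⟨b, -⟩
      · rw [b] at a2; simp at a2
      · exact b
    have a4 := LS_back hx (t := t - len l u - 1) (γ := (x (t - len l u - 1)).1)
      (j := (x (t - len l u - 1)).2) rfl
    generalize (x (t - len l u - 1)).1 = γ at *
    generalize (x (t - len l u - 1)).2 = j at *
    refine ⟨γ :: u, by simpa using u1, ?_, ?_⟩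
    · rw [← a4, len_cons]; congr 1; omega
    · rw [len_cons, show t - ((l γ + len l u : ℕ) : ℤ) + l γ = t - len l u by push_cast; ring]
      exact u2

lemma sh_around {x : Om} (hx : x ∈ LS l) (m : ℕ) {t : ℤ} (ht : (x t).2 = 0) :
    ∃ u v : List ℕ, m ≤ u.length ∧ m ≤ v.length ∧ Occ l x (t - len l u) (u ++ v) := by
  obtain ⟨u, u1, u2⟩ := sh_bwd hx m ht
  obtain ⟨v, v1, v2⟩ := sh_fwd hx m ht
  exact ⟨u, v, u1, v1, occ_append.2 ⟨u2, by rwa [sub_add_cancel]⟩⟩

lemma isOpen_occ (t : ℤ) (v : List ℕ) : IsOpen {x : Om | Occ l x t v} := by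
  induction v generalizing t with
  | nil =>
    exact (isOpen_discrete {p : ℕ × ℕ | p.2 = 0}).preimage (continuous_apply (A := fun _ => ℕ × ℕ) t)
  | cons γ v ih =>
    exact ((isOpen_discrete {p : ℕ × ℕ | p = (γ, 0)}).preimage
      (continuous_apply (A := fun _ => ℕ × ℕ) t)).inter (ih _)

lemma sh_small (C ρ : ℝ) {ε : ℝ} (hε : 0 < ε) : ∃ m : ℕ, |C| * (2 * ρ / 100 ^ m) < ε := by
  have h1 : Tendsto (fun m : ℕ => |C| * (2 * ρ / 100 ^ m)) atTop (𝓝 (|C| * 0)) :=
    (tendsto_const_nhds.div_atTop (tendsto_pow_atTop_atTop_of_one_lt (by norm_num))).const_mul _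
  rw [mul_zero] at h1
  exact (h1.eventually_lt_const hε).exists

lemma follows_near (hρ : 0 < ρ) (bd : ∀ y ∈ Q, ‖k y‖ ≤ ρ)
    (lo : ∀ y ∈ Q, ∀ y' ∈ Q, dist y y' ≤ C * ‖k y - k y'‖)
    (hT : ∀ γ, 0 < l γ → Hyp f Q k ρ (l γ) (T γ)) {x : Om} (hx : x ∈ LS l) {t : ℤ}
    (ht : (x t).2 = 0) {ε : ℝ} (hε : 0 < ε) : ∀ᶠ x' in 𝓝 x, x' ∈ LS l → ∀ z z',
      Follows f T x z → Follows f T x' z' →
        dist (zp f.toEquiv t z') (zp f.toEquiv t z) < ε := by
  obtain ⟨m, hm⟩ := sh_small C ρ hε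
  obtain ⟨u, v, hu, hv, h1⟩ := sh_around hx m ht
  filter_upwards [(isOpen_occ (l := l) (t - len l u) (u ++ v)).mem_nhds h1] with x' h2 hx' z z'
    hz hz'
  have ht' : (x' t).2 = 0 := by
    have := (occ_append.1 h2).2.start
    rwa [sub_add_cancel] at this
  have a1 := follows_est hρ bd hT m hx hx' hz hz' ht hu hv h1 h2
  have a2 := lo _ (sh_memQ hT hx hz ht) _ (sh_memQ hT hx' hz' ht')
  rw [dist_comm]
  refine lt_of_le_of_lt (a2.trans ?_) hm
  exact (mul_le_mul_of_nonneg_right (le_abs_self C) (norm_nonneg _)).trans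
    (mul_le_mul_of_nonneg_left a1 (abs_nonneg C))

theorem shadow [Nonempty M] [MeasurableSpace M] [BorelSpace M] (hρ : 0 < ρ)
    (bd : ∀ y ∈ Q, ‖k y‖ ≤ ρ) (lo : ∀ y ∈ Q, ∀ y' ∈ Q, dist y y' ≤ C * ‖k y - k y'‖)
    (hT : ∀ γ, 0 < l γ → Hyp f Q k ρ (l γ) (T γ)) : ∃ π : Om → M, Measurable π ∧
      ContinuousOn π (LS l) ∧ (∀ x ∈ LS l, π (sh x) = f (π x)) ∧
      ∀ x ∈ LS l, ∀ z, Follows f T x z ↔ z = π x := by
  classical
  choose! p hp using fun x (hx : x ∈ LS l) => exists_follows hρ bd lo hT hx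
  have uq : ∀ x ∈ LS l, ∀ z z', Follows f T x z → Follows f T x z' → z' = z := by
    intro x hx z z' hz hz'
    obtain ⟨t, -, ht⟩ := (LS_starts hx 0).1
    refine zp_injective f.toEquiv t (eq_of_forall_dist_le fun ε hε => ?_)
    exact ((follows_near hρ bd lo hT hx ht hε).self_of_nhds hx z z' hz hz').le
  have hc : ContinuousOn p (LS l) := by
    intro x hx
    obtain ⟨t, -, ht⟩ := (LS_starts hx 0).1
    have a1 : Tendsto (fun x' => zp f.toEquiv t (p x')) (𝓝[LS l] x) (𝓝 (zp f.toEquiv t (p x))) := by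
      rw [Metric.tendsto_nhds]
      intro ε hε
      filter_upwards [nhdsWithin_le_nhds (follows_near hρ bd lo hT hx ht hε),
        self_mem_nhdsWithin] with x' b1 b2
      exact b1 b2 _ _ (hp x hx) (hp x' b2)
    have a2 := ((continuous_zp f (-t)).tendsto _).comp a1
    simp only [Function.comp_def, zp_neg_zp] at a2
    exact a2
  obtain ⟨c⟩ : Nonempty M := inferInstance
  have e : ∀ x ∈ LS l, (LS l).piecewise p (fun _ => c) x = p x := fun x hx =>
    piecewise_eq_of_mem _ _ _ hx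
  refine ⟨(LS l).piecewise p fun _ => c,
    hc.measurable_piecewise continuousOn_const measurableSet_LS, hc.congr e, fun x hx => ?_,
    fun x hx z => ?_⟩
  · rw [e x hx, e _ (LS_sh.2 hx)]
    refine uq _ (LS_sh.2 hx) _ _ (fun t γ h => ?_) (hp _ (LS_sh.2 hx))
    have := hp x hx (t + 1) γ h
    rwa [zp_succ] at this
  · rw [e x hx]
    exact ⟨fun h => uq x hx _ _ (hp x hx) h, fun h => h ▸ hp x hx⟩

end Pool.Agent.P.MP_1672e2_an

/-! Prime tubes. -/

set_option autoImplicit false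

namespace Pool.Agent.P.MP_1672e2_an

open MeasureTheory Set Metric Filter Topology

variable {M : Type*} [MetricSpace M]

/-- The orbit of `z` up to time `n` is a concatenation of tubes. -/
inductive Chain (f : M → M) (Tu : ℕ → Set M → Prop) : M → ℕ → Prop
  | nil (z : M) : Chain f Tu z 0
  | cons {z : M} {n m : ℕ} {T : Set M} : Tu n T → z ∈ T → Chain f Tu (f^[n] z) m →
      Chain f Tu z (n + m)

/-- The orbit of `z` up to time `n` is a concatenation of at least two tubes. -/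
def Dec (f : M → M) (Tu : ℕ → Set M → Prop) (z : M) (n : ℕ) : Prop :=
  ∃ m T, m < n ∧ Tu m T ∧ z ∈ T ∧ Chain f Tu (f^[m] z) (n - m)

/-- Prime tubes. -/
def Prime (f : M → M) (Tu : ℕ → Set M → Prop) (n : ℕ) (T : Set M) : Prop :=
  Tu n T ∧ ∀ z ∈ T, ¬ Dec f Tu z n

variable {f : M ≃ₜ M} {Q I : Set M} {k : M → ℝ × ℝ} {ρ C K : ℝ} {Tu : ℕ → Set M → Prop}

omit [MetricSpace M] in
lemma Chain.prime_head {g : M → M} {z : M} {n : ℕ} (hc : Chain g Tu z n) :
    n = 0 ∨ ∃ m T, Tu m T ∧ z ∈ T := by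
  cases hc with
  | nil => exact Or.inl rfl
  | cons h1 h2 _ => exact Or.inr ⟨_, _, h1, h2⟩

omit [MetricSpace M] in
lemma Chain.prime_cat {g : M → M} {z : M} {a b : ℕ} (hc : Chain g Tu z a)
    (hb : Chain g Tu (g^[a] z) b) : Chain g Tu z (a + b) := by
  induction hc with
  | nil z => simpa using hb
  | @cons z n m T h1 h2 _ ih =>
    rw [add_assoc]
    refine Chain.cons h1 h2 (ih ?_)
    rwa [← Function.iterate_add_apply, add_comm m n]

lemma Tubes.prime_transfer (h : Tubes f Q I k ρ C K Tu) {n : ℕ} {T : Set M} (hT : Tu n T)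
    {z z' : M} (hz : z ∈ T) (hz' : z' ∈ T) {w : M} {j : ℕ} (hc : Chain f Tu w j) :
    ∀ i, w = f^[i] z' → i + j = n → (j = 0 ∨ f^[i] z' ∈ I) → Chain f Tu (f^[i] z) j := by
  induction hc with
  | nil z => exact fun i _ _ _ => Chain.nil _
  | @cons w a b T1 h1 h2 h3 ih =>
    intro i e hi hI
    subst e
    have ha := h.pos _ _ h1
    have e1 : ∀ y : M, f^[a] (f^[i] y) = f^[i + a] y := fun y => by
      rw [← Function.iterate_add_apply, add_comm]
    have h4 : b = 0 ∨ f^[i + a] z' ∈ I := by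
      rcases h3.prime_head with h5 | ⟨m, T2, h5, h6⟩
      · exact Or.inl h5
      · exact Or.inr (e1 z' ▸ h.inner _ _ _ _ _ h1 h5 h2 h6)
    have h5 : f^[i] z ∈ T1 := by
      refine h.transfer n T a T1 z z' i hT h1 hz hz' (by omega) h2 (Or.inr (hI.resolve_left ?_))
        (h4.imp_left fun h6 => by omega)
      omega
    refine Chain.cons h1 h5 ?_
    rw [e1]
    exact ih (i + a) (e1 z') (by omega) h4

lemma Tubes.dec (h : Tubes f Q I k ρ C K Tu) {n : ℕ} {T : Set M} (hT : Tu n T) {z z' : M}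
    (hz : z ∈ T) (hz' : z' ∈ T) (hd : Dec f Tu z' n) : Dec f Tu z n := by
  obtain ⟨m, T', h1, h2, h3, h4⟩ := hd
  have h5 : f^[m] z' ∈ I := by
    rcases h4.prime_head with h5 | ⟨m', T2, h5, h6⟩
    · omega
    · exact h.inner _ _ _ _ _ h2 h5 h3 h6
  refine ⟨m, T', h1, h2, ?_, h.prime_transfer hT hz hz' h4 m rfl (by omega) (Or.inr h5)⟩
  exact h.transfer n T m T' z z' 0 hT h2 hz hz' (by omega) h3 (Or.inl rfl)
    (Or.inr (by rw [zero_add]; exact h5))

lemma Tubes.chain_prime (h : Tubes f Q I k ρ C K Tu) {z : M} {n : ℕ} (hc : Chain f Tu z n) :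
    Chain f (Prime f Tu) z n := by
  induction n using Nat.strong_induction_on generalizing z with
  | _ n ih =>
    cases hc with
    | nil => exact Chain.nil _
    | @cons _ a b T h1 h2 h3 =>
      have ha := h.pos _ _ h1
      have h4 := ih b (by omega) h3
      by_cases hp : Prime f Tu a T
      · exact Chain.cons hp h2 h4
      · have h5 : ∃ z' ∈ T, Dec f Tu z' a := by
          by_contra hn
          exact hp ⟨h1, fun z' hz' hd => hn ⟨z', hz', hd⟩⟩
        obtain ⟨z', hz', hd⟩ := h5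
        obtain ⟨m, T', g1, g2, g3, g4⟩ := h.dec h1 h2 hz' hd
        have hm := h.pos _ _ g2
        have g5 : Chain f Tu z m := Chain.cons (m := 0) g2 g3 (Chain.nil _)
        have g6 := (ih m (by omega) g5).prime_cat (ih (a - m) (by omega) g4)
        rw [Nat.add_sub_cancel' g1.le] at g6
        exact g6.prime_cat h4

/-- An enumeration of the prime tubes. -/
lemma Tubes.enum (h : Tubes f Q I k ρ C K Tu) : ∃ (l : ℕ → ℕ) (T : ℕ → Set M),
    (∀ γ, 0 < l γ → Prime f Tu (l γ) (T γ)) ∧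
    (∀ γ γ', 0 < l γ → l γ = l γ' → T γ = T γ' → γ = γ') ∧
    ∀ n T', Prime f Tu n T' → ∃ γ, l γ = n ∧ T γ = T' := by
  classical
  have h1 : ∀ n, {T | Tu n T}.Finite := by
    intro n
    by_contra hn
    obtain ⟨S, h2, h3⟩ := Set.Infinite.exists_subset_card_eq hn (⌈K ^ n⌉₊ + 1)
    have h4 := h.count n S fun T hT => h2 hT
    rw [h3] at h4
    have h5 := Nat.le_ceil (K ^ n)
    push_cast at h4
    linarith
  have h2 : {p : ℕ × Set M | Prime f Tu p.1 p.2}.Countable := by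
    refine Set.Countable.mono (fun p hp => ?_)
      (Set.countable_iUnion fun n => ((h1 n).image (Prod.mk n)).countable)
    exact mem_iUnion.2 ⟨p.1, p.2, hp.1, rfl⟩
  obtain ⟨e, he⟩ := Set.countable_iff_exists_injOn.1 h2
  have h3 : ∀ γ, ∃ p : ℕ × Set M, (Prime f Tu p.1 p.2 ∧ e p = γ) ∨
      (p.1 = 0 ∧ ∀ q : ℕ × Set M, Prime f Tu q.1 q.2 → e q ≠ γ) := by
    intro γ
    by_cases hq : ∃ q : ℕ × Set M, Prime f Tu q.1 q.2 ∧ e q = γ
    · obtain ⟨q, hq⟩ := hq
      exact ⟨q, Or.inl hq⟩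
    · exact ⟨(0, ∅), Or.inr ⟨rfl, fun q q1 q2 => hq ⟨q, q1, q2⟩⟩⟩
  choose p hp using h3
  have h4 : ∀ γ, 0 < (p γ).1 → Prime f Tu (p γ).1 (p γ).2 ∧ e (p γ) = γ := fun γ h0 =>
    (hp γ).resolve_right fun h5 => by omega
  refine ⟨fun γ => (p γ).1, fun γ => (p γ).2, fun γ h0 => (h4 γ h0).1,
    fun γ γ' h0 e1 e2 => ?_, fun n T' hT => ?_⟩
  · rw [← (h4 γ h0).2, ← (h4 γ' (lt_of_lt_of_eq h0 e1)).2, Prod.ext e1 e2]
  · have h5 := (hp (e (n, T'))).resolve_right fun h5 => h5.2 (n, T') hT rfl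
    have h6 : p (e (n, T')) = (n, T') := he h5.1 hT h5.2
    exact ⟨e (n, T'), congrArg Prod.fst h6, congrArg Prod.snd h6⟩

end Pool.Agent.P.MP_1672e2_an

/-! A system of tubes gives a coding. -/

set_option autoImplicit false

namespace Pool.Agent.P.MP_1672e2_an

open MeasureTheory Set Metric Filter Topology

variable {M : Type*} [MetricSpace M] {f : M ≃ₜ M} {Q I : Set M} {k : M → ℝ × ℝ} {ρ C K : ℝ}
  {Tu : ℕ → Set M → Prop} {l : ℕ → ℕ} {T : ℕ → Set M}

lemma code_iter (f : M ≃ₜ M) {s t : ℤ} {n : ℕ} (h : s + n = t) (z : M) :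
    f^[n] (zp f.toEquiv s z) = zp f.toEquiv t z := by
  rw [← h]; exact (zp_add_nat f.toEquiv s n z).symm

lemma code_pos {x : Om} (hx : x ∈ LS l) {t : ℤ} {γ j : ℕ} (h : x t = (γ, j)) : j < l γ := by
  have := LS_lt hx t
  rwa [h] at this

lemma code_eta {x : Om} {t : ℤ} (h : (x t).2 = 0) : x t = ((x t).1, 0) := by
  rw [← h]

/-- At every start the orbit is in the inner set. -/
lemma Tubes.code_inner (h : Tubes f Q I k ρ C K Tu) (hp : ∀ γ, 0 < l γ → Prime f Tu (l γ) (T γ))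
    {x : Om} (hx : x ∈ LS l) {z : M} (hz : Follows f T x z) {t : ℤ} (ht : (x t).2 = 0) :
    zp f.toEquiv t z ∈ I := by
  have he : Edge l (x (t - 1)) (x t) := by simpa using hx (t - 1)
  obtain ⟨γ, j, hj⟩ : ∃ γ j, x (t - 1) = (γ, j) := ⟨_, _, rfl⟩
  rw [hj] at he
  have hl : j + 1 = l γ := by
    rcases he with ⟨_, h2⟩ | ⟨h1, _⟩
    · rw [h2] at ht; simp at ht
    · exact h1
  have h0 := LS_back hx hj
  have e : t - 1 - (j : ℤ) + (l γ : ℕ) = t := by rw [← hl]; push_cast; ring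
  have h1 := code_eta ht
  have := h.inner _ _ _ _ _ (hp γ (by omega)).1 (hp _ (code_pos hx h1)).1 (hz _ _ h0)
    (by rw [code_iter f e]; exact hz _ _ h1)
  rwa [code_iter f e] at this

/-- Two names of the same point have the same cuts. -/
lemma Tubes.start (h : Tubes f Q I k ρ C K Tu) (hp : ∀ γ, 0 < l γ → Prime f Tu (l γ) (T γ))
    {x x' : Om} (hx : x ∈ LS l) (hx' : x' ∈ LS l) {z : M} (hz : Follows f T x z)
    (hz' : Follows f T x' z) {t : ℤ} (ht : (x' t).2 = 0) : (x t).2 = 0 := by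
  by_contra hne
  obtain ⟨g, j, hj⟩ : ∃ γ j, x t = (γ, j) := ⟨_, _, rfl⟩
  have hj0 : 0 < j := by rw [hj] at hne; exact Nat.pos_of_ne_zero hne
  have hjl : j < l g := code_pos hx hj
  obtain ⟨t1, ht1⟩ : ∃ t1 : ℤ, t1 = t - j := ⟨_, rfl⟩
  have h1 : x t1 = (g, 0) := ht1 ▸ LS_back hx hj
  have hg := hp g (by omega)
  have hw : zp f.toEquiv t1 z ∈ T g := hz _ _ h1
  have hI1 : zp f.toEquiv t1 z ∈ I := h.code_inner hp hx hz (by rw [h1])
  have hI2 : zp f.toEquiv (t1 + l g) z ∈ I := h.code_inner hp hx hz (LS_next hx h1)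
  have claimA : ∀ d : ℕ, ∀ s : ℤ, (x' s).2 = 0 → t1 < s → s + d = t1 + l g →
      Chain f Tu (zp f.toEquiv s z) d := by
    intro d
    induction d using Nat.strong_induction_on with
    | _ d ih =>
      intro s hs h2 h3
      rcases Nat.eq_zero_or_pos d with rfl | hd
      · exact Chain.nil _
      have hs' := code_eta hs
      obtain ⟨g', hg'⟩ : ∃ g', g' = (x' s).1 := ⟨_, rfl⟩
      rw [← hg'] at hs'
      have hl' : 0 < l g' := code_pos hx' hs'
      have hT' := (hp g' hl').1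
      have hm : zp f.toEquiv s z ∈ T g' := hz' _ _ hs'
      rcases le_or_gt (l g') d with hle | hlt
      · have := ih (d - l g') (by omega) (s + l g') (LS_next hx' hs') (by omega)
          (by push_cast [hle]; omega)
        rw [← code_iter f (rfl : s + (l g' : ℕ) = s + l g')] at this
        have h4 := Chain.cons hT' hm this
        rwa [show l g' + (d - l g') = d by omega] at h4
      · obtain ⟨c, hc⟩ : ∃ c : ℕ, t1 + c = s := ⟨(s - t1).toNat, by omega⟩
        obtain ⟨T'', hT'', hm''⟩ := h.reparse (l g') (T g') (l g) (T g) (zp f.toEquiv t1 z) c d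
          hT' hg.1 hw (by rw [code_iter f hc]; exact hm) (by omega) hd hlt.le
          (Or.inr (by rw [code_iter f hc]; exact h.code_inner hp hx' hz' hs))
          (Or.inr (by rw [code_iter f rfl]; exact hI2))
        rw [code_iter f hc] at hm''
        exact Chain.cons hT'' hm'' (Chain.nil _)
  obtain ⟨g', c, hc⟩ : ∃ γ j, x' t1 = (γ, j) := ⟨_, _, rfl⟩
  have hcl : c < l g' := code_pos hx' hc
  have h2 := LS_back hx' hc
  obtain ⟨m, hm⟩ : ∃ m : ℕ, c + m = l g' := ⟨l g' - c, by omega⟩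
  have h3 : (x' (t1 + m)).2 = 0 := by
    have := LS_next hx' h2
    rwa [show t1 - (c : ℤ) + (l g' : ℕ) = t1 + m by omega] at this
  have hmj : m ≤ j := by
    by_contra hlt
    have := LS_run hx' hc (i := j) (by omega)
    rw [show t1 + (j : ℤ) = t by omega] at this
    rw [this] at ht
    simp at ht
    omega
  have e1 : t1 - (c : ℤ) + (c : ℕ) = t1 := by ring
  have e2 : t1 - (c : ℤ) + (l g' : ℕ) = t1 + m := by omega
  obtain ⟨T'', hT'', hm''⟩ := h.reparse (l g) (T g) (l g') (T g') (zp f.toEquiv (t1 - c) z) c m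
    hg.1 (hp g' (by omega)).1 (hz' _ _ h2) (by rw [code_iter f e1]; exact hw) hm (by omega)
    (by omega) (Or.inr (by rw [code_iter f e1]; exact hI1))
    (Or.inr (by rw [code_iter f e2]; exact h.code_inner hp hx' hz' h3))
  rw [code_iter f e1] at hm''
  refine hg.2 _ hw ⟨m, T'', by omega, hT'', hm'', ?_⟩
  rw [code_iter f (rfl : t1 + (m : ℕ) = t1 + m)]
  exact claimA _ _ h3 (by omega) (by omega)

lemma Tubes.code_names (h : Tubes f Q I k ρ C K Tu)
    (he : ∀ n T', Prime f Tu n T' → ∃ γ, l γ = n ∧ T γ = T') {y : M} {n : ℕ}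
    (hc : Chain f (Prime f Tu) y n) : ∃ v, Pos l v ∧ len l v = n ∧
      ∀ u γ w, v = u ++ γ :: w → f^[len l u] y ∈ T γ := by
  induction hc with
  | nil z => exact ⟨[], pos_nil, len_nil, fun u γ w e => by simp at e⟩
  | @cons z n m T' hT hz _ ih =>
    obtain ⟨v, hv, hl, hn⟩ := ih
    obtain ⟨γ₀, h1, h2⟩ := he n T' hT
    have h0 : 0 < n := h.pos _ _ hT.1
    refine ⟨γ₀ :: v, pos_cons.2 ⟨by omega, hv⟩, by rw [len_cons, h1, hl], fun u γ w e => ?_⟩
    cases u with
    | nil =>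
      simp only [List.nil_append, List.cons.injEq] at e
      rw [← e.1, h2]; exact hz
    | cons a u =>
      simp only [List.cons_append, List.cons.injEq] at e
      rw [len_cons, ← e.1, h1, add_comm, Function.iterate_add_apply]
      exact hn u γ w e.2

lemma Tubes.exists_name (h : Tubes f Q I k ρ C K Tu)
    (hp : ∀ γ, 0 < l γ → Prime f Tu (l γ) (T γ))
    (he : ∀ n T', Prime f Tu n T' → ∃ γ, l γ = n ∧ T γ = T') {G : Set M}
    (hG : ∀ z ∈ G, ∀ n, 0 < n → f^[n] z ∈ G → ∃ T', Tu n T' ∧ z ∈ T') {z : M}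
    (hz : Recur f.toEquiv G z) : ∃ x ∈ LS l, Follows f T x z := by
  have key : ∀ t : ℤ, ∃ v : List ℕ, zp f.toEquiv t z ∈ G →
      (Pos l v ∧ v ≠ [] ∧ zp f.toEquiv (t + len l v) z ∈ G ∧
        ∀ s, t < s → s < t + len l v → ¬ zp f.toEquiv s z ∈ G) ∧
      ∀ u γ w, v = u ++ γ :: w → f^[len l u] (zp f.toEquiv t z) ∈ T γ := by
    intro t
    by_cases ht : zp f.toEquiv t z ∈ G
    swap
    · exact ⟨[], fun h => absurd h ht⟩
    obtain ⟨t0, t', h1, h2, _, h4, h5⟩ := exists_block (P := fun t => zp f.toEquiv t z ∈ G) hz t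
    obtain ⟨n, hn⟩ : ∃ n : ℕ, t + n = t' := ⟨(t' - t).toNat, by omega⟩
    obtain ⟨T', hT', hm⟩ := hG _ ht n (by omega) (by rw [code_iter f hn]; exact h4)
    obtain ⟨v, hv, hl, hnm⟩ := h.code_names he
      (h.chain_prime (Chain.cons hT' hm (Chain.nil _)))
    refine ⟨v, fun _ => ⟨⟨hv, ?_, ?_, fun s hs hs' => h5 s (by omega) (by omega)⟩, hnm⟩⟩
    · rintro rfl
      simp at hl
      omega
    · rw [hl, add_zero, hn]; exact h4
  choose V hV using key
  obtain ⟨x, hx, ho⟩ := exists_of_cuts (l := l) (P := fun t => zp f.toEquiv t z ∈ G) hz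
    (V := V) fun t ht => (hV t ht).1
  refine ⟨x, hx, fun s γ hs => ?_⟩
  obtain ⟨t, t', h1, h2, h3, _, h5⟩ := exists_block (P := fun t => zp f.toEquiv t z ∈ G) hz s
  obtain ⟨⟨hv, hv0, hv1, _⟩, hnm⟩ := hV t h3
  have hl := hv.len_pos hv0
  have hlt : s < t + len l (V t) := by
    by_contra hge
    exact h5 _ (by omega) (by omega) hv1
  obtain ⟨u, γ', w, e, e1, e2⟩ := (ho t h3).split hx (by rw [hs]) h1 hlt
  have e3 : γ' = γ := by
    rw [hs] at e2
    exact (Prod.mk.inj e2).1.symm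
  have := hnm u γ' w e
  rwa [code_iter f e1.symm, e3] at this

theorem Tubes.coding [Nonempty M] [MeasurableSpace M] [BorelSpace M] (h : Tubes f Q I k ρ C K Tu) :
    ∃ l π, Coding f.toEquiv l π ∧ ∀ G : Set M,
      (∀ z ∈ G, ∀ n, 0 < n → f^[n] z ∈ G → ∃ T', Tu n T' ∧ z ∈ T') →
      ∀ z, Recur f.toEquiv G z → z ∈ π '' LS l := by
  classical
  obtain ⟨l, T, hp, hi, he⟩ := h.enum
  obtain ⟨π, hm, hc, hs, hf⟩ := shadow (l := l) (T := T) h.hρ h.bd h.lo
    fun γ hγ => h.hyp _ _ (hp γ hγ).1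
  refine ⟨l, π, ⟨⟨hm, measurableSet_LS, fun _ => LS_sh, ?_, hs⟩, hc, 2 * K, ?_, ?_⟩, ?_⟩
  · intro x hx x' hx' e
    have hz : Follows f T x (π x) := (hf x hx _).2 rfl
    have hz' : Follows f T x' (π x) := (hf x' hx' _).2 e
    have hst : ∀ t, (x t).2 = 0 ↔ (x' t).2 = 0 := fun t =>
      ⟨h.start hp hx' hx hz' hz, h.start hp hx hx' hz hz'⟩
    refine LS_ext hx hx' fun t γ ht => ?_
    have ht' := code_eta ((hst t).1 (by rw [ht]))
    have hl := LS_len_eq hx hx' hst ht ht'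
    have h0 := code_pos hx ht
    have h1 := (hp _ (code_pos hx' ht')).1
    rw [← hl] at h1
    have := hi _ _ h0 hl (h.uniq _ _ _ _ (hp γ h0).1 h1 (hz _ _ ht) (hz' _ _ ht'))
    rw [ht', ← this]
  · linarith [h.hK]
  · refine rate_of_count h.hK fun n F hF hn => ?_
    have := h.count n (F.image T) fun T' hT' => by
      obtain ⟨γ, hγ, rfl⟩ := Finset.mem_image.1 hT'
      have := (hp γ (by rw [hF γ hγ]; exact hn)).1
      rwa [hF γ hγ] at this
    rwa [Finset.card_image_of_injOn fun γ hγ γ' hγ' e =>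
      hi γ γ' (by rw [hF γ hγ]; exact hn) (by rw [hF γ hγ, hF γ' hγ']) e] at this
  · intro G hG z hz
    obtain ⟨x, hx, hxz⟩ := h.exists_name hp he hG hz
    exact ⟨x, hx, ((hf x hx z).1 hxz).symm⟩

end Pool.Agent.P.MP_1672e2_an
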