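import Pool.Agent.P.MP_1672e2_an.Defs

/-! Integer powers, shifts. -/

set_option autoImplicit false

namespace Pool.Agent.P.MP_1672e2_an

open MeasureTheory Set

section

variable {X Y : Type*}

@[simp] lemma zp_zero (e : X ≃ X) (x : X) : zp e 0 x = x := by simp [zp]

@[simp] lemma zp_one (e : X ≃ X) (x : X) : zp e 1 x = e x := by simp [zp]

lemma zp_add (e : X ≃ X) (s t : ℤ) (x : X) : zp e (s + t) x = zp e s (zp e t x) := by
  simp [zp, zpow_add]

lemma zp_natCast (e : X ≃ X) (n : ℕ) (x : X) : zp e n x = e^[n] x := by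
  simp [zp, Equiv.Perm.coe_pow]

lemma zp_neg_natCast (e : X ≃ X) (n : ℕ) (x : X) : zp e (-n) x = e.symm^[n] x := by
  have : ((e : Equiv.Perm X) ^ (-n : ℤ)) = ((e.symm : Equiv.Perm X) ^ n : Equiv.Perm X) := by
    rw [zpow_neg, zpow_natCast, ← inv_pow]; rfl
  rw [zp, this, Equiv.Perm.coe_pow]

lemma zp_succ (e : X ≃ X) (t : ℤ) (x : X) : zp e (t + 1) x = zp e t (e x) := by
  rw [zp_add, zp_one]

lemma zp_succ' (e : X ≃ X) (t : ℤ) (x : X) : zp e (t + 1) x = e (zp e t x) := by
  rw [add_comm, zp_add, zp_one]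

lemma zp_add_nat (e : X ≃ X) (t : ℤ) (n : ℕ) (x : X) : zp e (t + n) x = e^[n] (zp e t x) := by
  rw [add_comm, zp_add, zp_natCast]

lemma zp_neg_zp (e : X ≃ X) (t : ℤ) (x : X) : zp e (-t) (zp e t x) = x := by
  rw [← zp_add]; simp

lemma zp_zp_neg (e : X ≃ X) (t : ℤ) (x : X) : zp e t (zp e (-t) x) = x := by
  rw [← zp_add]; simp

lemma zp_injective (e : X ≃ X) (t : ℤ) : Function.Injective (zp e t) :=
  ((e : Equiv.Perm X) ^ t : Equiv.Perm X).injective

lemma zp_cases (t : ℤ) (e : X ≃ X) : (∃ n : ℕ, zp e t = e^[n]) ∨ ∃ n : ℕ, zp e t = e.symm^[n] := by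
  obtain ⟨n, rfl | rfl⟩ := t.eq_nat_or_neg
  · exact Or.inl ⟨n, funext (zp_natCast e n)⟩
  · exact Or.inr ⟨n, funext (zp_neg_natCast e n)⟩

lemma inv_zp {e : X ≃ X} {D : Set X} (h : ∀ x, e x ∈ D ↔ x ∈ D) (t : ℤ) (x : X) :
    zp e t x ∈ D ↔ x ∈ D := by
  induction t using Int.induction_on generalizing x with
  | zero => simp
  | succ n ih => rw [zp_succ, ih, h]
  | pred n ih =>
    rw [← h, ← zp_succ', show -(n : ℤ) - 1 + 1 = -n by ring, ih]

lemma comm_zp {S : X ≃ X} {T : Y ≃ Y} {D : Set X} {α : X → Y} (h : ∀ x, S x ∈ D ↔ x ∈ D)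
    (hc : ∀ x ∈ D, α (S x) = T (α x)) (t : ℤ) {x : X} (hx : x ∈ D) :
    α (zp S t x) = zp T t (α x) := by
  induction t using Int.induction_on with
  | zero => simp
  | succ n ih => rw [zp_succ', zp_succ', hc _ ((inv_zp h _ _).2 hx), ih]
  | pred n ih =>
    apply T.injective
    rw [← hc _ ((inv_zp h _ _).2 hx), ← zp_succ', ← zp_succ',
      show -(n : ℤ) - 1 + 1 = -n by ring, ih]

lemma Recur_apply {e : X ≃ X} {B : Set X} {x : X} : Recur e B (e x) ↔ Recur e B x := by
  constructor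
  · intro h m
    obtain ⟨t, h1, h2⟩ := (h m).1
    obtain ⟨s, h3, h4⟩ := (h (m - 1)).2
    exact ⟨⟨t + 1, by omega, by rwa [zp_succ]⟩, s + 1, by omega, by rwa [zp_succ]⟩
  · intro h m
    obtain ⟨t, h1, h2⟩ := (h (m + 1)).1
    obtain ⟨s, h3, h4⟩ := (h m).2
    exact ⟨⟨t - 1, by omega, by rwa [← zp_succ, sub_add_cancel]⟩, s - 1, by omega,
      by rwa [← zp_succ, sub_add_cancel]⟩

@[simp] lemma sh_apply {A : Type*} (x : ℤ → A) (n : ℤ) : sh x n = x (n + 1) := rfl

@[simp] lemma sh_symm_apply {A : Type*} (x : ℤ → A) (n : ℤ) : sh.symm x n = x (n - 1) := rfl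

@[simp] lemma zp_sh {A : Type*} (t : ℤ) (x : ℤ → A) (n : ℤ) : zp sh t x n = x (n + t) := by
  induction t using Int.induction_on generalizing n with
  | zero => simp
  | succ k ih => rw [zp_succ', sh_apply, ih]; congr 1; ring
  | pred k ih =>
    have := ih (n - 1)
    rw [show -(k : ℤ) = -k - 1 + 1 by ring, zp_succ', sh_apply, sub_add_cancel] at this
    rw [this]; congr 1; ring

lemma continuous_zp [TopologicalSpace X] (f : X ≃ₜ X) (t : ℤ) : Continuous (zp f.toEquiv t) := by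
  rcases zp_cases t f.toEquiv with ⟨n, h⟩ | ⟨n, h⟩ <;> rw [h]
  · exact f.continuous.iterate n
  · exact f.symm.continuous.iterate n

variable [MeasurableSpace X] [MeasurableSpace Y]

lemma measurable_zp {e : X ≃ X} (h : Measurable e) (h' : Measurable e.symm) (t : ℤ) :
    Measurable (zp e t) := by
  rcases zp_cases t e with ⟨n, h1⟩ | ⟨n, h1⟩ <;> rw [h1]
  · exact h.iterate n
  · exact h'.iterate n

lemma measurable_sh : Measurable (sh : (ℤ → X) → ℤ → X) :=
  measurable_pi_lambda _ fun _ => measurable_pi_apply _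

lemma measurable_sh_symm : Measurable (sh.symm : (ℤ → X) → ℤ → X) :=
  measurable_pi_lambda _ fun _ => measurable_pi_apply _

lemma measurable_zp_sh (t : ℤ) : Measurable (zp sh t : (ℤ → X) → ℤ → X) :=
  measurable_zp measurable_sh measurable_sh_symm t

lemma measurableSet_Recur {e : X ≃ X} (h : Measurable e) (h' : Measurable e.symm) {B : Set X}
    (hB : MeasurableSet B) : MeasurableSet {x | Recur e B x} := by
  have := fun t => measurable_zp h h' t hB
  simp only [Recur, ofPred_forall, ofPred_and, ofPred_exists]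
  exact MeasurableSet.iInter fun m => (MeasurableSet.iUnion fun t =>
    (MeasurableSet.const _).inter (this t)).inter (MeasurableSet.iUnion fun t =>
    (MeasurableSet.const _).inter (this t))

lemma ergodic_symm {e : X ≃ X} (h' : Measurable e.symm) {μ : Measure X} (he : Ergodic e μ) :
    Ergodic e.symm μ :=
  Ergodic.symm (e := ⟨e, he.measurable, h'⟩) he

lemma measurePreserving_symm {e : X ≃ X} (h' : Measurable e.symm) {μ : Measure X}
    (he : MeasurePreserving e μ μ) : MeasurePreserving e.symm μ μ :=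
  MeasurePreserving.symm ⟨e, he.measurable, h'⟩ he

lemma measurePreserving_zp {e : X ≃ X} (h' : Measurable e.symm) {μ : Measure X}
    (he : MeasurePreserving e μ μ) (t : ℤ) : MeasurePreserving (zp e t) μ μ := by
  rcases zp_cases t e with ⟨n, h1⟩ | ⟨n, h1⟩ <;> rw [h1]
  · exact he.iterate n
  · exact (measurePreserving_symm h' he).iterate n

lemma Emb.zp {S : X ≃ X} {T : Y ≃ Y} {D : Set X} {α : X → Y} (h : Emb S T D α) (t : ℤ) {x : X}
    (hx : x ∈ D) : α (zp S t x) = zp T t (α x) := comm_zp h.inv h.comm t hx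

end

end Pool.Agent.P.MP_1672e2_an

/-! Loop shifts: occurrences of lists of loops. -/

set_option autoImplicit false

namespace Pool.Agent.P.MP_1672e2_an

open MeasureTheory Set

variable {l : ℕ → ℕ} {x x' : Om} {s t : ℤ} {u v : List ℕ} {γ j : ℕ}

@[simp] lemma len_nil : len l [] = 0 := rfl

@[simp] lemma len_cons : len l (γ :: v) = l γ + len l v := by simp [len]

@[simp] lemma len_append : len l (u ++ v) = len l u + len l v := by simp [len]

@[simp] lemma pos_nil : Pos l [] := by simp [Pos]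

@[simp] lemma pos_cons : Pos l (γ :: v) ↔ 0 < l γ ∧ Pos l v := by simp [Pos]

@[simp] lemma pos_append : Pos l (u ++ v) ↔ Pos l u ∧ Pos l v := by
  simp only [Pos, List.mem_append, or_imp, forall_and]

lemma Pos.length_le (h : Pos l v) : v.length ≤ len l v := by
  induction v with
  | nil => simp
  | cons γ v ih =>
    obtain ⟨h1, h2⟩ := pos_cons.1 h
    have := ih h2
    rw [len_cons, List.length_cons]
    omega

lemma Pos.len_pos (h : Pos l v) (h0 : v ≠ []) : 0 < len l v := by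
  have h1 := h.length_le
  have h2 := List.length_pos_iff.2 h0
  omega

lemma dvd_len {d : ℕ} (h : ∀ γ ∈ v, d ∣ l γ) : d ∣ len l v := by
  induction v with
  | nil => simp
  | cons γ v ih =>
    rw [len_cons]
    exact dvd_add (h γ List.mem_cons_self) (ih fun g hg => h g (List.mem_cons_of_mem _ hg))

lemma LS_lt (hx : x ∈ LS l) (t : ℤ) : (x t).2 < l (x t).1 := by
  rcases hx t with ⟨h, -⟩ | ⟨h, -⟩ <;> omega

lemma LS_sh : sh x ∈ LS l ↔ x ∈ LS l := by
  refine ⟨fun h t => ?_, fun h t => h (t + 1)⟩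
  have := h (t - 1)
  simp only [sh_apply, sub_add_cancel] at this
  exact this

lemma LS_zp (t : ℤ) : zp sh t x ∈ LS l ↔ x ∈ LS l := inv_zp (fun _ => LS_sh) t x

lemma LSF_sh {F : Finset ℕ} : sh x ∈ LSF l F ↔ x ∈ LSF l F := by
  refine and_congr LS_sh ⟨fun h t => ?_, fun h t => h (t + 1)⟩
  have := h (t - 1)
  simp only [sh_apply, sub_add_cancel] at this
  exact this

lemma LSF_zp {F : Finset ℕ} (t : ℤ) : zp sh t x ∈ LSF l F ↔ x ∈ LSF l F :=
  inv_zp (fun _ => LSF_sh) t x

lemma isClosed_LS : IsClosed (LS l) := by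
  have h : LS l = ⋂ t : ℤ, (fun x : Om => (x t, x (t + 1))) ⁻¹' {p | Edge l p.1 p.2} := by
    ext x
    simp only [LS, mem_iInter, mem_preimage]
    rfl
  rw [h]
  exact isClosed_iInter fun t => (isClosed_discrete _).preimage
    ((continuous_apply t).prodMk (continuous_apply (t + 1)))

lemma measurableSet_LS : MeasurableSet (LS l) := isClosed_LS.measurableSet

lemma isCompact_LSF (F : Finset ℕ) : IsCompact (LSF l F) := by
  have h1 : IsCompact (Set.pi univ fun _ : ℤ =>
      ((F ×ˢ Finset.range (F.sup l) : Finset (ℕ × ℕ)) : Set (ℕ × ℕ))) :=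
    isCompact_univ_pi fun _ => (Finset.finite_toSet _).isCompact
  have h2 : LSF l F = LS l ∩ ⋂ t : ℤ, (fun x : Om => x t) ⁻¹' {p | p.1 ∈ F} := by
    ext x
    simp only [LSF, mem_inter_iff, mem_iInter, mem_preimage]
    rfl
  refine h1.of_isClosed_subset ?_ ?_
  · rw [h2]
    exact isClosed_LS.inter
      (isClosed_iInter fun t => (isClosed_discrete _).preimage (continuous_apply t))
  · intro x hx t _
    exact Finset.mem_coe.2 (Finset.mem_product.2 ⟨hx.2 t,
      Finset.mem_range.2 ((LS_lt hx.1 t).trans_le (Finset.le_sup (f := l) (hx.2 t)))⟩)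

lemma measurableSet_start (t : ℤ) : MeasurableSet {x : Om | (x t).2 = 0} := by
  exact (measurable_pi_apply t : Measurable fun x : Om => x t)
    (MeasurableSet.of_discrete : MeasurableSet {p : ℕ × ℕ | p.2 = 0})

lemma measurableSet_occ (t : ℤ) (v : List ℕ) : MeasurableSet {x | Occ l x t v} := by
  induction v generalizing t with
  | nil => exact measurableSet_start t
  | cons γ v ih =>
    exact ((measurable_pi_apply t : Measurable fun x : Om => x t)
      (MeasurableSet.of_discrete : MeasurableSet {p : ℕ × ℕ | p = (γ, 0)})).inter (ih (t + l γ))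

lemma occ_zp : Occ l (zp sh s x) t v ↔ Occ l x (t + s) v := by
  induction v generalizing t with
  | nil => simp only [Occ, zp_sh]
  | cons γ v ih => simp only [Occ, zp_sh, ih, add_right_comm t (l γ : ℤ) s]

lemma Occ.start (h : Occ l x t v) : (x t).2 = 0 := by
  cases v with
  | nil => exact h
  | cons γ v => rw [h.1]

lemma Occ.stop (h : Occ l x t v) : (x (t + len l v)).2 = 0 := by
  induction v generalizing t with
  | nil => simpa using h.start
  | cons γ v ih =>
    have := ih h.2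
    rwa [len_cons, Nat.cast_add, ← add_assoc]

lemma occ_append : Occ l x t (u ++ v) ↔ Occ l x t u ∧ Occ l x (t + len l u) v := by
  induction u generalizing t with
  | nil =>
    simp only [List.nil_append, len_nil, Nat.cast_zero, add_zero]
    exact ⟨fun h => ⟨h.start, h⟩, fun h => h.2⟩
  | cons γ u ih =>
    simp only [List.cons_append, Occ, ih, len_cons, Nat.cast_add, add_assoc, and_assoc]

lemma LS_run (hx : x ∈ LS l) (h : x t = (γ, j)) {i : ℕ} (hi : j + i < l γ) :
    x (t + i) = (γ, j + i) := by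
  induction i with
  | zero => simpa using h
  | succ i ih =>
    have h1 := ih (by omega)
    have h2 := hx (t + i)
    rw [h1] at h2
    rcases h2 with ⟨-, h3⟩ | ⟨h3, -⟩
    · rw [Nat.cast_succ, ← add_assoc, h3]
      rfl
    · simp only at h3
      omega

lemma LS_back (hx : x ∈ LS l) (h : x t = (γ, j)) : x (t - j) = (γ, 0) := by
  induction j generalizing t with
  | zero => simpa using h
  | succ j ih =>
    have h2 := hx (t - 1)
    rw [sub_add_cancel, h] at h2
    rcases h2 with ⟨-, h3⟩ | ⟨-, h3⟩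
    · obtain ⟨h4, h5⟩ := Prod.ext_iff.1 h3
      simp only at h4 h5
      have h6 : x (t - 1) = (γ, j) := Prod.ext h4.symm (by simp only; omega)
      have h7 := ih h6
      rwa [Nat.cast_succ, show t - ((j : ℤ) + 1) = t - 1 - j by ring]
    · simp at h3

lemma LS_next (hx : x ∈ LS l) (h : x t = (γ, 0)) : (x (t + l γ)).2 = 0 := by
  have h1 := LS_lt hx t
  rw [h] at h1
  simp only at h1
  obtain ⟨k, hk⟩ : ∃ k, l γ = k + 1 := ⟨l γ - 1, by omega⟩
  have h2 := LS_run hx h (i := k) (by omega)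
  have h3 := hx (t + k)
  rw [h2] at h3
  rcases h3 with ⟨h3, -⟩ | ⟨-, h3⟩
  · simp only at h3
    omega
  · rwa [hk, Nat.cast_succ, ← add_assoc]

lemma occ_single (hx : x ∈ LS l) : Occ l x t [γ] ↔ x t = (γ, 0) := by
  exact ⟨fun h => h.1, fun h => ⟨h, LS_next hx h⟩⟩

lemma LS_starts (hx : x ∈ LS l) (m : ℤ) :
    (∃ t, m ≤ t ∧ (x t).2 = 0) ∧ ∃ t, t ≤ m ∧ (x t).2 = 0 := by
  have h1 := LS_lt hx m
  have h2 : x (m - (x m).2) = ((x m).1, 0) := LS_back hx rfl
  exact ⟨⟨_, by omega, LS_next hx h2⟩, m - (x m).2, by omega, by rw [h2]⟩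

lemma LS_len_eq (hx : x ∈ LS l) (hx' : x' ∈ LS l) (h : ∀ t, (x t).2 = 0 ↔ (x' t).2 = 0) {γ' : ℕ}
    (h1 : x t = (γ, 0)) (h2 : x' t = (γ', 0)) : l γ = l γ' := by
  have p1 := LS_lt hx t
  have p2 := LS_lt hx' t
  rw [h1] at p1
  rw [h2] at p2
  simp only at p1 p2
  by_contra hne
  rcases lt_or_gt_of_ne hne with h3 | h3
  · have h4 := (h _).1 (LS_next hx h1)
    rw [LS_run hx' h2 (i := l γ) (by omega)] at h4
    simp only at h4
    omega
  · have h4 := (h _).2 (LS_next hx' h2)
    rw [LS_run hx h1 (i := l γ') (by omega)] at h4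
    simp only at h4
    omega

lemma LS_ext (hx : x ∈ LS l) (hx' : x' ∈ LS l) (h : ∀ t γ, x t = (γ, 0) → x' t = (γ, 0)) :
    x = x' := by
  funext t
  have h1 := LS_lt hx t
  have h2 : x (t - (x t).2) = ((x t).1, 0) := LS_back hx rfl
  have h3 := LS_run hx' (h _ _ h2) (i := (x t).2) (by omega)
  rw [sub_add_cancel, zero_add] at h3
  exact h3.symm

lemma Occ.pos (hx : x ∈ LS l) (h : Occ l x t v) : Pos l v := by
  induction v generalizing t with
  | nil => exact pos_nil
  | cons γ v ih =>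
    have h1 := LS_lt hx t
    rw [h.1] at h1
    exact pos_cons.2 ⟨h1, ih h.2⟩

lemma Occ.mem (h : Occ l x t v) (hγ : γ ∈ v) : ∃ s, x s = (γ, 0) := by
  induction v generalizing t with
  | nil => simp at hγ
  | cons g v ih =>
    rcases List.mem_cons.1 hγ with rfl | h1
    · exact ⟨t, h.1⟩
    · exact ih h.2 h1

lemma occ_vtx_lt (h : j < l γ) : vtx l (γ :: v) j = (γ, j) := if_pos h

lemma occ_vtx_add {k : ℕ} : vtx l (γ :: v) (l γ + k) = vtx l v k := by
  rw [vtx, if_neg (by omega), Nat.add_sub_cancel_left]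

lemma occ_vtx_zero (hv : Pos l v) : (vtx l v 0).2 = 0 := by
  cases v with
  | nil => rfl
  | cons γ v => rw [occ_vtx_lt (pos_cons.1 hv).1]

lemma Occ.vtx (hx : x ∈ LS l) (h : Occ l x t v) (hj : j < len l v) : x (t + j) = vtx l v j := by
  induction v generalizing t j with
  | nil => simp at hj
  | cons γ v ih =>
    rw [len_cons] at hj
    by_cases h1 : j < l γ
    · rw [occ_vtx_lt h1, LS_run hx h.1 (by omega), zero_add]
    · obtain ⟨k, rfl⟩ : ∃ k, j = l γ + k := ⟨j - l γ, by omega⟩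
      rw [occ_vtx_add, Nat.cast_add, ← add_assoc]
      exact ih h.2 (by omega)

lemma occ_of_vtx (hv : Pos l v) (h : ∀ j < len l v, x (t + j) = vtx l v j)
    (h' : (x (t + len l v)).2 = 0) : Occ l x t v := by
  induction v generalizing t with
  | nil => simpa [Occ] using h'
  | cons γ v ih =>
    obtain ⟨h1, h2⟩ := pos_cons.1 hv
    rw [len_cons] at h h'
    refine ⟨?_, ih h2 (fun j hj => ?_) ?_⟩
    · have := h 0 (by omega)
      rwa [occ_vtx_lt h1, Nat.cast_zero, add_zero] at this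
    · have := h (l γ + j) (by omega)
      rwa [occ_vtx_add, Nat.cast_add, ← add_assoc] at this
    · rwa [Nat.cast_add, ← add_assoc] at h'

lemma vtx_edge (hv : Pos l v) (hj : j + 1 < len l v) : Edge l (vtx l v j) (vtx l v (j + 1)) := by
  induction v generalizing j with
  | nil => simp at hj
  | cons γ v ih =>
    obtain ⟨h1, h2⟩ := pos_cons.1 hv
    rw [len_cons] at hj
    rcases lt_trichotomy (j + 1) (l γ) with h | h | h
    · rw [occ_vtx_lt h, occ_vtx_lt (by omega : j < l γ)]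
      exact Or.inl ⟨h, rfl⟩
    · rw [occ_vtx_lt (by omega : j < l γ), show j + 1 = l γ + 0 from h, occ_vtx_add]
      exact Or.inr ⟨h, occ_vtx_zero h2⟩
    · obtain ⟨k, rfl⟩ : ∃ k, j = l γ + k := ⟨j - l γ, by omega⟩
      rw [add_assoc, occ_vtx_add, occ_vtx_add]
      exact ih h2 (by omega)

lemma vtx_last (hv : Pos l v) (hj : j + 1 = len l v) : (vtx l v j).2 + 1 = l (vtx l v j).1 := by
  induction v generalizing j with
  | nil => simp at hj
  | cons γ v ih =>
    obtain ⟨h1, h2⟩ := pos_cons.1 hv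
    rw [len_cons] at hj
    by_cases h : j < l γ
    · rw [occ_vtx_lt h]
      simp only
      omega
    · obtain ⟨k, rfl⟩ : ∃ k, j = l γ + k := ⟨j - l γ, by omega⟩
      rw [occ_vtx_add]
      exact ih h2 (by omega)

lemma vtx_zero (hv : Pos l v) : (vtx l v 0).2 = 0 := by
  exact occ_vtx_zero hv

lemma vtx_mem (hj : j < len l v) : (vtx l v j).1 ∈ v := by
  induction v generalizing j with
  | nil => simp at hj
  | cons γ v ih =>
    rw [len_cons] at hj
    by_cases h : j < l γ
    · rw [occ_vtx_lt h]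
      exact List.mem_cons_self
    · obtain ⟨k, rfl⟩ : ∃ k, j = l γ + k := ⟨j - l γ, by omega⟩
      rw [occ_vtx_add]
      exact List.mem_cons_of_mem _ (ih (by omega))

lemma Occ.pre_or (h : Occ l x t u) (h' : Occ l x t v) : u <+: v ∨ v <+: u := by
  induction u generalizing v t with
  | nil => exact Or.inl List.nil_prefix
  | cons γ u ih =>
    cases v with
    | nil => exact Or.inr List.nil_prefix
    | cons g v =>
      obtain rfl : γ = g := (Prod.ext_iff.1 (h.1.symm.trans h'.1)).1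
      rcases ih h.2 h'.2 with ⟨w, rfl⟩ | ⟨w, rfl⟩
      · exact Or.inl ⟨w, rfl⟩
      · exact Or.inr ⟨w, rfl⟩

lemma Occ.unique (hx : x ∈ LS l) (h : Occ l x t u) (h' : Occ l x t v) (e : len l u = len l v) :
    u = v := by
  rcases h.pre_or h' with ⟨w, rfl⟩ | ⟨w, rfl⟩
  · have h1 := (pos_append.1 (h'.pos hx)).2.length_le
    rw [len_append] at e
    rw [List.length_eq_zero_iff.1 (by omega : w.length = 0), List.append_nil]
  · have h1 := (pos_append.1 (h.pos hx)).2.length_le
    rw [len_append] at e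
    rw [List.length_eq_zero_iff.1 (by omega : w.length = 0), List.append_nil]

lemma Occ.suf_or (hx : x ∈ LS l) (h : Occ l x s u) (h' : Occ l x t v)
    (e : s + len l u = t + len l v) : u <:+ v ∨ v <:+ u := by
  induction u using List.reverseRecOn generalizing v with
  | nil => exact Or.inl List.nil_suffix
  | append_singleton u γ ih =>
    induction v using List.reverseRecOn with
    | nil => exact Or.inr List.nil_suffix
    | append_singleton v g _ =>
      obtain ⟨h1, h2⟩ := occ_append.1 h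
      obtain ⟨h3, h4⟩ := occ_append.1 h'
      have p1 := (pos_cons.1 (h2.pos hx)).1
      have p2 := (pos_cons.1 (h4.pos hx)).1
      simp only [len_append, len_cons, len_nil] at e
      have r1 := LS_run hx h2.1 (i := l γ - 1) (by omega)
      have r2 := LS_run hx h4.1 (i := l g - 1) (by omega)
      have e1 : s + (len l u : ℤ) + ((l γ - 1 : ℕ) : ℤ) = t + len l v + ((l g - 1 : ℕ) : ℤ) := by
        omega
      rw [e1] at r1
      obtain rfl : γ = g := (Prod.ext_iff.1 (r1.symm.trans r2)).1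
      rcases ih h1 h3 (by omega) with ⟨w, rfl⟩ | ⟨w, rfl⟩
      · exact Or.inl ⟨w, (List.append_assoc _ _ _).symm⟩
      · exact Or.inr ⟨w, (List.append_assoc _ _ _).symm⟩

lemma exists_occ (hx : x ∈ LS l) (hs : (x s).2 = 0) (ht : (x t).2 = 0) (h : s ≤ t) :
    ∃ v, Occ l x s v ∧ s + len l v = t := by
  obtain ⟨n, hn⟩ : ∃ n : ℕ, s + n = t := ⟨(t - s).toNat, by omega⟩
  clear h
  induction n using Nat.strong_induction_on generalizing s with
  | _ n ih =>
    rcases Nat.eq_zero_or_pos n with rfl | hpos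
    · exact ⟨[], hs, by simpa using hn⟩
    · have h1 : x s = ((x s).1, 0) := Prod.ext rfl hs
      have h2 := LS_lt hx s
      have h3 : l (x s).1 ≤ n := by
        by_contra h4
        have h5 := LS_run hx h1 (i := n) (by omega)
        rw [hn] at h5
        rw [h5] at ht
        simp only at ht
        omega
      obtain ⟨v, hv, e⟩ := ih (n - l (x s).1) (by omega) (LS_next hx h1) (by omega)
      refine ⟨(x s).1 :: v, ⟨h1, hv⟩, ?_⟩
      rw [len_cons]
      omega

lemma Occ.split (hx : x ∈ LS l) (h : Occ l x t v) (hs : (x s).2 = 0) (h1 : t ≤ s)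
    (h2 : s < t + len l v) : ∃ u γ w, v = u ++ γ :: w ∧ s = t + len l u ∧ x s = (γ, 0) := by
  induction v generalizing t with
  | nil =>
    simp only [len_nil] at h2
    omega
  | cons γ v ih =>
    rw [len_cons] at h2
    rcases h1.eq_or_lt with rfl | h3
    · exact ⟨[], γ, v, rfl, by simp, h.1⟩
    · have h4 : t + l γ ≤ s := by
        by_contra h5
        obtain ⟨i, rfl⟩ : ∃ i : ℕ, s = t + i := ⟨(s - t).toNat, by omega⟩
        rw [LS_run hx h.1 (by omega)] at hs
        simp only at hs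
        omega
      obtain ⟨u, g, w, rfl, e, h5⟩ := ih h.2 h4 (by omega)
      refine ⟨γ :: u, g, w, rfl, ?_, h5⟩
      rw [len_cons]
      omega

lemma exists_cover (hx : x ∈ LS l) (a b : ℤ) :
    ∃ t v, t ≤ a ∧ b < t + len l v ∧ Occ l x t v := by
  obtain ⟨t, h1, h2⟩ := (LS_starts hx (min a b)).2
  obtain ⟨t', h3, h4⟩ := (LS_starts hx (b + 1)).1
  obtain ⟨v, hv, e⟩ := exists_occ hx h2 h4 (by omega)
  exact ⟨t, v, by omega, by omega, hv⟩

end Pool.Agent.P.MP_1672e2_an

/-! Points with prescribed cuts, periodic points, substitutions. -/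

set_option autoImplicit false

namespace Pool.Agent.P.MP_1672e2_an

open MeasureTheory Set

variable {l : ℕ → ℕ} {x x' : Om} {s t : ℤ} {u v : List ℕ} {γ j : ℕ}

/-- A point of the loop shift with prescribed lists between successive cuts. -/
lemma exists_of_cuts {P : ℤ → Prop} (hP : ∀ m, (∃ t, m ≤ t ∧ P t) ∧ ∃ t, t ≤ m ∧ P t)
    {V : ℤ → List ℕ} (h1 : ∀ t, P t → Pos l (V t) ∧ V t ≠ [] ∧ P (t + len l (V t)) ∧
      ∀ s, t < s → s < t + len l (V t) → ¬ P s) :
    ∃ x ∈ LS l, ∀ t, P t → Occ l x t (V t) := by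
  have hb : ∀ s : ℤ, ∃ b, (b ≤ s ∧ P b) ∧ ∀ r, (r ≤ s ∧ P r) → r ≤ b := fun s =>
    Int.exists_greatest_of_bdd ⟨s, fun z hz => hz.1⟩ (hP s).2
  choose b hb1 hb2 using hb
  have hpos : ∀ t, P t → (0 : ℤ) < len l (V t) := fun t ht => by
    exact_mod_cast (h1 t ht).1.len_pos (h1 t ht).2.1
  have key : ∀ t s, P t → t ≤ s → s < t + len l (V t) → b s = t := by
    intro t s ht hts hs
    have h2 := hb2 s t ⟨hts, ht⟩
    by_contra hne
    exact (h1 t ht).2.2.2 (b s) (lt_of_le_of_ne h2 (Ne.symm hne))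
      (lt_of_le_of_lt (hb1 s).1 hs) (hb1 s).2
  have hlt : ∀ s, s < b s + len l (V (b s)) := by
    intro s
    by_contra hn
    have h2 := hb2 s _ ⟨not_lt.1 hn, (h1 _ (hb1 s).2).2.2.1⟩
    have h3 := hpos _ (hb1 s).2
    omega
  have hself : ∀ t, P t → b t = t := fun t ht =>
    key t t ht le_rfl (by have := hpos t ht; omega)
  have hzero : ∀ t, P t → (vtx l (V (b t)) (t - b t).toNat).2 = 0 := by
    intro t ht
    rw [hself t ht, sub_self, Int.toNat_zero]
    exact vtx_zero (h1 t ht).1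
  refine ⟨fun s => vtx l (V (b s)) (s - b s).toNat, ?_, ?_⟩
  · intro s
    have hs := hlt s
    have hs1 := (hb1 s).1
    have hV := h1 _ (hb1 s).2
    by_cases hc : s + 1 < b s + len l (V (b s))
    · have e := key (b s) (s + 1) (hb1 s).2 (by omega) hc
      have e2 : (s + 1 - b s).toNat = (s - b s).toNat + 1 := by omega
      show Edge l (vtx l (V (b s)) (s - b s).toNat) (vtx l (V (b (s + 1))) (s + 1 - b (s + 1)).toNat)
      rw [e, e2]
      exact vtx_edge hV.1 (by omega)
    · have e : s + 1 = b s + len l (V (b s)) := by omega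
      refine Or.inr ⟨vtx_last hV.1 (by omega), ?_⟩
      exact hzero (s + 1) (e ▸ hV.2.2.1)
  · intro t ht
    refine occ_of_vtx (h1 t ht).1 (fun j hj => ?_) (hzero _ (h1 t ht).2.2.1)
    have e := key t (t + j) ht (by omega) (by omega)
    show vtx l (V (b (t + j))) (t + j - b (t + j)).toNat = _
    rw [e]
    congr 1
    omega

/-- Every time lies between two successive cuts. -/
lemma exists_block {P : ℤ → Prop} (hP : ∀ m, (∃ t, m ≤ t ∧ P t) ∧ ∃ t, t ≤ m ∧ P t) (s : ℤ) :
    ∃ t t', t ≤ s ∧ s < t' ∧ P t ∧ P t' ∧ ∀ r, t < r → r < t' → ¬ P r := by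
  obtain ⟨t, ⟨h1, h2⟩, h3⟩ := Int.exists_greatest_of_bdd (P := fun z => z ≤ s ∧ P z)
    ⟨s, fun z hz => hz.1⟩ (hP s).2
  obtain ⟨t', ⟨h4, h5⟩, h6⟩ := Int.exists_least_of_bdd (P := fun z => s + 1 ≤ z ∧ P z)
    ⟨s + 1, fun z hz => hz.1⟩ (hP (s + 1)).1
  refine ⟨t, t', h1, by omega, h2, h5, fun r hr hr' hPr => ?_⟩
  by_cases hc : r ≤ s
  · have := h3 r ⟨hc, hPr⟩
    omega
  · have := h6 r ⟨by omega, hPr⟩
    omega

lemma exists_per (h : Pos l v) (h0 : v ≠ []) :
    ∃ x ∈ LS l, Occ l x 0 v ∧ zp sh (len l v) x = x ∧ ∀ t, (x t).1 ∈ v := by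
  have hn : (0 : ℤ) < len l v := by exact_mod_cast h.len_pos h0
  have hlo : ∀ t : ℤ, 0 ≤ t % (len l v : ℤ) := fun t => Int.emod_nonneg _ hn.ne'
  have hhi : ∀ t : ℤ, t % (len l v : ℤ) < len l v := fun t => Int.emod_lt_of_pos _ hn
  refine ⟨fun t => vtx l v (t % (len l v : ℤ)).toNat, ?_, ?_, ?_, ?_⟩
  · intro t
    have a1 := hlo t
    have a2 := hhi t
    have e0 : (t + 1) % (len l v : ℤ) = (t % (len l v : ℤ) + 1) % (len l v : ℤ) :=
      (Int.emod_add_emod t _ 1).symm
    show Edge l (vtx l v (t % (len l v : ℤ)).toNat) (vtx l v ((t + 1) % (len l v : ℤ)).toNat)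
    by_cases hc : t % (len l v : ℤ) + 1 < len l v
    · rw [e0, Int.emod_eq_of_lt (by omega) hc,
        show (t % (len l v : ℤ) + 1).toNat = (t % (len l v : ℤ)).toNat + 1 by omega]
      exact vtx_edge h (by omega)
    · have e : t % (len l v : ℤ) + 1 = len l v := by omega
      rw [e0, e, Int.emod_self, Int.toNat_zero]
      exact Or.inr ⟨vtx_last h (by omega), vtx_zero h⟩
  · refine occ_of_vtx h (fun j hj => ?_) ?_
    · show vtx l v ((0 + (j : ℤ)) % (len l v : ℤ)).toNat = _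
      rw [zero_add, Int.emod_eq_of_lt (by omega) (by omega), Int.toNat_natCast]
    · show (vtx l v ((0 + (len l v : ℤ)) % (len l v : ℤ)).toNat).2 = 0
      rw [zero_add, Int.emod_self, Int.toNat_zero]
      exact vtx_zero h
  · funext t
    rw [zp_sh]
    show vtx l v ((t + (len l v : ℤ)) % (len l v : ℤ)).toNat = _
    rw [Int.add_emod_right]
  · intro t
    have a1 := hlo t
    have a2 := hhi t
    exact vtx_mem (l := l) (by omega)

lemma periodic_of_single (h : ∀ γ γ', 0 < l γ → 0 < l γ' → γ = γ') (hx : x ∈ LS l) :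
    ∃ n : ℕ, 0 < n ∧ sh^[n] x = x := by
  have hp : ∀ t, 0 < l (x t).1 := fun t => lt_of_le_of_lt (Nat.zero_le _) (LS_lt hx t)
  have hg : ∀ t, (x t).1 = (x 0).1 := fun t => h _ _ (hp t) (hp 0)
  refine ⟨l (x 0).1, hp 0, ?_⟩
  rw [← zp_natCast]
  funext t
  rw [zp_sh]
  have e1 : x t = ((x 0).1, (x t).2) := Prod.ext (hg t) rfl
  have e2 := LS_back hx e1
  have e3 : x (t - ((x t).2 : ℕ) + l (x 0).1) = ((x 0).1, 0) := Prod.ext (hg _) (LS_next hx e2)
  have e4 := LS_run hx e3 (i := (x t).2) (by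
    have := LS_lt hx t
    rw [hg t] at this
    omega)
  rw [show t - ((x t).2 : ℕ) + l (x 0).1 + ((x t).2 : ℕ) = t + l (x 0).1 by ring, zero_add] at e4
  rw [e4]
  exact e1.symm

section Sub

variable {l' : ℕ → ℕ} {ω : ℕ → List ℕ} {y y' : Om}

lemma sub_sh : sub l ω (sh y) = sh (sub l ω y) := rfl

lemma sub_zp (t : ℤ) : sub l ω (zp sh t y) = zp sh t (sub l ω y) := by
  funext n; simp [sub]

lemma measurable_sub : Measurable (sub l ω) := by
  refine measurable_pi_lambda _ fun t => ?_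
  exact (measurable_of_countable (fun p : ℕ × ℕ => vtx l (ω p.1) p.2)).comp
    (measurable_pi_apply t)

lemma sub_mem (hω : ∀ γ, 0 < l' γ → Pos l (ω γ) ∧ len l (ω γ) = l' γ) (hy : y ∈ LS l') :
    sub l ω y ∈ LS l := by
  intro t
  have hp : ∀ t, 0 < l' (y t).1 := fun t => lt_of_le_of_lt (Nat.zero_le _) (LS_lt hy t)
  obtain ⟨a1, a2⟩ := hω _ (hp t)
  show Edge l (vtx l (ω (y t).1) (y t).2) (vtx l (ω (y (t + 1)).1) (y (t + 1)).2)
  rcases hy t with ⟨b1, b2⟩ | ⟨b1, b2⟩
  · rw [b2]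
    exact vtx_edge a1 (by omega)
  · rw [b2]
    exact Or.inr ⟨vtx_last a1 (by omega), vtx_zero (hω _ (hp (t + 1))).1⟩

lemma sub_occ (hω : ∀ γ, 0 < l' γ → Pos l (ω γ) ∧ len l (ω γ) = l' γ) (hy : y ∈ LS l')
    (h : y t = (γ, 0)) : Occ l (sub l ω y) t (ω γ) := by
  have hp : ∀ t, 0 < l' (y t).1 := fun t => lt_of_le_of_lt (Nat.zero_le _) (LS_lt hy t)
  have hγ : 0 < l' γ := by have := hp t; rwa [h] at this
  obtain ⟨a1, a2⟩ := hω _ hγ
  refine occ_of_vtx a1 (fun j hj => ?_) ?_
  · have e := LS_run hy h (i := j) (by omega)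
    show vtx l (ω (y (t + j)).1) (y (t + j)).2 = _
    rw [e, zero_add]
  · rw [a2]
    show (vtx l (ω (y (t + l' γ)).1) (y (t + l' γ)).2).2 = 0
    rw [LS_next hy h]
    exact vtx_zero (hω _ (hp _)).1

lemma sub_inj (hω : ∀ γ, 0 < l' γ → Pos l (ω γ) ∧ len l (ω γ) = l' γ)
    (hi : InjOn ω {γ | 0 < l' γ}) (hy : y ∈ LS l') (hy' : y' ∈ LS l')
    (h : ∀ t, (y t).2 = 0 ↔ (y' t).2 = 0) (e : sub l ω y = sub l ω y') : y = y' := by
  refine LS_ext hy hy' fun t γ ht => ?_
  have h0 : (y' t).2 = 0 := (h t).1 (by rw [ht])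
  have ht' : y' t = ((y' t).1, 0) := Prod.ext rfl h0
  have hγ : 0 < l' γ := by
    have := lt_of_le_of_lt (Nat.zero_le _) (LS_lt hy t)
    rwa [ht] at this
  have hγ' : 0 < l' (y' t).1 := lt_of_le_of_lt (Nat.zero_le _) (LS_lt hy' t)
  have e1 := LS_len_eq hy hy' h ht ht'
  have o1 := sub_occ hω hy ht
  have o2 := sub_occ hω hy' ht'
  rw [← e] at o2
  have e2 := Occ.unique (sub_mem hω hy) o1 o2 (by rw [(hω _ hγ).2, (hω _ hγ').2, e1])
  have e3 : γ = (y' t).1 := hi hγ hγ' e2
  rw [e3]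
  exact ht'

end Sub

end Pool.Agent.P.MP_1672e2_an
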