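import Pool.Agent.P.MP_1672e2_an.Loops

/-! Equivariant measurable injections. -/

set_option autoImplicit false

namespace Pool.Agent.P.MP_1672e2_an

open MeasureTheory Set Metric Filter Topology

variable {X Y Z : Type*} [MeasurableSpace X] [MeasurableSpace Y] [MeasurableSpace Z]
  {S : X ≃ X} {T : Y ≃ Y} {U : Z ≃ Z} {D A : Set X} {α : X → Y}

lemma erg_dich {μ : Measure X} (h : Ergodic S μ) (hA : MeasurableSet A)
    (hi : ∀ x, S x ∈ A ↔ x ∈ A) : μ A = 0 ∨ μ Aᶜ = 0 :=
  h.toPreErgodic.measure_self_or_compl_eq_zero hA (Set.ext hi)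

lemma erg_cover {J : Type*} [Countable J] {μ : Measure X} [IsProbabilityMeasure μ]
    (h : Ergodic S μ) {B : J → Set X} (hB : ∀ j, MeasurableSet (B j))
    (hi : ∀ j x, S x ∈ B j ↔ x ∈ B j) (hc : μ (⋃ j, B j)ᶜ = 0) : ∃ j, μ (B j)ᶜ = 0 := by
  by_contra hno
  have h1 : μ (⋃ j, B j) = 0 := measure_iUnion_null fun j =>
    (erg_dich h (hB j) (hi j)).resolve_right fun h => hno ⟨j, h⟩
  have h2 := measure_union_null h1 hc
  rw [union_compl_self, measure_univ] at h2
  exact one_ne_zero h2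

lemma Emb.inv_image (h : Emb S T D α) (hAD : A ⊆ D) (hA : ∀ x, S x ∈ A ↔ x ∈ A) (y : Y) :
    T y ∈ α '' A ↔ y ∈ α '' A := by
  constructor
  · rintro ⟨x, hx, hy⟩
    have h1 : S.symm x ∈ A := (hA _).1 (by rwa [S.apply_symm_apply])
    refine ⟨S.symm x, h1, T.injective ?_⟩
    rw [← h.comm _ (hAD h1), S.apply_symm_apply, hy]
  · rintro ⟨x, hx, rfl⟩
    exact ⟨S x, (hA x).2 hx, h.comm x (hAD hx)⟩

lemma Emb.mono (h : Emb S T D α) (hA : MeasurableSet A) (hAD : A ⊆ D)
    (hi : ∀ x, S x ∈ A ↔ x ∈ A) : Emb S T A α :=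
  ⟨h.meas, hA, hi, h.inj.mono hAD, fun x hx => h.comm x (hAD hx)⟩

lemma Emb.comp (h : Emb S T D α) {D' : Set Y} {β : Y → Z} (h' : Emb T U D' β)
    (hm : MapsTo α D D') : Emb S U D (β ∘ α) :=
  ⟨h'.meas.comp h.meas, h.dom, h.inv, h'.inj.comp h.inj hm, fun x hx => by
    rw [Function.comp_apply, Function.comp_apply, h.comm x hx, h'.comm _ (hm hx)]⟩

/-- Restriction to the preimage of an invariant set. -/
lemma Emb.restrict (h : Emb S T D α) {B : Set Y} (hB : MeasurableSet B)
    (hi : ∀ y, T y ∈ B ↔ y ∈ B) : Emb S T (D ∩ α ⁻¹' B) α := by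
  refine h.mono (h.dom.inter (h.meas hB)) inter_subset_left fun x => ⟨fun hx => ?_, fun hx => ?_⟩
  · have h1 := (h.inv x).1 hx.1
    have h2 : α (S x) ∈ B := hx.2
    rw [h.comm x h1] at h2
    exact ⟨h1, (hi _).1 h2⟩
  · refine ⟨(h.inv x).2 hx.1, ?_⟩
    show α (S x) ∈ B
    rw [h.comm x hx.1]
    exact (hi _).2 hx.2

lemma Emb.embA_iter (h : Emb S T D α) (n : ℕ) {x : X} (hx : x ∈ D) : α (S^[n] x) = T^[n] (α x) := by
  rw [← zp_natCast, ← zp_natCast]
  exact h.zp n hx

variable [StandardBorelSpace X] [StandardBorelSpace Y] [StandardBorelSpace Z]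

lemma Emb.meas_image (h : Emb S T D α) (hA : MeasurableSet A) (hAD : A ⊆ D) :
    MeasurableSet (α '' A) :=
  hA.image_of_measurable_injOn h.meas (h.inj.mono hAD)

lemma Emb.exists_inv [Nonempty X] (h : Emb S T D α) :
    ∃ β : Y → X, Emb T S (α '' D) β ∧ ∀ x ∈ D, β (α x) = x := by
  have he : MeasurableEmbedding (D.domRestrict α) := by
    refine ⟨injOn_iff_injective.1 h.inj, h.meas.comp measurable_subtype_coe, fun s hs => ?_⟩
    have h1 : D.domRestrict α '' s = α '' (Subtype.val '' s) := by rw [image_image]; rfl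
    rw [h1]
    exact h.meas_image ((MeasurableEmbedding.subtype_coe h.dom).measurableSet_image' hs)
      (Subtype.coe_image_subset D s)
  obtain ⟨β, hβ, hc⟩ := he.exists_measurable_extend (g := Subtype.val) measurable_subtype_coe
    fun _ => inferInstance
  have h1 : ∀ x ∈ D, β (α x) = x := fun x hx => congrFun hc ⟨x, hx⟩
  refine ⟨β, ⟨hβ, h.meas_image h.dom Subset.rfl, h.inv_image Subset.rfl h.inv, ?_, ?_⟩, h1⟩
  · rintro _ ⟨x, hx, rfl⟩ _ ⟨x', hx', rfl⟩ he'
    rw [h1 x hx, h1 x' hx'] at he'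
    rw [he']
  · rintro _ ⟨x, hx, rfl⟩
    rw [← h.comm x hx, h1 x hx, h1 _ ((h.inv x).2 hx)]

/-- Pull back of an ergodic measure. -/
lemma Emb.pull (h : Emb S T D α) (hS : Measurable S) {μ : Measure Y} [IsProbabilityMeasure μ]
    (he : Ergodic T μ) (hD : μ (α '' D)ᶜ = 0) : ∃ ν : Measure X, IsProbabilityMeasure ν ∧
      Ergodic S ν ∧ ν Dᶜ = 0 ∧ (∀ A, MeasurableSet A → A ⊆ D → μ (α '' A) = ν A) ∧
      (PE T μ → PE S ν) := by
  have hae : ∀ᵐ y ∂μ, y ∈ α '' D := hD
  obtain ⟨_, x₀, -, -⟩ := hae.exists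
  have : Nonempty X := ⟨x₀⟩
  obtain ⟨β, hβ, hinv⟩ := h.exists_inv
  have key : ∀ {A : Set X} {B : Set Y}, MeasurableSet A → (∀ x ∈ D, x ∈ A ↔ α x ∈ B) →
      μ.map β A = μ B := by
    intro A B hA hAB
    rw [Measure.map_apply hβ.meas hA]
    refine measure_congr ?_
    filter_upwards [hae] with y hy
    obtain ⟨x, hx, rfl⟩ := hy
    refine propext ?_
    show β (α x) ∈ A ↔ α x ∈ B
    rw [hinv x hx]
    exact hAB x hx
  refine ⟨μ.map β, Measure.isProbabilityMeasure_map hβ.meas.aemeasurable, ⟨⟨hS, ?_⟩, ⟨?_⟩⟩, ?_,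
    fun A hA hAD => ?_, ?_⟩
  · have h1 : (S ∘ β) =ᵐ[μ] (β ∘ T) := by
      filter_upwards [hae] with y hy
      exact (hβ.comm y hy).symm
    rw [Measure.map_map hS hβ.meas, Measure.map_congr h1,
      ← Measure.map_map hβ.meas he.measurable, he.map_eq]
  · intro s hs hi
    have h1 := hβ.restrict hs (Set.ext_iff.1 hi)
    rw [eventuallyConst_set', ae_eq_empty, ae_eq_univ]
    refine (erg_dich he h1.dom h1.inv).imp (fun h2 => ?_) fun h2 => ?_
    · rw [← h2]
      exact key hs fun x hx => ⟨fun hs => ⟨⟨x, hx, rfl⟩, by rwa [mem_preimage, hinv x hx]⟩,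
        fun hs => by have h3 := hs.2; rwa [mem_preimage, hinv x hx] at h3⟩
    · rw [← h2]
      exact key hs.compl fun x hx => not_congr
        ⟨fun hs => ⟨⟨x, hx, rfl⟩, by rwa [mem_preimage, hinv x hx]⟩,
          fun hs => by have h3 := hs.2; rwa [mem_preimage, hinv x hx] at h3⟩
  · rw [← hD]
    exact key h.dom.compl fun x hx => not_congr ⟨fun _ => ⟨x, hx, rfl⟩, fun _ => hx⟩
  · refine (key (B := α '' A) hA fun x hx => ⟨fun hA => ⟨x, hA, rfl⟩, ?_⟩).symm
    rintro ⟨x', hx', he'⟩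
    rwa [← h.inj (hAD hx') hx he']
  · rintro ⟨k, P, hP, hd, hu, c, hc, hn⟩
    refine ⟨k, fun i => α ⁻¹' P i, fun i => h.meas (hP i), fun i j hij => (hd i j hij).preimage α,
      by rw [← preimage_iUnion, hu, preimage_univ], c, hc, fun n hn0 => (hn n hn0).trans_eq ?_⟩
    refine Finset.sum_congr rfl fun w _ => ?_
    rw [key (B := ⋂ i : Fin n, T^[(i : ℕ)] ⁻¹' P (w i))
      (MeasurableSet.iInter fun i => (hS.iterate _) (h.meas (hP _))) fun x hx => ?_]
    simp only [mem_iInter, mem_preimage, h.embA_iter _ hx]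

end Pool.Agent.P.MP_1672e2_an

/-! Absorption and gluing. -/

set_option autoImplicit false

namespace Pool.Agent.P.MP_1672e2_an

open MeasureTheory Set Metric Filter Topology

variable {X Y Z : Type*} [MeasurableSpace X] [MeasurableSpace Y] [MeasurableSpace Z]
  {S : X ≃ X} {T : Y ≃ Y} {U : Z ≃ Z}

open Classical in
lemma glue_piece {D A : Set X} {a v : X → Y} (ha : Emb S T A a) (hv : Emb S T D v)
    (hd : Disjoint (a '' A) (v '' (D \ A))) : Emb S T D (A.piecewise a v) := by
  refine ⟨Measurable.piecewise ha.dom ha.meas hv.meas, hv.dom, hv.inv, ?_, ?_⟩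
  · intro x hx y hy hxy
    by_cases h1 : x ∈ A <;> by_cases h2 : y ∈ A
    · rw [piecewise_eq_of_mem _ _ _ h1, piecewise_eq_of_mem _ _ _ h2] at hxy
      exact ha.inj h1 h2 hxy
    · rw [piecewise_eq_of_mem _ _ _ h1, piecewise_eq_of_notMem _ _ _ h2] at hxy
      exact absurd ⟨y, ⟨hy, h2⟩, hxy.symm⟩ (Set.disjoint_left.1 hd ⟨x, h1, rfl⟩)
    · rw [piecewise_eq_of_notMem _ _ _ h1, piecewise_eq_of_mem _ _ _ h2] at hxy
      exact absurd ⟨x, ⟨hx, h1⟩, hxy⟩ (Set.disjoint_left.1 hd ⟨y, h2, rfl⟩)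
    · rw [piecewise_eq_of_notMem _ _ _ h1, piecewise_eq_of_notMem _ _ _ h2] at hxy
      exact hv.inj hx hy hxy
  · intro x hx
    by_cases h1 : x ∈ A
    · rw [piecewise_eq_of_mem _ _ _ h1, piecewise_eq_of_mem _ _ _ ((ha.inv x).2 h1)]
      exact ha.comm x h1
    · rw [piecewise_eq_of_notMem _ _ _ h1,
        piecewise_eq_of_notMem _ _ _ (fun h => h1 ((ha.inv x).1 h))]
      exact hv.comm x hx

open Classical in
lemma glue_piece_image {X Y : Type*} {D A : Set X} (a v : X → Y) (hA : A ⊆ D) :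
    A.piecewise a v '' D = a '' A ∪ v '' (D \ A) := by
  ext y
  constructor
  · rintro ⟨x, hx, rfl⟩
    by_cases h1 : x ∈ A
    · exact Or.inl ⟨x, h1, (piecewise_eq_of_mem _ _ _ h1).symm⟩
    · exact Or.inr ⟨x, ⟨hx, h1⟩, (piecewise_eq_of_notMem _ _ _ h1).symm⟩
  · rintro (⟨x, hx, rfl⟩ | ⟨x, hx, rfl⟩)
    · exact ⟨x, hA hx, piecewise_eq_of_mem _ _ _ hx⟩
    · exact ⟨x, hx.1, piecewise_eq_of_notMem _ _ _ hx.2⟩

/-- Infinitely many disjoint copies absorb one more piece. -/
lemma absorb {D A : Set X} {V : ℕ → X → Y} (hV : ∀ c, Emb S T D (V c))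
    (hd : Pairwise fun c c' => Disjoint (V c '' D) (V c' '' D)) {α : X → Y} (hα : Emb S T A α)
    (hA : A ⊆ D) (hd' : ∀ c, Disjoint (α '' A) (V c '' D)) :
    ∃ V' : ℕ → X → Y, (∀ c, Emb S T D (V' c)) ∧
      (Pairwise fun c c' => Disjoint (V' c '' D) (V' c' '' D)) ∧
      (⋃ c, V' c '' D) = (⋃ c, V c '' D) ∪ α '' A := by
  classical
  let W : ℕ → X → Y := fun c => Nat.casesOn c α V
  have hW : ∀ c, Emb S T A (W c) := by
    intro c
    cases c with
    | zero => exact hα
    | succ c => exact (hV c).mono hα.dom hA hα.inv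
  have h1 : ∀ c c', Disjoint (W c '' A) (V c' '' (D \ A)) := by
    intro c c'
    cases c with
    | zero => exact (hd' c').mono_right (image_mono sdiff_subset)
    | succ c =>
      by_cases hc : c = c'
      · subst hc
        refine Set.disjoint_left.2 ?_
        rintro _ ⟨x, hx, rfl⟩ ⟨y, hy, hxy⟩
        have : y = x := (hV c).inj hy.1 (hA hx) hxy
        exact hy.2 (this ▸ hx)
      · exact (hd hc).mono (image_mono hA) (image_mono sdiff_subset)
  have h2 : ∀ c c', c ≠ c' → Disjoint (W c '' A) (W c' '' A) := by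
    intro c c' hc
    cases c with
    | zero =>
      cases c' with
      | zero => exact absurd rfl hc
      | succ c' => exact (hd' c').mono_right (image_mono hA)
    | succ c =>
      cases c' with
      | zero => exact ((hd' c).mono_right (image_mono hA)).symm
      | succ c' =>
        exact (hd (fun h : c = c' => hc (by rw [h]))).mono (image_mono hA) (image_mono hA)
  refine ⟨fun c => A.piecewise (W c) (V c), fun c => glue_piece (hW c) (hV c) (h1 c c), ?_, ?_⟩
  · intro c c' hc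
    simp only [glue_piece_image _ _ hA, disjoint_union_left, disjoint_union_right]
    exact ⟨⟨h2 c c' hc, (h1 c' c).symm⟩, h1 c c',
      (hd hc).mono (image_mono sdiff_subset) (image_mono sdiff_subset)⟩
  · simp only [glue_piece_image _ _ hA]
    ext y
    simp only [mem_iUnion, mem_union]
    constructor
    · rintro ⟨c, h | h⟩
      · cases c with
        | zero => exact Or.inr h
        | succ c => exact Or.inl ⟨c, image_mono hA h⟩
      · exact Or.inl ⟨c, image_mono sdiff_subset h⟩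
    · rintro (⟨c, x, hx, rfl⟩ | h)
      · by_cases hx' : x ∈ A
        · exact ⟨c + 1, Or.inl ⟨x, hx', rfl⟩⟩
        · exact ⟨c, Or.inr ⟨x, ⟨hx, hx'⟩, rfl⟩⟩
      · exact ⟨0, Or.inl h⟩

variable [StandardBorelSpace X] [StandardBorelSpace Y] [StandardBorelSpace Z]

omit [StandardBorelSpace Z] in
lemma glue_map [Nonempty X] {J : Type*} [Countable J] {D : J → Set X} {α : J → X → Y}
    {β : J → X → Z} (hα : ∀ j, Emb S T (D j) (α j)) (hβ : ∀ j, Emb S U (D j) (β j))
    (dα : Pairwise fun i j => Disjoint (α i '' D i) (α j '' D j)) :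
    ∃ F : ↥(⋃ j, α j '' D j) → ↥(⋃ j, β j '' D j), Measurable F ∧
      ∀ j, ∀ x ∈ D j, ∀ a : ↥(⋃ j, α j '' D j), (a : Y) = α j x → (F a : Z) = β j x := by
  choose γ hγ hγ' using fun j => (hα j).exists_inv
  have hm : ∀ a : ↥(⋃ j, α j '' D j), ∃ j, ∃ x ∈ D j, α j x = a := fun a => by
    obtain ⟨j, x, hx, h⟩ := mem_iUnion.1 a.2
    exact ⟨j, x, hx, h⟩
  choose p q hq hpq using hm
  have key : ∀ j, ∀ x ∈ D j, ∀ a : ↥(⋃ j, α j '' D j), (a : Y) = α j x →
      β (p a) (q a) = β j x := by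
    intro j x hx a ha
    have hj : p a = j := by
      by_contra hne
      exact Set.disjoint_left.1 (dα hne) ⟨q a, hq a, hpq a⟩ ⟨x, hx, ha.symm⟩
    have h1 := hq a
    have h2 := hpq a
    rw [hj] at h1 h2 ⊢
    rw [(hα j).inj h1 hx (h2.trans ha)]
  refine ⟨fun a => ⟨β (p a) (q a), mem_iUnion.2 ⟨p a, q a, hq a, rfl⟩⟩, ?_, key⟩
  refine Measurable.subtype_mk ?_
  intro s hs
  have : (fun a : ↥(⋃ j, α j '' D j) => β (p a) (q a)) ⁻¹' s =
      ⋃ j, Subtype.val ⁻¹' (α j '' D j ∩ (β j ∘ γ j) ⁻¹' s) := by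
    ext a
    simp only [mem_preimage, mem_iUnion, mem_inter_iff, Function.comp]
    constructor
    · intro h
      refine ⟨p a, ⟨q a, hq a, hpq a⟩, ?_⟩
      rw [← hpq a, hγ' _ _ (hq a)]
      exact h
    · rintro ⟨j, ⟨x, hx, hxa⟩, h⟩
      rw [← hxa, hγ' _ _ hx] at h
      rw [key j x hx a hxa.symm]
      exact h
  rw [this]
  exact MeasurableSet.iUnion fun j => measurable_subtype_coe
    (((hγ j).dom).inter (((hβ j).meas.comp (hγ j).meas) hs))

/-- Two families of embeddings with disjoint images give a conjugacy of the unions. -/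
lemma glue [Nonempty X] {J : Type*} [Countable J] {D : J → Set X} {α : J → X → Y} {β : J → X → Z}
    (hα : ∀ j, Emb S T (D j) (α j)) (hβ : ∀ j, Emb S U (D j) (β j))
    (dα : Pairwise fun i j => Disjoint (α i '' D i) (α j '' D j))
    (dβ : Pairwise fun i j => Disjoint (β i '' D i) (β j '' D j)) :
    ∃ ψ : MeasurableEquiv ↥(⋃ j, α j '' D j) ↥(⋃ j, β j '' D j),
      ∀ a b : ↥(⋃ j, α j '' D j), (b : Y) = T a → (ψ b : Z) = U (ψ a) := by
  obtain ⟨F, mF, hF⟩ := glue_map hα hβ dα
  obtain ⟨G, mG, hG⟩ := glue_map hβ hα dβ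
  refine ⟨⟨⟨F, G, ?_, ?_⟩, mF, mG⟩, ?_⟩
  · intro a
    obtain ⟨j, x, hx, h⟩ := mem_iUnion.1 a.2
    exact Subtype.ext ((hG j x hx _ (hF j x hx a h.symm)).trans h)
  · intro b
    obtain ⟨j, x, hx, h⟩ := mem_iUnion.1 b.2
    exact Subtype.ext ((hF j x hx _ (hG j x hx b h.symm)).trans h)
  · intro a b hab
    obtain ⟨j, x, hx, h⟩ := mem_iUnion.1 a.2
    change (F b : Z) = U (F a)
    rw [hF j x hx a h.symm, hF j (S x) (((hα j).inv x).2 hx) b
      (by rw [hab, ← h, (hα j).comm x hx]), (hβ j).comm x hx]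

/-- A countable family of loop shifts is a Markov shift on the naturals. -/
lemma union_shift {J : Type*} [Countable J] (L : J → ℕ → ℕ) :
    ∃ (E : Set (ℕ × ℕ)) (ι : J → Om → ℤ → ℕ), (∀ j, Emb sh sh (LS (L j)) (ι j)) ∧
      (Pairwise fun i j => Disjoint (ι i '' LS (L i)) (ι j '' LS (L j))) ∧
      {x : ℤ → ℕ | ∀ n : ℤ, (x n, x (n + 1)) ∈ E} = ⋃ j, ι j '' LS (L j) := by
  obtain ⟨e, he⟩ := exists_injective_nat (J × ℕ × ℕ)
  refine ⟨{r | ∃ j p q, Edge (L j) p q ∧ r = (e (j, p), e (j, q))}, fun j x t => e (j, x t),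
    fun j => ⟨?_, measurableSet_LS, fun _ => LS_sh, ?_, fun _ _ => rfl⟩, ?_, ?_⟩
  · exact measurable_pi_lambda _ fun t =>
      (measurable_of_countable fun p : ℕ × ℕ => e (j, p)).comp (measurable_pi_apply t)
  · intro x _ y _ hxy
    funext t
    exact (Prod.ext_iff.1 (he (congrFun hxy t))).2
  · intro i j hij
    refine Set.disjoint_left.2 ?_
    rintro _ ⟨x, -, rfl⟩ ⟨y, -, hxy⟩
    exact hij (Prod.ext_iff.1 (he (congrFun hxy 0))).1.symm
  · ext x
    simp only [mem_ofPred_eq, mem_iUnion]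
    constructor
    · intro h
      choose j p q hE hx using h
      have h1 : ∀ n, x n = e (j n, p n) := fun n => (Prod.ext_iff.1 (hx n)).1
      have h2 : ∀ n, x (n + 1) = e (j n, q n) := fun n => (Prod.ext_iff.1 (hx n)).2
      have h3 : ∀ n, (j (n + 1), p (n + 1)) = (j n, q n) := fun n =>
        he ((h1 (n + 1)).symm.trans (h2 n))
      have h4 : ∀ n, j n = j 0 := by
        intro n
        induction n using Int.induction_on with
        | zero => rfl
        | succ n ih => exact (Prod.ext_iff.1 (h3 n)).1.trans ih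
        | pred n ih =>
          have := (Prod.ext_iff.1 (h3 (-(n : ℤ) - 1))).1
          simp only [sub_add_cancel] at this
          rw [← this, ih]
      refine ⟨j 0, p, fun t => ?_, funext fun t => ?_⟩
      · have := hE t
        rw [h4 t, ← show p (t + 1) = q t from (Prod.ext_iff.1 (h3 t)).2] at this
        exact this
      · rw [h1 t, h4 t]
    · rintro ⟨j, y, hy, rfl⟩ n
      exact ⟨j, y n, y (n + 1), hy n, rfl⟩

end Pool.Agent.P.MP_1672e2_an

/-! The maximal ergodic theorem and its consequences, for bounded functions. -/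

set_option autoImplicit false

namespace Pool.Agent.P.MP_1672e2_an

open MeasureTheory Set Metric Filter Topology

section Aux

variable {X : Type*}

/-- The maximum of the first Birkhoff sums. -/
noncomputable def ergMax (T : X → X) (g : X → ℝ) : ℕ → X → ℝ
  | 0, _ => 0
  | N + 1, x => max 0 (g x + ergMax T g N (T x))

lemma ergMax_nonneg (T : X → X) (g : X → ℝ) (N : ℕ) (x : X) : 0 ≤ ergMax T g N x := by
  cases N with
  | zero => exact le_rfl
  | succ N => exact le_max_left _ _

lemma ergMax_le_succ (T : X → X) (g : X → ℝ) (N : ℕ) (x : X) :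
    ergMax T g N x ≤ ergMax T g (N + 1) x := by
  induction N generalizing x with
  | zero => exact ergMax_nonneg T g 1 x
  | succ N ih =>
    have := ih (T x)
    exact max_le_max le_rfl (by linarith)

lemma ergMax_mono (T : X → X) (g : X → ℝ) (x : X) : Monotone fun N => ergMax T g N x :=
  monotone_nat_of_le_succ fun N => ergMax_le_succ T g N x

lemma sum_le_ergMax (T : X → X) (g : X → ℝ) (N : ℕ) (x : X) :
    birkhoffSum T g N x ≤ ergMax T g N x := by
  induction N generalizing x with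
  | zero => simp [ergMax]
  | succ N ih =>
    rw [birkhoffSum_succ']
    have := ih (T x)
    exact le_trans (by linarith) (le_max_right _ _)

lemma ergMax_eq_sum (T : X → X) (g : X → ℝ) (N : ℕ) (x : X) :
    ∃ n, ergMax T g N x = birkhoffSum T g n x := by
  induction N generalizing x with
  | zero => exact ⟨0, by simp [ergMax]⟩
  | succ N ih =>
    obtain ⟨n, hn⟩ := ih (T x)
    rcases le_total 0 (g x + ergMax T g N (T x)) with h | h
    · exact ⟨n + 1, by rw [birkhoffSum_succ', ← hn]; exact max_eq_right h⟩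
    · exact ⟨0, by rw [birkhoffSum_zero]; exact max_eq_left h⟩

lemma ergMax_le {T : X → X} {g : X → ℝ} {K : ℝ} (hK : ∀ x, |g x| ≤ K) (N : ℕ) (x : X) :
    ergMax T g N x ≤ N * K := by
  induction N generalizing x with
  | zero => simp [ergMax]
  | succ N ih =>
    have h1 := ih (T x)
    have h2 := (abs_le.1 (hK x)).2
    have h3 : 0 ≤ K := (abs_nonneg _).trans (hK x)
    refine max_le (by positivity) ?_
    push_cast
    linarith

lemma abs_sum_le {T : X → X} {g : X → ℝ} {K : ℝ} (hK : ∀ x, |g x| ≤ K) (n : ℕ) (x : X) :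
    |birkhoffSum T g n x| ≤ n * K := by
  induction n with
  | zero => simp
  | succ n ih =>
    rw [birkhoffSum_succ]
    have := abs_add_le (birkhoffSum T g n x) (g (T^[n] x))
    have := hK (T^[n] x)
    push_cast
    linarith

lemma sum_sub_const (T : X → X) (g : X → ℝ) (c : ℝ) (n : ℕ) (x : X) :
    birkhoffSum T (fun y => g y - c) n x = birkhoffSum T g n x - c * n := by
  simp [birkhoffSum, mul_comm]

lemma sum_const_sub (T : X → X) (g : X → ℝ) (c : ℝ) (n : ℕ) (x : X) :
    birkhoffSum T (fun y => c - g y) n x = c * n - birkhoffSum T g n x := by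
  simp [birkhoffSum, mul_comm]

variable [MeasurableSpace X]

lemma measurable_ergMax {T : X → X} {g : X → ℝ} (hT : Measurable T) (hg : Measurable g) (N : ℕ) :
    Measurable (ergMax T g N) := by
  induction N with
  | zero => exact measurable_const
  | succ N ih => exact measurable_const.max (hg.add (ih.comp hT))

lemma measurable_bsum {T : X → X} {g : X → ℝ} (hT : Measurable T) (hg : Measurable g) (n : ℕ) :
    Measurable (birkhoffSum T g n) :=
  Finset.measurable_sum _ fun k _ => hg.comp (hT.iterate k)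

lemma integrable_of_abs_le {μ : Measure X} [IsFiniteMeasure μ] {g : X → ℝ} {K : ℝ}
    (hg : Measurable g) (hK : ∀ x, |g x| ≤ K) : Integrable g μ :=
  Integrable.of_bound hg.aestronglyMeasurable K (Eventually.of_forall hK)

lemma integral_comp_mp {μ : Measure X} {T : X → X} (hT : MeasurePreserving T μ μ) {g : X → ℝ}
    (hg : Measurable g) : ∫ x, g (T x) ∂μ = ∫ x, g x ∂μ := by
  rw [← integral_map hT.measurable.aemeasurable hg.aestronglyMeasurable, hT.map_eq]

end Aux

variable {X : Type*} [MeasurableSpace X] {μ : Measure X} [IsProbabilityMeasure μ] {T : X → X}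
  {g : X → ℝ} {K : ℝ}

/-- Hopf's maximal inequality. -/
lemma hopf (hT : MeasurePreserving T μ μ) (hg : Measurable g) (hK : ∀ x, |g x| ≤ K) :
    0 ≤ ∫ x in {x | ∃ n, 0 < birkhoffSum T g n x}, g x ∂μ := by
  have hM := measurable_ergMax hT.measurable hg
  have hI : ∀ N, Integrable (ergMax T g N) μ := fun N =>
    integrable_of_abs_le (K := N * K) (hM N) fun x => by
      rw [abs_of_nonneg (ergMax_nonneg T g N x)]; exact ergMax_le hK N x
  have hI' : ∀ N, Integrable (fun x => ergMax T g N (T x)) μ := fun N =>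
    integrable_of_abs_le (K := N * K) ((hM N).comp hT.measurable) fun x => by
      rw [abs_of_nonneg (ergMax_nonneg T g N _)]; exact ergMax_le hK N _
  have hgI : Integrable g μ := integrable_of_abs_le hg hK
  set E : ℕ → Set X := fun N => {x | 0 < ergMax T g (N + 1) x} with hE
  have hEm : ∀ N, MeasurableSet (E N) := fun N => measurableSet_lt measurable_const (hM _)
  have hmono : Monotone E := fun a b hab x hx =>
    lt_of_lt_of_le hx (ergMax_mono T g x (Nat.succ_le_succ hab))
  have hU : {x | ∃ n, 0 < birkhoffSum T g n x} = ⋃ N, E N := by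
    ext x
    simp only [mem_ofPred_eq, mem_iUnion, hE]
    constructor
    · rintro ⟨n, hn⟩
      exact ⟨n, hn.trans_le ((sum_le_ergMax T g n x).trans (ergMax_le_succ T g n x))⟩
    · rintro ⟨N, hN⟩
      obtain ⟨n, hn⟩ := ergMax_eq_sum T g (N + 1) x
      exact ⟨n, hn ▸ hN⟩
  rw [hU]
  refine ge_of_tendsto' (tendsto_setIntegral_of_monotone hEm hmono hgI.integrableOn) fun N => ?_
  rw [← integral_indicator (hEm N)]
  have h1 : ∫ x, (ergMax T g (N + 1) x - ergMax T g N (T x)) ∂μ ≤ ∫ x, (E N).indicator g x ∂μ := by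
    refine integral_mono ((hI _).sub (hI' _)) (hgI.indicator (hEm N)) fun x => ?_
    by_cases hx : x ∈ E N
    · rw [indicator_of_mem hx]
      have h2 : 0 < max 0 (g x + ergMax T g N (T x)) := hx
      have h3 : ergMax T g (N + 1) x = g x + ergMax T g N (T x) :=
        max_eq_right ((lt_max_iff.1 h2).resolve_left (lt_irrefl _)).le
      simp only [h3]
      linarith
    · rw [indicator_of_notMem hx]
      have h2 : ergMax T g (N + 1) x ≤ 0 := not_lt.1 hx
      have := ergMax_nonneg T g N (T x)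
      simp only
      linarith
  rw [integral_sub (hI _) (hI' _), integral_comp_mp hT (hM N)] at h1
  have h2 : ∫ x, ergMax T g N x ∂μ ≤ ∫ x, ergMax T g (N + 1) x ∂μ :=
    integral_mono (hI _) (hI _) fun x => ergMax_le_succ T g N x
  linarith

lemma ladder_pos (hT : MeasurePreserving T μ μ) (hg : Measurable g) (hK : ∀ x, |g x| ≤ K)
    (h : ∫ x, g x ∂μ < 0) : 0 < μ {x | ∀ n, birkhoffSum T g n x ≤ 0} := by
  rw [pos_iff_ne_zero]
  intro h0
  have h1 := hopf hT hg hK
  have h2 : ∀ᵐ x ∂μ, x ∈ {x | ∃ n, 0 < birkhoffSum T g n x} := by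
    rw [ae_iff]
    simpa using h0
  rw [Measure.restrict_eq_self_of_ae_mem h2] at h1
  linarith

lemma weak_type (hT : MeasurePreserving T μ μ) (hg : Measurable g) (hK : ∀ x, |g x| ≤ K)
    (h0 : ∀ x, 0 ≤ g x) (θ : ℝ) :
    θ * μ.real {x | ∃ n : ℕ, θ * n < birkhoffSum T g n x} ≤ ∫ x, g x ∂μ := by
  have hgI : Integrable g μ := integrable_of_abs_le hg hK
  have h1 := hopf (g := fun x => g x - θ) (K := K + |θ|) hT (hg.sub measurable_const) fun x =>
    (abs_sub _ _).trans (by linarith [hK x])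
  simp only [sum_sub_const, sub_pos] at h1
  rw [integral_sub hgI.integrableOn (integrable_const _), setIntegral_const, smul_eq_mul] at h1
  have h2 := setIntegral_le_integral (s := {x | ∃ n : ℕ, θ * n < birkhoffSum T g n x}) hgI
    (Eventually.of_forall h0)
  linarith

lemma ae_freq (hT : Ergodic T μ) {B : Set X} (hB : MeasurableSet B) (h : μ B ≠ 0) :
    ∀ᵐ x ∂μ, ∀ m : ℕ, ∃ n, m ≤ n ∧ T^[n] x ∈ B := by
  have hm : MeasurableSet {x | ∀ m : ℕ, ∃ n, m ≤ n ∧ T^[n] x ∈ B} := by
    simp only [ofPred_forall, ofPred_exists, ofPred_and]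
    exact MeasurableSet.iInter fun m => MeasurableSet.iUnion fun n =>
      (MeasurableSet.const _).inter (hT.measurable.iterate n hB)
  have hinv : T ⁻¹' {x | ∀ m : ℕ, ∃ n, m ≤ n ∧ T^[n] x ∈ B} =
      {x | ∀ m : ℕ, ∃ n, m ≤ n ∧ T^[n] x ∈ B} := by
    ext x
    simp only [mem_preimage, mem_ofPred_eq]
    constructor
    · intro hx m
      obtain ⟨n, h1, h2⟩ := hx m
      exact ⟨n + 1, by omega, h2⟩
    · intro hx m
      obtain ⟨n, h1, h2⟩ := hx (m + 1)
      obtain ⟨k, rfl⟩ : ∃ k, n = k + 1 := ⟨n - 1, by omega⟩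
      exact ⟨k, by omega, h2⟩
  rcases hT.toPreErgodic.ae_mem_or_ae_notMem hm hinv with h1 | h1
  · exact h1
  · exfalso
    apply h
    have h2 := hT.toMeasurePreserving.conservative.ae_mem_imp_frequently_image_mem
      hB.nullMeasurableSet
    have h3 : ∀ᵐ x ∂μ, x ∉ B := by
      filter_upwards [h1, h2] with x a b c
      exact a fun m => by simpa using frequently_atTop.1 (b c) m
    simpa [ae_iff] using h3

lemma ae_bdd (hT : Ergodic T μ) (hg : Measurable g) (hK : ∀ x, |g x| ≤ K)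
    (h : ∫ x, g x ∂μ < 0) : ∀ᵐ x ∂μ, ∃ C : ℕ, ∀ n, birkhoffSum T g n x ≤ C := by
  have hB : MeasurableSet {x | ∀ n, birkhoffSum T g n x ≤ 0} := by
    simp only [ofPred_forall]
    exact MeasurableSet.iInter fun n =>
      measurableSet_le (measurable_bsum hT.measurable hg n) measurable_const
  filter_upwards [ae_freq hT hB (ladder_pos hT.toMeasurePreserving hg hK h).ne'] with x hx
  obtain ⟨m, -, hm⟩ := hx 0
  have hK0 : 0 ≤ K := (abs_nonneg _).trans (hK x)
  refine ⟨⌈m * K⌉₊, fun n => le_trans ?_ (Nat.le_ceil _)⟩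
  rcases le_total n m with h1 | h1
  · have h2 : (n : ℝ) ≤ m := by exact_mod_cast h1
    exact (abs_le.1 (abs_sum_le hK n x)).2.trans (mul_le_mul_of_nonneg_right h2 hK0)
  · obtain ⟨k, rfl⟩ := Nat.exists_eq_add_of_le h1
    rw [birkhoffSum_add]
    have h2 := (abs_le.1 (abs_sum_le (T := T) hK m x)).2
    have h3 : birkhoffSum T g k (T^[m] x) ≤ 0 := hm k
    linarith

/-- The same bound, uniform on a set of large measure. -/
lemma unif_bdd (hT : Ergodic T μ) (hg : Measurable g) (hK : ∀ x, |g x| ≤ K)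
    (h : ∫ x, g x ∂μ < 0) {θ : ℝ} (hθ : 0 < θ) :
    ∃ C : ℝ, μ.real {x | ∀ n, birkhoffSum T g n x ≤ C}ᶜ ≤ θ := by
  set A : ℕ → Set X := fun C => {x | ∀ n, birkhoffSum T g n x ≤ C}ᶜ with hA
  have hm : ∀ C, MeasurableSet (A C) := fun C => by
    simp only [hA, ofPred_forall]
    exact (MeasurableSet.iInter fun n =>
      measurableSet_le (measurable_bsum hT.measurable hg n) measurable_const).compl
  have hanti : Antitone A := fun a b hab => compl_subset_compl.2 fun x hx n =>
    (hx n).trans (by exact_mod_cast hab)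
  have h0 : μ (⋂ C, A C) = 0 := by
    have := ae_bdd hT hg hK h
    rw [ae_iff] at this
    refine measure_mono_null (fun x hx => ?_) this
    rintro ⟨C, hC⟩
    exact mem_iInter.1 hx C hC
  have h1 := tendsto_measure_iInter_atTop (μ := μ) (fun C => (hm C).nullMeasurableSet) hanti
    ⟨0, measure_ne_top _ _⟩
  rw [h0] at h1
  have h2 := (ENNReal.tendsto_toReal ENNReal.zero_ne_top).comp h1
  rw [ENNReal.toReal_zero] at h2
  obtain ⟨C, hC⟩ := (h2.eventually (ge_mem_nhds hθ)).exists
  exact ⟨C, hC⟩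

lemma ae_avg (hT : Ergodic T μ) (hg : Measurable g) (hK : ∀ x, |g x| ≤ K) :
    ∀ᵐ x ∂μ, Tendsto (fun n => birkhoffAverage ℝ T g n x) atTop (𝓝 (∫ y, g y ∂μ)) := by
  have hgI : Integrable g μ := integrable_of_abs_le hg hK
  set I := ∫ y, g y ∂μ with hI
  have h1 : ∀ k : ℕ, ∀ᵐ x ∂μ, ∃ C : ℕ, ∀ n : ℕ,
      birkhoffSum T g n x - (I + 1 / (k + 1)) * n ≤ C := fun k => by
    have := ae_bdd (g := fun x => g x - (I + 1 / (k + 1))) (K := K + |I + 1 / (k + 1)|) hT
      (hg.sub measurable_const) (fun x => (abs_sub _ _).trans (by linarith [hK x])) (by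
        rw [integral_sub hgI (integrable_const _), integral_const, probReal_univ, one_smul]
        have : (0 : ℝ) < 1 / (k + 1) := by positivity
        linarith)
    simpa only [sum_sub_const] using this
  have h2 : ∀ k : ℕ, ∀ᵐ x ∂μ, ∃ C : ℕ, ∀ n : ℕ,
      (I - 1 / (k + 1)) * n - birkhoffSum T g n x ≤ C := fun k => by
    have := ae_bdd (g := fun x => (I - 1 / (k + 1)) - g x) (K := |I - 1 / (k + 1)| + K) hT
      (measurable_const.sub hg) (fun x => (abs_sub _ _).trans (by linarith [hK x])) (by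
        rw [integral_sub (integrable_const _) hgI, integral_const, probReal_univ, one_smul]
        have : (0 : ℝ) < 1 / (k + 1) := by positivity
        linarith)
    simpa only [sum_const_sub] using this
  filter_upwards [ae_all_iff.2 h1, ae_all_iff.2 h2] with x a b
  rw [Metric.tendsto_atTop]
  intro ε hε
  obtain ⟨k, hk⟩ := exists_nat_one_div_lt (half_pos hε)
  obtain ⟨C, hC⟩ := a k
  obtain ⟨D, hD⟩ := b k
  obtain ⟨N, hN⟩ := exists_nat_gt (((C : ℝ) + D) / (ε / 2))
  refine ⟨N + 1, fun n hn => ?_⟩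
  have hn1 : (N : ℝ) + 1 ≤ n := by exact_mod_cast hn
  have hN0 : (0 : ℝ) ≤ N := Nat.cast_nonneg _
  have hn0 : (0 : ℝ) < n := by linarith
  have h3 : (C : ℝ) + D < ε / 2 * n := by
    rw [div_lt_iff₀ (half_pos hε)] at hN
    nlinarith
  have h4 : (1 : ℝ) / (k + 1) * n < ε / 2 * n := mul_lt_mul_of_pos_right hk hn0
  have hC0 : (0 : ℝ) ≤ C := Nat.cast_nonneg _
  have hD0 : (0 : ℝ) ≤ D := Nat.cast_nonneg _
  have h5 := hC n
  have h6 := hD n
  rw [Real.dist_eq, birkhoffAverage, smul_eq_mul, inv_mul_eq_div, abs_lt, lt_sub_iff_add_lt,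
    sub_lt_iff_lt_add, lt_div_iff₀ hn0, div_lt_iff₀ hn0]
  constructor <;> nlinarith

lemma mean_erg (hT : Ergodic T μ) (hg : Measurable g) (hK : ∀ x, |g x| ≤ K) :
    Tendsto (fun n => ∫ x, |birkhoffAverage ℝ T g n x - ∫ y, g y ∂μ| ∂μ) atTop (𝓝 0) := by
  have h := tendsto_integral_of_dominated_convergence (μ := μ)
    (F := fun n x => |birkhoffAverage ℝ T g n x - ∫ y, g y ∂μ|) (f := fun _ => (0 : ℝ))
    (fun _ => K + |∫ y, g y ∂μ|) (fun n => ?_) (integrable_const _) (fun n => ?_) ?_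
  · simpa using h
  · refine Measurable.aestronglyMeasurable (Measurable.abs (Measurable.sub ?_ measurable_const))
    exact (measurable_bsum hT.measurable hg n).const_smul ((n : ℝ)⁻¹)
  · refine Eventually.of_forall fun x => ?_
    rw [Real.norm_eq_abs, abs_abs]
    refine (abs_sub _ _).trans (add_le_add_left ?_ _)
    have hK0 : 0 ≤ K := (abs_nonneg _).trans (hK x)
    rcases Nat.eq_zero_or_pos n with rfl | hn
    · simpa using hK0
    · have hn0 : (0 : ℝ) < n := by exact_mod_cast hn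
      rw [birkhoffAverage, smul_eq_mul, abs_mul, abs_of_pos (inv_pos.2 hn0), inv_mul_le_iff₀ hn0]
      exact abs_sum_le hK n x
  · filter_upwards [ae_avg hT hg hK] with x hx
    simpa using (hx.sub_const (∫ y, g y ∂μ)).abs

lemma integral_avg (hT : MeasurePreserving T μ μ) (hg : Measurable g) (hK : ∀ x, |g x| ≤ K)
    {n : ℕ} (hn : 0 < n) : ∫ x, birkhoffAverage ℝ T g n x ∂μ = ∫ x, g x ∂μ := by
  have hn0 : (n : ℝ) ≠ 0 := by exact_mod_cast hn.ne'
  simp only [birkhoffAverage, birkhoffSum, smul_eq_mul]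
  rw [integral_const_mul, integral_finsetSum (f := fun k x => g (T^[k] x)) _ fun k _ =>
    integrable_of_abs_le (K := K) (hg.comp (hT.measurable.iterate k)) fun x => hK _]
  rw [Finset.sum_congr rfl fun k _ => integral_comp_mp (hT.iterate k) hg]
  simp [hn0]

lemma ae_recur {e : X ≃ X} (he : Ergodic e μ) (h' : Measurable e.symm) {B : Set X}
    (hB : MeasurableSet B) (h : μ B ≠ 0) : μ {x | Recur e B x}ᶜ = 0 := by
  have : ∀ᵐ x ∂μ, x ∈ {x | Recur e B x} := by
    filter_upwards [ae_freq he hB h, ae_freq (ergodic_symm h' he) hB h] with x a b m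
    obtain ⟨n, h1, h2⟩ := a m.natAbs
    obtain ⟨k, h3, h4⟩ := b m.natAbs
    exact ⟨⟨n, by omega, by rwa [zp_natCast]⟩, -k, by omega, by rwa [zp_neg_natCast]⟩
  exact this

lemma ne_zero_of_visit {e : X ≃ X} (he : MeasurePreserving e μ μ) (h' : Measurable e.symm)
    {B : Set X} (hB : MeasurableSet B) (h : ∀ᵐ x ∂μ, ∃ t, zp e t x ∈ B) : μ B ≠ 0 := by
  intro h0
  have h1 : ∀ t : ℤ, ∀ᵐ x ∂μ, zp e t x ∉ B := fun t => by
    have := (measurePreserving_zp h' he t).measure_preimage hB.nullMeasurableSet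
    rw [h0] at this
    exact measure_eq_zero_iff_ae_notMem.1 this
  obtain ⟨x, ⟨t, ht⟩, hx⟩ := (h.and (ae_all_iff.2 h1)).exists
  exact hx t ht

end Pool.Agent.P.MP_1672e2_an

/-! An upper bound for the entropy of the partition into names. -/

set_option autoImplicit false

namespace Pool.Agent.P.MP_1672e2_an

open MeasureTheory Set Metric Filter Topology

variable {X : Type*} [MeasurableSpace X] {μ : Measure X} [IsProbabilityMeasure μ] {T : X → X}

lemma gibbs_ineq {ι : Type*} [Fintype ι] (p q : ι → ℝ) (hp : ∀ i, 0 ≤ p i) (hq : ∀ i, 0 < q i)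
    (hp1 : ∑ i, p i = 1) (hq1 : ∑ i, q i ≤ 1) :
    ∑ i, Real.negMulLog (p i) ≤ ∑ i, p i * (-Real.log (q i)) := by
  have h : ∀ i, Real.negMulLog (p i) ≤ p i * (-Real.log (q i)) + (q i - p i) := by
    intro i
    rcases (hp i).eq_or_lt with h0 | h0
    · rw [← h0]; simp [(hq i).le]
    · have h1 := Real.log_le_sub_one_of_pos (div_pos (hq i) h0)
      rw [Real.log_div (hq i).ne' h0.ne'] at h1
      have h2 := mul_le_mul_of_nonneg_left h1 h0.le
      have h3 : p i * (q i / p i - 1) = q i - p i := by field_simp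
      rw [h3] at h2
      unfold Real.negMulLog
      nlinarith
  calc ∑ i, Real.negMulLog (p i) ≤ ∑ i, (p i * (-Real.log (q i)) + (q i - p i)) :=
        Finset.sum_le_sum fun i _ => h i
    _ = ∑ i, p i * (-Real.log (q i)) + (∑ i, q i - ∑ i, p i) := by
        rw [Finset.sum_add_distrib, Finset.sum_sub_distrib]
    _ ≤ _ := by rw [hp1]; linarith

lemma gibbs_qsum {k n : ℕ} (hk : 0 < k) (g : Fin n → Fin k) {θ : ℝ} (h0 : 0 < θ) (h1 : θ < 1) :
    ∑ w : Fin n → Fin k, ∏ i, (if w i = g i then 1 - θ else θ / k) ≤ 1 := by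
  have hk' : (0 : ℝ) < k := by exact_mod_cast hk
  have h := Finset.prod_univ_sum (fun _ : Fin n => (Finset.univ : Finset (Fin k)))
    (fun i a => if a = g i then 1 - θ else θ / (k : ℝ))
  rw [Fintype.piFinset_univ] at h
  rw [← h]
  apply Finset.prod_le_one
  · intro i _
    apply Finset.sum_nonneg
    intro a _
    split_ifs
    · linarith
    · positivity
  · intro i _
    have h2 : ∀ a : Fin k, (if a = g i then 1 - θ else θ / (k : ℝ)) ≤
        (if a = g i then 1 - θ else 0) + θ / k := by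
      intro a
      have : 0 ≤ θ / (k : ℝ) := by positivity
      split_ifs <;> linarith
    calc ∑ a : Fin k, (if a = g i then 1 - θ else θ / (k : ℝ)) ≤
          ∑ a : Fin k, ((if a = g i then 1 - θ else 0) + θ / k) := Finset.sum_le_sum fun a _ => h2 a
      _ = 1 := by
          rw [Finset.sum_add_distrib, Finset.sum_ite_eq' Finset.univ (g i)]
          simp only [Finset.mem_univ, if_true, Finset.sum_const, Finset.card_univ, Fintype.card_fin,
            nsmul_eq_mul]
          field_simp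
          ring

/-- On `D j` the name is guessed by `g j`, except at visits to the bad set. -/
lemma gibbs (hT : MeasurePreserving T μ μ) {k : ℕ} {P : Fin k → Set X}
    (hP : ∀ i, MeasurableSet (P i)) (hd : ∀ i j, i ≠ j → Disjoint (P i) (P j))
    (hu : (⋃ i, P i) = univ) {J : Type*} (S : Finset J) {D : J → Set X}
    (hD : ∀ j ∈ S, MeasurableSet (D j)) {Bd : Set X} (hB : MeasurableSet Bd) (n : ℕ)
    (g : J → ℕ → Fin k) (hg : ∀ j ∈ S, ∀ x ∈ D j, ∀ i < n, T^[i] x ∉ Bd → T^[i] x ∈ P (g j i))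
    {θ : ℝ} (h0 : 0 < θ) (h1 : θ < 1) :
    ∑ w : Fin n → Fin k, Real.negMulLog (μ (⋂ i : Fin n, T^[(i : ℕ)] ⁻¹' P (w i))).toReal ≤
      Real.log (S.card + 1) - n * Real.log (1 - θ) + n * Real.log (k / θ) * μ.real Bd +
        n * Real.log k * μ.real (⋃ j ∈ S, D j)ᶜ := by
  classical
  have hex : ∀ x : X, ∃ i, x ∈ P i := fun x => mem_iUnion.1 (hu ▸ mem_univ x)
  have hne : Nonempty X := by
    by_contra hX
    rw [not_nonempty_iff] at hX
    have h := measure_univ (μ := μ)
    rw [Set.eq_empty_of_isEmpty (univ : Set X), measure_empty] at h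
    exact zero_ne_one h
  obtain ⟨x0⟩ := hne
  obtain ⟨i0, -⟩ := hex x0
  have hk : 0 < k := lt_of_le_of_lt (Nat.zero_le _) i0.2
  have hk' : (0 : ℝ) < k := by exact_mod_cast hk
  have hk1 : (1 : ℝ) ≤ k := by exact_mod_cast hk
  set A : (Fin n → Fin k) → Set X := fun w => ⋂ i : Fin n, T^[(i : ℕ)] ⁻¹' P (w i) with hA
  have hAm : ∀ w, MeasurableSet (A w) := fun w =>
    MeasurableSet.iInter fun i => (hT.iterate i).measurable (hP _)
  have hAd : Pairwise (Function.onFun Disjoint A) := by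
    intro w w' hw
    rw [Function.onFun, Set.disjoint_left]
    intro x hx hx'
    apply hw
    funext i
    by_contra hi
    exact Set.disjoint_left.1 (hd _ _ hi) (mem_iInter.1 hx i) (mem_iInter.1 hx' i)
  have hAu : (⋃ w, A w) = univ := by
    rw [eq_univ_iff_forall]
    intro x
    choose c hc using hex
    exact mem_iUnion.2 ⟨fun i => c (T^[(i : ℕ)] x), mem_iInter.2 fun i => hc _⟩
  set U : Set X := ⋃ j ∈ S, D j with hU
  have hUm : MeasurableSet U := Finset.measurableSet_biUnion S hD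
  set qj : J → (Fin n → Fin k) → ℝ := fun j w => ∏ i, (if w i = g j i then 1 - θ else θ / k)
    with hqj
  have hqj0 : ∀ j w, 0 < qj j w := by
    intro j w
    apply Finset.prod_pos
    intro i _
    split_ifs
    · linarith
    · positivity
  have hc : (0 : ℝ) < S.card + 1 := by positivity
  set q : (Fin n → Fin k) → ℝ := fun w => (∑ j ∈ S, qj j w + 1 / (k : ℝ) ^ n) / (S.card + 1)
    with hq
  have hs0 : ∀ w, 0 ≤ ∑ j ∈ S, qj j w := fun w => Finset.sum_nonneg fun j _ => (hqj0 j w).le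
  have hq0 : ∀ w, 0 < q w := by
    intro w
    have := hs0 w
    simp only [hq]
    positivity
  have hq1 : ∑ w, q w ≤ 1 := by
    simp only [hq]
    rw [← Finset.sum_div, div_le_one hc, Finset.sum_add_distrib, Finset.sum_comm]
    have e1 : ∑ j ∈ S, ∑ w, qj j w ≤ S.card := by
      calc ∑ j ∈ S, ∑ w, qj j w ≤ ∑ _j ∈ S, (1 : ℝ) :=
            Finset.sum_le_sum fun j _ => gibbs_qsum hk (fun i => g j i) h0 h1
        _ = S.card := by simp
    have e2 : ∑ _w : Fin n → Fin k, 1 / (k : ℝ) ^ n = 1 := by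
      simp only [Finset.sum_const, Finset.card_univ, Fintype.card_fun, Fintype.card_fin,
        nsmul_eq_mul]
      push_cast
      field_simp
    linarith
  have hp1 : ∑ w, μ.real (A w) = 1 := by
    have h := measureReal_iUnion_fintype (μ := μ) hAd hAm
    rw [hAu] at h
    rw [← h]
    simp
  have hL1 : 0 ≤ Real.log (k / θ) := Real.log_nonneg (by rw [le_div_iff₀ h0]; linarith)
  have hL2 : 0 ≤ Real.log (k : ℝ) := Real.log_nonneg hk1
  have hL3 : Real.log (1 - θ) ≤ 0 := Real.log_nonpos (by linarith) (by linarith)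
  set ψ : X → ℝ := fun x => (Real.log (S.card + 1) - n * Real.log (1 - θ)) +
      (∑ i : Fin n, (T^[(i : ℕ)] ⁻¹' Bd).indicator (fun _ => Real.log (k / θ)) x) +
      Uᶜ.indicator (fun _ => n * Real.log k) x with hψ
  have hI1 : ∀ i : Fin n, Integrable ((T^[(i : ℕ)] ⁻¹' Bd).indicator
      (fun _ : X => Real.log (k / θ))) μ := fun i =>
    (integrable_const _).indicator ((hT.iterate i).measurable hB)
  have hI2 : Integrable (Uᶜ.indicator (fun _ : X => n * Real.log k)) μ :=
    (integrable_const _).indicator hUm.compl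
  have hI3 : Integrable (fun x => ∑ i : Fin n, (T^[(i : ℕ)] ⁻¹' Bd).indicator
      (fun _ : X => Real.log (k / θ)) x) μ := integrable_finsetSum _ fun i _ => hI1 i
  have hI4 : Integrable (fun x => (Real.log (S.card + 1) - n * Real.log (1 - θ)) +
      (∑ i : Fin n, (T^[(i : ℕ)] ⁻¹' Bd).indicator (fun _ => Real.log (k / θ)) x)) μ :=
    (integrable_const _).add hI3
  have hI : Integrable ψ μ := hI4.add hI2
  have hint : ∫ x, ψ x ∂μ = Real.log (S.card + 1) - n * Real.log (1 - θ) +
      n * Real.log (k / θ) * μ.real Bd + n * Real.log k * μ.real Uᶜ := by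
    simp only [hψ]
    rw [integral_add hI4 hI2, integral_add (integrable_const _) hI3,
      integral_finsetSum _ fun i _ => hI1 i, integral_indicator hUm.compl]
    have e : ∀ i : Fin n, ∫ x, (T^[(i : ℕ)] ⁻¹' Bd).indicator
        (fun _ : X => Real.log (k / θ)) x ∂μ = Real.log (k / θ) * μ.real Bd := by
      intro i
      rw [integral_indicator ((hT.iterate i).measurable hB), setIntegral_const, smul_eq_mul,
        mul_comm, measureReal_def, measureReal_def,
        (hT.iterate i).measure_preimage hB.nullMeasurableSet]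
    rw [Finset.sum_congr rfl fun i _ => e i]
    simp only [integral_const, probReal_univ, smul_eq_mul, one_mul, Finset.sum_const,
      Finset.card_univ, Fintype.card_fin, nsmul_eq_mul, measureReal_restrict_apply_univ]
    ring
  have hpt : ∀ w, ∀ x ∈ A w, -Real.log (q w) ≤ ψ x := by
    intro w x hx
    have hsum0 : 0 ≤ ∑ i : Fin n, (T^[(i : ℕ)] ⁻¹' Bd).indicator
        (fun _ : X => Real.log (k / θ)) x :=
      Finset.sum_nonneg fun i _ => Set.indicator_nonneg (fun _ _ => hL1) x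
    by_cases hxU : x ∈ U
    · obtain ⟨j, hj, hxj⟩ : ∃ j ∈ S, x ∈ D j := by simpa [hU] using hxU
      have e1 : qj j w / (S.card + 1) ≤ q w := by
        simp only [hq]
        apply div_le_div_of_nonneg_right _ hc.le
        have := Finset.single_le_sum (f := fun j => qj j w) (fun j _ => (hqj0 j w).le) hj
        have h3 : 0 ≤ 1 / (k : ℝ) ^ n := by positivity
        linarith
      have e2 := Real.log_le_log (div_pos (hqj0 j w) hc) e1
      rw [Real.log_div (hqj0 j w).ne' hc.ne'] at e2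
      have e3 : -Real.log (qj j w) ≤ ∑ i : Fin n, (-Real.log (1 - θ) +
          (T^[(i : ℕ)] ⁻¹' Bd).indicator (fun _ : X => Real.log (k / θ)) x) := by
        simp only [hqj]
        rw [Real.log_prod, ← Finset.sum_neg_distrib]
        · apply Finset.sum_le_sum
          intro i _
          have hi0 : 0 ≤ (T^[(i : ℕ)] ⁻¹' Bd).indicator (fun _ : X => Real.log (k / θ)) x :=
            Set.indicator_nonneg (fun _ _ => hL1) x
          split_ifs with hw
          · linarith
          · have hb : T^[(i : ℕ)] x ∈ Bd := by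
              by_contra hb
              exact Set.disjoint_left.1 (hd _ _ hw) (mem_iInter.1 hx i) (hg j hj x hxj i i.2 hb)
            rw [Set.indicator_of_mem (show x ∈ T^[(i : ℕ)] ⁻¹' Bd from hb), ← Real.log_inv,
              inv_div]
            linarith
        · intro i _
          split_ifs
          · linarith
          · positivity
      rw [Finset.sum_add_distrib] at e3
      simp only [Finset.sum_const, Finset.card_univ, Fintype.card_fin, nsmul_eq_mul] at e3
      simp only [hψ]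
      rw [Set.indicator_of_notMem (show x ∉ Uᶜ from fun h => h hxU)]
      linarith
    · have e1 : (1 / (k : ℝ) ^ n) / (S.card + 1) ≤ q w := by
        simp only [hq]
        apply div_le_div_of_nonneg_right _ hc.le
        linarith [hs0 w]
      have e0 : (0 : ℝ) < 1 / (k : ℝ) ^ n := by positivity
      have e2 := Real.log_le_log (div_pos e0 hc) e1
      rw [Real.log_div e0.ne' hc.ne', one_div, Real.log_inv, Real.log_pow] at e2
      simp only [hψ]
      rw [Set.indicator_of_mem (show x ∈ Uᶜ from hxU)]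
      have : 0 ≤ (n : ℝ) * -Real.log (1 - θ) := mul_nonneg (Nat.cast_nonneg n) (by linarith)
      linarith
  calc ∑ w : Fin n → Fin k, Real.negMulLog (μ (A w)).toReal
      ≤ ∑ w, μ.real (A w) * (-Real.log (q w)) :=
        gibbs_ineq (fun w => μ.real (A w)) q (fun w => measureReal_nonneg) hq0 hp1 hq1
    _ ≤ ∑ w, ∫ x in A w, ψ x ∂μ := by
        apply Finset.sum_le_sum
        intro w _
        rw [← smul_eq_mul, ← setIntegral_const]
        exact setIntegral_mono_on (integrable_const _).integrableOn hI.integrableOn (hAm w) (hpt w)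
    _ = ∫ x, ψ x ∂μ := by
        rw [← integral_iUnion_fintype hAm hAd (fun w => hI.integrableOn), hAu,
          Measure.restrict_univ]
    _ = _ := hint

end Pool.Agent.P.MP_1672e2_an

/-! Two criteria for zero entropy. -/

set_option autoImplicit false

namespace Pool.Agent.P.MP_1672e2_an

open MeasureTheory Set Metric Filter Topology

lemma PE.aper {X : Type*} [MeasurableSpace X] [StandardBorelSpace X] {μ : Measure X}
    [IsProbabilityMeasure μ] {T : X → X} (hT : Ergodic T μ) (h : PE T μ) : Aper T μ := by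
  obtain ⟨k, P, hP, hd, hu, c, hc, hn⟩ := h
  by_contra hne
  have e1 : {x | ∃ n : ℕ, 0 < n ∧ T^[n] x = x} = ⋃ n : ℕ, {x | T^[n + 1] x = x} := by
    ext x
    simp only [mem_setOf_eq, mem_iUnion]
    constructor
    · rintro ⟨n, h0, h1⟩
      exact ⟨n - 1, by rwa [Nat.sub_add_cancel h0]⟩
    · rintro ⟨n, h1⟩
      exact ⟨n + 1, Nat.succ_pos n, h1⟩
  unfold Aper at hne
  rw [e1, measure_iUnion_null_iff] at hne
  push Not at hne
  obtain ⟨q, hq⟩ := hne
  set p := q + 1 with hp
  have hp0 : 0 < p := Nat.succ_pos q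
  set F : Set X := {x | T^[p] x = x} with hF
  have hTm : Measurable T := hT.toMeasurePreserving.measurable
  have hFm : MeasurableSet F := measurableSet_eq_fun (hTm.iterate p) measurable_id
  have hFle : F ⊆ T ⁻¹' F := by
    intro x hx
    simp only [hF, mem_setOf_eq, mem_preimage] at hx ⊢
    rw [← Function.iterate_succ_apply, Function.iterate_succ_apply', hx]
  have hFc : μ Fᶜ = 0 := by
    rcases hT.ae_empty_or_univ_of_ae_le_preimage hFm.nullMeasurableSet
      (LE.le.eventuallyLE hFle) with h | h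
    · exact absurd (ae_eq_empty.1 h) hq
    · exact ae_eq_univ.1 h
  set D : (Fin p → Fin k) → Set X :=
    fun w => (⋂ i : Fin p, T^[(i : ℕ)] ⁻¹' P (w i)) ∩ F with hD
  have hDm : ∀ w, MeasurableSet (D w) := fun w =>
    (MeasurableSet.iInter fun i => (hTm.iterate _) (hP _)).inter hFm
  have hU : (⋃ w ∈ (Finset.univ : Finset (Fin p → Fin k)), D w)ᶜ ⊆ Fᶜ := by
    refine compl_subset_compl.2 fun x hx => ?_
    have : ∀ i : Fin p, ∃ j, T^[(i : ℕ)] x ∈ P j := fun i => by
      have : T^[(i : ℕ)] x ∈ ⋃ j, P j := by rw [hu]; trivial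
      exact mem_iUnion.1 this
    choose w hw using this
    simp only [mem_iUnion]
    exact ⟨w, Finset.mem_univ _, mem_iInter.2 hw, hx⟩
  have hU0 : μ.real (⋃ w ∈ (Finset.univ : Finset (Fin p → Fin k)), D w)ᶜ = 0 := by
    rw [Measure.real, measure_mono_null hU hFc]; rfl
  have hθ0 : 0 < 1 - Real.exp (-(c / 2)) := by
    have : Real.exp (-(c / 2)) < 1 := Real.exp_lt_one_iff.2 (by linarith)
    linarith
  have hθ1 : 1 - Real.exp (-(c / 2)) < 1 := by linarith [Real.exp_pos (-(c / 2))]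
  set A : ℝ := Real.log (((Finset.univ : Finset (Fin p → Fin k)).card : ℝ) + 1) with hA
  obtain ⟨n, hnA⟩ := exists_nat_gt (max 0 (2 * A / c))
  have hn0 : 0 < n := by
    have : (0 : ℝ) < n := lt_of_le_of_lt (le_max_left _ _) hnA
    exact_mod_cast this
  have hnA' : 2 * A < c * n := by
    have := lt_of_le_of_lt (le_max_right _ _) hnA
    rw [div_lt_iff₀ hc] at this
    linarith
  have key := gibbs hT.toMeasurePreserving hP hd hu (Finset.univ : Finset (Fin p → Fin k))
    (D := D) (fun w _ => hDm w) (Bd := ∅) MeasurableSet.empty n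
    (fun w i => w ⟨i % p, Nat.mod_lt _ hp0⟩) (fun w _ x hx i _ _ => by
      have h1 := mem_iInter.1 hx.1 ⟨i % p, Nat.mod_lt _ hp0⟩
      have h2 : T^[i % p] x = T^[i] x :=
        Function.IsPeriodicPt.iterate_mod_apply (f := T) (n := p) (x := x) hx.2 i
      simpa only [mem_preimage, h2] using h1) hθ0 hθ1
  rw [hU0, measureReal_empty, sub_sub_cancel, Real.log_exp, ← hA] at key
  have := hn n hn0
  nlinarith

lemma not_PE_of_cover {M : Type*} [MetricSpace M] [CompactSpace M] [MeasurableSpace M]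
    [BorelSpace M] {μ : Measure M} [IsProbabilityMeasure μ] {T : M → M}
    (hT : MeasurePreserving T μ μ)
    (h : ∀ δ ε θ : ℝ, 0 < δ → 0 < ε → 0 < θ → ∀ n₀ : ℕ, ∃ n, n₀ ≤ n ∧ ∃ (S : Finset M)
      (D : M → Set M), (S.card : ℝ) ≤ Real.exp (ε * n) ∧ (∀ j ∈ S, MeasurableSet (D j)) ∧
      μ.real (⋃ j ∈ S, D j)ᶜ ≤ θ ∧
      ∀ j ∈ S, ∀ y ∈ D j, ∀ y' ∈ D j, ∀ i < n, dist (T^[i] y) (T^[i] y') ≤ δ) : ¬ PE T μ := by
  rintro ⟨k, P, hP, hd, hu, c, hc, hn⟩
  have hk : 0 < k := by
    rcases Nat.eq_zero_or_pos k with rfl | hk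
    · have h1 : μ univ = 1 := measure_univ
      rw [← hu, iUnion_of_empty, measure_empty] at h1
      exact absurd h1 zero_ne_one
    · exact hk
  have hk1 : (1 : ℝ) ≤ k := by exact_mod_cast hk
  set θ : ℝ := 1 - Real.exp (-(c / 4)) with hθ
  have hθ0 : 0 < θ := by
    have : Real.exp (-(c / 4)) < 1 := Real.exp_lt_one_iff.2 (by linarith)
    linarith
  have hθ1 : θ < 1 := by linarith [Real.exp_pos (-(c / 4))]
  set A : ℝ := Real.log (k / θ) with hA
  have hA0 : 0 ≤ A := Real.log_nonneg (by rw [le_div_iff₀ hθ0]; linarith)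
  have hL0 : 0 ≤ Real.log k := Real.log_nonneg hk1
  set β : ℝ := c / (8 * (A + 1) * k) with hβ
  have hβ0 : 0 < β := by positivity
  have hK : ∀ i, ∃ K ⊆ P i, IsCompact K ∧ μ (P i \ K) < ENNReal.ofReal β := fun i => by
    obtain ⟨K, h1, h2, h3⟩ := (hP i).exists_isClosed_sdiff_lt (measure_ne_top μ _)
      (ENNReal.ofReal_pos.2 hβ0).ne'
    exact ⟨K, h1, h2.isCompact, h3⟩
  choose K hKP hKc hKμ using hK
  set Bd : Set M := (⋃ i, K i)ᶜ with hBd
  have hBm : MeasurableSet Bd := (MeasurableSet.iUnion fun i => (hKc i).measurableSet).compl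
  have hBμ : μ.real Bd ≤ k * β := by
    have h1 : Bd ⊆ ⋃ i, P i \ K i := by
      intro x hx
      have : x ∈ ⋃ j, P j := by rw [hu]; trivial
      obtain ⟨j, hj⟩ := mem_iUnion.1 this
      exact mem_iUnion.2 ⟨j, hj, fun h => hx (mem_iUnion.2 ⟨j, h⟩)⟩
    calc μ.real Bd ≤ μ.real (⋃ i, P i \ K i) := measureReal_mono h1
      _ ≤ ∑ i, μ.real (P i \ K i) := measureReal_iUnion_fintype_le _
      _ ≤ ∑ _i : Fin k, β := Finset.sum_le_sum fun i _ =>
          ENNReal.toReal_le_of_le_ofReal hβ0.le (hKμ i).le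
      _ = k * β := by simp
  have hAB : A * μ.real Bd ≤ c / 8 := by
    have h1 : (k : ℝ) * β = c / (8 * (A + 1)) := by
      rw [hβ]; field_simp
    calc A * μ.real Bd ≤ (A + 1) * (c / (8 * (A + 1))) := by
          rw [← h1]
          exact mul_le_mul (by linarith) hBμ measureReal_nonneg (by linarith)
      _ = c / 8 := by field_simp
  have hδ : ∃ δ : ℝ, 0 < δ ∧ ∀ i j, i ≠ j → ∀ x ∈ K i, ∀ y ∈ K j, δ < dist x y := by
    have h1 : ∀ᶠ δ : ℝ in 𝓝[>] 0, ∀ i j, i ≠ j → ∀ x ∈ K i, ∀ y ∈ K j, δ < dist x y := by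
      refine eventually_all.2 fun i => eventually_all.2 fun j => ?_
      by_cases hij : i = j
      · exact Eventually.of_forall fun _ h => absurd hij h
      obtain ⟨r, hr, hr'⟩ := Metric.exists_pos_forall_lt_edist (hKc i) (hKc j).isClosed
        ((hd i j hij).mono (hKP i) (hKP j))
      have hr0 : (0 : ℝ) < r := by exact_mod_cast hr
      filter_upwards [nhdsWithin_le_nhds (Iio_mem_nhds hr0)] with δ hδ _ x hx y hy
      have := hr' x hx y hy
      rw [edist_nndist, ENNReal.coe_lt_coe] at this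
      have h2 : (r : ℝ) < dist x y := by exact_mod_cast this
      exact lt_trans hδ h2
    obtain ⟨δ, h2, h3⟩ := (h1.and self_mem_nhdsWithin).exists
    exact ⟨δ, h3, h2⟩
  obtain ⟨δ, hδ0, hδ⟩ := hδ
  obtain ⟨n₀, hn₀⟩ := exists_nat_gt (max 0 (4 * Real.log 2 / c))
  obtain ⟨n, hnn, S, D, hS, hDm, hDμ, hD⟩ := h δ (c / 8) (c / (4 * (Real.log k + 1))) hδ0
    (by positivity) (by positivity) n₀
  have hnn' : (n₀ : ℝ) ≤ n := by exact_mod_cast hnn
  have hn0' : (0 : ℝ) < n := lt_of_lt_of_le (lt_of_le_of_lt (le_max_left _ _) hn₀) hnn'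
  have hn0 : 0 < n := by exact_mod_cast hn0'
  have hn2 : 4 * Real.log 2 < c * n := by
    have := lt_of_lt_of_le (lt_of_le_of_lt (le_max_right _ _) hn₀) hnn'
    rw [div_lt_iff₀ hc] at this
    linarith
  have hg : ∀ (j : M) (i : ℕ), ∃ m : Fin k, j ∈ S → ∀ x ∈ D j, i < n → T^[i] x ∉ Bd →
      T^[i] x ∈ P m := by
    intro j i
    by_cases h1 : ∃ m, ∃ y ∈ D j, T^[i] y ∈ K m
    · obtain ⟨m, y, hy, hm⟩ := h1
      refine ⟨m, fun hj x hx hi hB => ?_⟩
      obtain ⟨m', hm'⟩ := mem_iUnion.1 (not_not.1 hB)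
      by_cases e : m' = m
      · exact hKP m (e ▸ hm')
      · exact absurd (hδ m' m e _ hm' _ hm) (not_lt.2 (hD j hj x hx y hy i hi))
    · refine ⟨⟨0, hk⟩, fun _ x hx _ hB => ?_⟩
      obtain ⟨m', hm'⟩ := mem_iUnion.1 (not_not.1 hB)
      exact absurd ⟨m', x, hx, hm'⟩ h1
  choose g hg using hg
  have key := gibbs hT hP hd hu S hDm hBm n g (fun j hj x hx i hi hB => hg j i hj x hx hi hB)
    hθ0 hθ1
  rw [← hA, hθ, sub_sub_cancel, Real.log_exp] at key
  have h1 : Real.log ((S.card : ℝ) + 1) ≤ Real.log 2 + c / 8 * n := by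
    have h2 : (1 : ℝ) ≤ Real.exp (c / 8 * n) := Real.one_le_exp (by positivity)
    calc Real.log ((S.card : ℝ) + 1) ≤ Real.log (2 * Real.exp (c / 8 * n)) :=
          Real.log_le_log (by positivity) (by linarith)
      _ = Real.log 2 + c / 8 * n := by
          rw [Real.log_mul (by norm_num) (Real.exp_pos _).ne', Real.log_exp]
  have h2 : Real.log k * μ.real (⋃ j ∈ S, D j)ᶜ ≤ c / 4 := by
    calc Real.log k * μ.real (⋃ j ∈ S, D j)ᶜ
        ≤ (Real.log k + 1) * (c / (4 * (Real.log k + 1))) :=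
          mul_le_mul (by linarith) hDμ measureReal_nonneg (by linarith)
      _ = c / 4 := by field_simp
  have h3 := mul_le_mul_of_nonneg_left hAB hn0'.le
  have h4 := mul_le_mul_of_nonneg_left h2 hn0'.le
  have := hn n hn0
  nlinarith

end Pool.Agent.P.MP_1672e2_an
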