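import Pool.Agent.P.MP_1672e2_an.Words

/-! Tilted weights: the combinatorial part. -/

set_option autoImplicit false

namespace Pool.Agent.P.MP_1672e2_an

open MeasureTheory Set Metric Filter Topology

/-- Tilted transition weights. -/
noncomputable def tw (l : ℕ → ℕ) (lam : ℝ) (c : List ℕ) (γ₀ : ℕ) (p q : ℝ) (u : List ℕ) (γ : ℕ) :
    ℝ := (lam ^ l γ)⁻¹ * if c <:+ c ++ u then (if γ = γ₀ then p else q) else 1

/-- The list ends in the context and is heavy. -/
def Heavy (l : ℕ → ℕ) (lam : ℝ) (c : List ℕ) (γ₀ : ℕ) (p q z : ℝ) (v : List ℕ) : Prop :=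
  v ≠ [] ∧ c <:+ c ++ v ∧ (z ^ len l v)⁻¹ ≤ Wt (tw l lam c γ₀ p q) [] v

/-- Minimal heavy lists. -/
def tW (l : ℕ → ℕ) (lam : ℝ) (c : List ℕ) (γ₀ : ℕ) (p q z : ℝ) : Set (List ℕ) :=
  {v | Pos l v ∧ Heavy l lam c γ₀ p q z v ∧ ∀ u, u <+: v → Heavy l lam c γ₀ p q z u → u = v}

/-- The context just before time zero. -/
def Ctx (l : ℕ → ℕ) (c : List ℕ) : Set Om := {x | Occ l x (-(len l c : ℤ)) c}

open Classical in
/-- The tilted observable. -/
noncomputable def tF (l : ℕ → ℕ) (lam : ℝ) (c : List ℕ) (γ₀ : ℕ) (p q z : ℝ) (x : Om) : ℝ :=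
  (if x ∈ Ctx l c then (if x 0 = (γ₀, 0) then Real.log p else Real.log q) else 0) -
    Real.log (lam / z)

/-- Record times among the context times. -/
def tB (l : ℕ → ℕ) (lam : ℝ) (c : List ℕ) (γ₀ : ℕ) (p q z : ℝ) : Set Om :=
  {x | x ∈ Ctx l c ∧ ∀ n : ℕ, zp sh (-n) x ∈ Ctx l c →
    0 ≤ birkhoffSum sh (tF l lam c γ₀ p q z) n (zp sh (-n) x)}

variable {l : ℕ → ℕ} {lam : ℝ} {c : List ℕ} {γ₀ : ℕ} {p q z : ℝ}

lemma measurableSet_Ctx : MeasurableSet (Ctx l c) := measurableSet_occ _ _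

lemma measurable_tF : Measurable (tF l lam c γ₀ p q z) := by
  classical
  unfold tF
  refine Measurable.sub ?_ measurable_const
  refine Measurable.ite measurableSet_Ctx ?_ measurable_const
  refine Measurable.ite ?_ measurable_const measurable_const
  exact measurable_pi_apply (X := fun _ : ℤ => ℕ × ℕ) 0 (measurableSet_singleton (γ₀, 0))

lemma measurable_birk (n : ℕ) : Measurable (birkhoffSum sh (tF l lam c γ₀ p q z) n) := by
  unfold birkhoffSum
  exact Finset.measurable_sum _ fun i _ => measurable_tF.comp (measurable_sh.iterate i)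

lemma measurableSet_tB : MeasurableSet (tB l lam c γ₀ p q z) := by
  have : tB l lam c γ₀ p q z = Ctx l c ∩ ⋂ n : ℕ, ((zp sh (-n) ⁻¹' Ctx l c)ᶜ ∪
      {x | 0 ≤ birkhoffSum sh (tF l lam c γ₀ p q z) n (zp sh (-n) x)}) := by
    ext x
    simp only [tB, mem_ofPred_eq, mem_inter_iff, mem_iInter, mem_union, mem_compl_iff,
      mem_preimage, imp_iff_not_or]
  rw [this]
  refine measurableSet_Ctx.inter (MeasurableSet.iInter fun n => ?_)
  exact (measurable_zp_sh _ measurableSet_Ctx).compl.union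
    (measurableSet_le measurable_const ((measurable_birk n).comp (measurable_zp_sh _)))

lemma Ctx_start {x : Om} (h : x ∈ Ctx l c) : (x 0).2 = 0 := by
  have := Occ.stop (show Occ l x (-(len l c : ℤ)) c from h)
  rwa [neg_add_cancel] at this

lemma tB_start {x : Om} (h : x ∈ tB l lam c γ₀ p q z) : (x 0).2 = 0 := Ctx_start h.1

lemma tw_nonneg (hl : 0 < lam) (hp : 0 ≤ p) (hq : 0 ≤ q) (u : List ℕ) (γ : ℕ) :
    0 ≤ tw l lam c γ₀ p q u γ := by
  unfold tw
  refine mul_nonneg (by positivity) ?_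
  split_ifs
  · exact hp
  · exact hq
  · exact zero_le_one

lemma Phi_eq_of_pos {F : Finset ℕ} (hF : ∀ γ ∈ F, 0 < l γ) (w : ℝ) :
    Phi l F w = ∑ γ ∈ F, (w ^ l γ)⁻¹ := by
  unfold Phi
  rw [Finset.filter_true_of_mem hF]

lemma tw_row (hl : 0 < lam) (hr : Rate l lam) (hγ : 0 < l γ₀) (hp : 0 ≤ p) (hq : 0 ≤ q)
    (h : (lam ^ l γ₀)⁻¹ * p + (1 - (lam ^ l γ₀)⁻¹) * q ≤ 1) (u : List ℕ) (F : Finset ℕ)
    (hF : ∀ γ ∈ F, 0 < l γ) : ∑ γ ∈ F, tw l lam c γ₀ p q u γ ≤ 1 := by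
  by_cases hc : c <:+ c ++ u
  · have hF' : ∀ γ ∈ insert γ₀ (F.erase γ₀), 0 < l γ := by
      intro γ hγ'
      rcases Finset.mem_insert.1 hγ' with rfl | h'
      · exact hγ
      · exact hF _ (Finset.mem_of_mem_erase h')
    have h1 := hr (insert γ₀ (F.erase γ₀))
    rw [Phi_eq_of_pos hF', Finset.sum_insert (Finset.notMem_erase _ _)] at h1
    have h2 : ∑ γ ∈ F, tw l lam c γ₀ p q u γ ≤
        ∑ γ ∈ insert γ₀ (F.erase γ₀), tw l lam c γ₀ p q u γ :=
      Finset.sum_le_sum_of_subset_of_nonneg (Finset.subset_insert_iff.2 subset_rfl)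
        fun γ _ _ => tw_nonneg hl hp hq u γ
    rw [Finset.sum_insert (Finset.notMem_erase _ _)] at h2
    have h3 : ∑ γ ∈ F.erase γ₀, tw l lam c γ₀ p q u γ =
        (∑ γ ∈ F.erase γ₀, (lam ^ l γ)⁻¹) * q := by
      rw [Finset.sum_mul]
      refine Finset.sum_congr rfl fun γ hγ' => ?_
      simp only [tw, if_pos hc, if_neg (Finset.ne_of_mem_erase hγ')]
    have h4 : tw l lam c γ₀ p q u γ₀ = (lam ^ l γ₀)⁻¹ * p := by
      simp only [tw, if_pos hc, if_true]
    rw [h3, h4] at h2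
    have h5 : (∑ γ ∈ F.erase γ₀, (lam ^ l γ)⁻¹) * q ≤ (1 - (lam ^ l γ₀)⁻¹) * q :=
      mul_le_mul_of_nonneg_right (by linarith) hq
    linarith
  · have h1 := hr F
    rw [Phi_eq_of_pos hF] at h1
    refine le_trans (le_of_eq (Finset.sum_congr rfl fun γ _ => ?_)) h1
    simp only [tw, if_neg hc, mul_one]

lemma rate_tW (hl : 0 < lam) (hr : Rate l lam) (hγ : 0 < l γ₀) (hp : 0 ≤ p) (hq : 0 ≤ q)
    (h : (lam ^ l γ₀)⁻¹ * p + (1 - (lam ^ l γ₀)⁻¹) * q ≤ 1) :
    Rate (wl l (tW l lam c γ₀ p q z)) z := by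
  classical
  intro F
  have hW : ∀ v ∈ tW l lam c γ₀ p q z, Pos l v := fun v hv => hv.1
  set G := F.filter fun γ => 0 < wl l (tW l lam c γ₀ p q z) γ with hG
  have hmem : ∀ v ∈ G.image dec, v ∈ tW l lam c γ₀ p q z := by
    intro v hv
    obtain ⟨γ, hγ', rfl⟩ := Finset.mem_image.1 hv
    exact (wl_pos hW γ (Finset.mem_filter.1 hγ').2).1
  have hk := kraft (l := l) (tw_nonneg (l := l) (c := c) (γ₀ := γ₀) hl hp hq)
    (tw_row hl hr hγ hp hq h) [] (G.image dec)
    (fun v hv => (hmem v hv).1)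
    (fun v hv w hw hvw => (hmem w hw).2.2 v hvw (hmem v hv).2.1)
  rw [Finset.sum_image fun a _ b _ hab => dec_bijective.1 hab] at hk
  refine le_trans (Finset.sum_le_sum fun γ hγ' => ?_) hk
  obtain ⟨h1, -, h3⟩ := wl_pos hW γ (Finset.mem_filter.1 hγ').2
  rw [← h3]
  exact h1.2.1.2.2

lemma zp_mem_Ctx {x : Om} {t : ℤ} : zp sh t x ∈ Ctx l c ↔ Occ l x (t - len l c) c := by
  rw [show t - (len l c : ℤ) = -(len l c : ℤ) + t by ring]
  exact occ_zp

lemma Ctx_iff {x : Om} (hx : x ∈ LS l) {t : ℤ} (ht : zp sh t x ∈ Ctx l c) {u : List ℕ}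
    (hu : Occ l x t u) : zp sh (t + len l u) x ∈ Ctx l c ↔ c <:+ c ++ u := by
  rw [zp_mem_Ctx] at ht ⊢
  have hcu : Occ l x (t - len l c) (c ++ u) := by
    rw [occ_append, sub_add_cancel]
    exact ⟨ht, hu⟩
  constructor
  · intro h
    rcases Occ.suf_or hx h hcu (by rw [len_append]; push_cast; ring) with h' | h'
    · exact h'
    · have := h'.length_le
      rw [List.length_append] at this
      have hu0 : u = [] := List.length_eq_zero_iff.1 (by omega)
      rw [hu0, List.append_nil]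
  · rintro ⟨w, hw⟩
    have hl := congrArg (len l) hw
    rw [len_append, len_append] at hl
    rw [← hw, occ_append] at hcu
    have e : t + (len l u : ℤ) - len l c = t - len l c + len l w := by
      have : len l w = len l u := by omega
      rw [this]; ring
    rw [e]
    exact hcu.2

open Classical in
lemma birk_loop {y : Om} (hy : y ∈ LS l) {γ : ℕ} (h : y 0 = (γ, 0)) :
    birkhoffSum sh (tF l lam c γ₀ p q z) (l γ) y =
      (if y ∈ Ctx l c then (if γ = γ₀ then Real.log p else Real.log q) else 0) -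
        l γ * Real.log (lam / z) := by
  have hpos : 0 < l γ := by
    have := LS_lt hy 0
    rwa [h] at this
  obtain ⟨k, hk⟩ : ∃ k, l γ = k + 1 := ⟨l γ - 1, by omega⟩
  rw [hk, birkhoffSum, Finset.sum_range_succ']
  have h1 : ∀ i ∈ Finset.range k,
      tF l lam c γ₀ p q z (sh^[i + 1] y) = -Real.log (lam / z) := by
    intro i hi
    have hi' := Finset.mem_range.1 hi
    have hn : sh^[i + 1] y ∉ Ctx l c := by
      intro hc
      have h2 := Ctx_start hc
      rw [← zp_natCast, zp_sh, LS_run hy h (i := i + 1) (by omega)] at h2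
      simp at h2
    simp only [tF, if_neg hn, zero_sub]
  rw [Finset.sum_congr rfl h1, Finset.sum_const, Finset.card_range, nsmul_eq_mul]
  simp only [Function.iterate_zero, id, tF, h, Prod.mk.injEq, and_true]
  push_cast
  ring

lemma log_Wt_gen (hl : 0 < lam) (hz : 0 < z) (hp : 0 < p) (hq : 0 < q) {x : Om} (hx : x ∈ LS l)
    {t : ℤ} (ht : zp sh t x ∈ Ctx l c) (v : List ℕ) : ∀ u : List ℕ, Occ l x t u →
    Occ l x (t + len l u) v → Wt (tw l lam c γ₀ p q) u v * z ^ len l v =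
      Real.exp (birkhoffSum sh (tF l lam c γ₀ p q z) (len l v) (zp sh (t + len l u) x)) := by
  induction v with
  | nil => intro u _ _; simp [Wt]
  | cons γ v ih =>
    intro u hu hv
    obtain ⟨h1, h2⟩ := hv
    have e : t + (len l (u ++ [γ]) : ℤ) = t + len l u + l γ := by
      simp only [len_append, len_cons, len_nil]; push_cast; ring
    have h3 := ih (u ++ [γ]) (occ_append.2 ⟨hu, (occ_single hx).2 h1⟩) (by rw [e]; exact h2)
    have h4 := birk_loop (lam := lam) (c := c) (γ₀ := γ₀) (p := p) (q := q) (z := z)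
      ((LS_zp (t + len l u)).2 hx) (γ := γ) (by rw [zp_sh, zero_add]; exact h1)
    rw [len_cons, birkhoffSum_add, Real.exp_add, ← zp_add_nat, ← e, ← h3, h4, Wt, pow_add]
    have h5 : Real.exp ((l γ : ℝ) * Real.log (lam / z)) = lam ^ l γ / z ^ l γ := by
      rw [Real.exp_nat_mul, Real.exp_log (by positivity), div_pow]
    have h6 : tw l lam c γ₀ p q u γ * z ^ l γ = Real.exp ((open Classical in
        if zp sh (t + len l u) x ∈ Ctx l c then (if γ = γ₀ then Real.log p else Real.log q)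
        else 0) - l γ * Real.log (lam / z)) := by
      rw [Real.exp_sub, h5, tw]
      by_cases hc : c <:+ c ++ u
      · rw [if_pos hc, if_pos ((Ctx_iff hx ht hu).2 hc)]
        split_ifs
        · rw [Real.exp_log hp]; field_simp
        · rw [Real.exp_log hq]; field_simp
      · rw [if_neg hc, if_neg fun h => hc ((Ctx_iff hx ht hu).1 h), Real.exp_zero]
        field_simp
    rw [← h6]
    ring

lemma log_Wt (hl : 0 < lam) (hz : 0 < z) (hp : 0 < p) (hq : 0 < q) {x : Om} (hx : x ∈ LS l) {t : ℤ}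
    (ht : zp sh t x ∈ Ctx l c) {v : List ℕ} (hv : Occ l x t v) :
    Wt (tw l lam c γ₀ p q) [] v * z ^ len l v =
      Real.exp (birkhoffSum sh (tF l lam c γ₀ p q z) (len l v) (zp sh t x)) := by
  have := log_Wt_gen (γ₀ := γ₀) hl hz hp hq hx ht v [] hv.start (by simpa using hv)
  simpa using this

lemma heavy_iff (hl : 0 < lam) (hz : 0 < z) (hp : 0 < p) (hq : 0 < q) {x : Om} (hx : x ∈ LS l)
    {t : ℤ} (ht : zp sh t x ∈ Ctx l c) {v : List ℕ} (hv : Occ l x t v) :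
    (z ^ len l v)⁻¹ ≤ Wt (tw l lam c γ₀ p q) [] v ↔
      0 ≤ birkhoffSum sh (tF l lam c γ₀ p q z) (len l v) (zp sh t x) := by
  rw [← Real.one_le_exp_iff, ← log_Wt hl hz hp hq hx ht hv, inv_eq_one_div,
    div_le_iff₀ (by positivity)]

lemma words_tB (hl : 0 < lam) (hz : 0 < z) (hp : 0 < p) (hq : 0 < q) {x : Om} (hx : x ∈ LS l) :
    Words l (tB l lam c γ₀ p q z) (tW l lam c γ₀ p q z) x := by
  intro t v hv0 hv ht ht' hbet
  have hpos := hv.pos hx
  refine ⟨hpos, ⟨hv0, (Ctx_iff hx ht.1 hv).1 ht'.1, ?_⟩, ?_⟩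
  · rw [heavy_iff hl hz hp hq hx ht.1 hv]
    have e : zp sh (-(len l v : ℤ)) (zp sh (t + len l v) x) = zp sh t x := by
      rw [← zp_add]; congr 1; ring
    have := ht'.2 (len l v) (by rw [e]; exact ht.1)
    rwa [e] at this
  · have key : ∀ n : ℕ, ∀ u : List ℕ, u.length = n → u <+: v →
        Heavy l lam c γ₀ p q z u → u = v := by
      intro n
      induction n using Nat.strong_induction_on with
      | _ n ih =>
        intro u hun huv hH
        by_contra hne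
        obtain ⟨w, rfl⟩ := huv
        have hw0 : w ≠ [] := fun h => hne (by rw [h, List.append_nil])
        obtain ⟨hu, -⟩ := occ_append.1 hv
        obtain ⟨hpu, hpw⟩ := pos_append.1 hpos
        have h1 := hpu.len_pos hH.1
        have h2 := hpw.len_pos hw0
        have hS := (heavy_iff hl hz hp hq hx ht.1 hu).1 hH.2.2
        refine hbet (t + len l u) (by omega) (by rw [len_append]; push_cast; omega)
          ⟨(Ctx_iff hx ht.1 hu).2 hH.2.1, fun k hk => ?_⟩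
        rcases le_or_gt (len l u) k with hle | hlt
        · obtain ⟨m, rfl⟩ : ∃ m, k = m + len l u := ⟨k - len l u, by omega⟩
          have e : zp sh (-((m + len l u : ℕ) : ℤ)) (zp sh (t + len l u) x) =
              zp sh (-(m : ℤ)) (zp sh t x) := by
            rw [← zp_add, ← zp_add]; congr 1; push_cast; ring
          rw [e] at hk ⊢
          rw [birkhoffSum_add, ← zp_natCast, zp_zp_neg]
          exact add_nonneg (ht.2 m hk) hS
        · rcases Nat.eq_zero_or_pos k with rfl | hk0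
          · simp
          have e : zp sh (-(k : ℤ)) (zp sh (t + len l u) x) = zp sh (t + len l u - k) x := by
            rw [← zp_add]; congr 1; ring
          rw [e] at hk ⊢
          have hst : (x (t + len l u - k)).2 = 0 := by
            have := Ctx_start hk
            rwa [zp_sh, zero_add] at this
          obtain ⟨u', γ, w', rfl, hs, -⟩ := Occ.split hx hu hst (by omega) (by omega)
          obtain ⟨hu', -⟩ := occ_append.1 hu
          rw [hs] at hk ⊢
          have hlen : len l (u' ++ γ :: w') = len l u' + k := by omega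
          have hnH : ¬ Heavy l lam c γ₀ p q z u' := by
            intro hH'
            have h3 := ih u'.length (by rw [← hun]; simp) u' rfl
              ⟨γ :: w' ++ w, by simp⟩ hH'
            have h4 := congrArg List.length h3
            simp at h4
          have hu0 : u' ≠ [] := by
            rintro rfl
            rw [len_nil] at hlen
            omega
          have h5 : ¬ 0 ≤ birkhoffSum sh (tF l lam c γ₀ p q z) (len l u') (zp sh t x) :=
            fun h => hnH ⟨hu0, (Ctx_iff hx ht.1 hu').1 hk,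
              (heavy_iff hl hz hp hq hx ht.1 hu').2 h⟩
          rw [hlen, birkhoffSum_add, ← zp_add_nat] at hS
          linarith [not_le.1 h5]
    exact fun u => key _ u rfl

end Pool.Agent.P.MP_1672e2_an

/-! The dichotomy: exceptional, or carried by a piece. -/

set_option autoImplicit false

namespace Pool.Agent.P.MP_1672e2_an

open MeasureTheory Set Metric Filter Topology

lemma dichB_exists_rat {g : ℝ → ℝ} {d : ℝ} (h0 : g 0 = 0) (hd : HasDerivAt g d 0) (h : d ≠ 0) :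
    ∃ s : ℚ, |(s : ℝ)| < 1 ∧ 0 < g s := by
  have ht := hasDerivAt_iff_tendsto_slope_zero.1 hd
  simp only [zero_add, h0, sub_zero, smul_eq_mul] at ht
  rcases lt_or_gt_of_ne h with hneg | hpos
  · have h1 : ∀ᶠ t in 𝓝[<] (0 : ℝ), t⁻¹ * g t < 0 :=
      (ht.mono_left (nhdsLT_le_nhdsNE 0)).eventually (gt_mem_nhds hneg)
    obtain ⟨a, ha, hs⟩ := mem_nhdsLT_iff_exists_Ioo_subset.1 h1
    obtain ⟨s, s1, s2⟩ := exists_rat_btwn (show max a (-1) < (0 : ℝ) from max_lt ha (by norm_num))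
    have s3 := lt_of_le_of_lt (le_max_left _ _) s1
    have s4 := lt_of_le_of_lt (le_max_right _ _) s1
    refine ⟨s, abs_lt.2 ⟨s4, by linarith⟩, ?_⟩
    have h2 : (s : ℝ)⁻¹ * g s < 0 := hs ⟨s3, s2⟩
    have h3 : (s : ℝ)⁻¹ < 0 := inv_lt_zero.2 s2
    by_contra hc
    push Not at hc
    have := mul_nonneg_of_nonpos_of_nonpos h3.le hc
    linarith
  · have h1 : ∀ᶠ t in 𝓝[>] (0 : ℝ), 0 < t⁻¹ * g t :=
      (ht.mono_left (nhdsGT_le_nhdsNE 0)).eventually (lt_mem_nhds hpos)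
    obtain ⟨a, ha, hs⟩ := mem_nhdsGT_iff_exists_Ioo_subset.1 h1
    obtain ⟨s, s1, s2⟩ := exists_rat_btwn (show (0 : ℝ) < min a 1 from lt_min ha one_pos)
    have s3 := lt_of_lt_of_le s2 (min_le_left _ _)
    have s4 := lt_of_lt_of_le s2 (min_le_right _ _)
    refine ⟨s, abs_lt.2 ⟨by linarith, s4⟩, ?_⟩
    have h2 : 0 < (s : ℝ)⁻¹ * g s := hs ⟨s1, s3⟩
    exact (pos_iff_pos_of_mul_pos h2).1 (inv_pos.2 s1)

lemma exists_tilt {e₀ e₁ P : ℝ} (hP : 0 < P) (hP' : P < 1) (h : e₁ ≠ P * e₀) :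
    ∃ s : ℚ, |(s : ℝ)| < 1 ∧
      0 < e₁ * Real.log (1 + s * (1 - P)) + (e₀ - e₁) * Real.log (1 - s * P) := by
  have h1 : HasDerivAt (fun s : ℝ => 1 + s * (1 - P)) (1 - P) 0 := by
    simpa using ((hasDerivAt_id (0 : ℝ)).mul_const (1 - P)).const_add 1
  have h2 : HasDerivAt (fun s : ℝ => 1 - s * P) (-P) 0 := by
    simpa using ((hasDerivAt_id (0 : ℝ)).mul_const P).const_sub 1
  have h3 := ((h1.log (by simp)).const_mul e₁).add ((h2.log (by simp)).const_mul (e₀ - e₁))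
  refine dichB_exists_rat
    (g := fun s : ℝ => e₁ * Real.log (1 + s * (1 - P)) + (e₀ - e₁) * Real.log (1 - s * P))
    (by simp) h3 ?_
  simp only [zero_mul, add_zero, sub_zero, div_one]
  intro hc
  apply h
  linarith

lemma dichB_tF_bd (l : ℕ → ℕ) (lam : ℝ) (c : List ℕ) (γ₀ : ℕ) (p q z : ℝ) (x : Om) :
    |tF l lam c γ₀ p q z x| ≤ |Real.log p| + |Real.log q| + |Real.log (lam / z)| := by
  have a1 := abs_nonneg (Real.log p)
  have a2 := abs_nonneg (Real.log q)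
  unfold tF
  refine (abs_sub _ _).trans (add_le_add ?_ le_rfl)
  split_ifs
  · linarith
  · linarith
  · rw [abs_zero]; linarith

lemma dichB_back {X : Type*} (e : X ≃ X) (F : X → ℝ) (ε : ℝ) (x : X) (n : ℕ) :
    birkhoffSum e.symm (fun y => ε - F (e.symm y)) n x =
      ε * n - birkhoffSum e F n (zp e (-n) x) := by
  induction n with
  | zero => simp [birkhoffSum_zero]
  | succ n ih =>
    have e1 : e (zp e (-((n + 1 : ℕ) : ℤ)) x) = zp e (-n) x := by
      rw [← zp_succ']; congr 1; push_cast; ring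
    have e2 : e.symm (e.symm^[n] x) = zp e (-((n + 1 : ℕ) : ℤ)) x := by
      rw [zp_neg_natCast, Function.iterate_succ_apply']
    rw [birkhoffSum_succ, ih, birkhoffSum_succ', e1, e2]
    push_cast
    ring

lemma dichB_min {A : ℕ → ℝ} {Q : ℕ → Prop} {ε C : ℝ} (hε : 0 < ε) (hA : ∀ n, ε * n - C ≤ A n)
    {n₀ : ℕ} (h0 : Q n₀) : ∃ n, Q n ∧ ∀ m, Q m → A n ≤ A m := by
  classical
  obtain ⟨N, hN⟩ := exists_nat_gt ((A n₀ + C) / ε)
  have hmem : n₀ ∈ (Finset.range (N + n₀ + 1)).filter Q := by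
    simp only [Finset.mem_filter, Finset.mem_range]; exact ⟨by omega, h0⟩
  obtain ⟨n, hn, hmin⟩ := Finset.exists_min_image ((Finset.range (N + n₀ + 1)).filter Q) A
    ⟨n₀, hmem⟩
  refine ⟨n, (Finset.mem_filter.1 hn).2, fun m hm => ?_⟩
  by_cases hlt : m < N + n₀ + 1
  · exact hmin m (Finset.mem_filter.2 ⟨Finset.mem_range.2 hlt, hm⟩)
  · have h1 : (N : ℝ) ≤ m := by exact_mod_cast (show N ≤ m by omega)
    have h2 := hmin n₀ hmem
    have h3 := hA m
    rw [div_lt_iff₀ hε] at hN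
    nlinarith

lemma dichB_meas_Ctx (l : ℕ → ℕ) (c : List ℕ) : MeasurableSet (Ctx l c) := measurableSet_occ _ _

lemma dichB_meas_E (γ₀ : ℕ) : MeasurableSet {x : Om | x 0 = (γ₀, 0)} :=
  (measurable_pi_apply (0 : ℤ) : Measurable fun x : Om => x 0)
    (measurableSet_singleton ((γ₀, 0) : ℕ × ℕ))

lemma tB_pos {l : ℕ → ℕ} {lam : ℝ} {c : List ℕ} {γ₀ : ℕ} {p q z : ℝ} {ν : Measure Om}
    [IsProbabilityMeasure ν] (he : Ergodic sh ν) (h0 : ν (Ctx l c) ≠ 0)
    (h : 0 < ∫ x, tF l lam c γ₀ p q z x ∂ν) : ν (tB l lam c γ₀ p q z) ≠ 0 := by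
  set F := tF l lam c γ₀ p q z with hF
  set ε := (∫ x, F x ∂ν) / 2 with hε
  have hε0 : 0 < ε := by positivity
  have hFm : Measurable F := measurable_tF
  have hs := ergodic_symm (e := (sh : Om ≃ Om)) measurable_sh_symm he
  have hFb := dichB_tF_bd l lam c γ₀ p q z
  have hm : Measurable fun y : Om => F (sh.symm y) := hFm.comp measurable_sh_symm
  have hint : Integrable (fun y : Om => F (sh.symm y)) ν :=
    Integrable.of_bound hm.aestronglyMeasurable _ (Eventually.of_forall fun y => hFb _)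
  have e1 : ∫ y, F (sh.symm y) ∂ν = ∫ y, F y ∂ν := by
    have := integral_map (μ := ν) (φ := (sh.symm : Om → Om)) measurable_sh_symm.aemeasurable
      (f := F) hFm.aestronglyMeasurable
    rw [hs.toMeasurePreserving.map_eq] at this
    exact this.symm
  have e2 : ∫ y, (ε - F (sh.symm y)) ∂ν < 0 := by
    rw [integral_sub (integrable_const _) hint, e1]
    simp only [integral_const, probReal_univ, smul_eq_mul, one_mul]
    linarith
  have hb := ae_bdd (g := fun y => ε - F (sh.symm y))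
    (K := |ε| + (|Real.log p| + |Real.log q| + |Real.log (lam / z)|)) hs (measurable_const.sub hm)
    (fun y => (abs_sub _ _).trans (add_le_add le_rfl (hFb _))) e2
  have hr : ∀ᵐ x ∂ν, Recur sh (Ctx l c) x :=
    ae_iff.2 (ae_recur he measurable_sh_symm (dichB_meas_Ctx l c) h0)
  refine ne_zero_of_visit he.toMeasurePreserving measurable_sh_symm measurableSet_tB ?_
  filter_upwards [hb, hr] with x hx hx'
  obtain ⟨C, hC⟩ := hx
  obtain ⟨t, ht, ht'⟩ := (hx' 0).2
  obtain ⟨n₀, rfl⟩ : ∃ n₀ : ℕ, t = -n₀ := ⟨(-t).toNat, by omega⟩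
  obtain ⟨n, hn, hmin⟩ := dichB_min (A := fun n => birkhoffSum sh F n (zp sh (-n) x))
    (Q := fun n => zp sh (-n) x ∈ Ctx l c) (C := C) hε0
    (fun n => by have := hC n; rw [dichB_back] at this; linarith) ht'
  refine ⟨-n, hn, fun m hm => ?_⟩
  have e3 : zp sh (-m) (zp sh (-n) x) = zp sh (-((m + n : ℕ) : ℤ)) x := by
    rw [← zp_add]; congr 1; push_cast; ring
  have e4 : sh^[m] (zp sh (-((m + n : ℕ) : ℤ)) x) = zp sh (-n) x := by
    rw [← zp_add_nat]; congr 1; push_cast; ring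
  rw [e3] at hm ⊢
  have h5 := hmin (m + n) hm
  simp only [birkhoffSum_add, e4] at h5
  linarith

lemma dichB_integral {l : ℕ → ℕ} {lam : ℝ} {c : List ℕ} {γ₀ : ℕ} {p q z : ℝ} {ν : Measure Om}
    [IsProbabilityMeasure ν] :
    ∫ x, tF l lam c γ₀ p q z x ∂ν =
      ν.real (Ctx l c ∩ {x | x 0 = (γ₀, 0)}) * Real.log p +
        (ν.real (Ctx l c) - ν.real (Ctx l c ∩ {x | x 0 = (γ₀, 0)})) * Real.log q -
          Real.log (lam / z) := by
  have hE := dichB_meas_E γ₀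
  have hC := dichB_meas_Ctx l c
  have e1 : (fun x => tF l lam c γ₀ p q z x) = fun x =>
      (Ctx l c ∩ {x | x 0 = (γ₀, 0)}).indicator (fun _ => Real.log p) x +
        (Ctx l c \ {x | x 0 = (γ₀, 0)}).indicator (fun _ => Real.log q) x -
          Real.log (lam / z) := by
    funext x
    by_cases h1 : x ∈ Ctx l c <;> by_cases h2 : x 0 = (γ₀, 0) <;> simp [tF, h1, h2]
  have i1 : Integrable ((Ctx l c ∩ {x | x 0 = (γ₀, 0)}).indicator fun _ => Real.log p) ν :=
    (integrable_const _).indicator (hC.inter hE)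
  have i2 : Integrable ((Ctx l c \ {x | x 0 = (γ₀, 0)}).indicator fun _ => Real.log q) ν :=
    (integrable_const _).indicator (hC.diff hE)
  have e2 := measureReal_inter_add_sdiff (μ := ν) (s := Ctx l c) hE
  have i3 : Integrable (fun x => (Ctx l c ∩ {x | x 0 = (γ₀, 0)}).indicator (fun _ => Real.log p) x +
      (Ctx l c \ {x | x 0 = (γ₀, 0)}).indicator (fun _ => Real.log q) x) ν := i1.add i2
  rw [e1, integral_sub i3 (integrable_const _), integral_add i1 i2,
    integral_indicator_const _ (hC.inter hE), integral_indicator_const _ (hC.diff hE)]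
  simp only [integral_const, probReal_univ, smul_eq_mul, one_mul]
  rw [← e2]
  ring

lemma dichB_one_lt {l : ℕ → ℕ} {lam : ℝ} (h1 : 1 ≤ lam) (hr : Rate l lam) {ν : Measure Om}
    [IsProbabilityMeasure ν] (hL : ν (LS l)ᶜ = 0) (ha : Aper sh ν) : 1 < lam := by
  rcases h1.lt_or_eq with h | rfl
  · exact h
  exfalso
  have hs : ∀ γ γ', 0 < l γ → 0 < l γ' → γ = γ' := by
    intro γ γ' a b
    by_contra hne
    have h2 := hr {γ, γ'}
    have h3 : ({γ, γ'} : Finset ℕ).filter (fun γ => 0 < l γ) = {γ, γ'} := by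
      apply Finset.filter_true_of_mem
      intro i hi
      rcases Finset.mem_insert.1 hi with rfl | hi
      · exact a
      · rw [Finset.mem_singleton.1 hi]; exact b
    rw [Phi, h3, Finset.sum_pair hne] at h2
    norm_num at h2
  have h4 : ν (LS l) = 0 := measure_mono_null (fun x hx => periodic_of_single hs hx) ha
  have h5 : ν univ = 0 := by
    rw [← union_compl_self (LS l)]
    exact measure_union_null h4 hL
  simp at h5

lemma dichB_piece {l : ℕ → ℕ} {lam : ℝ} (hr : Rate l lam)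
    (hc : ∀ z, 1 ≤ z → z < lam → ∃ F, 1 < Phi l F z) (c : List ℕ) {γ₀ : ℕ} {p q z : ℝ}
    (hγ : 0 < l γ₀) (hp : 0 < p) (hq : 0 < q)
    (h : (lam ^ l γ₀)⁻¹ * p + (1 - (lam ^ l γ₀)⁻¹) * q ≤ 1) (hz : 1 ≤ z) (hz' : z < lam) :
    ∃ pc, Piece l pc ∧ ∀ x ∈ LS l, Recur sh (tB l lam c γ₀ p q z) x →
      x ∈ pc.2.2.1 '' pc.2.1 := by
  classical
  have hl : 0 < lam := by linarith
  have hz0 : 0 < z := by linarith
  obtain ⟨D, h1, h2, h3, h4⟩ := reparse (l := l) (W := tW l lam c γ₀ p q z) (fun v hv => hv.1)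
    (B := tB l lam c γ₀ p q z) measurableSet_tB fun x hx => tB_start hx
  obtain ⟨F₀, hF₀⟩ := hc z hz hz'
  obtain ⟨F₁, hF₁⟩ := exists_gcd_finset l
  refine ⟨(wl l (tW l lam c γ₀ p q z), D, sub l dec, z, F₀ ∪ F₁), ⟨h1, h2, h3, hz,
    rate_tW hl hr hγ hp.le hq.le h, hF₀.trans_le (Phi_mono Finset.subset_union_left hz0), ?_⟩,
    fun x hx hx' => h4 x hx hx' (words_tB hl hz0 hp hq hx)⟩
  intro d hd γ
  have h5 := hF₁ d fun γ hγ => hd γ (Finset.mem_union_right _ hγ)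
  show d ∣ wl l (tW l lam c γ₀ p q z) γ
  unfold wl
  split_ifs
  · exact dvd_len fun γ _ => h5 γ
  · exact dvd_zero d

lemma dichB_pq {P s : ℝ} (hP : 0 < P) (hP' : P < 1) (hs : |s| < 1) :
    0 < 1 + s * (1 - P) ∧ 0 < 1 - s * P := by
  obtain ⟨h1, h2⟩ := abs_lt.1 hs
  constructor <;> nlinarith

lemma dichB_P {lam : ℝ} (h : 1 < lam) {k : ℕ} (hk : 0 < k) :
    0 < (lam ^ k)⁻¹ ∧ (lam ^ k)⁻¹ < 1 :=
  ⟨by positivity, inv_lt_one_of_one_lt₀ (one_lt_pow₀ h hk.ne')⟩

theorem dichotomy {l : ℕ → ℕ} {z₀ : ℝ} (h0 : 1 ≤ z₀) (h : Rate l z₀) :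
    ∃ (lam : ℝ) (S : Set ((ℕ → ℕ) × Set Om × (Om → Om) × ℝ × Finset ℕ)), S.Countable ∧
      (∀ p ∈ S, Piece l p) ∧ ∀ ν : Measure Om, IsProbabilityMeasure ν → Ergodic sh ν →
        ν (LS l)ᶜ = 0 → Aper sh ν → Exc l lam ν ∨ ∃ p ∈ S, ν (p.2.2.1 '' p.2.1)ᶜ = 0 := by
  obtain ⟨lam, h1, hr, hc⟩ := exists_crit h0 h
  have key : ∀ i : List ℕ × ℕ × ℚ × ℚ, ∃ pc : (ℕ → ℕ) × Set Om × (Om → Om) × ℝ × Finset ℕ,
      (0 < l i.2.1 ∧ |(i.2.2.1 : ℝ)| < 1 ∧ 1 ≤ (i.2.2.2 : ℝ) ∧ (i.2.2.2 : ℝ) < lam) →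
        Piece l pc ∧ ∀ x ∈ LS l, Recur sh (tB l lam i.1 i.2.1
          (1 + i.2.2.1 * (1 - (lam ^ l i.2.1)⁻¹)) (1 - i.2.2.1 * (lam ^ l i.2.1)⁻¹) i.2.2.2) x →
          x ∈ pc.2.2.1 '' pc.2.1 := by
    rintro ⟨c, γ₀, s, z⟩
    by_cases hv : 0 < l γ₀ ∧ |(s : ℝ)| < 1 ∧ 1 ≤ (z : ℝ) ∧ (z : ℝ) < lam
    · obtain ⟨a1, a2, a3, a4⟩ := hv
      obtain ⟨b1, b2⟩ := dichB_P (a3.trans_lt a4) a1
      obtain ⟨b3, b4⟩ := dichB_pq b1 b2 a2
      obtain ⟨pc, hpc⟩ := dichB_piece hr hc c a1 b3 b4 (le_of_eq (by ring)) a3 a4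
      exact ⟨pc, fun _ => hpc⟩
    · exact ⟨(l, ∅, id, 0, ∅), fun hv' => absurd hv' hv⟩
  choose f hf using key
  refine ⟨lam, f '' {i | 0 < l i.2.1 ∧ |(i.2.2.1 : ℝ)| < 1 ∧ 1 ≤ (i.2.2.2 : ℝ) ∧
    (i.2.2.2 : ℝ) < lam}, (Set.to_countable _).image f, ?_, ?_⟩
  · rintro _ ⟨i, hi, rfl⟩
    exact (hf i hi).1
  intro ν hν he hL ha
  by_cases hx : Exc l lam ν
  · exact Or.inl hx
  right
  have hl := dichB_one_lt h1 hr hL ha
  obtain ⟨c, γ₀, -, hγ, hne⟩ := exists_of_not_exc hx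
  obtain ⟨b1, b2⟩ := dichB_P hl hγ
  have hE := dichB_meas_E γ₀
  have hC := dichB_meas_Ctx l c
  have hmp := measurePreserving_zp (e := (sh : Om ≃ Om)) measurable_sh_symm
    he.toMeasurePreserving (len l c)
  have p0 : ∀ x : Om, zp sh (len l c) x ∈ Ctx l c ↔ Occ l x 0 c := by
    intro x
    show Occ l (zp sh (len l c) x) (-(len l c : ℤ)) c ↔ _
    rw [occ_zp, neg_add_cancel]
  have e0 : ν.real {x | Occ l x 0 c} = ν.real (Ctx l c) := by
    rw [measureReal_def, measureReal_def, ← hmp.measure_preimage hC.nullMeasurableSet]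
    congr 2
    ext x
    exact (p0 x).symm
  have e1 : ν.real {x | Occ l x 0 (c ++ [γ₀])} = ν.real (Ctx l c ∩ {x | x 0 = (γ₀, 0)}) := by
    rw [measureReal_def, measureReal_def, ← hmp.measure_preimage (hC.inter hE).nullMeasurableSet]
    congr 1
    apply measure_congr
    have hae : ∀ᵐ x ∂ν, x ∈ LS l := ae_iff.2 hL
    filter_upwards [hae] with x hx
    apply propext
    show Occ l x 0 (c ++ [γ₀]) ↔ zp sh (len l c) x ∈ Ctx l c ∧ zp sh (len l c) x 0 = (γ₀, 0)
    rw [occ_append, occ_single hx, p0, zp_sh]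
  rw [e0, e1] at hne
  have hne0 : ν (Ctx l c) ≠ 0 := by
    intro hz
    apply hne
    have : ν (Ctx l c ∩ {x | x 0 = (γ₀, 0)}) = 0 := measure_mono_null inter_subset_left hz
    simp [measureReal_def, hz, this]
  obtain ⟨s, hs, hg⟩ := exists_tilt b1 b2 hne
  set gs := ν.real (Ctx l c ∩ {x | x 0 = (γ₀, 0)}) * Real.log (1 + s * (1 - (lam ^ l γ₀)⁻¹)) +
    (ν.real (Ctx l c) - ν.real (Ctx l c ∩ {x | x 0 = (γ₀, 0)})) *
      Real.log (1 - s * (lam ^ l γ₀)⁻¹) with hgs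
  have hl0 : 0 < lam := by linarith
  have c1 : lam * Real.exp (-gs) < lam := by
    have : Real.exp (-gs) < 1 := Real.exp_lt_one_iff.2 (by linarith)
    nlinarith
  obtain ⟨z, z1, z2⟩ := exists_rat_btwn (max_lt hl c1)
  have z3 : (1 : ℝ) < z := lt_of_le_of_lt (le_max_left _ _) z1
  have z4 : lam * Real.exp (-gs) < z := lt_of_le_of_lt (le_max_right _ _) z1
  have z5 : Real.log (lam / z) < gs := by
    rw [Real.log_lt_iff_lt_exp (by positivity), div_lt_iff₀ (by linarith)]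
    have := mul_lt_mul_of_pos_right z4 (Real.exp_pos gs)
    rw [mul_assoc, ← Real.exp_add, neg_add_cancel, Real.exp_zero, mul_one] at this
    linarith
  have hv : 0 < l γ₀ ∧ |(s : ℝ)| < 1 ∧ 1 ≤ (z : ℝ) ∧ (z : ℝ) < lam := ⟨hγ, hs, z3.le, z2⟩
  have hB : ν (tB l lam c γ₀ (1 + s * (1 - (lam ^ l γ₀)⁻¹)) (1 - s * (lam ^ l γ₀)⁻¹) z) ≠ 0 := by
    refine tB_pos he hne0 ?_
    rw [dichB_integral]
    linarith
  have hR := ae_recur he measurable_sh_symm measurableSet_tB hB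
  refine ⟨f (c, γ₀, s, z), ⟨_, hv, rfl⟩, measure_mono_null ?_ (measure_union_null hL hR)⟩
  intro x hx
  by_contra hn
  simp only [mem_union, mem_compl_iff, not_or, not_not] at hn
  exact hx ((hf (c, γ₀, s, z) hv).2 x hn.1 hn.2)

end Pool.Agent.P.MP_1672e2_an

/-! Embedding of a guest into one host. -/

set_option autoImplicit false

namespace Pool.Agent.P.MP_1672e2_an

open MeasureTheory Set Metric Filter Topology

/-- In a code word the run occurs only at the beginning. -/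
lemma CW_run_first {r a b : ℕ} (hr : 0 < r) (hab : a ≠ b) {u u' s : List ℕ} (hc : CW r a b s)
    (e : s = u ++ (List.replicate r a ++ u')) : u = [] := by
  obtain ⟨⟨u₀, h0, hn⟩, -⟩ := hc
  by_contra hu
  rw [h0] at e
  rcases List.append_eq_append_iff.1 e.symm with ⟨c, h1, h2⟩ | ⟨c, h1, h2⟩
  · have hl : c.length < r := by
      have := congrArg List.length h1
      have h3 : 0 < u.length := List.length_pos_iff.2 hu
      simp only [List.length_replicate, List.length_append] at this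
      omega
    have h4 := congrArg (fun L : List ℕ => L[c.length]?) h2
    simp only [List.getElem?_append_right (le_refl c.length), Nat.sub_self,
      List.getElem?_cons_zero] at h4
    rw [List.getElem?_append_left (by simpa using hl), List.getElem?_replicate_of_lt hl] at h4
    exact hab (Option.some.inj h4)
  · cases c with
    | nil =>
      obtain ⟨k, rfl⟩ : ∃ k, r = k + 1 := ⟨r - 1, by omega⟩
      simp only [List.replicate_succ, List.nil_append, List.cons_append, List.cons.injEq] at h2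
      exact hab h2.1.symm
    | cons d c =>
      simp only [List.cons_append, List.cons.injEq] at h2
      exact hn ⟨c, u', by rw [h2.2, List.append_assoc]⟩

lemma run_start {l l' : ℕ → ℕ} {ω : ℕ → List ℕ} {r a b : ℕ} (hr : 0 < r) (hab : a ≠ b)
    (hω : ∀ γ, 0 < l' γ → Pos l (ω γ) ∧ len l (ω γ) = l' γ) (hc : ∀ γ, 0 < l' γ → CW r a b (ω γ))
    {y : Om} (hy : y ∈ LS l') (t : ℤ) :
    (Occ l (sub l ω y) t (List.replicate r a) ↔ (y t).2 = 0) ∧
      ¬ Occ l (sub l ω y) t (List.replicate (r + 1) a) := by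
  have hx : sub l ω y ∈ LS l := sub_mem hω hy
  rcases hyt : y t with ⟨g, j⟩
  have hj : j < l' g := by simpa [hyt] using LS_lt hy t
  have hg : 0 < l' g := by omega
  have h0 : y (t - j) = (g, 0) := LS_back hy hyt
  have hs : Occ l (sub l ω y) (t - j) (ω g) := sub_occ hω hy h0
  have A : Occ l (sub l ω y) t (List.replicate r a) → j = 0 := by
    intro h
    obtain ⟨u, γ, w, e1, e2, -⟩ := hs.split hx h.start (by omega) (by rw [(hω g hg).2]; omega)
    have h1 : Occ l (sub l ω y) t (γ :: w) := by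
      rw [e1, occ_append] at hs
      rw [e2]
      exact hs.2
    have hbm : b ∈ γ :: w := by
      obtain ⟨v, hv⟩ := (hc g hg).2
      have h2 := congrArg List.getLast? (e1.symm.trans hv)
      rw [List.getLast?_append_of_ne_nil _ (List.cons_ne_nil γ w)] at h2
      simp only [List.getLast?_append, List.getLast?_singleton, Option.some_or] at h2
      exact List.mem_of_getLast? h2
    rcases h.pre_or h1 with ⟨u', h2⟩ | h2
    · have : u = [] := CW_run_first hr hab (hc g hg) (by rw [e1, h2])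
      subst this
      simp only [len_nil, Nat.cast_zero, add_zero] at e2
      omega
    · exact absurd (List.eq_of_mem_replicate (h2.subset hbm)).symm hab
  obtain ⟨⟨u₀, e0, -⟩, -⟩ := hc g hg
  refine ⟨⟨A, fun h => ?_⟩, fun h => ?_⟩
  · have h' : j = 0 := h
    subst h'
    simp only [Nat.cast_zero, sub_zero] at hs
    rw [e0, occ_append] at hs
    exact hs.1
  · rw [List.replicate_succ'] at h
    have h' : j = 0 := A (occ_append.1 h).1
    subst h'
    simp only [Nat.cast_zero, sub_zero] at hs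
    rw [e0] at hs
    rcases h.pre_or hs with h2 | h2
    · rw [List.prefix_append_right_inj, List.cons_prefix_cons] at h2
      exact hab h2.1
    · rw [List.prefix_append_right_inj, List.cons_prefix_cons] at h2
      exact hab h2.1.symm

theorem hotel1 {l l' : ℕ → ℕ} {F : Finset ℕ} {z : ℝ} (h : Fit l F l' z) {a b : ℕ}
    (ha : a ∈ F) (hb : b ∈ F) (hab : a ≠ b) (ha' : 0 < l a) (hb' : 0 < l b) {w : List ℕ}
    (hw : Pos l w) (hw' : ∀ γ ∈ w, γ ∈ F) : ∃ r₀, ∀ r, r₀ ≤ r → ∃ (D : Set Om) (α : Om → Om),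
      Emb sh sh D α ∧ D ⊆ LS l' ∧ (∀ ν : Measure Om, IsProbabilityMeasure ν → Ergodic sh ν →
        ν (LS l')ᶜ = 0 → Aper sh ν → ν Dᶜ = 0) ∧ ∀ y ∈ D, α y ∈ LSF l F ∧
        (∃ t, Occ l (α y) t w) ∧ (∃ t, Occ l (α y) t (List.replicate r a)) ∧
        ∀ t, ¬ Occ l (α y) t (List.replicate (r + 1) a) := by
  obtain ⟨r₀, hr₀⟩ := exists_code h ha hb hab ha' hb' hw hw'
  refine ⟨max r₀ 1, fun r hr => ?_⟩
  have hr0 : 0 < r := lt_of_lt_of_le one_pos ((le_max_right _ _).trans hr)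
  obtain ⟨n₁, ω, hinj, hω⟩ := hr₀ r ((le_max_left _ _).trans hr)
  obtain ⟨B, hB, hB', hgap, hrec⟩ := marker l' n₁
  set W : Set (List ℕ) := {v | Pos l' v ∧ n₁ ≤ len l' v} with hWdef
  have hW : ∀ v ∈ W, Pos l' v := fun v hv => hv.1
  obtain ⟨D, hD, hDL, hDm, hDw⟩ := reparse hW hB hB'
  obtain ⟨β, hβ, hβi⟩ := hD.exists_inv
  have key : ∀ γ, 0 < wl l' W γ → (Pos l (ω (dec γ)) ∧ len l (ω (dec γ)) = wl l' W γ) ∧
      (∀ δ ∈ ω (dec γ), δ ∈ F) ∧ CW r a b (ω (dec γ)) ∧ w <:+: ω (dec γ) := by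
    intro γ hγ
    obtain ⟨h1, h2, h3⟩ := wl_pos hW γ hγ
    obtain ⟨k1, k2, k3, k4, k5⟩ := hω _ h2 h1.2
    exact ⟨⟨k1, k2.trans h3⟩, k3, k4, k5⟩
  have hω' : ∀ γ, 0 < wl l' W γ →
      Pos l ((ω ∘ dec) γ) ∧ len l ((ω ∘ dec) γ) = wl l' W γ := fun γ hγ => (key γ hγ).1
  have hc' : ∀ γ, 0 < wl l' W γ → CW r a b ((ω ∘ dec) γ) := fun γ hγ => (key γ hγ).2.2.1
  have hi' : InjOn (ω ∘ dec) {γ | 0 < wl l' W γ} := fun γ hγ γ' hγ' e =>
    dec_bijective.1 (hinj (wl_pos hW γ hγ).1 (wl_pos hW γ' hγ').1 e)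
  have hE : Emb sh sh (LS (wl l' W)) (sub l (ω ∘ dec)) := by
    refine ⟨measurable_sub, measurableSet_LS, fun _ => LS_sh, fun y hy y' hy' e => ?_,
      fun _ _ => sub_sh⟩
    refine sub_inj hω' hi' hy hy' (fun t => ?_) e
    rw [← (run_start hr0 hab hω' hc' hy t).1, ← (run_start hr0 hab hω' hc' hy' t).1, e]
  have hm : MapsTo β (sub l' dec '' D) (LS (wl l' W)) := by
    rintro _ ⟨y, hy, rfl⟩
    rw [hβi y hy]
    exact hDL hy
  refine ⟨sub l' dec '' D, sub l (ω ∘ dec) ∘ β, hβ.comp hE hm, ?_, ?_, ?_⟩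
  · rintro _ ⟨y, hy, rfl⟩
    exact hDm hy
  · intro ν h1 h2 h3 h4
    refine measure_mono_null (t := (LS l')ᶜ ∪ {x | Recur sh B x}ᶜ) (fun x hx => ?_)
      (measure_union_null h3 (hrec ν h1 h2 h3 h4))
    by_contra hn
    simp only [mem_union, mem_compl_iff, mem_ofPred_eq, not_or, not_not] at hn
    refine hx (hDw x hn.1 hn.2 fun t v hv ho b1 b2 _ => ⟨ho.pos hn.1, ?_⟩)
    by_contra hlt
    have hp : 0 < len l' v := (ho.pos hn.1).len_pos hv
    refine hgap _ b1 (len l' v) (by exact_mod_cast hp) (by exact_mod_cast not_le.1 hlt) ?_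
    rw [← zp_add, add_comm]
    exact b2
  · rintro _ ⟨y, hy, rfl⟩
    have hy' : y ∈ LS (wl l' W) := hDL hy
    simp only [Function.comp_apply, hβi y hy]
    obtain ⟨t, -, ht⟩ := (LS_starts hy' 0).1
    refine ⟨⟨sub_mem hω' hy', fun s => ?_⟩, ?_, ⟨t, (run_start hr0 hab hω' hc' hy' t).1.2 ht⟩,
      fun s => (run_start hr0 hab hω' hc' hy' s).2⟩
    · have h1 := LS_lt hy' s
      have h2 : 0 < wl l' W (y s).1 := by omega
      refine (key _ h2).2.1 _ (vtx_mem ?_)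
      rw [(key _ h2).1.2]
      exact h1
    · have h1 := LS_lt hy' t
      have h2 : 0 < wl l' W (y t).1 := by omega
      have h3 : Occ l (sub l (ω ∘ dec) y) t (ω (dec (y t).1)) :=
        sub_occ hω' hy' (Prod.ext rfl ht)
      obtain ⟨u, u', e⟩ := (key _ h2).2.2.2
      rw [← e, occ_append, occ_append] at h3
      exact ⟨_, h3.1.2⟩

end Pool.Agent.P.MP_1672e2_an

/-! Hosts contained in hosts. -/

set_option autoImplicit false

namespace Pool.Agent.P.MP_1672e2_an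

open MeasureTheory Set Metric Filter Topology

variable {M : Type*} [TopologicalSpace M] [MeasurableSpace M] {T : M ≃ M} {l l₂ : ℕ → ℕ}
  {π π₂ : Om → M} {F F₂ : Finset ℕ}

/-- A periodic point is determined by one period. -/
lemma incl_per_eq {x x' : Om} {u : List ℕ} {s : ℤ} (hx : x ∈ LS l) (hx' : x' ∈ LS l)
    (hn : 0 < len l u) (hp : zp sh (len l u) x = x) (hp' : zp sh (len l u) x' = x')
    (ho : Occ l x s u) (ho' : Occ l x' s u) : x = x' := by
  have per : ∀ y : Om, zp sh (len l u) y = y → Function.Periodic y (len l u : ℤ) := by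
    intro y hy t
    have := congrFun hy t
    rwa [zp_sh] at this
  have hn' : (0 : ℤ) < len l u := by exact_mod_cast hn
  funext t
  have h0 : 0 ≤ (t - s) % (len l u : ℤ) := Int.emod_nonneg _ hn'.ne'
  have h1 : (t - s) % (len l u : ℤ) < len l u := Int.emod_lt_of_pos _ hn'
  obtain ⟨j, hj⟩ := Int.eq_ofNat_of_zero_le h0
  have hj' : j < len l u := by rw [hj] at h1; exact_mod_cast h1
  have e : t = s + j + (t - s) / (len l u : ℤ) * (len l u : ℤ) := by
    have := Int.emod_add_ediv_mul (t - s) (len l u : ℤ)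
    rw [hj] at this
    linarith
  have per2 : ∀ y : Om, zp sh (len l u) y = y → ∀ q a : ℤ,
      y (a + q * (len l u : ℤ)) = y a := fun y hy q a => by
    simpa using (per y hy).int_mul q a
  rw [e, per2 x hp, per2 x' hp', ho.vtx hx hj', ho'.vtx hx' hj']

/-- The periodic point of a list, read in the second host. -/
lemma incl_key (h : Coding T l π) (h₂ : Coding T l₂ π₂)
    (hs : π '' LSF l F ⊆ π₂ '' LSF l₂ F₂) {v : List ℕ} (hv : Pos l v) (h0 : v ≠ [])
    (hF : ∀ γ ∈ v, γ ∈ F) : ∃ (j : ℕ) (u : List ℕ), j < F₂.sup l₂ ∧ Pos l₂ u ∧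
      len l₂ u = len l v ∧ (∀ γ ∈ u, γ ∈ F₂) ∧ ∃ x ∈ LS l, ∃ y ∈ LS l₂, Occ l x 0 v ∧
        π x = π₂ y ∧ zp sh (len l₂ u) y = y ∧ Occ l₂ y (-(j : ℤ)) u := by
  obtain ⟨x, hx, ho, hp, hm⟩ := exists_per hv h0
  obtain ⟨y, hy, e⟩ := hs ⟨x, ⟨hx, fun t => hF _ (hm t)⟩, rfl⟩
  have hpy : zp sh (len l v) y = y := by
    apply h₂.emb.inj ((LS_zp _).2 hy.1) hy.1
    rw [h₂.emb.zp _ hy.1, e, ← h.emb.zp _ hx, hp]
  have hb : y (0 - ((y 0).2 : ℤ)) = ((y 0).1, 0) := LS_back hy.1 rfl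
  have hs0 : (y (-((y 0).2 : ℤ))).2 = 0 := by
    rw [zero_sub] at hb
    rw [hb]
  have hs1 : (y (-((y 0).2 : ℤ) + len l v)).2 = 0 := by
    have := congrFun hpy (-((y 0).2 : ℤ))
    rw [zp_sh] at this
    rw [this, hs0]
  obtain ⟨u, hu, hl⟩ := exists_occ hy.1 hs0 hs1 (by omega)
  have hl' : len l₂ u = len l v := by omega
  refine ⟨(y 0).2, u, (LS_lt hy.1 0).trans_le (Finset.le_sup (hy.2 0)), hu.pos hy.1, hl', ?_,
    x, hx, y, hy.1, ho, e.symm, by rw [hl']; exact hpy, hu⟩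
  intro γ hγ
  obtain ⟨s, hs⟩ := hu.mem hγ
  have := hy.2 s
  rwa [hs] at this

lemma fit_of_subset (h : Coding T l π) (h₂ : Coding T l₂ π₂)
    (hs : π '' LSF l F ⊆ π₂ '' LSF l₂ F₂) {l' : ℕ → ℕ} {z : ℝ} (hf : Fit l F l' z) :
    Fit l₂ F₂ l' z := by
  classical
  obtain ⟨hz, hr, hP, hd⟩ := hf
  have hz0 : 0 < z := by linarith
  refine ⟨hz, hr, ?_, fun d hd₂ => hd d fun γ hγ => ?_⟩
  · by_contra hc
    rw [not_lt] at hc
    obtain ⟨N, g, S, hN, hS, hK⟩ := growth hz0 hP (F₂.sup l₂ : ℕ)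
    have hne : ∀ v ∈ S, v ≠ [] := by
      intro v hv e
      have := (hS v hv).1
      rw [e] at this
      simp at this
      omega
    choose! j u hj hu hl hm hw using fun v (hv : v ∈ S) =>
      incl_key h h₂ hs (hS v hv).2.2.1 (hne v hv) (hS v hv).2.2.2
    have hU : ((S.image u).card : ℝ) ≤ z ^ g := by
      refine card_le_of_Phi (l := l₂) (A := (F₂ : Set ℕ)) hz0
        (fun F' hF' => (Phi_mono (fun γ hγ => hF' γ hγ) hz0).trans hc) g _ ?_
      intro w hw'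
      obtain ⟨v, hv, rfl⟩ := Finset.mem_image.1 hw'
      exact ⟨hu v hv, (hl v hv).trans (hS v hv).2.1, hm v hv⟩
    have hcard : S.card ≤ (Finset.range (F₂.sup l₂) ×ˢ S.image u).card := by
      refine Finset.card_le_card_of_injOn (fun v => (j v, u v)) ?_ ?_
      · intro v hv
        have hv' : v ∈ S := hv
        exact Finset.mem_coe.2 (Finset.mem_product.2
          ⟨Finset.mem_range.2 (hj v hv'), Finset.mem_image_of_mem _ hv'⟩)
      · intro v hv v' hv' e
        have hv1 : v ∈ S := hv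
        have hv2 : v' ∈ S := hv'
        have e1 : j v = j v' := congrArg Prod.fst e
        have e2 : u v = u v' := congrArg Prod.snd e
        obtain ⟨x, hx, y, hy, ho, hπ, hp, hoy⟩ := hw v hv1
        obtain ⟨x', hx', y', hy', ho', hπ', hp', hoy'⟩ := hw v' hv2
        rw [← e1, ← e2] at hoy'
        rw [← e2] at hp'
        have hpos : 0 < len l₂ (u v) := by
          rw [hl v hv1]
          exact (hS v hv1).2.2.1.len_pos (hne v hv1)
        have eyy : y = y' := incl_per_eq hy hy' hpos hp hp' hoy hoy'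
        have exx : x = x' := h.emb.inj hx hx' (by rw [hπ, hπ', eyy])
        rw [← exx] at ho'
        exact ho.unique hx ho' ((hS v hv1).2.1.trans (hS v' hv2).2.1.symm)
    rw [Finset.card_product, Finset.card_range] at hcard
    have h1 : (S.card : ℝ) ≤ ((F₂.sup l₂ : ℕ) : ℝ) * (S.image u).card := by exact_mod_cast hcard
    have h2 : ((F₂.sup l₂ : ℕ) : ℝ) * (S.image u).card ≤ ((F₂.sup l₂ : ℕ) : ℝ) * z ^ g :=
      mul_le_mul_of_nonneg_left hU (Nat.cast_nonneg _)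
    linarith
  · rcases Nat.eq_zero_or_pos (l γ) with h0 | h0
    · rw [h0]; exact dvd_zero d
    · obtain ⟨j, u, -, -, hl, hm, -⟩ := incl_key (v := [γ]) h h₂ hs (by simpa using h0)
        (by simp) (by simpa using hγ)
      have : d ∣ len l₂ u := dvd_len fun δ hδ => hd₂ δ (hm δ hδ)
      rw [hl] at this
      simpa using this

lemma exists_word [T2Space M] (h : Coding T l π) (h₂ : Coding T l₂ π₂)
    (hs : ¬ π '' LSF l F ⊆ π₂ '' LSF l₂ F₂) : ∃ w, Pos l w ∧ (∀ γ ∈ w, γ ∈ F) ∧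
      ∀ x ∈ LS l, ∀ t, Occ l x t w → π x ∉ π₂ '' LSF l₂ F₂ := by
  obtain ⟨_, ⟨x₀, hx₀, rfl⟩, hn⟩ := not_subset.1 hs
  have hcl : IsClosed (π₂ '' LSF l₂ F₂) :=
    ((isCompact_LSF F₂).image_of_continuousOn (h₂.cont.mono fun _ hx => hx.1)).isClosed
  have h1 : π ⁻¹' (π₂ '' LSF l₂ F₂)ᶜ ∈ 𝓝[LS l] x₀ :=
    h.cont x₀ hx₀.1 (hcl.isOpen_compl.mem_nhds hn)
  obtain ⟨U, hU, hUs⟩ := mem_nhdsWithin_iff_exists_mem_nhds_inter.1 h1
  rw [nhds_pi, Filter.mem_pi] at hU
  obtain ⟨I, hI, V, hV, hVU⟩ := hU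
  obtain ⟨a, ha⟩ := hI.bddBelow
  obtain ⟨b, hb⟩ := hI.bddAbove
  obtain ⟨t₀, w, ht₀, hw, ho⟩ := exists_cover hx₀.1 a b
  refine ⟨w, ho.pos hx₀.1, fun γ hγ => ?_, fun x hx t hox hmem => ?_⟩
  · obtain ⟨s, hs⟩ := ho.mem hγ
    have := hx₀.2 s
    rwa [hs] at this
  · have hy : zp sh (t - t₀) x ∈ LS l := (LS_zp _).2 hx
    have hoy : Occ l (zp sh (t - t₀) x) t₀ w := by
      rw [occ_zp, show t₀ + (t - t₀) = t by ring]
      exact hox
    have hyU : zp sh (t - t₀) x ∈ U := by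
      apply hVU
      intro i hi
      have h2 := ha hi
      have h3 := hb hi
      obtain ⟨j, hj⟩ := Int.eq_ofNat_of_zero_le (show 0 ≤ i - t₀ by omega)
      have hj' : j < len l w := by omega
      have e : i = t₀ + j := by omega
      have : zp sh (t - t₀) x i = x₀ i := by
        rw [e, hoy.vtx hy hj', ho.vtx hx₀.1 hj']
      rw [this]
      exact mem_of_mem_nhds (hV i)
    have h4 : π (zp sh (t - t₀) x) ∉ π₂ '' LSF l₂ F₂ := hUs ⟨hyU, hy⟩
    rw [h.emb.zp _ hx] at h4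
    exact h4 ((inv_zp (h₂.emb.inv_image (fun _ hx => hx.1) fun _ => LSF_sh) _ _).2 hmem)

end Pool.Agent.P.MP_1672e2_an

/-! Disjoint embeddings of all guests. -/

set_option autoImplicit false

namespace Pool.Agent.P.MP_1672e2_an

open MeasureTheory Set Metric Filter Topology

lemma hotel_word {M : Type*} [TopologicalSpace M] [T2Space M] [MeasurableSpace M] {T : M ≃ M}
    {J : Type*} {l : J → ℕ → ℕ} {π : J → Om → M} {F : J → Finset ℕ}
    (hc : ∀ i, Coding T (l i) (π i)) {e : J → ℕ} (he : Function.Injective e) (j : J) (n : ℕ) :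
    ∃ w, Pos (l j) w ∧ (∀ γ ∈ w, γ ∈ F j) ∧ ∀ j', e j' < n →
      ¬ π j '' LSF (l j) (F j) ⊆ π j' '' LSF (l j') (F j') →
      ∀ x ∈ LS (l j), ∀ t, Occ (l j) x t w → π j x ∉ π j' '' LSF (l j') (F j') := by
  induction n with
  | zero => exact ⟨[], pos_nil, by simp, fun j' h => absurd h (Nat.not_lt_zero _)⟩
  | succ n ih =>
    obtain ⟨w, hw, hwF, hwj⟩ := ih
    by_cases hex : ∃ j', e j' = n ∧ ¬ π j '' LSF (l j) (F j) ⊆ π j' '' LSF (l j') (F j')
    · obtain ⟨j₀, hj₀, hns⟩ := hex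
      obtain ⟨w', hw', hw'F, hw'j⟩ := exists_word (hc j) (hc j₀) hns
      refine ⟨w ++ w', pos_append.2 ⟨hw, hw'⟩, ?_, ?_⟩
      · intro γ hγ
        rcases List.mem_append.1 hγ with h | h
        · exact hwF γ h
        · exact hw'F γ h
      · intro j' hj' hn x hx t ho
        rw [occ_append] at ho
        rcases Nat.lt_succ_iff_lt_or_eq.1 hj' with h | h
        · exact hwj j' h hn x hx t ho.1
        · have : j' = j₀ := he (h.trans hj₀.symm)
          subst this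
          exact hw'j x hx _ ho.2
    · refine ⟨w, hw, hwF, fun j' hj' hn => ?_⟩
      rcases Nat.lt_succ_iff_lt_or_eq.1 hj' with h | h
      · exact hwj j' h hn
      · exact absurd ⟨j', h, hn⟩ hex

lemma occ_replicate_le {l : ℕ → ℕ} {x : Om} {t : ℤ} {a r r' : ℕ} (h : r ≤ r')
    (ho : Occ l x t (List.replicate r' a)) : Occ l x t (List.replicate r a) := by
  obtain ⟨k, rfl⟩ := Nat.exists_eq_add_of_le h
  rw [List.replicate_add, occ_append] at ho
  exact ho.1

theorem hotel {M : Type*} [TopologicalSpace M] [T2Space M] [MeasurableSpace M] {T : M ≃ M}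
    {J : Type*} [Countable J] {l l' : J → ℕ → ℕ} {π : J → Om → M} {F : J → Finset ℕ} {z : J → ℝ}
    (hc : ∀ i, Coding T (l i) (π i)) (hf : ∀ i, Fit (l i) (F i) (l' i) (z i)) :
    ∃ (D : J → Set Om) (α : J → ℕ → Om → M), (∀ i c, Emb sh T (D i) (α i c)) ∧
      (∀ i, D i ⊆ LS (l' i)) ∧ (Pairwise fun p q : J × ℕ =>
        Disjoint (α p.1 p.2 '' D p.1) (α q.1 q.2 '' D q.1)) ∧
      ∀ i (ν : Measure Om), IsProbabilityMeasure ν → Ergodic sh ν → ν (LS (l' i))ᶜ = 0 →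
        Aper sh ν → ν (D i)ᶜ = 0 := by
  classical
  obtain ⟨e, he⟩ := exists_injective_nat J
  -- hosts
  have hhost : ∀ i, ∃ j, Fit (l j) (F j) (l' i) (z i) ∧
      ∀ j', Fit (l j') (F j') (l' i) (z i) → e j ≤ e j' := by
    intro i
    have hex : ∃ n, ∃ j, e j = n ∧ Fit (l j) (F j) (l' i) (z i) := ⟨e i, i, rfl, hf i⟩
    obtain ⟨j, hj, hfit⟩ := Nat.find_spec hex
    exact ⟨j, hfit, fun j' h' => hj ▸ Nat.find_min' hex ⟨j', rfl, h'⟩⟩
  choose host hfit hmin using hhost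
  choose w hw hwF hwj using fun j => hotel_word (F := F) hc he j (e j)
  choose a ha b hb hab ha' hb' using fun j => two_loops (hf j).1 (hf j).2.2.1
  choose r₀ hr₀ using fun i => hotel1 (hfit i) (ha (host i)) (hb (host i)) (hab (host i))
    (ha' (host i)) (hb' (host i)) (hw (host i)) (hwF (host i))
  let r : J → ℕ → ℕ := fun i c => Nat.pair (Nat.pair (e i) c) (r₀ i)
  have hr : ∀ i c, r₀ i ≤ r i c := fun i c => Nat.right_le_pair _ _
  have hrinj : ∀ i c i' c', r i c = r i' c' → i = i' ∧ c = c' := by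
    intro i c i' c' h
    have h1 := (Nat.pair_eq_pair.1 h).1
    have h2 := Nat.pair_eq_pair.1 h1
    exact ⟨he h2.1, h2.2⟩
  choose D h hemb hsub hfull hy using fun i c => hr₀ i (r i c) (hr i c)
  have hmeas : ∀ i, MeasurableSet (⋂ c, D i c) := fun i =>
    MeasurableSet.iInter fun c => (hemb i c).dom
  have hinv : ∀ i x, sh x ∈ (⋂ c, D i c) ↔ x ∈ ⋂ c, D i c := by
    intro i x
    simp only [mem_iInter]
    exact forall_congr' fun c => (hemb i c).inv x
  -- different hosts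
  have hdiff : ∀ i c i' c', e (host i') < e (host i) → ∀ y ∈ D i c, ∀ y' ∈ D i' c',
      π (host i) (h i c y) ≠ π (host i') (h i' c' y') := by
    intro i c i' c' hlt y hyD y' hy'D heq
    have hns : ¬ π (host i) '' LSF (l (host i)) (F (host i)) ⊆
        π (host i') '' LSF (l (host i')) (F (host i')) := fun hs =>
      absurd (hmin i _ (fit_of_subset (hc _) (hc _) hs (hfit i))) (not_le.2 hlt)
    obtain ⟨hm, ⟨t, ht⟩, -⟩ := hy i c y hyD
    exact hwj (host i) (host i') hlt hns _ hm.1 t ht ⟨_, (hy i' c' y' hy'D).1, heq.symm⟩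
  -- same host
  have hsame : ∀ i c i' c', host i = host i' → r i c < r i' c' → ∀ y ∈ D i c, ∀ y' ∈ D i' c',
      π (host i) (h i c y) ≠ π (host i') (h i' c' y') := by
    intro i c i' c' hh hlt y hyD y' hy'D heq
    obtain ⟨hm, -, -, hno⟩ := hy i c y hyD
    obtain ⟨hm', -, ⟨t, ht⟩, -⟩ := hy i' c' y' hy'D
    rw [← hh] at hm' ht heq
    have hxx : h i c y = h i' c' y' := (hc (host i)).emb.inj hm.1 hm'.1 heq
    rw [← hxx] at ht
    exact hno t (occ_replicate_le hlt ht)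
  refine ⟨fun i => ⋂ c, D i c, fun i c => π (host i) ∘ h i c, ?_, ?_, ?_, ?_⟩
  · intro i c
    refine Emb.comp ((hemb i c).mono (hmeas i) (iInter_subset _ c) (hinv i)) (hc (host i)).emb ?_
    intro y hyD
    exact (hy i c y (mem_iInter.1 hyD c)).1.1
  · intro i
    exact (iInter_subset _ 0).trans (hsub i 0)
  · rintro ⟨i, c⟩ ⟨i', c'⟩ hne
    rw [Set.disjoint_left]
    rintro m ⟨y, hyD, rfl⟩ ⟨y', hy'D, heq⟩
    have h1 : y ∈ D i c := mem_iInter.1 hyD c
    have h2 : y' ∈ D i' c' := mem_iInter.1 hy'D c'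
    simp only [Function.comp_apply] at heq
    rcases lt_trichotomy (e (host i)) (e (host i')) with hl | hl | hl
    · exact hdiff i' c' i c hl y' h2 y h1 heq
    · have hh : host i = host i' := he hl
      rcases lt_trichotomy (r i c) (r i' c') with hr' | hr' | hr'
      · exact hsame i c i' c' hh hr' y h1 y' h2 heq.symm
      · obtain ⟨rfl, rfl⟩ := hrinj i c i' c' hr'
        exact hne rfl
      · exact hsame i' c' i c hh.symm hr' y' h2 y h1 heq
    · exact hdiff i c i' c' hl y h1 y' h2 heq.symm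
  · intro i ν hν herg hLS hap
    rw [compl_iInter]
    exact measure_iUnion_null fun c => hfull i c ν hν herg hLS hap

end Pool.Agent.P.MP_1672e2_an

/-! A countable union of coded sets is a Markov shift, up to zero entropy. -/

set_option autoImplicit false

namespace Pool.Agent.P.MP_1672e2_an

open MeasureTheory Set Metric Filter Topology

section

variable {Y : Type*} [MeasurableSpace Y] {T : Y ≃ Y}

lemma first_full {J : Type*} (e : J → ℕ) {μ : Measure Y} (he : Ergodic T μ) {P : J → Set Y}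
    (h1 : ∀ j, MeasurableSet (P j)) (h2 : ∀ j y, T y ∈ P j ↔ y ∈ P j) {R : J → Prop}
    (h : ∃ j, R j ∧ μ (P j)ᶜ = 0) :
    ∃ i, R i ∧ μ (P i)ᶜ = 0 ∧ ∀ j, R j → e j < e i → μ (P j) = 0 := by
  obtain ⟨i, hi, hm⟩ := (InvImage.wf e wellFounded_lt).has_min {j | R j ∧ μ (P j)ᶜ = 0} h
  exact ⟨i, hi.1, hi.2, fun j hj hl => (erg_dich he (h1 j) (h2 j)).resolve_right
    fun h0 => hm j ⟨hj, h0⟩ hl⟩

lemma side {J : Type*} {D A : J → Set Om} {α : J → ℕ → Om → Y} {a : J → Om → Y} {N : ℕ → Set Om}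
    {n : ℕ → Om → Y} (hα : ∀ i c, Emb sh T (D i) (α i c)) (ha : ∀ i, Emb sh T (A i) (a i))
    (hn : ∀ k, Emb sh T (N k) (n k)) (hA : ∀ i, A i ⊆ D i)
    (d1 : Pairwise fun p q : J × ℕ => Disjoint (α p.1 p.2 '' D p.1) (α q.1 q.2 '' D q.1))
    (d2 : Pairwise fun i j => Disjoint (a i '' A i) (a j '' A j))
    (d3 : Pairwise fun i j => Disjoint (n i '' N i) (n j '' N j))
    (d4 : ∀ i j c, Disjoint (a i '' A i) (α j c '' D j))
    (d5 : ∀ k j c, Disjoint (n k '' N k) (α j c '' D j))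
    (d6 : ∀ k i, Disjoint (n k '' N k) (a i '' A i)) :
    ∃ γ : ℕ ⊕ J × ℕ → Om → Y, (∀ j, Emb sh T (Sum.elim N (fun p => D p.1) j) (γ j)) ∧
      (Pairwise fun i j => Disjoint (γ i '' Sum.elim N (fun p => D p.1) i)
        (γ j '' Sum.elim N (fun p => D p.1) j)) ∧
      ∀ y, y ∈ (⋃ j, γ j '' Sum.elim N (fun p => D p.1) j) ↔ (∃ k, y ∈ n k '' N k) ∨
        ∃ i, (∃ c, y ∈ α i c '' D i) ∨ y ∈ a i '' A i := by
  choose V v1 v2 v3 using fun i => absorb (hα i)
    (fun c c' h => d1 (i := (i, c)) (j := (i, c')) (by simpa)) (ha i) (hA i) (d4 i i)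
  have v4 : ∀ i y, (∃ c, y ∈ V i c '' D i) ↔ (∃ c, y ∈ α i c '' D i) ∨ y ∈ a i '' A i :=
    fun i y => by simpa only [mem_iUnion, mem_union] using Set.ext_iff.1 (v3 i) y
  have v5 : ∀ k i c, Disjoint (n k '' N k) (V i c '' D i) := fun k i c =>
    Set.disjoint_left.2 fun y h1 h2 => by
      rcases (v4 i y).1 ⟨c, h2⟩ with ⟨c', h⟩ | h
      · exact Set.disjoint_left.1 (d5 k i c') h1 h
      · exact Set.disjoint_left.1 (d6 k i) h1 h
  refine ⟨Sum.elim n fun p => V p.1 p.2, ?_, ?_, fun y => ?_⟩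
  · rintro (k | ⟨i, c⟩)
    exacts [hn k, v1 i c]
  · rintro (k | ⟨i, c⟩) (k' | ⟨i', c'⟩) h
    · exact d3 fun e => h (by rw [e])
    · exact v5 k i' c'
    · exact (v5 k' i c).symm
    · by_cases e : i = i'
      · subst e
        exact v2 i fun e => h (by rw [show c = c' from e])
      · refine Set.disjoint_left.2 fun y h1 h2 => ?_
        rcases (v4 i y).1 ⟨c, h1⟩ with ⟨d, h3⟩ | h3 <;>
          rcases (v4 i' y).1 ⟨c', h2⟩ with ⟨d', h4⟩ | h4
        · exact Set.disjoint_left.1 (d1 (i := (i, d)) (j := (i', d')) (by simp [e])) h3 h4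
        · exact Set.disjoint_left.1 (d4 i' i d) h4 h3
        · exact Set.disjoint_left.1 (d4 i i' d') h3 h4
        · exact Set.disjoint_left.1 (d2 e) h3 h4
  · simp only [mem_iUnion, Sum.exists, Sum.elim_inl, Sum.elim_inr, Prod.exists, v4]

variable [StandardBorelSpace Y]

lemma piece_full {Dp D : Set Om} {a : Om → Y} (ha : Emb sh T Dp a) {l' : ℕ → ℕ} (h1 : Dp ⊆ LS l')
    (hD : MeasurableSet D) (h2 : ∀ ν : Measure Om, IsProbabilityMeasure ν → Ergodic sh ν →
      ν (LS l')ᶜ = 0 → Aper sh ν → ν Dᶜ = 0) {μ : Measure Y} [IsProbabilityMeasure μ]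
    (he : Ergodic T μ) (hp : PE T μ) (h3 : μ (a '' Dp)ᶜ = 0) {Z : Set Y} (hZ : μ Z = 0) :
    μ (a '' (Dp ∩ D ∩ a ⁻¹' Zᶜ))ᶜ = 0 := by
  obtain ⟨ν, _, n1, n2, n3, n4⟩ := ha.pull measurable_sh he h3
  have h4 := h2 ν ‹_› n1 (measure_mono_null (compl_subset_compl.2 h1) n2) ((n4 hp).aper n1)
  have h5 : μ (a '' (Dp \ D)) = 0 := by
    rw [n3 _ (ha.dom.diff hD) sdiff_subset]
    exact measure_mono_null (sdiff_subset_compl _ _) h4
  refine measure_mono_null (fun y hy => ?_) (measure_union_null (measure_union_null h3 h5) hZ)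
  by_contra h
  simp only [mem_union, not_or, mem_compl_iff, not_not] at h
  obtain ⟨⟨⟨x, hx, rfl⟩, h6⟩, h7⟩ := h
  exact hy ⟨x, ⟨⟨hx, by_contra fun h8 => h6 ⟨x, ⟨hx, h8⟩, rfl⟩⟩, h7⟩, rfl⟩

end

theorem symbolic {M : Type*} [TopologicalSpace M] [T2Space M] [MeasurableSpace M]
    [StandardBorelSpace M] {T : M ≃ M} {l : ℕ → ℕ → ℕ} {π : ℕ → Om → M}
    (hc : ∀ k, Coding T (l k) (π k)) :
    ∃ (E : Set (ℕ × ℕ)) (M' : Set M) (X' : Set (ℤ → ℕ)), MeasurableSet M' ∧ MeasurableSet X' ∧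
      (∀ y, T y ∈ M' ↔ y ∈ M') ∧ (∀ x, sh x ∈ X' ↔ x ∈ X') ∧
      X' ⊆ {x : ℤ → ℕ | ∀ n : ℤ, (x n, x (n + 1)) ∈ E} ∧
      (∃ ψ : MeasurableEquiv ↥M' ↥X', ∀ a b : ↥M', (b : M) = T a → (ψ b : ℤ → ℕ) = sh (ψ a).1) ∧
      (∀ μ : Measure M, IsProbabilityMeasure μ → Ergodic T μ → PE T μ →
        (∃ k, μ (π k '' LS (l k))ᶜ = 0) → μ M'ᶜ = 0) ∧
      ∀ ν : Measure (ℤ → ℕ), IsProbabilityMeasure ν → Ergodic sh ν → PE sh ν →
        ν {x : ℤ → ℕ | ∀ n : ℤ, (x n, x (n + 1)) ∈ E}ᶜ = 0 → ν X'ᶜ = 0 := by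
  classical
  choose lam S s1 s2 s3 using fun k =>
    (hc k).rate.elim fun z hz => dichotomy (l := l k) hz.1 hz.2
  have := fun k => (s1 k).to_subtype
  obtain ⟨J, _, κ, l', Dp, g, z, F, j1, j2, j3, j4, j5⟩ : ∃ (J : Type) (_ : Countable J) (κ : J → ℕ)
      (l' : J → ℕ → ℕ) (Dp : J → Set Om) (g : J → Om → Om) (z : J → ℝ) (F : J → Finset ℕ),
      (∀ i, Emb sh sh (Dp i) (g i)) ∧ (∀ i, Dp i ⊆ LS (l' i)) ∧
      (∀ i, MapsTo (g i) (Dp i) (LS (l (κ i)))) ∧ (∀ i, Fit (l (κ i)) (F i) (l' i) (z i)) ∧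
      ∀ k (ν : Measure Om), IsProbabilityMeasure ν → Ergodic sh ν → ν (LS (l k))ᶜ = 0 →
        Aper sh ν → Exc (l k) (lam k) ν ∨ ∃ i, κ i = k ∧ ν (g i '' Dp i)ᶜ = 0 :=
    ⟨Σ k, S k, inferInstance, fun i => i.1, fun i => i.2.1.1, fun i => i.2.1.2.1,
      fun i => i.2.1.2.2.1, fun i => i.2.1.2.2.2.1, fun i => i.2.1.2.2.2.2,
      fun i => (s2 _ _ i.2.2).1, fun i => (s2 _ _ i.2.2).2.1, fun i => (s2 _ _ i.2.2).2.2.1,
      fun i => (s2 _ _ i.2.2).2.2.2, fun k ν a1 a2 a3 a4 => (s3 k ν a1 a2 a3 a4).imp_right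
        fun ⟨p, p1, p2⟩ => ⟨⟨k, p, p1⟩, rfl, p2⟩⟩
  clear s1 s2 s3 this S
  obtain ⟨e, he⟩ := exists_injective_nat J
  obtain ⟨D, α, a1, a2, a3, a4⟩ := hotel (fun i => hc (κ i)) j4
  have ea : ∀ i, Emb sh T (Dp i) (π (κ i) ∘ g i) := fun i => (j1 i).comp (hc _).emb (j3 i)
  -- the sets on the side of `M`
  set Pc : J → Set M := fun i => (π (κ i) ∘ g i) '' Dp i with hPc
  set Hot : Set M := ⋃ p : J × ℕ, α p.1 p.2 '' D p.1 with hHot
  have m1 : ∀ i, MeasurableSet (Pc i) := fun i => (ea i).meas_image (ea i).dom Subset.rfl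
  have i1 : ∀ i y, T y ∈ Pc i ↔ y ∈ Pc i := fun i => (ea i).inv_image Subset.rfl (ea i).inv
  have m2 : MeasurableSet Hot := .iUnion fun p => (a1 _ _).meas_image (a1 p.1 p.2).dom Subset.rfl
  have i2 : ∀ y, T y ∈ Hot ↔ y ∈ Hot := fun y => by
    simp only [hHot, mem_iUnion, fun p : J × ℕ =>
      (a1 p.1 p.2).inv_image Subset.rfl (a1 p.1 p.2).inv y]
  have m3 : ∀ k, MeasurableSet (π k '' LS (l k)) := fun k =>
    (hc k).emb.meas_image measurableSet_LS Subset.rfl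
  have i3 : ∀ k y, T y ∈ π k '' LS (l k) ↔ y ∈ π k '' LS (l k) := fun k =>
    (hc k).emb.inv_image Subset.rfl (hc k).emb.inv
  set Z₁ : J → Set M := fun i => Hot ∪ ⋃ j, ⋃ _ : e j < e i, Pc j with hZ₁
  set Z₂ : ℕ → Set M := fun k => Hot ∪ (⋃ j, Pc j) ∪ ⋃ j, ⋃ _ : j < k, π j '' LS (l j) with hZ₂
  set N : ℕ → Set Om := fun k => LS (l k) ∩ π k ⁻¹' (Z₂ k)ᶜ with hN
  have eN : ∀ k, Emb sh T (N k) (π k) := fun k => (hc k).emb.restrict
    ((m2.union (.iUnion m1)).union (.iUnion fun j => .iUnion fun _ => m3 j)).compl fun y => by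
      simp only [hZ₂, mem_compl_iff, mem_union, mem_iUnion, i1, i2, i3]
  set I : ℕ → Prop := fun k => ∃ μ : Measure M, IsProbabilityMeasure μ ∧ Ergodic T μ ∧ PE T μ ∧
    μ (π k '' N k)ᶜ = 0 with hI
  set N' : ℕ → Set Om := fun k => {y | I k} ∩ N k with hN'
  have mN' : ∀ k, MeasurableSet (N' k) := fun k => (MeasurableSet.const _).inter (eN k).dom
  have iN' : ∀ k y, sh y ∈ N' k ↔ y ∈ N' k := fun k y => and_congr_right fun _ => (eN k).inv y
  obtain ⟨γ, g1, g2, g3⟩ := side (A := fun i => Dp i ∩ D i ∩ (π (κ i) ∘ g i) ⁻¹' (Z₁ i)ᶜ)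
    (a := fun i => π (κ i) ∘ g i) (N := N') (n := π) a1
    (fun i => ((ea i).mono ((ea i).dom.inter (a1 i 0).dom) inter_subset_left fun y =>
      and_congr ((ea i).inv y) ((a1 i 0).inv y)).restrict
        (m2.union (.iUnion fun j => .iUnion fun _ => m1 j)).compl fun y => by
          simp only [hZ₁, mem_compl_iff, mem_union, mem_iUnion, i1, i2])
    (fun k => (eN k).mono (mN' k) inter_subset_right (iN' k))
    (fun i => inter_subset_left.trans inter_subset_right) a3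
    (fun i j h => by
      wlog hl : e i < e j generalizing i j
      · exact (this j i h.symm (lt_of_le_of_ne (not_lt.1 hl) (he.ne h.symm))).symm
      refine Set.disjoint_left.2 ?_
      rintro _ ⟨x, hx, rfl⟩ ⟨y, hy, h2⟩
      exact hy.2 (Or.inr (mem_iUnion₂.2 ⟨i, hl, x, hx.1.1, h2.symm⟩)))
    (fun i j h => by
      wlog hl : i < j generalizing i j
      · exact (this j i h.symm (lt_of_le_of_ne (not_lt.1 hl) h.symm)).symm
      refine Set.disjoint_left.2 ?_
      rintro _ ⟨x, hx, rfl⟩ ⟨y, hy, h2⟩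
      exact hy.2.2 (Or.inr (mem_iUnion₂.2 ⟨i, hl, x, hx.2.1, h2.symm⟩)))
    (fun i j c => Set.disjoint_left.2 (by
      rintro _ ⟨x, hx, rfl⟩ h
      exact hx.2 (Or.inl (mem_iUnion.2 ⟨(j, c), h⟩))))
    (fun k j c => Set.disjoint_left.2 (by
      rintro _ ⟨x, hx, rfl⟩ h
      exact hx.2.2 (Or.inl (Or.inl (mem_iUnion.2 ⟨(j, c), h⟩)))))
    (fun k i => Set.disjoint_left.2 (by
      rintro _ ⟨x, hx, rfl⟩ ⟨y, hy, h⟩
      exact hx.2.2 (Or.inl (Or.inr (mem_iUnion.2 ⟨i, y, hy.1.1, h⟩)))))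
  -- the sets on the side of the shift
  obtain ⟨E, ι, u1, u2, u3⟩ := union_shift (J := ℕ ⊕ J × ℕ)
    (Sum.elim (fun k => if I k then l k else fun _ => 0) fun p => l' p.1)
  have u4 : ∀ k, I k → Emb sh sh (LS (l k)) (ι (.inl k)) := fun k h => by
    simpa only [Sum.elim_inl, if_pos h] using u1 (.inl k)
  have m4 : ∀ i, MeasurableSet (g i '' Dp i) := fun i => (j1 i).meas_image (j1 i).dom Subset.rfl
  have i4 : ∀ i y, sh y ∈ g i '' Dp i ↔ y ∈ g i '' Dp i := fun i =>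
    (j1 i).inv_image Subset.rfl (j1 i).inv
  set Z₃ : J → Set Om := fun i => N (κ i) ∪ ⋃ j, ⋃ _ : κ j = κ i ∧ e j < e i, g j '' Dp j with hZ₃
  set B : J → Set Om := fun i => Dp i ∩ D i ∩ g i ⁻¹' (Z₃ i)ᶜ with hB
  have eB : ∀ i, Emb sh sh (B i) (g i) := fun i =>
    ((j1 i).mono ((j1 i).dom.inter (a1 i 0).dom) inter_subset_left fun y =>
      and_congr ((j1 i).inv y) ((a1 i 0).inv y)).restrict
        ((eN _).dom.union (.iUnion fun j => .iUnion fun _ => m4 j)).compl fun y => by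
          simp only [hZ₃, mem_compl_iff, mem_union, mem_iUnion, i4, (eN _).inv]
  have b1 : ∀ k, N' k ⊆ LS (Sum.elim (fun k => if I k then l k else fun _ => 0)
      (fun p : J × ℕ => l' p.1) (.inl k)) := fun k y hy => by
    simpa only [Sum.elim_inl, if_pos (show I k from hy.1)] using hy.2.1
  have b2 : ∀ i, MapsTo (g i) ({y | I (κ i)} ∩ B i) (LS (Sum.elim (fun k => if I k then l k else
      fun _ => 0) (fun p : J × ℕ => l' p.1) (.inl (κ i)))) := fun i y hy => by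
    simpa only [Sum.elim_inl, if_pos (show I (κ i) from hy.1)] using j3 i hy.2.1.1
  have b3 : ∀ i, (ι (.inl (κ i)) ∘ g i) '' ({y | I (κ i)} ∩ B i) ⊆ ι (.inl (κ i)) '' LS _ :=
    fun i => by rw [image_comp]; exact image_mono (b2 i).image_subset
  obtain ⟨γ', k1, k2, k3⟩ := side (D := D) (A := fun i => {y | I (κ i)} ∩ B i)
    (α := fun i c => ι (.inr (i, c))) (a := fun i => ι (.inl (κ i)) ∘ g i) (N := N')
    (n := fun k => ι (.inl k)) (fun i c => (u1 (.inr (i, c))).mono (a1 i 0).dom (a2 i) (a1 i 0).inv)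
    (fun i => ((eB i).mono ((MeasurableSet.const _).inter (eB i).dom) inter_subset_right
      fun y => and_congr_right fun _ => (eB i).inv y).comp (u1 _) (b2 i))
    (fun k => (u1 (.inl k)).mono (mN' k) (b1 k) (iN' k))
    (fun i y hy => hy.2.1.2)
    (fun p q h => (u2 (i := .inr p) (j := .inr q) (by simpa)).mono (image_mono (a2 _))
      (image_mono (a2 _)))
    (fun i j h => by
      by_cases hk : κ i = κ j
      · wlog hl : e i < e j generalizing i j
        · exact (this j i h.symm hk.symm (lt_of_le_of_ne (not_lt.1 hl) (he.ne h.symm))).symm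
        refine Set.disjoint_left.2 ?_
        rintro _ ⟨x, hx, rfl⟩ ⟨y, hy, h2⟩
        have h3 : g j y = g i x := (u4 _ hy.1).inj (j3 j hy.2.1.1) (hk ▸ j3 i hx.2.1.1)
          (by simpa only [hk, Function.comp_apply] using h2)
        exact hy.2.2 (Or.inr (mem_iUnion₂.2 ⟨i, ⟨hk, hl⟩, x, hx.2.1.1, h3.symm⟩))
      · exact (u2 (i := .inl (κ i)) (j := .inl (κ j)) (by simpa)).mono (b3 i) (b3 j))
    (fun i j h => (u2 (i := .inl i) (j := .inl j) (by simpa)).mono (image_mono (b1 _))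
      (image_mono (b1 _)))
    (fun i j c => (u2 (i := .inl (κ i)) (j := .inr (j, c)) (by simp)).mono (b3 i)
      (image_mono (a2 _)))
    (fun k j c => (u2 (i := .inl k) (j := .inr (j, c)) (by simp)).mono (image_mono (b1 _))
      (image_mono (a2 _)))
    (fun k i => by
      by_cases hk : k = κ i
      · subst hk
        refine Set.disjoint_left.2 ?_
        rintro _ ⟨x, hx, rfl⟩ ⟨y, hy, h2⟩
        have h3 : g i y = x := (u4 _ hy.1).inj (j3 i hy.2.1.1) hx.2.1 h2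
        exact hy.2.2 (Or.inl (h3 ▸ hx.2))
      · exact (u2 (i := .inl k) (j := .inl (κ i)) (by simpa)).mono (image_mono (b1 _)) (b3 i))
  refine ⟨E, _, _, .iUnion fun j => (g1 j).meas_image (g1 j).dom Subset.rfl,
    .iUnion fun j => (k1 j).meas_image (k1 j).dom Subset.rfl, fun y => ?_, fun y => ?_,
    fun y hy => ?_, glue g1 k1 g2 k2, fun μ _ h1 h2 h3 => ?_, fun ν _ h1 h2 h3 => ?_⟩
  · simp only [mem_iUnion, fun j => (g1 j).inv_image Subset.rfl (g1 j).inv y]
  · simp only [mem_iUnion, fun j => (k1 j).inv_image Subset.rfl (k1 j).inv y]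
  · rw [u3, mem_iUnion]
    rcases (k3 y).1 hy with ⟨k, h⟩ | ⟨i, ⟨c, h⟩ | h⟩
    exacts [⟨.inl k, image_mono (b1 k) h⟩, ⟨.inr (i, c), image_mono (a2 i) h⟩, ⟨_, b3 i h⟩]
  · rcases erg_dich h1 m2 i2 with h4 | h4
    swap
    · refine measure_mono_null (compl_subset_compl.2 fun y hy => (g3 y).2 ?_) h4
      obtain ⟨p, hp⟩ := mem_iUnion.1 hy
      exact Or.inr ⟨p.1, Or.inl ⟨p.2, hp⟩⟩
    by_cases h5 : ∃ i, True ∧ μ (Pc i)ᶜ = 0
    · obtain ⟨i, -, h6, h7⟩ := first_full e h1 m1 i1 h5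
      refine measure_mono_null (compl_subset_compl.2 fun y hy => (g3 y).2 (Or.inr ⟨i, Or.inr hy⟩))
        (piece_full (ea i) (j2 i) (a1 i 0).dom (a4 i) h1 h2 h6 (measure_union_null h4
          (measure_iUnion_null fun j => measure_iUnion_null fun h => h7 j trivial h)))
    · obtain ⟨k, -, h6, h7⟩ := first_full id h1 m3 i3 (R := fun _ => True)
        (h3.imp fun k h => ⟨trivial, h⟩)
      have h8 : μ (Z₂ k) = 0 := measure_union_null (measure_union_null h4 (measure_iUnion_null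
        fun i => (erg_dich h1 (m1 i) (i1 i)).resolve_right fun h => h5 ⟨i, trivial, h⟩))
        (measure_iUnion_null fun j => measure_iUnion_null fun h => h7 j trivial h)
      have h9 : μ (π k '' N k)ᶜ = 0 := by
        refine measure_mono_null (fun y hy => ?_) (measure_union_null h6 h8)
        by_contra h
        simp only [mem_union, not_or, mem_compl_iff, not_not] at h
        obtain ⟨⟨x, hx, rfl⟩, h⟩ := h
        exact hy ⟨x, ⟨hx, h⟩, rfl⟩
      refine measure_mono_null (compl_subset_compl.2 ?_) h9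
      rintro _ ⟨x, hx, rfl⟩
      exact (g3 _).2 (Or.inl ⟨k, x, ⟨⟨μ, ‹_›, h1, h2, h9⟩, hx⟩, rfl⟩)
  · rw [u3] at h3
    obtain ⟨j, hj⟩ := erg_cover h1 (fun j => (u1 j).meas_image measurableSet_LS Subset.rfl)
      (fun j => (u1 j).inv_image Subset.rfl (u1 j).inv) h3
    rcases j with k | ⟨i, c⟩
    swap
    · refine measure_mono_null (compl_subset_compl.2 ?_) (piece_full (u1 (.inr (i, c))) Subset.rfl
        (a1 i 0).dom (a4 i) h1 h2 hj (Z := ∅) measure_empty)
      rintro _ ⟨x, hx, rfl⟩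
      exact (k3 _).2 (Or.inr ⟨i, Or.inl ⟨c, x, hx.1.2, rfl⟩⟩)
    have hk : I k := by
      by_contra hk
      have h4 : LS (fun _ => 0) = ∅ := eq_empty_of_forall_notMem fun x hx => by
        simpa using LS_lt hx 0
      simp [hk, h4] at hj
    simp only [Sum.elim_inl, if_pos hk] at hj
    obtain ⟨ν₁, _, n1, n2, n3, n4⟩ := (u4 k hk).pull measurable_sh h1 hj
    have key : ∀ A, MeasurableSet A → A ⊆ LS (l k) → ν₁ Aᶜ = 0 → ν (ι (.inl k) '' A)ᶜ = 0 :=
      fun A c1 c2 c3 => by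
        rw [prob_compl_eq_zero_iff ((u4 k hk).meas_image c1 c2), n3 A c1 c2]
        exact (prob_compl_eq_zero_iff c1).1 c3
    rcases erg_dich n1 (eN k).dom (eN k).inv with h4 | h4
    swap
    · refine measure_mono_null (compl_subset_compl.2 ?_) (key _ (eN k).dom inter_subset_left h4)
      rintro _ ⟨x, hx, rfl⟩
      exact (k3 _).2 (Or.inl ⟨k, x, ⟨hk, hx⟩, rfl⟩)
    obtain ⟨μ₀, _, c1, c2, c3⟩ := id hk
    obtain ⟨ν₀, _, p1, p2, -, p4⟩ := (eN k).pull measurable_sh c1 c3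
    have p5 : ν₀ (LS (l k))ᶜ = 0 := measure_mono_null (compl_subset_compl.2 inter_subset_left) p2
    have p6 : Exc (l k) (lam k) ν₀ := (j5 k ν₀ ‹_› p1 p5 ((p4 c2).aper p1)).resolve_right (by
      rintro ⟨i, rfl, hi⟩
      have : ν₀ univ = 0 := measure_mono_null (fun y _ => by
        by_contra h
        simp only [mem_union, not_or, mem_compl_iff, not_not] at h
        obtain ⟨⟨x, hx, rfl⟩, h⟩ := h
        exact h.2 (Or.inl (Or.inr (mem_iUnion.2 ⟨i, x, hx, rfl⟩)))) (measure_union_null hi p2)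
      simp at this)
    rcases j5 k ν₁ ‹_› n1 n2 ((n4 h2).aper n1) with h5 | h5
    · rw [exc_unique n1.toMeasurePreserving p1.toMeasurePreserving n2 p5 h5 p6] at h4
      have : ν₀ univ = 0 := measure_mono_null (by simp) (measure_union_null h4 p2)
      simp at this
    obtain ⟨i, rfl, h6, h7⟩ := first_full e n1 m4 i4 h5
    have h8 := piece_full (j1 i) (j2 i) (a1 i 0).dom (a4 i) n1 (n4 h2) h6 (Z := Z₃ i)
      (measure_union_null h4 (measure_iUnion_null fun j => measure_iUnion_null fun h =>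
        h7 j h.1 h.2))
    refine measure_mono_null (compl_subset_compl.2 ?_) (key _ ((eB i).meas_image (eB i).dom
      Subset.rfl) (by rintro _ ⟨x, hx, rfl⟩; exact j3 i hx.1.1) h8)
    rintro _ ⟨_, ⟨x, hx, rfl⟩, rfl⟩
    exact (k3 _).2 (Or.inr ⟨i, Or.inr ⟨x, ⟨hk, hx⟩, rfl⟩⟩)

end Pool.Agent.P.MP_1672e2_an
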