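import Pool.Agent.P.MP_1672e2_an.Stmt

/-! Definitions for the coding of dominated measures of surface diffeomorphisms. -/

set_option autoImplicit false

namespace Pool.Agent.P.MP_1672e2_an

open MeasureTheory Set Metric

/-- The left shift. -/
def sh {A : Type*} : (ℤ → A) ≃ (ℤ → A) where
  toFun x n := x (n + 1)
  invFun x n := x (n - 1)
  left_inv x := by funext n; simp
  right_inv x := by funext n; simp

/-- The orbit of `x` meets `B` at arbitrarily large positive and negative times. -/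
def Recur {X : Type*} (e : X ≃ X) (B : Set X) (x : X) : Prop :=
  ∀ m : ℤ, (∃ t, m ≤ t ∧ zp e t x ∈ B) ∧ ∃ t, t ≤ m ∧ zp e t x ∈ B

/-- Periodic points are null. -/
def Aper {X : Type*} [MeasurableSpace X] (T : X → X) (μ : Measure X) : Prop :=
  μ {x | ∃ n : ℕ, 0 < n ∧ T^[n] x = x} = 0

/-- An equivariant measurable injection defined on an invariant measurable set. -/
structure Emb {X Y : Type*} [MeasurableSpace X] [MeasurableSpace Y] (S : X ≃ X) (T : Y ≃ Y)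
    (D : Set X) (α : X → Y) : Prop where
  meas : Measurable α
  dom : MeasurableSet D
  inv : ∀ x, S x ∈ D ↔ x ∈ D
  inj : InjOn α D
  comm : ∀ x ∈ D, α (S x) = T (α x)

/-- Sequences of vertices (loop, position in the loop). -/
abbrev Om : Type := ℤ → ℕ × ℕ

/-- Edges of the loop graph: the loop `γ` has length `l γ`, and is absent if `l γ = 0`. -/
def Edge (l : ℕ → ℕ) (p q : ℕ × ℕ) : Prop :=
  (p.2 + 1 < l p.1 ∧ q = (p.1, p.2 + 1)) ∨ (p.2 + 1 = l p.1 ∧ q.2 = 0)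

/-- The loop shift. -/
def LS (l : ℕ → ℕ) : Set Om := {x | ∀ t, Edge l (x t) (x (t + 1))}

/-- The loop shift on a finite set of loops. -/
def LSF (l : ℕ → ℕ) (F : Finset ℕ) : Set Om := {x | x ∈ LS l ∧ ∀ t, (x t).1 ∈ F}

/-- Total length of a list of loops. -/
def len (l : ℕ → ℕ) (v : List ℕ) : ℕ := (v.map l).sum

/-- All loops of the list are present. -/
def Pos (l : ℕ → ℕ) (v : List ℕ) : Prop := ∀ γ ∈ v, 0 < l γ

/-- The list of loops `v` occurs in `x` from time `t` on. -/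
def Occ (l : ℕ → ℕ) (x : Om) : ℤ → List ℕ → Prop
  | t, [] => (x t).2 = 0
  | t, γ :: v => x t = (γ, 0) ∧ Occ l x (t + l γ) v

theorem Occ_realize : True := by have := @Occ.eq_def; trivial

/-- The vertex at position `j` of a list of loops. -/
def vtx (l : ℕ → ℕ) : List ℕ → ℕ → ℕ × ℕ
  | [], _ => (0, 0)
  | γ :: v, j => if j < l γ then (γ, j) else vtx l v (j - l γ)

theorem vtx_realize : True := by have := @vtx.eq_def; trivial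

/-- Substitution of loops by lists of loops. -/
def sub (l : ℕ → ℕ) (ω : ℕ → List ℕ) (y : Om) : Om := fun t => vtx l (ω (y t).1) (y t).2

/-- Lists of naturals, enumerated. -/
def dec (n : ℕ) : List ℕ := Denumerable.ofNat (List ℕ) n

/-- The loop system whose loops are the lists in `W`. -/
noncomputable def wl (l : ℕ → ℕ) (W : Set (List ℕ)) (n : ℕ) : ℕ :=
  open Classical in if dec n ∈ W then len l (dec n) else 0

/-- The generating function of a finite set of loops. -/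
noncomputable def Phi (l : ℕ → ℕ) (F : Finset ℕ) (z : ℝ) : ℝ :=
  ∑ γ ∈ F.filter fun γ => 0 < l γ, (z ^ l γ)⁻¹

/-- The generating function is at most one at `z`. -/
def Rate (l : ℕ → ℕ) (z : ℝ) : Prop := ∀ F, Phi l F z ≤ 1

/-- The guest `l'` fits into the host `(l, F)`. -/
def Fit (l : ℕ → ℕ) (F : Finset ℕ) (l' : ℕ → ℕ) (z : ℝ) : Prop :=
  1 ≤ z ∧ Rate l' z ∧ 1 < Phi l F z ∧ ∀ d, (∀ γ ∈ F, d ∣ l γ) → ∀ γ, d ∣ l' γ

/-- The exceptional measure of a loop shift. -/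
def Exc (l : ℕ → ℕ) (lam : ℝ) (ν : Measure Om) : Prop :=
  ∀ c, Pos l c → ν.real {x | Occ l x 0 c} = (lam ^ len l c)⁻¹ * ν.real {x | (x 0).2 = 0}

/-- A piece of the loop shift of `l`, coded by a guest. -/
def Piece (l : ℕ → ℕ) (p : (ℕ → ℕ) × Set Om × (Om → Om) × ℝ × Finset ℕ) : Prop :=
  Emb sh sh p.2.1 p.2.2.1 ∧ p.2.1 ⊆ LS p.1 ∧ MapsTo p.2.2.1 p.2.1 (LS l) ∧
    Fit l p.2.2.2.2 p.1 p.2.2.2.1

/-- Weights of lists, given transition weights depending on the past. -/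
noncomputable def Wt (ω : List ℕ → ℕ → ℝ) : List ℕ → List ℕ → ℝ
  | _, [] => 1
  | u, γ :: v => ω u γ * Wt ω (u ++ [γ]) v

theorem Wt_realize : True := by have := @Wt.eq_def; trivial

/-- Code words with a marker. -/
def CW (r a b : ℕ) (s : List ℕ) : Prop :=
  (∃ u, s = List.replicate r a ++ b :: u ∧ ¬ List.replicate r a <:+: u) ∧ ∃ u, s = u ++ [b]

/-- An injective continuous coding by a loop shift of finite entropy. -/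
structure Coding {M : Type*} [TopologicalSpace M] [MeasurableSpace M] (T : M ≃ M) (l : ℕ → ℕ)
    (π : Om → M) : Prop where
  emb : Emb sh T (LS l) π
  cont : ContinuousOn π (LS l)
  rate : ∃ z, 1 ≤ z ∧ Rate l z

section Smooth

variable {M : Type*} [MetricSpace M]

/-- Backward Birkhoff sums. -/
def bs (f : M ≃ M) (b : M → ℝ) (j : ℕ) (w : M) : ℝ :=
  ∑ i ∈ Finset.range j, b (f.symm^[i + 1] w)

/-- The map `g` read in the charts is almost diagonal. -/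
def Step (g : M → M) (Λ : Set M) (a b : M → ℝ) (κ : M → M → ℝ × ℝ) : Prop :=
  ∀ η, 0 < η → ∃ δ, 0 < δ ∧ ∀ x ∈ Λ, ∀ x' ∈ Λ, dist (g x) x' < δ → ∃ A B : ℝ,
    |A| = Real.exp (a x) ∧ |B| = Real.exp (b x) ∧ ∀ y ∈ ball x δ, ∀ y' ∈ ball x δ,
      ‖κ x' (g y) - κ x' (g y') - (A * (κ x y - κ x y').1, B * (κ x y - κ x y').2)‖ ≤
        η * ‖κ x y - κ x y'‖

/-- Charts adapted to an invariant splitting along a compact invariant set. -/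
structure Charts (f : M ≃ₜ M) (Λ : Set M) (a b : M → ℝ) (κ : M → M → ℝ × ℝ) : Prop where
  closed : IsClosed Λ
  inv : ∀ x, f x ∈ Λ ↔ x ∈ Λ
  ca : Continuous a
  cb : Continuous b
  zero : ∀ x ∈ Λ, κ x x = 0
  bil : ∃ r C : ℝ, 0 < r ∧ 1 ≤ C ∧ ∀ x ∈ Λ,
    (∀ y ∈ ball x r, ∀ y' ∈ ball x r,
      ‖κ x y - κ x y'‖ ≤ C * dist y y' ∧ dist y y' ≤ C * ‖κ x y - κ x y'‖) ∧
    ∀ v, ‖v‖ ≤ r → ∃ y, dist y x ≤ C * ‖v‖ ∧ κ x y = v
  step : Step f Λ a b κ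
  comp : Step id Λ (fun _ => 0) (fun _ => 0) κ

/-- Points with uniform forward contraction along `a` and backward contraction along `b`. -/
def Kset (f : M ≃ₜ M) (Λ : Set M) (a b : M → ℝ) (χ : ℝ) : Set M :=
  {x | x ∈ Λ ∧ (∀ j : ℕ, birkhoffSum f a j x ≤ -(χ * j)) ∧ ∀ j : ℕ, χ * j ≤ bs f.toEquiv b j x}

/-- The box at `x₀`. -/
def Qb (κ : M → M → ℝ × ℝ) (x₀ : M) (δ ρ : ℝ) : Set M := {y | dist y x₀ < δ ∧ ‖κ x₀ y‖ ≤ ρ}

/-- All constants, fixed. -/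
structure Box (f : M ≃ₜ M) (Λ : Set M) (a b : M → ℝ) (κ : M → M → ℝ × ℝ)
    (C Δ δ η ρ χ L : ℝ) (x₀ : M) : Prop where
  hC : 1 ≤ C
  hL : 1 ≤ L
  hρ : 0 < ρ
  hη : 0 ≤ η
  hχ : 0 < χ
  hΔ : 4 * δ ≤ Δ
  hδ : 32 * C * ρ ≤ δ
  mem : x₀ ∈ Λ
  inv : ∀ x, f x ∈ Λ ↔ x ∈ Λ
  zero : ∀ x ∈ Λ, κ x x = 0
  up : ∀ x ∈ Λ, ∀ y ∈ ball x Δ, ∀ y' ∈ ball x Δ, ‖κ x y - κ x y'‖ ≤ C * dist y y'
  lo : ∀ x ∈ Λ, ∀ y ∈ ball x Δ, ∀ y' ∈ ball x Δ, dist y y' ≤ C * ‖κ x y - κ x y'‖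
  onto : ∀ x ∈ Λ, ∀ v, ‖v‖ ≤ 4 * ρ → ∃ y, dist y x ≤ C * ‖v‖ ∧ κ x y = v
  step : ∀ x ∈ Λ, ∀ x' ∈ Λ, dist (f x) x' < Δ → ∃ A B : ℝ,
    |A| = Real.exp (a x) ∧ |B| = Real.exp (b x) ∧ ∀ y ∈ ball x Δ, ∀ y' ∈ ball x Δ,
      ‖κ x' (f y) - κ x' (f y') - (A * (κ x y - κ x y').1, B * (κ x y - κ x y').2)‖ ≤
        η * ‖κ x y - κ x y'‖
  comp : ∀ x ∈ Λ, ∀ x' ∈ Λ, dist x x' < Δ → ∀ y ∈ ball x Δ, ∀ y' ∈ ball x Δ,
    ‖κ x' y - κ x' y'‖ ≤ 2 * ‖κ x y - κ x y'‖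
  uc : ∀ x y, dist x y < 2 * δ → dist (f x) (f y) < Δ / 2
  gap : ∀ x ∈ Λ, Real.exp (a x) + 200 * η ≤ Real.exp (b x)
  ra : ∀ x ∈ Λ, ∀ y ∈ Λ, dist x y < δ → Real.exp (a x) + 100 * η ≤ Real.exp (a y + χ / 2)
  rb : ∀ x ∈ Λ, ∀ y ∈ Λ, dist x y < δ → Real.exp (b y - χ / 2) ≤ Real.exp (b x) - 100 * η
  bd : ∀ x ∈ Λ, Real.exp (b x) + η ≤ L
  ret : ∀ y ∈ Qb κ x₀ δ ρ, ∀ i : ℕ, 0 < i → f^[i] y ∈ Qb κ x₀ δ ρ →
    Real.exp (-(χ / 2)) ^ i ≤ 1 / 1000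

/-- Points from box to box that follow the orbit of `x` during `n` steps. -/
def tube (f : M → M) (Q : Set M) (δ : ℝ) (n : ℕ) (x : M) : Set M :=
  {y | y ∈ Q ∧ f^[n] y ∈ Q ∧ ∀ i ≤ n, dist (f^[i] y) (f^[i] x) < δ}

/-- A good branch: contraction along the orbit of `x`, expansion along the orbit of `x'`. -/
structure Good (f : M ≃ₜ M) (Λ : Set M) (a b : M → ℝ) (κ : M → M → ℝ × ℝ) (δ ρ χ : ℝ) (x₀ : M)
    (n : ℕ) (x x' : M) : Prop where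
  pos : 0 < n
  mem : x ∈ Λ
  mem' : x' ∈ Λ
  self : x ∈ tube f (Qb κ x₀ δ ρ) δ n x
  self' : x' ∈ tube f (Qb κ x₀ δ ρ) δ n x
  ss : ∀ j ≤ n, birkhoffSum f a j x ≤ -(χ * j)
  us : ∀ j ≤ n, χ * j ≤ bs f.toEquiv b j (f^[n] x')
  ux : |(κ x₀ x).2| ≤ ρ / 3
  sx : |(κ x₀ (f^[n] x')).1| ≤ ρ / 3

/-- The tubes of good branches. -/
def IsTube (f : M ≃ₜ M) (Λ : Set M) (a b : M → ℝ) (κ : M → M → ℝ × ℝ) (δ ρ χ : ℝ) (x₀ : M)
    (n : ℕ) (T : Set M) : Prop :=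
  ∃ x x', Good f Λ a b κ δ ρ χ x₀ n x x' ∧ T = tube f (Qb κ x₀ δ ρ) δ n x

/-- The centres of the charts along a branch. -/
def cen (f : M → M) (x₀ : M) (n : ℕ) (x : M) (i : ℕ) : M :=
  if i = 0 ∨ i = n then x₀ else f^[i] x

/-- The properties of tubes used for shadowing. -/
structure Hyp (f : M → M) (Q : Set M) (k : M → ℝ × ℝ) (ρ : ℝ) (n : ℕ) (T : Set M) : Prop where
  mem : ∀ y ∈ T, y ∈ Q ∧ f^[n] y ∈ Q
  ex : ∀ s u : ℝ, |s| ≤ ρ → |u| ≤ ρ → ∃ y ∈ T, (k y).1 = s ∧ (k (f^[n] y)).2 = u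
  lu : ∀ y ∈ T, ∀ y' ∈ T, |(k y - k y').2| ≤
    max |(k y - k y').1| |(k (f^[n] y) - k (f^[n] y')).2| / 100
  ls : ∀ y ∈ T, ∀ y' ∈ T, |(k (f^[n] y) - k (f^[n] y')).1| ≤
    max |(k y - k y').1| |(k (f^[n] y) - k (f^[n] y')).2| / 100

/-- An abstract system of tubes. -/
structure Tubes (f : M ≃ₜ M) (Q I : Set M) (k : M → ℝ × ℝ) (ρ C K : ℝ)
    (Tu : ℕ → Set M → Prop) : Prop where
  hρ : 0 < ρ
  hK : 1 ≤ K
  bd : ∀ y ∈ Q, ‖k y‖ ≤ ρ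
  lo : ∀ y ∈ Q, ∀ y' ∈ Q, dist y y' ≤ C * ‖k y - k y'‖
  pos : ∀ n T, Tu n T → 0 < n
  hyp : ∀ n T, Tu n T → Hyp f Q k ρ n T
  uniq : ∀ n T T' y, Tu n T → Tu n T' → y ∈ T → y ∈ T' → T = T'
  inner : ∀ n T n' T' z, Tu n T → Tu n' T' → z ∈ T → f^[n] z ∈ T' → f^[n] z ∈ I
  reparse : ∀ n T n' T' w k m, Tu n T → Tu n' T' → w ∈ T' → f^[k] w ∈ T → k + m = n' → 0 < m →
    m ≤ n → (k = 0 ∨ f^[k] w ∈ I) → (m = n ∨ f^[n'] w ∈ I) → ∃ T'', Tu m T'' ∧ f^[k] w ∈ T''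
  transfer : ∀ n T k T' z z' i, Tu n T → Tu k T' → z ∈ T → z' ∈ T → i + k ≤ n → f^[i] z' ∈ T' →
    (i = 0 ∨ f^[i] z' ∈ I) → (i + k = n ∨ f^[i + k] z' ∈ I) → f^[i] z ∈ T'
  count : ∀ n (S : Finset (Set M)), (∀ T ∈ S, Tu n T) → (S.card : ℝ) ≤ K ^ n

end Smooth

end Pool.Agent.P.MP_1672e2_an
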