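import Pool.Agent.P.MP_1672e2_an.Tubes
import Pool.Agent.P.MP_1672e2_an.Coding

/-! Choice of the constants; the countable family of codings. -/

set_option autoImplicit false

namespace Pool.Agent.P.MP_1672e2_an

open MeasureTheory Set Metric Filter Topology

variable {M : Type*} [MetricSpace M] [CompactSpace M] {f : M ≃ₜ M} {Λ : Set M} {a b : M → ℝ}
  {κ : M → M → ℝ × ℝ}

lemma Charts.exists_box (h : Charts f Λ a b κ) {c : ℝ} (hc : 0 < c) (hd : ∀ x ∈ Λ, a x + c ≤ b x)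
    {χ : ℝ} (hχ : 0 < χ) : ∃ C Δ δ η L ρ₀ : ℝ, 0 < ρ₀ ∧ 1 ≤ C ∧ ∀ ρ, 0 < ρ → ρ ≤ ρ₀ → ∀ x₀ ∈ Λ,
      (∀ y, dist y x₀ ≤ C * ρ → ∀ i : ℕ, 0 < i → dist (f^[i] y) x₀ ≤ C * ρ →
        Real.exp (-(χ / 2)) ^ i ≤ 1 / 1000) → Box f Λ a b κ C Δ δ η ρ χ L x₀ := by
  obtain ⟨r, C, hr, hC, hb⟩ := h.bil
  obtain ⟨Ka, hKa⟩ := isCompact_univ.exists_bound_of_continuousOn h.ca.continuousOn
  obtain ⟨Kb, hKb⟩ := isCompact_univ.exists_bound_of_continuousOn h.cb.continuousOn
  obtain ⟨K, hK0, ha, hb'⟩ : ∃ K : ℝ, 0 ≤ K ∧ (∀ x, |a x| ≤ K) ∧ ∀ x, |b x| ≤ K :=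
    ⟨max 0 (max Ka Kb), le_max_left _ _,
      fun x => (hKa x (mem_univ x)).trans ((le_max_left _ _).trans (le_max_right _ _)),
      fun x => (hKb x (mem_univ x)).trans ((le_max_right _ _).trans (le_max_right _ _))⟩
  have hm : 0 < Real.exp (-K) := Real.exp_pos _
  have e1 : 0 < Real.exp c - 1 := sub_pos.2 (Real.one_lt_exp_iff.2 hc)
  have e2 : 0 < Real.exp (χ / 4) - 1 := sub_pos.2 (Real.one_lt_exp_iff.2 (by positivity))
  have e3 : 0 < 1 - Real.exp (-(χ / 4)) :=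
    sub_pos.2 (Real.exp_lt_one_iff.2 (by linarith))
  obtain ⟨η, hη, h1, h2, h3⟩ : ∃ η : ℝ, 0 < η ∧ 200 * η ≤ Real.exp (-K) * (Real.exp c - 1) ∧
      100 * η ≤ Real.exp (-K) * (Real.exp (χ / 4) - 1) ∧
      100 * η ≤ Real.exp (-K) * (1 - Real.exp (-(χ / 4))) := by
    refine ⟨min (Real.exp (-K) * (Real.exp c - 1) / 200)
      (min (Real.exp (-K) * (Real.exp (χ / 4) - 1) / 100)
        (Real.exp (-K) * (1 - Real.exp (-(χ / 4))) / 100)), by positivity, ?_, ?_, ?_⟩
    · have := min_le_left (Real.exp (-K) * (Real.exp c - 1) / 200)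
        (min (Real.exp (-K) * (Real.exp (χ / 4) - 1) / 100)
        (Real.exp (-K) * (1 - Real.exp (-(χ / 4))) / 100))
      linarith
    · have := (min_le_right (Real.exp (-K) * (Real.exp c - 1) / 200) _).trans (min_le_left
        (Real.exp (-K) * (Real.exp (χ / 4) - 1) / 100)
        (Real.exp (-K) * (1 - Real.exp (-(χ / 4))) / 100))
      linarith
    · have := (min_le_right (Real.exp (-K) * (Real.exp c - 1) / 200) _).trans (min_le_right
        (Real.exp (-K) * (Real.exp (χ / 4) - 1) / 100)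
        (Real.exp (-K) * (1 - Real.exp (-(χ / 4))) / 100))
      linarith
  obtain ⟨δs, hδs, hs⟩ := h.step η hη
  obtain ⟨δc, hδc, hcm⟩ := h.comp 1 one_pos
  obtain ⟨Δ, hΔ, d1, d2, d3⟩ : ∃ Δ : ℝ, 0 < Δ ∧ Δ ≤ r ∧ Δ ≤ δs ∧ Δ ≤ δc :=
    ⟨min r (min δs δc), by positivity, min_le_left _ _,
      (min_le_right _ _).trans (min_le_left _ _), (min_le_right _ _).trans (min_le_right _ _)⟩
  obtain ⟨δf, hδf, hf⟩ := Metric.uniformContinuous_iff.1
    (CompactSpace.uniformContinuous_of_continuous f.continuous) (Δ / 2) (by positivity)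
  obtain ⟨δa, hδa, hua⟩ := Metric.uniformContinuous_iff.1
    (CompactSpace.uniformContinuous_of_continuous h.ca) (χ / 4) (by positivity)
  obtain ⟨δb, hδb, hub⟩ := Metric.uniformContinuous_iff.1
    (CompactSpace.uniformContinuous_of_continuous h.cb) (χ / 4) (by positivity)
  obtain ⟨δ, hδ, g1, g2, g3, g4⟩ : ∃ δ : ℝ, 0 < δ ∧ δ ≤ Δ / 4 ∧ δ ≤ δf / 2 ∧ δ ≤ δa ∧ δ ≤ δb :=
    ⟨min (min (Δ / 4) (δf / 2)) (min δa δb), by positivity,
      (min_le_left _ _).trans (min_le_left _ _), (min_le_left _ _).trans (min_le_right _ _),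
      (min_le_right _ _).trans (min_le_left _ _), (min_le_right _ _).trans (min_le_right _ _)⟩
  have hC0 : 0 < C := by linarith
  have la : ∀ x, Real.exp (-K) ≤ Real.exp (a x) := fun x =>
    Real.exp_le_exp.2 (abs_le.1 (ha x)).1
  have lb : ∀ x, Real.exp (-K) ≤ Real.exp (b x) := fun x =>
    Real.exp_le_exp.2 (abs_le.1 (hb' x)).1
  have up : ∀ x ∈ Λ, ∀ y ∈ ball x Δ, ∀ y' ∈ ball x Δ, ‖κ x y - κ x y'‖ ≤ C * dist y y' :=
    fun x hx y hy y' hy' =>
      ((hb x hx).1 y (ball_subset_ball d1 hy) y' (ball_subset_ball d1 hy')).1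
  have lo : ∀ x ∈ Λ, ∀ y ∈ ball x Δ, ∀ y' ∈ ball x Δ, dist y y' ≤ C * ‖κ x y - κ x y'‖ :=
    fun x hx y hy y' hy' =>
      ((hb x hx).1 y (ball_subset_ball d1 hy) y' (ball_subset_ball d1 hy')).2
  refine ⟨C, Δ, δ, η, Real.exp K + η, min (δ / (32 * C)) (r / 4), by positivity, hC,
    fun ρ hρ hρ0 x₀ hx₀ hret => ?_⟩
  have r1 : ρ ≤ δ / (32 * C) := hρ0.trans (min_le_left _ _)
  have r2 : ρ ≤ r / 4 := hρ0.trans (min_le_right _ _)
  have key : ∀ y ∈ Qb κ x₀ δ ρ, dist y x₀ ≤ C * ρ := fun y hy => by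
    have := lo x₀ hx₀ y (mem_ball.2 (by linarith [hy.1])) x₀ (mem_ball_self hΔ)
    rw [h.zero x₀ hx₀, sub_zero] at this
    exact this.trans (mul_le_mul_of_nonneg_left hy.2 hC0.le)
  refine
    { hC := hC
      hL := by linarith [Real.one_le_exp hK0]
      hρ := hρ
      hη := hη.le
      hχ := hχ
      hΔ := by linarith
      hδ := by rw [le_div_iff₀ (by positivity)] at r1; linarith
      mem := hx₀
      inv := h.inv
      zero := h.zero
      up := up
      lo := lo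
      onto := fun x hx v hv => (hb x hx).2 v (by linarith)
      step := fun x hx x' hx' hxx => ?_
      comp := fun x hx x' hx' hxx y hy y' hy' => ?_
      uc := fun x y hxy => hf (by linarith)
      gap := fun x hx => ?_
      ra := fun x _ y _ hxy => ?_
      rb := fun x _ y _ hxy => ?_
      bd := fun x _ => by linarith [Real.exp_le_exp.2 (abs_le.1 (hb' x)).2]
      ret := fun y hy i hi hy' => hret y (key y hy) i hi (key _ hy') }
  · obtain ⟨A, B, hA, hB, hAB⟩ := hs x hx x' hx' (hxx.trans_le d2)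
    exact ⟨A, B, hA, hB, fun y hy y' hy' =>
      hAB y (ball_subset_ball d2 hy) y' (ball_subset_ball d2 hy')⟩
  · obtain ⟨A, B, hA, hB, hAB⟩ := hcm x hx x' hx' (hxx.trans_le d3)
    have k1 := hAB y (ball_subset_ball d3 hy) y' (ball_subset_ball d3 hy')
    simp only [Real.exp_zero] at hA hB
    have k2 : ‖((A * (κ x y - κ x y').1, B * (κ x y - κ x y').2) : ℝ × ℝ)‖ =
        ‖κ x y - κ x y'‖ := by
      rw [Prod.norm_def, Prod.norm_def]
      simp only [Real.norm_eq_abs, abs_mul, hA, hB, one_mul]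
    have k3 := norm_le_norm_add_norm_sub' (κ x' y - κ x' y')
      ((A * (κ x y - κ x y').1, B * (κ x y - κ x y').2) : ℝ × ℝ)
    simp only [id] at k1
    linarith
  · have k1 := Real.exp_le_exp.2 (hd x hx)
    rw [Real.exp_add] at k1
    nlinarith [mul_le_mul_of_nonneg_right (la x) e1.le]
  · have k0 := hua (hxy.trans_le g3)
    rw [Real.dist_eq] at k0
    have k1 : Real.exp (a x + χ / 4) ≤ Real.exp (a y + χ / 2) :=
      Real.exp_le_exp.2 (by linarith [(abs_lt.1 k0).2])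
    rw [Real.exp_add (a x)] at k1
    nlinarith [mul_le_mul_of_nonneg_right (la x) e2.le]
  · have k0 := hub (hxy.trans_le g4)
    rw [Real.dist_eq] at k0
    have k1 : Real.exp (b y - χ / 2) ≤ Real.exp (b x + -(χ / 4)) :=
      Real.exp_le_exp.2 (by linarith [(abs_lt.1 k0).1])
    rw [Real.exp_add (b x)] at k1
    nlinarith [mul_le_mul_of_nonneg_right (lb x) e3.le]

lemma Charts.isClosed_K (h : Charts f Λ a b κ) (χ : ℝ) : IsClosed (Kset f Λ a b χ) := by
  simp only [Kset, ofPred_and, ofPred_forall]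
  refine h.closed.inter ((isClosed_iInter fun j => isClosed_le ?_ continuous_const).inter
    (isClosed_iInter fun j => isClosed_le continuous_const ?_))
  · exact continuous_finsetSum _ fun i _ => h.ca.comp (f.continuous.iterate i)
  · exact continuous_finsetSum _ fun i _ => h.cb.comp (f.symm.continuous.iterate (i + 1))

omit [CompactSpace M] in
/-- A non periodic point does not come back soon. -/
lemma exists_no_return {x : M} (hx : ∀ n : ℕ, 0 < n → f^[n] x ≠ x) (N : ℕ) :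
    ∃ r : ℝ, 0 < r ∧ ∀ i, 0 < i → i < N → ∀ y, dist y x < r → r ≤ dist (f^[i] y) x := by
  have key : ∀ᶠ r in 𝓝[>] (0 : ℝ), ∀ i ∈ Finset.Ioo 0 N, ∀ y, dist y x < r →
      r ≤ dist (f^[i] y) x := by
    refine (Filter.eventually_all_finset _).2 fun i hi => ?_
    have d0 : 0 < dist (f^[i] x) x := dist_pos.2 (hx i (Finset.mem_Ioo.1 hi).1)
    obtain ⟨ε, e0, e1⟩ := Metric.continuousAt_iff.1 ((f.continuous.iterate i).continuousAt (x := x))
      (dist (f^[i] x) x / 2) (by positivity)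
    filter_upwards [Ioo_mem_nhdsGT (lt_min e0 (half_pos d0))] with r hr y hy
    have k1 := e1 (hy.trans (hr.2.trans_le (min_le_left _ _)))
    have k2 := hr.2.trans_le (min_le_right _ _)
    have k3 := dist_triangle_left (f^[i] x) x (f^[i] y)
    linarith
  obtain ⟨r, h1, h2⟩ := (key.and self_mem_nhdsWithin).exists
  exact ⟨r, h2, fun i a1 a2 => h1 i (Finset.mem_Ioo.2 ⟨a1, a2⟩)⟩

theorem Charts.codings [MeasurableSpace M] [BorelSpace M] (h : Charts f Λ a b κ) {c : ℝ}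
    (hc : 0 < c) (hd : ∀ x ∈ Λ, a x + c ≤ b x) {χ : ℝ} (hχ : 0 < χ) :
    ∃ S : Set ((ℕ → ℕ) × (Om → M)), S.Countable ∧ (∀ p ∈ S, Coding f.toEquiv p.1 p.2) ∧
      ∀ μ : Measure M, IsProbabilityMeasure μ → Ergodic f μ → Aper f μ →
        μ (Kset f Λ a b χ) ≠ 0 → ∃ p ∈ S, μ (p.2 '' LS p.1)ᶜ = 0 := by
  obtain ⟨C, Δ, δ, η, L, ρ₀, hρ₀, hC, hbox⟩ := h.exists_box hc hd hχ
  obtain ⟨D, hD, hDc, hDd⟩ := EMetric.subset_countable_closure_of_compact h.closed.isCompact
  have hC0 : 0 < C := by linarith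
  let J : Set (ℕ × M) := {j | j.2 ∈ D ∧ Box f Λ a b κ C Δ δ η (ρ₀ / (j.1 + 1)) χ L j.2}
  have hJ : J.Countable :=
    ((countable_univ (α := ℕ)).prod hDc).mono fun j hj => mem_prod.2 ⟨mem_univ _, hj.1⟩
  let G : ℕ × M → Set M := fun j => Kset f Λ a b χ ∩ ball j.2 (ρ₀ / (j.1 + 1) / (3 * C))
  have hG : ∀ j, MeasurableSet (G j) := fun j =>
    (h.isClosed_K χ).measurableSet.inter measurableSet_ball
  have ex : ∀ j : J, ∃ p : (ℕ → ℕ) × (Om → M), Coding f.toEquiv p.1 p.2 ∧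
      ∀ z, Recur f.toEquiv (G j) z → z ∈ p.2 '' LS p.1 := fun j => by
    have : Nonempty M := ⟨j.1.2⟩
    obtain ⟨l, π, h1, h2⟩ := j.2.2.tubes.coding
    exact ⟨(l, π), h1, h2 _ fun z hz n hn hz' => j.2.2.tube_of_K hn hz hz'⟩
  choose F hF hF' using ex
  have := hJ.to_subtype
  refine ⟨range F, countable_range F, by rintro _ ⟨j, rfl⟩; exact hF j,
    fun μ _ he hap hK => ?_⟩
  have cov : Kset f Λ a b χ ⊆ {x | ∃ n : ℕ, 0 < n ∧ f^[n] x = x} ∪ ⋃ j : J, G j := by
    intro x hx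
    by_cases hp : ∃ n : ℕ, 0 < n ∧ f^[n] x = x
    · exact Or.inl hp
    have hq : Real.exp (-(χ / 2)) < 1 := Real.exp_lt_one_iff.2 (by linarith)
    obtain ⟨N, hN⟩ := exists_pow_lt_of_lt_one (show (0 : ℝ) < 1 / 1000 by norm_num) hq
    obtain ⟨r, hr, hr'⟩ := exists_no_return (f := f) (fun n hn e => hp ⟨n, hn, e⟩) N
    obtain ⟨m, hm⟩ := exists_nat_gt (2 * C * ρ₀ / r)
    have m0 : (0 : ℝ) < m + 1 := by positivity
    have hρ : 0 < ρ₀ / (m + 1) := by positivity
    have hρ' : ρ₀ / (m + 1) ≤ ρ₀ := div_le_self hρ₀.le (by linarith [Nat.cast_nonneg (α := ℝ) m])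
    have h2 : 2 * (C * (ρ₀ / (m + 1))) ≤ r := by
      rw [div_lt_iff₀ hr] at hm
      rw [show 2 * (C * (ρ₀ / (m + 1))) = 2 * C * ρ₀ / (m + 1) by ring, div_le_iff₀ m0]
      nlinarith
    obtain ⟨x₀, hx₀, hd₀⟩ := Metric.mem_closure_iff.1 (hDd hx.1) (ρ₀ / (m + 1) / (3 * C))
      (by positivity)
    have h3 : ρ₀ / (m + 1) / (3 * C) ≤ C * (ρ₀ / (m + 1)) :=
      (div_le_self hρ.le (by linarith)).trans (le_mul_of_one_le_left hρ.le hC)
    have near : ∀ y, dist y x₀ ≤ C * (ρ₀ / (m + 1)) → dist y x < r := fun y hy => by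
      have := dist_triangle_right y x x₀
      linarith
    have hB : Box f Λ a b κ C Δ δ η (ρ₀ / (m + 1)) χ L x₀ := by
      refine hbox _ hρ hρ' x₀ (hD hx₀) fun y hy i hi hy' => ?_
      by_cases hiN : i < N
      · exact absurd (near _ hy') (not_lt.2 (hr' i hi hiN y (near y hy)))
      · exact (pow_le_pow_of_le_one (Real.exp_pos _).le hq.le (not_lt.1 hiN)).trans hN.le
    exact Or.inr (mem_iUnion.2 ⟨⟨(m, x₀), hx₀, hB⟩, hx, mem_ball.2 hd₀⟩)
  obtain ⟨j, hj⟩ : ∃ j : J, μ (G j) ≠ 0 := by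
    by_contra hn
    push Not at hn
    exact hK (measure_mono_null cov (measure_union_null hap (measure_iUnion_null hn)))
  refine ⟨F j, mem_range_self j, measure_mono_null (compl_subset_compl.2 fun z hz => hF' j z hz)
    (ae_recur (e := f.toEquiv) he f.symm.continuous.measurable (hG j) hj)⟩

end Pool.Agent.P.MP_1672e2_an

/-! Rescaling of the charts by coboundaries. -/

set_option autoImplicit false

namespace Pool.Agent.P.MP_1672e2_an

open MeasureTheory Set Metric Filter Topology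

variable {M : Type*} [MetricSpace M] [CompactSpace M] {f : M ≃ₜ M} {Λ : Set M} {a b : M → ℝ}
  {κ : M → M → ℝ × ℝ}

lemma resc_bound {φ : M → ℝ} (hφ : Continuous φ) : ∃ K : ℝ, 0 ≤ K ∧ ∀ x, |φ x| ≤ K := by
  obtain ⟨K, hK⟩ := isCompact_univ.exists_bound_of_continuousOn hφ.continuousOn
  exact ⟨max K 0, le_max_right _ _, fun x => (hK x (mem_univ x)).trans (le_max_left _ _)⟩

lemma resc_coord {E η p q r A N D W : ℝ} (hη : 0 ≤ η) (h1 : |N - A * D| ≤ η * W) (h2 : |D| ≤ W)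
    (h3 : |A| ≤ E) (h4 : Real.exp p ≤ E) (h5 : |Real.exp p - Real.exp q| ≤ η) :
    |Real.exp p * N - A * Real.exp (q - r) * (Real.exp r * D)| ≤ 2 * E * η * W := by
  have hW : 0 ≤ W := (abs_nonneg _).trans h2
  have hE : 0 ≤ E := (abs_nonneg _).trans h3
  have e1 : Real.exp (q - r) * Real.exp r = Real.exp q := by rw [← Real.exp_add]; congr 1; ring
  have e2 : Real.exp p * N - A * Real.exp (q - r) * (Real.exp r * D) =
      Real.exp p * (N - A * D) + (Real.exp p - Real.exp q) * (A * D) := by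
    rw [← e1]; ring
  rw [e2]
  have b1 : |Real.exp p * (N - A * D)| ≤ E * (η * W) := by
    rw [abs_mul, abs_of_pos (Real.exp_pos p)]
    exact mul_le_mul h4 h1 (abs_nonneg _) hE
  have b2 : |(Real.exp p - Real.exp q) * (A * D)| ≤ η * (E * W) := by
    rw [abs_mul, abs_mul]
    exact mul_le_mul h5 (mul_le_mul h3 h2 (abs_nonneg _) hE) (by positivity) hη
  calc _ ≤ _ := abs_add_le _ _
    _ ≤ E * (η * W) + η * (E * W) := add_le_add b1 b2
    _ = 2 * E * η * W := by ring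

lemma resc_up {K p q : ℝ} (hp : |p| ≤ K) (hq : |q| ≤ K) (v : ℝ × ℝ) :
    ‖((Real.exp p * v.1, Real.exp q * v.2) : ℝ × ℝ)‖ ≤ Real.exp K * ‖v‖ := by
  have h1 : Real.exp p ≤ Real.exp K := Real.exp_le_exp.2 ((le_abs_self _).trans hp)
  have h2 : Real.exp q ≤ Real.exp K := Real.exp_le_exp.2 ((le_abs_self _).trans hq)
  rw [Prod.norm_def]
  refine max_le ?_ ?_
  · simp only [norm_mul, Real.norm_eq_abs, abs_of_pos (Real.exp_pos p)]
    exact mul_le_mul h1 (by simpa using norm_fst_le v) (abs_nonneg _) (Real.exp_pos K).le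
  · simp only [norm_mul, Real.norm_eq_abs, abs_of_pos (Real.exp_pos q)]
    exact mul_le_mul h2 (by simpa using norm_snd_le v) (abs_nonneg _) (Real.exp_pos K).le

lemma resc_lo {K p q : ℝ} (hp : |p| ≤ K) (hq : |q| ≤ K) (v : ℝ × ℝ) :
    ‖v‖ ≤ Real.exp K * ‖((Real.exp p * v.1, Real.exp q * v.2) : ℝ × ℝ)‖ := by
  have := resc_up (K := K) (p := -p) (q := -q) (by rwa [abs_neg]) (by rwa [abs_neg])
    (Real.exp p * v.1, Real.exp q * v.2)
  simpa [← mul_assoc, ← Real.exp_add] using this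

lemma resc_sub (p q : ℝ) (u v : ℝ × ℝ) :
    ((Real.exp p * u.1, Real.exp q * u.2) : ℝ × ℝ) - (Real.exp p * v.1, Real.exp q * v.2) =
      (Real.exp p * (u - v).1, Real.exp q * (u - v).2) := by
  ext <;> simp [mul_sub]

lemma Step.rescale {g : M → M} (hg : Continuous g) (h : Step g Λ a b κ) {φ ψ : M → ℝ}
    (ha : Continuous a) (hb : Continuous b) (hφ : Continuous φ) (hψ : Continuous ψ) :
    Step g Λ (fun x => a x + φ (g x) - φ x) (fun x => b x + ψ (g x) - ψ x)
      fun x y => (Real.exp (φ x) * (κ x y).1, Real.exp (ψ x) * (κ x y).2) := by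
  intro η hη
  obtain ⟨K1, -, h1⟩ := resc_bound ha
  obtain ⟨K2, -, h2⟩ := resc_bound hb
  obtain ⟨K3, -, h3⟩ := resc_bound hφ
  obtain ⟨K4, -, h4⟩ := resc_bound hψ
  set K := max (max K1 K2) (max K3 K4) with hK
  have k1 : ∀ x, |a x| ≤ K := fun x => (h1 x).trans ((le_max_left _ _).trans (le_max_left _ _))
  have k2 : ∀ x, |b x| ≤ K := fun x => (h2 x).trans ((le_max_right _ _).trans (le_max_left _ _))
  have k3 : ∀ x, |φ x| ≤ K := fun x => (h3 x).trans ((le_max_left _ _).trans (le_max_right _ _))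
  have k4 : ∀ x, |ψ x| ≤ K := fun x => (h4 x).trans ((le_max_right _ _).trans (le_max_right _ _))
  have hE : 0 < Real.exp K := Real.exp_pos K
  set η₁ := η / (2 * Real.exp K * Real.exp K) with hη₁
  have hη₁p : 0 < η₁ := by positivity
  obtain ⟨δ₀, hδ₀, H⟩ := h η₁ hη₁p
  obtain ⟨δ₁, hδ₁, u1⟩ := Metric.uniformContinuous_iff.1
    (CompactSpace.uniformContinuous_of_continuous (Real.continuous_exp.comp hφ)) η₁ hη₁p
  obtain ⟨δ₂, hδ₂, u2⟩ := Metric.uniformContinuous_iff.1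
    (CompactSpace.uniformContinuous_of_continuous (Real.continuous_exp.comp hψ)) η₁ hη₁p
  refine ⟨min δ₀ (min δ₁ δ₂), by positivity, fun x hx x' hx' hd => ?_⟩
  obtain ⟨A, B, hA, hB, HH⟩ := H x hx x' hx' (hd.trans_le (min_le_left _ _))
  refine ⟨A * Real.exp (φ (g x) - φ x), B * Real.exp (ψ (g x) - ψ x), ?_, ?_, fun y hy y' hy' => ?_⟩
  · rw [abs_mul, hA, abs_of_pos (Real.exp_pos _), ← Real.exp_add]; congr 1; ring
  · rw [abs_mul, hB, abs_of_pos (Real.exp_pos _), ← Real.exp_add]; congr 1; ring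
  have hh := HH y (ball_subset_ball (min_le_left _ _) hy) y' (ball_subset_ball (min_le_left _ _) hy')
  have d1 : |Real.exp (φ x') - Real.exp (φ (g x))| ≤ η₁ := by
    have := u1 (a := x') (b := g x)
      (by rw [dist_comm]; exact hd.trans_le ((min_le_right _ _).trans (min_le_left _ _)))
    simpa [Real.dist_eq] using this.le
  have d2 : |Real.exp (ψ x') - Real.exp (ψ (g x))| ≤ η₁ := by
    have := u2 (a := x') (b := g x)
      (by rw [dist_comm]; exact hd.trans_le ((min_le_right _ _).trans (min_le_right _ _)))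
    simpa [Real.dist_eq] using this.le
  simp only [resc_sub]
  set D := κ x y - κ x y' with hD
  set N := κ x' (g y) - κ x' (g y') with hN
  have c1 : |N.1 - A * D.1| ≤ η₁ * ‖D‖ := by
    have := (norm_fst_le (N - (A * D.1, B * D.2))).trans hh
    simpa using this
  have c2 : |N.2 - B * D.2| ≤ η₁ * ‖D‖ := by
    have := (norm_snd_le (N - (A * D.1, B * D.2))).trans hh
    simpa using this
  have r1 := resc_coord (E := Real.exp K) (p := φ x') (q := φ (g x)) (r := φ x) hη₁p.le c1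
    (by simpa using norm_fst_le D) (hA.le.trans (Real.exp_le_exp.2 ((le_abs_self _).trans (k1 x))))
    (Real.exp_le_exp.2 ((le_abs_self _).trans (k3 x'))) d1
  have r2 := resc_coord (E := Real.exp K) (p := ψ x') (q := ψ (g x)) (r := ψ x) hη₁p.le c2
    (by simpa using norm_snd_le D) (hB.le.trans (Real.exp_le_exp.2 ((le_abs_self _).trans (k2 x))))
    (Real.exp_le_exp.2 ((le_abs_self _).trans (k4 x'))) d2
  have lo := resc_lo (k3 x) (k4 x) D
  have fin : 2 * Real.exp K * η₁ * ‖D‖ ≤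
      η * ‖((Real.exp (φ x) * D.1, Real.exp (ψ x) * D.2) : ℝ × ℝ)‖ := by
    calc 2 * Real.exp K * η₁ * ‖D‖
        ≤ 2 * Real.exp K * η₁ * (Real.exp K *
          ‖((Real.exp (φ x) * D.1, Real.exp (ψ x) * D.2) : ℝ × ℝ)‖) :=
          mul_le_mul_of_nonneg_left lo (by positivity)
      _ = _ := by rw [hη₁]; field_simp
  rw [Prod.norm_def]
  refine max_le ?_ ?_
  · simpa using r1.trans fin
  · simpa using r2.trans fin

lemma Charts.rescale (h : Charts f Λ a b κ) {φ ψ : M → ℝ} (hφ : Continuous φ) (hψ : Continuous ψ) :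
    Charts f Λ (fun x => a x + φ (f x) - φ x) (fun x => b x + ψ (f x) - ψ x)
      fun x y => (Real.exp (φ x) * (κ x y).1, Real.exp (ψ x) * (κ x y).2) := by
  refine ⟨h.closed, h.inv, (h.ca.add (hφ.comp f.continuous)).sub hφ,
    (h.cb.add (hψ.comp f.continuous)).sub hψ, fun x hx => by simp [h.zero x hx], ?_,
    h.step.rescale f.continuous h.ca h.cb hφ hψ, ?_⟩
  · obtain ⟨r, C, hr, hC, H⟩ := h.bil
    obtain ⟨K3, p3, h3⟩ := resc_bound hφ
    obtain ⟨K4, -, h4⟩ := resc_bound hψ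
    set K := max K3 K4 with hK
    have k3 : ∀ x, |φ x| ≤ K := fun x => (h3 x).trans (le_max_left _ _)
    have k4 : ∀ x, |ψ x| ≤ K := fun x => (h4 x).trans (le_max_right _ _)
    have hE : 0 < Real.exp K := Real.exp_pos K
    have hE1 : 1 ≤ Real.exp K := Real.one_le_exp (p3.trans (le_max_left _ _))
    have hC0 : 0 ≤ C := zero_le_one.trans hC
    have hrr : r / Real.exp K ≤ r := div_le_self hr.le hE1
    refine ⟨r / Real.exp K, C * Real.exp K, by positivity, one_le_mul_of_one_le_of_one_le hC hE1,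
      fun x hx => ⟨fun y hy y' hy' => ?_, fun v hv => ?_⟩⟩
    · obtain ⟨u, l⟩ := (H x hx).1 y (ball_subset_ball hrr hy) y' (ball_subset_ball hrr hy')
      simp only [resc_sub]
      constructor
      · calc _ ≤ Real.exp K * ‖κ x y - κ x y'‖ := resc_up (k3 x) (k4 x) _
          _ ≤ Real.exp K * (C * dist y y') := mul_le_mul_of_nonneg_left u hE.le
          _ = _ := by ring
      · calc _ ≤ C * ‖κ x y - κ x y'‖ := l
          _ ≤ C * (Real.exp K * _) := mul_le_mul_of_nonneg_left (resc_lo (k3 x) (k4 x) _) hC0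
          _ = _ := by ring
    · have hw := resc_up (K := K) (p := -φ x) (q := -ψ x) (by rw [abs_neg]; exact k3 x)
        (by rw [abs_neg]; exact k4 x) v
      have hv' : Real.exp K * ‖v‖ ≤ r := by
        rw [le_div_iff₀ hE] at hv; linarith
      obtain ⟨y, hy, e⟩ := (H x hx).2 _ (hw.trans hv')
      refine ⟨y, hy.trans ?_, ?_⟩
      · calc _ ≤ C * (Real.exp K * ‖v‖) := mul_le_mul_of_nonneg_left hw hC0
          _ = _ := by ring
      · simp [e, ← mul_assoc, ← Real.exp_add]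
  · have := h.comp.rescale continuous_id continuous_const continuous_const hφ hψ
    simpa using this

lemma resc_avg (a : M → ℝ) {n : ℕ} (hn : 0 < n) (x : M) :
    a x + (n : ℝ)⁻¹ * ∑ k ∈ Finset.range n, birkhoffSum f a k (f x) -
      (n : ℝ)⁻¹ * ∑ k ∈ Finset.range n, birkhoffSum f a k x = birkhoffAverage ℝ f a n x := by
  have hn' : (n : ℝ) ≠ 0 := by exact_mod_cast hn.ne'
  have e : ∑ k ∈ Finset.range n, birkhoffSum f a k (f x) - ∑ k ∈ Finset.range n, birkhoffSum f a k x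
      = birkhoffSum f a n x - n * a x := by
    rw [← Finset.sum_sub_distrib]
    simp only [birkhoffSum_apply_sub_birkhoffSum]
    rw [Finset.sum_sub_distrib]
    simp [birkhoffSum]
  rw [add_sub_assoc, ← mul_sub, e, birkhoffAverage, smul_eq_mul]
  field_simp
  ring

lemma resc_cont {a : M → ℝ} (ha : Continuous a) (n : ℕ) :
    Continuous fun x => (n : ℝ)⁻¹ * ∑ k ∈ Finset.range n, birkhoffSum f a k x := by
  refine continuous_const.mul (continuous_finsetSum _ fun k _ => ?_)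
  unfold birkhoffSum
  exact continuous_finsetSum _ fun i _ => ha.comp (f.continuous.iterate i)

theorem Charts.avg (h : Charts f Λ a b κ) {n : ℕ} (hn : 0 < n) :
    ∃ κ', Charts f Λ (birkhoffAverage ℝ f a n) (birkhoffAverage ℝ f b n) κ' := by
  have := h.rescale (resc_cont (f := f) h.ca n) (resc_cont (f := f) h.cb n)
  simp only [resc_avg _ hn] at this
  exact ⟨_, this⟩

lemma Charts.dom_avg (h : Charts f Λ a b κ) {N : ℕ} (hN : 0 < N)
    (hd : ∀ x ∈ Λ, birkhoffSum f a N x + Real.log 2 ≤ birkhoffSum f b N x) {k : ℕ} (hk : 0 < k) :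
    ∀ x ∈ Λ, birkhoffAverage ℝ f a (k * N) x + Real.log 2 / N ≤ birkhoffAverage ℝ f b (k * N) x := by
  have hit : ∀ m : ℕ, ∀ x ∈ Λ, f^[m] x ∈ Λ := by
    intro m x hx
    induction m with
    | zero => exact hx
    | succ m ih => rw [Function.iterate_succ_apply']; exact (h.inv _).2 ih
  have key : ∀ j : ℕ, ∀ x ∈ Λ,
      birkhoffSum f a (j * N) x + j * Real.log 2 ≤ birkhoffSum f b (j * N) x := by
    intro j x hx
    induction j with
    | zero => simp
    | succ j ih =>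
      rw [Nat.succ_mul, birkhoffSum_add, birkhoffSum_add]
      have := hd _ (hit (j * N) x hx)
      push_cast
      linarith
  intro x hx
  have hk' : (0 : ℝ) < k := by exact_mod_cast hk
  have hN' : (0 : ℝ) < N := by exact_mod_cast hN
  have := mul_le_mul_of_nonneg_left (key k x hx) (inv_nonneg.2 (mul_pos hk' hN').le)
  simp only [birkhoffAverage, smul_eq_mul, Nat.cast_mul]
  refine le_trans (le_of_eq ?_) this
  field_simp

end Pool.Agent.P.MP_1672e2_an

/-! Small coverings; growth of distances. -/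

set_option autoImplicit false

namespace Pool.Agent.P.MP_1672e2_an

open MeasureTheory Set Metric Filter Topology

variable {M : Type*} [MetricSpace M] [CompactSpace M] {f : M ≃ₜ M} {Λ : Set M} {a b : M → ℝ}
  {κ : M → M → ℝ × ℝ}

lemma cv_floor_mem {u R : ℝ} (h : |u| ≤ R) : ⌊u⌋ ∈ Finset.Icc (-(⌈R⌉₊ : ℤ)) (⌈R⌉₊ : ℤ) := by
  have h1 := Nat.le_ceil R
  obtain ⟨h2, h3⟩ := abs_le.1 h
  rw [Finset.mem_Icc]
  constructor
  · rw [Int.le_floor]
    push_cast
    linarith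
  · have h4 := Int.floor_le u
    have : ((⌊u⌋ : ℤ) : ℝ) ≤ (((⌈R⌉₊ : ℕ) : ℤ) : ℝ) := by
      push_cast
      linarith
    exact_mod_cast this

lemma cv_close {C r u v : ℝ} (hr : 0 < r) (hC : 0 < C) (h : ⌊C * u / r⌋ = ⌊C * v / r⌋) :
    C * |u - v| ≤ r := by
  have h1 := Int.abs_sub_lt_one_of_floor_eq_floor h
  rw [← sub_div, ← mul_sub, abs_div, abs_mul, abs_of_pos hr, abs_of_pos hC, div_lt_one hr] at h1
  exact h1.le

omit [CompactSpace M] in
lemma cv_grid {A : Set M} {φ : M → ℝ × ℝ} {C R r : ℝ} (hC : 0 < C) (hR : 0 ≤ R) (hr : 0 < r)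
    (hr1 : r ≤ 1) (hb : ∀ y ∈ A, ‖φ y‖ ≤ R)
    (hl : ∀ y ∈ A, ∀ y' ∈ A, dist y y' ≤ C * ‖φ y - φ y'‖) :
    ∃ S : Finset M, (S.card : ℝ) ≤ (2 * C * R + 3) ^ 2 / r ^ 2 ∧ A ⊆ ⋃ p ∈ S, closedBall p r := by
  classical
  rcases A.eq_empty_or_nonempty with rfl | ⟨y₀, -⟩
  · exact ⟨∅, by simp only [Finset.card_empty, Nat.cast_zero]; positivity, empty_subset _⟩
  have : Nonempty M := ⟨y₀⟩
  set N : ℕ := ⌈C * R / r⌉₊ with hN
  set c : M → ℤ × ℤ := fun y => (⌊C * (φ y).1 / r⌋, ⌊C * (φ y).2 / r⌋) with hc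
  set T : Finset (ℤ × ℤ) := Finset.Icc (-(N : ℤ)) N ×ˢ Finset.Icc (-(N : ℤ)) N with hT
  have habs : ∀ u : ℝ, |u| ≤ R → |C * u / r| ≤ C * R / r := by
    intro u hu
    rw [abs_div, abs_mul, abs_of_pos hr, abs_of_pos hC]
    gcongr
  refine ⟨T.image (Function.invFunOn c A), ?_, ?_⟩
  · have h1 : (T.image (Function.invFunOn c A)).card ≤ (2 * N + 1) * (2 * N + 1) := by
      refine Finset.card_image_le.trans ?_
      have : (Finset.Icc (-(N : ℤ)) N).card = 2 * N + 1 := by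
        rw [Int.card_Icc]
        omega
      rw [hT, Finset.card_product, this]
    have h2 : ((T.image (Function.invFunOn c A)).card : ℝ) ≤ (2 * N + 1) * (2 * N + 1) := by
      exact_mod_cast h1
    have h3 : (N : ℝ) ≤ C * R / r + 1 := (Nat.ceil_lt_add_one (by positivity)).le
    have h4 : (2 * N + 1 : ℝ) ≤ (2 * C * R + 3) / r := by
      have h5 : (3 : ℝ) ≤ 3 / r := by
        rw [le_div_iff₀ hr]
        linarith
      have h6 : (2 * C * R + 3) / r = 2 * (C * R / r) + 3 / r := by ring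
      linarith
    rw [← div_pow, sq]
    exact h2.trans (mul_le_mul h4 h4 (by positivity) (by positivity))
  · intro y hy
    have hex : ∃ z ∈ A, c z = c y := ⟨y, hy, rfl⟩
    have hp := Function.invFunOn_mem hex
    have he := Function.invFunOn_eq hex
    set p := Function.invFunOn c A (c y) with hpdef
    have hyT : c y ∈ T := by
      rw [hT, Finset.mem_product]
      exact ⟨cv_floor_mem (habs _ ((norm_fst_le (φ y)).trans (hb y hy))),
        cv_floor_mem (habs _ ((norm_snd_le (φ y)).trans (hb y hy)))⟩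
    refine mem_biUnion (Finset.mem_coe.2 (Finset.mem_image_of_mem _ hyT)) ?_
    rw [mem_closedBall]
    refine (hl y hy p hp).trans ?_
    have e1 := cv_close hr hC (congrArg Prod.fst he).symm
    have e2 := cv_close hr hC (congrArg Prod.snd he).symm
    rw [Prod.norm_def, mul_max_of_nonneg _ _ hC.le]
    exact max_le e1 e2

lemma Charts.cover (h : Charts f Λ a b κ) : ∃ K : ℝ, ∀ r, 0 < r → r ≤ 1 → ∃ S : Finset M,
    (S.card : ℝ) ≤ K / r ^ 2 ∧ Λ ⊆ ⋃ p ∈ S, closedBall p r := by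
  classical
  obtain ⟨r₀, C, hr₀, hC, hb⟩ := h.bil
  obtain ⟨t, htΛ, htf, hcov⟩ := finite_cover_balls_of_compact h.closed.isCompact hr₀
  refine ⟨htf.toFinset.card * (2 * C * (C * r₀) + 3) ^ 2, fun r hr hr1 => ?_⟩
  have hC0 : 0 < C := by linarith
  have key : ∀ x, ∃ S : Finset M, (S.card : ℝ) ≤ (2 * C * (C * r₀) + 3) ^ 2 / r ^ 2 ∧
      (x ∈ Λ → ball x r₀ ⊆ ⋃ p ∈ S, closedBall p r) := by
    intro x
    by_cases hx : x ∈ Λ
    · obtain ⟨S, h1, h2⟩ := cv_grid (A := ball x r₀) (φ := κ x) (R := C * r₀) hC0 (by positivity)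
        hr hr1 (fun y hy => by
          have h3 := ((hb x hx).1 y hy x (mem_ball_self hr₀)).1
          rw [h.zero x hx, sub_zero] at h3
          exact h3.trans (mul_le_mul_of_nonneg_left (mem_ball.1 hy).le hC0.le))
        (fun y hy y' hy' => ((hb x hx).1 y hy y' hy').2)
      exact ⟨S, h1, fun _ => h2⟩
    · exact ⟨∅, by simp only [Finset.card_empty, Nat.cast_zero]; positivity,
        fun h' => absurd h' hx⟩
  choose S hS1 hS2 using key
  refine ⟨htf.toFinset.biUnion S, ?_, ?_⟩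
  · have h1 : ((htf.toFinset.biUnion S).card : ℝ) ≤ ∑ x ∈ htf.toFinset, ((S x).card : ℝ) := by
      exact_mod_cast Finset.card_biUnion_le
    refine h1.trans ((Finset.sum_le_card_nsmul _ _ _ fun x _ => hS1 x).trans (le_of_eq ?_))
    rw [nsmul_eq_mul, mul_div_assoc]
  · intro y hy
    obtain ⟨x, hx, hyx⟩ := mem_iUnion₂.1 (hcov hy)
    obtain ⟨p, hp, hyp⟩ := mem_iUnion₂.1 (hS2 x (htΛ hx) hyx)
    exact mem_iUnion₂.2 ⟨p, Finset.mem_biUnion.2 ⟨x, htf.mem_toFinset.2 hx, hp⟩, hyp⟩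

lemma cv_growth (h : Charts f Λ a b κ) {g : M → M} (hg : Continuous g) (hm : MapsTo g Λ Λ)
    {w : M → ℝ} {δ : ℝ} (hδ : 0 < δ)
    (hs : ∀ x ∈ Λ, ∀ y, dist x y < δ → ‖κ (g x) (g y)‖ ≤ Real.exp (w x) * ‖κ x y‖) :
    ∃ C δ₀ : ℝ, 0 < C ∧ 0 < δ₀ ∧ ∀ x ∈ Λ, ∀ (y : M) (n : ℕ) (E : ℝ),
      (∀ i ≤ n, birkhoffSum g w i x ≤ E) → C * Real.exp E * dist x y ≤ δ₀ →
      ∀ i ≤ n, dist (g^[i] x) (g^[i] y) ≤ C * Real.exp E * dist x y := by
  obtain ⟨r₀, C, hr₀, hC, hb⟩ := h.bil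
  have hC0 : 0 < C := by linarith
  obtain ⟨δ₁, hδ₁, hu⟩ := Metric.uniformContinuous_iff.1
    (CompactSpace.uniformContinuous_of_continuous hg) r₀ hr₀
  have hpos : 0 < min (min δ δ₁) r₀ := lt_min (lt_min hδ hδ₁) hr₀
  refine ⟨C * C, min (min δ δ₁) r₀ / 2, by positivity, by positivity, ?_⟩
  intro x hx y n E hE hy
  have hE0 : 0 ≤ E := by simpa using hE 0 (Nat.zero_le n)
  have hsm : ∀ {s : ℝ}, s ≤ C * C * Real.exp E * dist x y → s < δ ∧ s < δ₁ ∧ s < r₀ := by
    intro s hs'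
    have h1 : s < min (min δ δ₁) r₀ := by linarith
    exact ⟨h1.trans_le ((min_le_left _ _).trans (min_le_left _ _)),
      h1.trans_le ((min_le_left _ _).trans (min_le_right _ _)), h1.trans_le (min_le_right _ _)⟩
  have hlo : ∀ z ∈ Λ, ∀ z', dist z z' < r₀ → dist z z' ≤ C * ‖κ z z'‖ ∧
      ‖κ z z'‖ ≤ C * dist z z' := by
    intro z hz z' hzz
    have h1 := (hb z hz).1 z' (by rwa [mem_ball, dist_comm]) z (mem_ball_self hr₀)
    rw [h.zero z hz, sub_zero, dist_comm z' z] at h1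
    exact ⟨h1.2, h1.1⟩
  have hd0 : dist x y ≤ C * C * Real.exp E * dist x y := by
    have h1 : 1 ≤ C * C * Real.exp E :=
      one_le_mul_of_one_le_of_one_le (one_le_mul_of_one_le_of_one_le hC hC) (Real.one_le_exp hE0)
    exact le_mul_of_one_le_left dist_nonneg h1
  have main : ∀ i ≤ n, dist (g^[i] x) (g^[i] y) ≤ C * C * Real.exp E * dist x y ∧
      ‖κ (g^[i] x) (g^[i] y)‖ ≤ Real.exp (birkhoffSum g w i x) * (C * dist x y) := by
    intro i
    induction i with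
    | zero =>
      intro _
      refine ⟨hd0, ?_⟩
      simpa using (hlo x hx y (hsm hd0).2.2).2
    | succ i ih =>
      intro hi
      obtain ⟨h1, h2⟩ := ih (by omega)
      have hxi : g^[i] x ∈ Λ := hm.iterate i hx
      have h3 : ‖κ (g^[i + 1] x) (g^[i + 1] y)‖ ≤
          Real.exp (birkhoffSum g w (i + 1) x) * (C * dist x y) := by
        rw [Function.iterate_succ_apply', Function.iterate_succ_apply', birkhoffSum_succ,
          Real.exp_add, mul_comm (Real.exp _) (Real.exp _), mul_assoc]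
        exact (hs _ hxi _ (hsm h1).1).trans (mul_le_mul_of_nonneg_left h2 (Real.exp_pos _).le)
      refine ⟨?_, h3⟩
      have h4 : dist (g^[i + 1] x) (g^[i + 1] y) < r₀ := by
        rw [Function.iterate_succ_apply', Function.iterate_succ_apply']
        exact hu (hsm h1).2.1
      have h5 := (hlo _ (hm.iterate (i + 1) hx) _ h4).1
      have h6 : Real.exp (birkhoffSum g w (i + 1) x) ≤ Real.exp E := Real.exp_le_exp.2 (hE _ hi)
      calc dist (g^[i + 1] x) (g^[i + 1] y) ≤ C * ‖κ (g^[i + 1] x) (g^[i + 1] y)‖ := h5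
        _ ≤ C * (Real.exp (birkhoffSum g w (i + 1) x) * (C * dist x y)) := by gcongr
        _ ≤ C * (Real.exp E * (C * dist x y)) := by gcongr
        _ = C * C * Real.exp E * dist x y := by ring
  exact fun i hi => (main i hi).1

lemma cv_lower {c : M → ℝ} (hc : Continuous c) : ∃ m : ℝ, 0 < m ∧ ∀ x, m ≤ Real.exp (c x) := by
  obtain ⟨K, hK⟩ := isCompact_univ.exists_bound_of_continuousOn hc.continuousOn
  refine ⟨Real.exp (-K), Real.exp_pos _, fun x => Real.exp_le_exp.2 ?_⟩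
  have := hK x (mem_univ x)
  rw [Real.norm_eq_abs, abs_le] at this
  exact this.1

lemma cv_diag_le {A B s : ℝ} (hA : |A| ≤ s) (hB : |B| ≤ s) (D : ℝ × ℝ) :
    ‖((A * D.1, B * D.2) : ℝ × ℝ)‖ ≤ s * ‖D‖ := by
  have hs : 0 ≤ s := (abs_nonneg A).trans hA
  rw [Prod.norm_def]
  refine max_le ?_ ?_
  · rw [norm_mul]
    exact mul_le_mul hA (norm_fst_le D) (norm_nonneg _) hs
  · rw [norm_mul]
    exact mul_le_mul hB (norm_snd_le D) (norm_nonneg _) hs

lemma cv_le_diag {A B s : ℝ} (hs : 0 ≤ s) (hA : s ≤ |A|) (hB : s ≤ |B|) (D : ℝ × ℝ) :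
    s * ‖D‖ ≤ ‖((A * D.1, B * D.2) : ℝ × ℝ)‖ := by
  rw [Prod.norm_def D, mul_max_of_nonneg _ _ hs, Prod.norm_def]
  refine max_le_max ?_ ?_
  · rw [norm_mul]
    exact mul_le_mul_of_nonneg_right hA (norm_nonneg _)
  · rw [norm_mul]
    exact mul_le_mul_of_nonneg_right hB (norm_nonneg _)

lemma Charts.fwd (h : Charts f Λ a b κ) (hd : ∀ x ∈ Λ, a x ≤ b x) {ε : ℝ} (hε : 0 < ε) :
    ∃ C δ₀ : ℝ, 0 < C ∧ 0 < δ₀ ∧ ∀ x ∈ Λ, ∀ (y : M) (n : ℕ) (E : ℝ),
      (∀ i ≤ n, birkhoffSum f b i x + ε * i ≤ E) → C * Real.exp E * dist x y ≤ δ₀ →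
      ∀ i ≤ n, dist (f^[i] x) (f^[i] y) ≤ C * Real.exp E * dist x y := by
  obtain ⟨m, hm, hmb⟩ := cv_lower h.cb
  have he : 0 < Real.exp ε - 1 := by
    have := Real.add_one_lt_exp hε.ne'
    linarith
  obtain ⟨δ, hδ, hs⟩ := h.step (m * (Real.exp ε - 1)) (by positivity)
  obtain ⟨C, δ₀, hC, hδ₀, H⟩ := cv_growth h f.continuous (fun x hx => (h.inv x).2 hx)
    (w := fun x => b x + ε) hδ (by
      intro x hx y hxy
      have hfx : f x ∈ Λ := (h.inv x).2 hx
      obtain ⟨A, B, hA, hB, hAB⟩ := hs x hx (f x) hfx (by simpa using hδ)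
      have h1 := hAB y (by rwa [mem_ball, dist_comm]) x (mem_ball_self hδ)
      rw [h.zero x hx, h.zero _ hfx, sub_zero, sub_zero] at h1
      have h2 := cv_diag_le (A := A) (B := B) (s := Real.exp (b x))
        (hA.le.trans (Real.exp_le_exp.2 (hd x hx))) hB.le (κ x y)
      have h3 := norm_le_norm_add_norm_sub' (κ (f x) (f y))
        ((A * (κ x y).1, B * (κ x y).2) : ℝ × ℝ)
      have h4 : m * (Real.exp ε - 1) * ‖κ x y‖ ≤
          Real.exp (b x) * (Real.exp ε - 1) * ‖κ x y‖ := by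
        gcongr
        exact hmb x
      rw [Real.exp_add]
      nlinarith)
  refine ⟨C, δ₀, hC, hδ₀, fun x hx y n E hE => H x hx y n E fun i hi => ?_⟩
  refine le_trans (le_of_eq ?_) (hE i hi)
  simp only [birkhoffSum, Finset.sum_add_distrib, Finset.sum_const, Finset.card_range,
    nsmul_eq_mul, mul_comm]

lemma Charts.bwd (h : Charts f Λ a b κ) (hd : ∀ x ∈ Λ, a x ≤ b x) {ε : ℝ} (hε : 0 < ε) :
    ∃ C δ₀ : ℝ, 0 < C ∧ 0 < δ₀ ∧ ∀ x ∈ Λ, ∀ (y : M) (n : ℕ) (E : ℝ),
      (∀ i ≤ n, -bs f.toEquiv a i x + ε * i ≤ E) → C * Real.exp E * dist x y ≤ δ₀ →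
      ∀ i ≤ n, dist (f.symm^[i] x) (f.symm^[i] y) ≤ C * Real.exp E * dist x y := by
  obtain ⟨m, hm, hma⟩ := cv_lower h.ca
  have he : 0 < 1 - Real.exp (-ε) := by
    have := Real.exp_lt_one_iff.2 (neg_lt_zero.2 hε)
    linarith
  obtain ⟨δ, hδ, hs⟩ := h.step (m * (1 - Real.exp (-ε))) (by positivity)
  obtain ⟨δ₁, hδ₁, hu⟩ := Metric.uniformContinuous_iff.1
    (CompactSpace.uniformContinuous_of_continuous f.symm.continuous) δ hδ
  have hmap : MapsTo f.symm Λ Λ := fun x hx => (h.inv _).1 (by simpa using hx)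
  obtain ⟨C, δ₀, hC, hδ₀, H⟩ := cv_growth h f.symm.continuous hmap
    (w := fun x => -a (f.symm x) + ε) hδ₁ (by
      intro x hx y hxy
      have hx' : f.symm x ∈ Λ := hmap hx
      obtain ⟨A, B, hA, hB, hAB⟩ := hs _ hx' x hx (by simpa using hδ)
      have h1 := hAB (f.symm y) (by rw [mem_ball, dist_comm]; exact hu hxy) _ (mem_ball_self hδ)
      rw [f.apply_symm_apply, f.apply_symm_apply, h.zero x hx, h.zero _ hx', sub_zero,
        sub_zero] at h1
      set D := κ (f.symm x) (f.symm y) with hD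
      have h2 := cv_le_diag (A := A) (B := B) (s := Real.exp (a (f.symm x))) (Real.exp_pos _).le
        hA.ge ((Real.exp_le_exp.2 (hd _ hx')).trans hB.ge) D
      have h3 := norm_le_norm_add_norm_sub (κ x y) ((A * D.1, B * D.2) : ℝ × ℝ)
      have h4 : m * (1 - Real.exp (-ε)) * ‖D‖ ≤
          Real.exp (a (f.symm x)) * (1 - Real.exp (-ε)) * ‖D‖ := by
        gcongr
        exact hma _
      have h5 : Real.exp (a (f.symm x)) * Real.exp (-ε) * ‖D‖ ≤ ‖κ x y‖ := by nlinarith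
      have h6 : Real.exp (-a (f.symm x) + ε) * (Real.exp (a (f.symm x)) * Real.exp (-ε)) = 1 := by
        rw [← Real.exp_add, ← Real.exp_add, Real.exp_eq_one_iff]
        ring
      calc ‖D‖ = Real.exp (-a (f.symm x) + ε) *
            (Real.exp (a (f.symm x)) * Real.exp (-ε) * ‖D‖) := by
            rw [← mul_assoc, h6, one_mul]
        _ ≤ Real.exp (-a (f.symm x) + ε) * ‖κ x y‖ := by gcongr)
  refine ⟨C, δ₀, hC, hδ₀, fun x hx y n E hE => H x hx y n E fun i hi => ?_⟩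
  refine le_trans (le_of_eq ?_) (hE i hi)
  simp only [birkhoffSum, bs, Finset.sum_add_distrib, Finset.sum_const, Finset.card_range,
    nsmul_eq_mul, mul_comm, Finset.sum_neg_distrib, Function.iterate_succ_apply']
  rfl

end Pool.Agent.P.MP_1672e2_an

/-! Positive entropy forces exponents of opposite signs. -/

set_option autoImplicit false

namespace Pool.Agent.P.MP_1672e2_an

open MeasureTheory Set Metric Filter Topology

variable {M : Type*} [MetricSpace M] [CompactSpace M] {f : M ≃ₜ M} {Λ : Set M} {a b : M → ℝ}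
  {κ : M → M → ℝ × ℝ} [MeasurableSpace M] [BorelSpace M] {μ : Measure M} [IsProbabilityMeasure μ]

omit [CompactSpace M] [MeasurableSpace M] [BorelSpace M] in
lemma bs_eq (e : M ≃ M) (g : M → ℝ) (j : ℕ) (w : M) :
    bs e g j w = birkhoffSum e.symm (fun x => g (e.symm x)) j w := by
  simp only [bs, birkhoffSum, Function.iterate_succ_apply']

/-- Slow growth of distances gives small coverings by dynamical balls. -/
lemma zero_cover {T : M → M} (hT : Continuous T) (he : Ergodic T μ) {u : M → ℝ}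
    (hu : Continuous u) (hi : ∫ x, u x ∂μ ≤ 0) (hc : IsClosed Λ) (hΛ : μ Λᶜ = 0)
    (hK : ∃ K : ℝ, ∀ r, 0 < r → r ≤ 1 → ∃ S : Finset M,
      (S.card : ℝ) ≤ K / r ^ 2 ∧ Λ ⊆ ⋃ p ∈ S, closedBall p r)
    (hg : ∀ ε : ℝ, 0 < ε → ∃ C δ₀ : ℝ, 0 < C ∧ 0 < δ₀ ∧ ∀ x ∈ Λ, ∀ (y : M) (n : ℕ) (E : ℝ),
      (∀ i ≤ n, birkhoffSum T u i x + ε * i ≤ E) → C * Real.exp E * dist x y ≤ δ₀ →
      ∀ i ≤ n, dist (T^[i] x) (T^[i] y) ≤ C * Real.exp E * dist x y)
    {δ ε θ : ℝ} (hδ : 0 < δ) (hε : 0 < ε) (hθ : 0 < θ) (n₀ : ℕ) :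
    ∃ n, n₀ ≤ n ∧ ∃ (S : Finset M) (D : M → Set M), (S.card : ℝ) ≤ Real.exp (ε * n) ∧
      (∀ j ∈ S, MeasurableSet (D j)) ∧ μ.real (⋃ j ∈ S, D j)ᶜ ≤ θ ∧
      ∀ j ∈ S, ∀ y ∈ D j, ∀ y' ∈ D j, ∀ i ≤ n, dist (T^[i] y) (T^[i] y') ≤ δ := by
  obtain ⟨K, hK⟩ := hK
  set e : ℝ := ε / 10 with he'
  have he0 : 0 < e := by positivity
  obtain ⟨C, δ₀, hC, hδ₀, hg⟩ := hg e he0
  set g : M → ℝ := fun x => u x - e with hgdef
  have hgc : Continuous g := hu.sub continuous_const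
  obtain ⟨B, hB⟩ : ∃ B : ℝ, ∀ x, |g x| ≤ B := by
    obtain ⟨B, hB⟩ := (isCompact_range hgc).isBounded.exists_norm_le
    exact ⟨B, fun x => hB _ (mem_range_self x)⟩
  have hui : Integrable u μ := hu.integrable_of_hasCompactSupport (HasCompactSupport.of_compactSpace u)
  have hgi : ∫ x, g x ∂μ < 0 := by
    rw [hgdef, integral_sub hui (integrable_const e)]
    simp only [integral_const, probReal_univ, one_smul]
    linarith
  obtain ⟨C0, hC0⟩ := unif_bdd he hgc.measurable hB hgi hθ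
  set G : Set M := {x | ∀ n, birkhoffSum T g n x ≤ C0} with hG
  have hGc : IsClosed G := by
    have : G = ⋂ n, {x | birkhoffSum T g n x ≤ C0} := by ext x; simp [hG]
    rw [this]
    refine isClosed_iInter fun n => isClosed_le ?_ continuous_const
    exact continuous_finsetSum _ fun k _ => hgc.comp (hT.iterate k)
  have hsum : ∀ x i, birkhoffSum T u i x = birkhoffSum T g i x + e * i := by
    intro x i
    simp only [birkhoffSum, hgdef, Finset.sum_sub_distrib, Finset.sum_const, Finset.card_range,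
      nsmul_eq_mul]
    ring
  set m : ℝ := min 1 (min δ δ₀ * Real.exp (-C0) / (2 * C)) with hm
  have hm0 : 0 < m := lt_min one_pos (by positivity)
  have hm1 : m ≤ 1 := min_le_left _ _
  have hm2 : 2 * C * Real.exp C0 * m ≤ min δ δ₀ := by
    have h1 : m ≤ min δ δ₀ * Real.exp (-C0) / (2 * C) := min_le_right _ _
    have h2 : 2 * C * Real.exp C0 * (min δ δ₀ * Real.exp (-C0) / (2 * C)) = min δ δ₀ := by
      rw [Real.exp_neg]
      field_simp
    rw [← h2]
    exact mul_le_mul_of_nonneg_left h1 (by positivity)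
  obtain ⟨n₁, hn₁⟩ := exists_nat_ge (K / m ^ 2 / (6 * e))
  set n : ℕ := max n₀ n₁ with hn
  have hnn : (n₁ : ℝ) ≤ n := by exact_mod_cast le_max_right n₀ n₁
  have hn0 : (0 : ℝ) ≤ n := Nat.cast_nonneg n
  set r : ℝ := m * Real.exp (-(2 * e * n)) with hr
  have hr0 : 0 < r := by positivity
  have hr1 : r ≤ 1 := by
    have : Real.exp (-(2 * e * n)) ≤ 1 := Real.exp_le_one_iff.2 (by
      have : 0 ≤ 2 * e * n := by positivity
      linarith)
    exact mul_le_one₀ hm1 (Real.exp_pos _).le this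
  obtain ⟨S, hS, hcov⟩ := hK r hr0 hr1
  refine ⟨n, le_max_left _ _, S, fun p => closedBall p r ∩ (G ∩ Λ), ?_, ?_, ?_, ?_⟩
  · have h1 : K / m ^ 2 ≤ Real.exp (6 * e * n) := by
      have h2 : K / m ^ 2 ≤ 6 * e * n := by
        have := (div_le_iff₀ (by positivity : (0 : ℝ) < 6 * e)).1 (hn₁.trans hnn)
        linarith
      have := Real.add_one_le_exp (6 * e * n)
      linarith
    have h3 : K / r ^ 2 = K / m ^ 2 * Real.exp (4 * e * n) := by
      have h4 : Real.exp (4 * e * n) = Real.exp (2 * e * n) ^ 2 := by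
        rw [← Real.exp_nat_mul]; congr 1; push_cast; ring
      rw [hr, h4, Real.exp_neg]
      field_simp
    have h5 : Real.exp (ε * n) = Real.exp (6 * e * n) * Real.exp (4 * e * n) := by
      rw [← Real.exp_add]; congr 1; rw [he']; ring
    rw [h5]
    refine hS.trans ?_
    rw [h3]
    exact mul_le_mul_of_nonneg_right h1 (Real.exp_pos _).le
  · intro p _
    exact measurableSet_closedBall.inter (hGc.measurableSet.inter hc.measurableSet)
  · have h1 : (⋃ p ∈ S, closedBall p r ∩ (G ∩ Λ))ᶜ ⊆ Gᶜ ∪ Λᶜ := by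
      intro x hx
      by_contra hx'
      simp only [mem_union, mem_compl_iff, not_or, not_not] at hx'
      obtain ⟨p, hp, hxp⟩ := mem_iUnion₂.1 (hcov hx'.2)
      exact hx (mem_iUnion₂.2 ⟨p, hp, hxp, hx'⟩)
    have h2 : μ.real Λᶜ = 0 := by simp [Measure.real, hΛ]
    calc μ.real (⋃ p ∈ S, closedBall p r ∩ (G ∩ Λ))ᶜ ≤ μ.real (Gᶜ ∪ Λᶜ) :=
          measureReal_mono h1
      _ ≤ μ.real Gᶜ + μ.real Λᶜ := measureReal_union_le _ _
      _ ≤ θ := by rw [h2, add_zero]; exact hC0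
  · intro p _ y hy y' hy' i hi
    have hd : dist y y' ≤ 2 * r := by
      have h1 := mem_closedBall.1 hy.1
      have h2 := mem_closedBall.1 hy'.1
      have := dist_triangle_right y y' p
      linarith
    have hb : C * Real.exp (C0 + 2 * e * n) * dist y y' ≤ min δ δ₀ := by
      have h1 : C * Real.exp (C0 + 2 * e * n) * (2 * r) = 2 * C * Real.exp C0 * m := by
        rw [hr, Real.exp_add, Real.exp_neg]
        field_simp
      refine le_trans ?_ hm2
      rw [← h1]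
      exact mul_le_mul_of_nonneg_left hd (by positivity)
    refine (hg y hy.2.2 y' n (C0 + 2 * e * n) ?_ (hb.trans (min_le_right _ _)) i hi).trans
      (hb.trans (min_le_left _ _))
    intro k hk
    have h1 := hy.2.1 k
    have h2 : (k : ℝ) ≤ n := by exact_mod_cast hk
    rw [hsum]
    nlinarith

theorem Charts.pos_b (h : Charts f Λ a b κ) (hd : ∀ x ∈ Λ, a x ≤ b x) (he : Ergodic f μ)
    (hΛ : μ Λᶜ = 0) (hp : PE f μ) : 0 < ∫ x, b x ∂μ := by
  by_contra hb
  refine not_PE_of_cover he.toMeasurePreserving (fun δ ε θ hδ hε hθ n₀ => ?_) hp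
  obtain ⟨n, hn, S, D, h1, h2, h3, h4⟩ := zero_cover f.continuous he h.cb (not_lt.1 hb) h.closed
    hΛ h.cover (fun ε hε => h.fwd hd hε) hδ hε hθ n₀
  exact ⟨n, hn, S, D, h1, h2, h3, fun j hj y hy y' hy' i hi => h4 j hj y hy y' hy' i hi.le⟩

theorem Charts.neg_a (h : Charts f Λ a b κ) (hd : ∀ x ∈ Λ, a x ≤ b x) (he : Ergodic f μ)
    (hΛ : μ Λᶜ = 0) (hp : PE f μ) : ∫ x, a x ∂μ < 0 := by
  by_contra ha
  refine not_PE_of_cover he.toMeasurePreserving (fun δ ε θ hδ hε hθ n₀ => ?_) hp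
  have hm : Measurable f.toEquiv.symm := f.symm.continuous.measurable
  have he' : Ergodic f.symm μ := ergodic_symm (e := f.toEquiv) hm he
  have hi : ∫ x, -a (f.symm x) ∂μ ≤ 0 := by
    have h1 : ∫ x, a (f.symm x) ∂μ = ∫ x, a x ∂μ := by
      have h2 := integral_map (μ := μ) (φ := f.symm) (f := a) he'.measurable.aemeasurable
        h.ca.aestronglyMeasurable
      rw [he'.toMeasurePreserving.map_eq] at h2
      exact h2.symm
    rw [integral_neg, h1]
    linarith [not_lt.1 ha]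
  have hs : ∀ i x, birkhoffSum f.symm (fun x => -a (f.symm x)) i x = -bs f.toEquiv a i x := by
    intro i x
    rw [bs_eq]
    simp only [birkhoffSum, Finset.sum_neg_distrib]
    rfl
  obtain ⟨n, hn, S, D, h1, h2, h3, h4⟩ := zero_cover (u := fun x => -a (f.symm x))
    f.symm.continuous he' (h.ca.comp f.symm.continuous).neg hi h.closed
    hΛ h.cover (fun ε hε => by simpa only [hs] using h.bwd hd hε) hδ hε hθ n₀
  have hf : MeasurePreserving f^[n] μ μ := he.toMeasurePreserving.iterate n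
  refine ⟨n, hn, S, fun j => f^[n] ⁻¹' D j, h1, fun j hj => hf.measurable (h2 j hj), ?_, ?_⟩
  · have h5 : (⋃ j ∈ S, f^[n] ⁻¹' D j)ᶜ = f^[n] ⁻¹' (⋃ j ∈ S, D j)ᶜ := by
      simp only [preimage_compl, preimage_iUnion]
    have h6 : MeasurableSet (⋃ j ∈ S, D j)ᶜ :=
      (S.measurableSet_biUnion h2).compl
    rw [h5, hf.measureReal_preimage h6.nullMeasurableSet]
    exact h3
  · intro j hj y hy y' hy' i hi
    have h5 : ∀ z : M, f.symm^[n - i] (f^[n] z) = f^[i] z := by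
      intro z
      have h6 : f^[n] z = f^[n - i] (f^[i] z) := by
        rw [← Function.iterate_add_apply, Nat.sub_add_cancel hi.le]
      rw [h6]
      exact (Function.LeftInverse.iterate f.symm_apply_apply (n - i)) _
    have := h4 j hj _ hy _ hy' (n - i) (Nat.sub_le _ _)
    rwa [h5, h5] at this

end Pool.Agent.P.MP_1672e2_an

/-! Codings of all measures of positive entropy on a dominated set. -/

set_option autoImplicit false

namespace Pool.Agent.P.MP_1672e2_an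

open MeasureTheory Set Metric Filter Topology

variable {M : Type*} [MetricSpace M] [CompactSpace M] {f : M ≃ₜ M} {Λ : Set M} {a b : M → ℝ}
  {κ : M → M → ℝ × ℝ} [MeasurableSpace M] [BorelSpace M]

omit [MeasurableSpace M] [BorelSpace M] in
lemma typ_bdd {g : M → ℝ} (hg : Continuous g) : ∃ K, ∀ x, |g x| ≤ K := by
  obtain ⟨K, hK⟩ := isCompact_univ.exists_bound_of_continuousOn hg.continuousOn
  exact ⟨K, fun x => by simpa using hK x (mem_univ x)⟩

omit [CompactSpace M] [MeasurableSpace M] [BorelSpace M] in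
lemma typ_cont_avg {T : M → M} (hT : Continuous T) {g : M → ℝ} (hg : Continuous g) (n : ℕ) :
    Continuous (birkhoffAverage ℝ T g n) := by
  have : birkhoffAverage ℝ T g n =
      fun x => (n : ℝ)⁻¹ * ∑ k ∈ Finset.range n, g (T^[k] x) := by
    funext x; simp [birkhoffAverage, birkhoffSum]
  rw [this]
  exact continuous_const.mul (continuous_finsetSum _ fun k _ => hg.comp (hT.iterate k))

omit [MetricSpace M] [CompactSpace M] [MeasurableSpace M] [BorelSpace M] in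
lemma typ_sum_le (T : M → M) (g : M → ℝ) (c : ℝ) (j : ℕ) (x : M) :
    |birkhoffSum T g j x - c * j| ≤ birkhoffSum T (fun y => |g y - c|) j x := by
  have : birkhoffSum T g j x - c * j = ∑ k ∈ Finset.range j, (g (T^[k] x) - c) := by
    simp [birkhoffSum, Finset.sum_sub_distrib, mul_comm]
  rw [this]
  exact Finset.abs_sum_le_sum_abs _ _

lemma typ_weak {μ : Measure M} [IsProbabilityMeasure μ] {T : M → M} (hT : MeasurePreserving T μ μ)
    {g : M → ℝ} (hg : Continuous g) (c : ℝ) {χ : ℝ} (hχ : 0 < χ)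
    (h : ∫ x, |g x - c| ∂μ < χ / 3) :
    μ.real {x | ∃ j : ℕ, χ * j < birkhoffSum T (fun y => |g y - c|) j x} ≤ 1 / 3 := by
  have hc : Continuous fun y => |g y - c| := (hg.sub continuous_const).abs
  obtain ⟨K, hK⟩ := typ_bdd hc
  have := weak_type hT hc.measurable hK (fun x => abs_nonneg _) χ
  by_contra hlt
  push Not at hlt
  nlinarith

lemma K_pos {μ : Measure M} [IsProbabilityMeasure μ] (he : Ergodic f μ) (hΛ : μ Λᶜ = 0)
    (ha : Continuous a) (hb : Continuous b) {χ : ℝ} (hχ : 0 < χ) (h1 : ∫ x, a x ∂μ ≤ -(2 * χ))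
    (h2 : 2 * χ ≤ ∫ x, b x ∂μ) : ∀ᶠ n in atTop,
      μ (Kset f Λ (birkhoffAverage ℝ f a n) (birkhoffAverage ℝ f b n) χ) ≠ 0 := by
  obtain ⟨Ka, hKa⟩ := typ_bdd ha
  obtain ⟨Kb, hKb⟩ := typ_bdd hb
  have ta := mean_erg he ha.measurable hKa
  have tb := mean_erg he hb.measurable hKb
  have h3 : (0 : ℝ) < χ / 3 := by positivity
  have hsm : Measurable (f.toEquiv.symm : M → M) := f.symm.continuous.measurable
  have hsp : MeasurePreserving (f.toEquiv.symm : M → M) μ μ :=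
    measurePreserving_symm (e := f.toEquiv) hsm he.toMeasurePreserving
  filter_upwards [ta.eventually (gt_mem_nhds h3), tb.eventually (gt_mem_nhds h3)] with n hna hnb
  intro h0
  have ca := typ_cont_avg f.continuous ha n
  have cb := typ_cont_avg f.continuous hb n
  have w1 := typ_weak he.toMeasurePreserving ca _ hχ hna
  have cb' : Continuous fun x => birkhoffAverage ℝ f b n (f.toEquiv.symm x) :=
    cb.comp f.symm.continuous
  have hnb' : ∫ x, |birkhoffAverage ℝ f b n (f.toEquiv.symm x) - ∫ y, b y ∂μ| ∂μ < χ / 3 := by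
    have hm : AEStronglyMeasurable (fun x => |birkhoffAverage ℝ f b n x - ∫ y, b y ∂μ|)
        (μ.map f.toEquiv.symm) := ((cb.sub continuous_const).abs).aestronglyMeasurable
    have := integral_map hsm.aemeasurable hm
    rw [hsp.map_eq] at this
    rw [← this]; exact hnb
  have w2 := typ_weak hsp cb' _ hχ hnb'
  set E1 := {x | ∃ j : ℕ, χ * j <
    birkhoffSum f (fun y => |birkhoffAverage ℝ f a n y - ∫ y, a y ∂μ|) j x} with hE1
  set E2 := {x | ∃ j : ℕ, χ * j < birkhoffSum f.toEquiv.symm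
    (fun y => |birkhoffAverage ℝ f b n (f.toEquiv.symm y) - ∫ y, b y ∂μ|) j x} with hE2
  set K := Kset f Λ (birkhoffAverage ℝ f a n) (birkhoffAverage ℝ f b n) χ with hK
  have hsub : (univ : Set M) ⊆ (K ∪ Λᶜ) ∪ (E1 ∪ E2) := by
    intro x _
    by_contra hx
    simp only [mem_union, not_or, mem_compl_iff, not_not] at hx
    obtain ⟨⟨hxK, hxΛ⟩, hx1, hx2⟩ := hx
    apply hxK
    simp only [hE1, hE2, mem_ofPred_eq, not_exists, not_lt] at hx1 hx2
    refine ⟨hxΛ, fun j => ?_, fun j => ?_⟩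
    · have e := typ_sum_le f (birkhoffAverage ℝ f a n) (∫ y, a y ∂μ) j x
      have e1 := (abs_le.1 (e.trans (hx1 j))).2
      have hj : (0 : ℝ) ≤ j := Nat.cast_nonneg j
      nlinarith
    · rw [bs_eq]
      have e := typ_sum_le f.toEquiv.symm
        (fun y => birkhoffAverage ℝ f b n (f.toEquiv.symm y)) (∫ y, b y ∂μ) j x
      have e1 := (abs_le.1 (e.trans (hx2 j))).1
      have hj : (0 : ℝ) ≤ j := Nat.cast_nonneg j
      nlinarith
  have m0 : μ.real (K ∪ Λᶜ) = 0 := by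
    simp [Measure.real, measure_union_null h0 hΛ]
  have m1 : μ.real (univ : Set M) ≤ μ.real ((K ∪ Λᶜ) ∪ (E1 ∪ E2)) := measureReal_mono hsub
  have m2 := measureReal_union_le (μ := μ) (K ∪ Λᶜ) (E1 ∪ E2)
  have m3 := measureReal_union_le (μ := μ) E1 E2
  have m4 : μ.real (univ : Set M) = 1 := by simp
  linarith

theorem Charts.all_codings (h : Charts f Λ a b κ) {N : ℕ} (hN : 0 < N)
    (hd : ∀ x ∈ Λ, birkhoffSum f a N x + Real.log 2 ≤ birkhoffSum f b N x) :
    ∃ S : Set ((ℕ → ℕ) × (Om → M)), S.Countable ∧ (∀ p ∈ S, Coding f.toEquiv p.1 p.2) ∧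
      ∀ μ : Measure M, IsProbabilityMeasure μ → Ergodic f μ → PE f μ → μ Λᶜ = 0 →
        ∃ p ∈ S, μ (p.2 '' LS p.1)ᶜ = 0 := by
  have hc : 0 < Real.log 2 / N := div_pos (Real.log_pos one_lt_two) (by exact_mod_cast hN)
  have key : ∀ q : ℕ × ℕ, ∃ S : Set ((ℕ → ℕ) × (Om → M)), S.Countable ∧
      (∀ p ∈ S, Coding f.toEquiv p.1 p.2) ∧
      ∀ μ : Measure M, IsProbabilityMeasure μ → Ergodic f μ → Aper f μ →
        μ (Kset f Λ (birkhoffAverage ℝ f a ((q.1 + 1) * N))
          (birkhoffAverage ℝ f b ((q.1 + 1) * N)) (1 / ((q.2 : ℝ) + 1))) ≠ 0 →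
        ∃ p ∈ S, μ (p.2 '' LS p.1)ᶜ = 0 := by
    intro q
    obtain ⟨κ', h'⟩ := h.avg (n := (q.1 + 1) * N) (Nat.mul_pos (Nat.succ_pos _) hN)
    exact h'.codings hc (h.dom_avg hN hd (Nat.succ_pos _)) Nat.one_div_pos_of_nat
  choose S hS1 hS2 hS3 using key
  refine ⟨⋃ q, S q, countable_iUnion hS1, fun p hp => ?_, fun μ hμ he hp hΛ => ?_⟩
  · obtain ⟨q, hq⟩ := mem_iUnion.1 hp
    exact hS2 q p hq
  · obtain ⟨κ', h'⟩ := h.avg hN
    have hd' : ∀ x ∈ Λ, birkhoffAverage ℝ f a N x ≤ birkhoffAverage ℝ f b N x := by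
      intro x hx
      have := h.dom_avg hN hd Nat.one_pos x hx
      rw [one_mul] at this
      linarith
    obtain ⟨Ka, hKa⟩ := typ_bdd h.ca
    obtain ⟨Kb, hKb⟩ := typ_bdd h.cb
    have p1 := h'.pos_b hd' he hΛ hp
    have p2 := h'.neg_a hd' he hΛ hp
    rw [integral_avg he.toMeasurePreserving h.cb.measurable hKb hN] at p1
    rw [integral_avg he.toMeasurePreserving h.ca.measurable hKa hN] at p2
    obtain ⟨j, hj⟩ := exists_nat_one_div_lt
      (show 0 < min (∫ x, b x ∂μ) (-∫ x, a x ∂μ) / 2 from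
        div_pos (lt_min p1 (by linarith)) two_pos)
    have m1 := min_le_left (∫ x, b x ∂μ) (-∫ x, a x ∂μ)
    have m2 := min_le_right (∫ x, b x ∂μ) (-∫ x, a x ∂μ)
    have kp := K_pos he hΛ h.ca h.cb (χ := 1 / ((j : ℝ) + 1)) Nat.one_div_pos_of_nat
      (by linarith) (by linarith)
    obtain ⟨n₀, hn₀⟩ := eventually_atTop.1 kp
    have hle : n₀ ≤ (n₀ + 1) * N := by nlinarith
    obtain ⟨p, hp1, hp2⟩ := hS3 (n₀, j) μ hμ he (PE.aper he hp) (hn₀ _ hle)
    exact ⟨p, mem_iUnion.2 ⟨_, hp1⟩, hp2⟩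

end Pool.Agent.P.MP_1672e2_an
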