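import Pool.Agent.P.MP_1672e2_an.Surface
import Pool.Agent.P.MP_1672e2_an.Measures
import Pool.Agent.P.MP_1672e2_an.Symbolic

/-! The main theorem. -/

set_option autoImplicit false

namespace Pool.Agent.P.MP_1672e2_an

open MeasureTheory Set Metric Filter Topology Bundle
open scoped Manifold ContDiff

lemma trivial_coding {M : Type*} [TopologicalSpace M] [MeasurableSpace M] (T : M ≃ M) (p : M) :
    Coding T (fun _ => 0) fun _ => p := by
  have h : LS (fun _ => 0) = ∅ := eq_empty_of_forall_notMem fun x hx => by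
    simpa using LS_lt hx 0
  refine ⟨?_, continuousOn_const, 1, le_rfl, fun F => by simp [Phi]⟩
  rw [h]
  exact ⟨measurable_const, MeasurableSet.empty, by simp, by simp, by simp⟩

variable {E : Type*} [NormedAddCommGroup E] [NormedSpace ℝ E] [FiniteDimensional ℝ E] {M : Type*}
  [TopologicalSpace M] [T2Space M] [CompactSpace M] [ChartedSpace E M] [IsManifold 𝓘(ℝ, E) ∞ M]
  [RiemannianBundle fun x : M => TangentSpace 𝓘(ℝ, E) x]
  [IsContinuousRiemannianBundle E fun x : M => TangentSpace 𝓘(ℝ, E) x]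
  [MeasurableSpace M] [BorelSpace M]

theorem exists_codings (hE : Module.finrank ℝ E = 2) (f : Diffeomorph 𝓘(ℝ, E) 𝓘(ℝ, E) M M 1) :
    StandardBorelSpace M ∧ ∃ S : Set ((ℕ → ℕ) × (Om → M)), S.Countable ∧
      (∀ p ∈ S, Coding f.toEquiv p.1 p.2) ∧ ∀ μ : Measure M, IsProbabilityMeasure μ → Ergodic f μ →
        PE f μ → μ {x | ¬ Dominated E f.toEquiv x} = 0 → ∃ p ∈ S, μ (p.2 '' LS p.1)ᶜ = 0 := by
  obtain ⟨n, e, e1, e2, e3⟩ := exists_embedding_euclidean_of_compact (I := 𝓘(ℝ, E)) (M := M)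
  let _ := e2.isEmbedding.comapMetricSpace e
  refine ⟨inferInstance, ?_⟩
  choose u v a b hs using fun N => exists_split hE f (N + 1)
  choose κ hκ using fun N => (hs N).charts hE (e := e) (fun x y => dist_eq_norm (e x) (e y))
    (e1.of_le (by simp)) e3 f
  choose S s1 s2 s3 using fun N => (hκ N).all_codings N.succ_pos (hs N).dom
  refine ⟨⋃ N, S N, countable_iUnion s1, fun p hp => ?_, fun μ _ he hp hd => ?_⟩
  · obtain ⟨N, hN⟩ := mem_iUnion.1 hp
    exact s2 N p hN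
  · obtain ⟨N, hN⟩ := erg_cover (S := f.toEquiv) he (fun N => (hs N).closed.measurableSet)
      (fun N => (hs N).inv) (measure_mono_null (fun x hx => by
        rintro ⟨N, h0, h⟩
        obtain ⟨N, rfl⟩ := Nat.exists_eq_succ_of_ne_zero h0.ne'
        exact hx (mem_iUnion.2 ⟨N, h⟩)) hd)
    obtain ⟨p, p1, p2⟩ := s3 N μ ‹_› he hp hN
    exact ⟨p, mem_iUnion.2 ⟨N, p1⟩, p2⟩

theorem main (hE : Module.finrank ℝ E = 2) (f : Diffeomorph 𝓘(ℝ, E) 𝓘(ℝ, E) M M 1) :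
    ∃ (G : Set (ℕ × ℕ)) (M' : Set M) (X' : Set (ℤ → ℕ)), MeasurableSet M' ∧ MeasurableSet X' ∧
      (f : M → M) ⁻¹' M' = M' ∧ (fun x : ℤ → ℕ => fun n => x (n + 1)) ⁻¹' X' = X' ∧
      X' ⊆ {x : ℤ → ℕ | ∀ n : ℤ, (x n, x (n + 1)) ∈ G} ∧
      (∃ ψ : MeasurableEquiv ↥M' ↥X', ∀ a b : ↥M', (b : M) = f (a : M) →
        ((ψ b : ↥X') : ℤ → ℕ) = fun n => ((ψ a : ↥X') : ℤ → ℕ) (n + 1)) ∧
      (∀ μ : Measure M, IsProbabilityMeasure μ → Ergodic (f : M → M) μ → PE (f : M → M) μ →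
        μ {x | ¬ Dominated E f.toEquiv x} = 0 → μ M'ᶜ = 0) ∧
      ∀ ν : Measure (ℤ → ℕ), IsProbabilityMeasure ν →
        Ergodic (fun x : ℤ → ℕ => fun n => x (n + 1)) ν →
        ν {x : ℤ → ℕ | ∀ n : ℤ, (x n, x (n + 1)) ∈ G} = 1 →
        PE (fun x : ℤ → ℕ => fun n => x (n + 1)) ν →
        ν ({x : ℤ → ℕ | ∀ n : ℤ, (x n, x (n + 1)) ∈ G} \ X') = 0 := by
  rcases isEmpty_or_nonempty M with hM | ⟨⟨p₀⟩⟩
  · refine ⟨∅, ∅, ∅, MeasurableSet.empty, MeasurableSet.empty, rfl, rfl, empty_subset _,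
      ⟨⟨Equiv.equivOfIsEmpty _ _, measurable_of_empty _, measurable_of_empty _⟩,
        fun a => a.2.elim⟩, fun μ _ _ _ _ => by simp [Subsingleton.elim (∅ : Set M)ᶜ ∅],
      fun ν _ _ _ _ => by simp⟩
  obtain ⟨hB, S, s1, s2, s3⟩ := exists_codings hE f
  obtain ⟨g, hg⟩ := (s1.insert (fun _ => 0, fun _ => p₀)).exists_eq_range (insert_nonempty _ _)
  have hc : ∀ k, Coding f.toEquiv (g k).1 (g k).2 := fun k => by
    rcases (hg ▸ mem_range_self k : g k ∈ insert _ S) with h | h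
    · rw [h]; exact trivial_coding _ _
    · exact s2 _ h
  obtain ⟨G, M', X', a1, a2, a3, a4, a5, a6, a7, a8⟩ := symbolic hc
  refine ⟨G, M', X', a1, a2, Set.ext a3, Set.ext a4, a5, a6, fun μ _ he hp hd => ?_,
    fun ν _ he h1 hp => measure_mono_null (sdiff_subset_compl _ _) (a8 ν ‹_› he hp ?_)⟩
  · obtain ⟨p, p1, p2⟩ := s3 μ ‹_› he hp hd
    obtain ⟨k, rfl⟩ : p ∈ range g := hg ▸ mem_insert_of_mem _ p1
    exact a7 μ ‹_› he hp ⟨k, p2⟩
  · refine (prob_compl_eq_zero_iff ?_).2 h1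
    simp only [ofPred_forall]
    exact MeasurableSet.iInter fun n => ((measurable_pi_apply n).prodMk
      (measurable_pi_apply (n + 1))) (MeasurableSet.of_discrete (s := G))

end Pool.Agent.P.MP_1672e2_an
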