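import Mathlib

/-! The definitions used in the statement. -/

set_option autoImplicit false

namespace Pool.Agent.P.MP_1672e2_an

open Bundle MeasureTheory
open scoped Manifold

/-- Some finite measurable partition has positive entropy. -/
def PE {X : Type*} [MeasurableSpace X] (T : X → X) (μ : Measure X) : Prop :=
  ∃ k : ℕ, ∃ P : Fin k → Set X, (∀ i, MeasurableSet (P i)) ∧
    (∀ i j, i ≠ j → Disjoint (P i) (P j)) ∧ (⋃ i, P i) = Set.univ ∧
    ∃ c : ℝ, 0 < c ∧ ∀ n : ℕ, 0 < n →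
      c * (n : ℝ) ≤ ∑ w : Fin n → Fin k,
        Real.negMulLog (μ (⋂ i : Fin n, T^[(i : ℕ)] ⁻¹' P (w i))).toReal

/-- Integer powers of a bijection. -/
def zp {X : Type*} (e : X ≃ X) (t : ℤ) : X → X := ((e : Equiv.Perm X) ^ t : Equiv.Perm X)

/-- The left shift on sequences of naturals. -/
def shift (x : ℤ → ℕ) : ℤ → ℕ := fun n => x (n + 1)

/-- The Markov shift of a set of edges. -/
def Markov (G : Set (ℕ × ℕ)) : Set (ℤ → ℕ) := {x | ∀ n : ℤ, (x n, x (n + 1)) ∈ G}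

/-- `f` is Borel isomorphic to a countable Markov shift, away from measures of zero entropy and,
on the side of `f`, away from the measures that do not satisfy `P`. -/
def MarkovModel {M : Type*} [MeasurableSpace M] (f : M → M) (P : Measure M → Prop) : Prop :=
  ∃ (G : Set (ℕ × ℕ)) (M' : Set M) (X' : Set (ℤ → ℕ)), MeasurableSet M' ∧ MeasurableSet X' ∧
    f ⁻¹' M' = M' ∧ shift ⁻¹' X' = X' ∧ X' ⊆ Markov G ∧
    (∃ ψ : MeasurableEquiv M' X', ∀ a b : M', b.1 = f a.1 → (ψ b).1 = shift (ψ a).1) ∧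
    (∀ μ : Measure M, IsProbabilityMeasure μ → Ergodic f μ → PE f μ → P μ → μ M'ᶜ = 0) ∧
    ∀ ν : Measure (ℤ → ℕ), IsProbabilityMeasure ν → Ergodic shift ν → ν (Markov G) = 1 →
      PE shift ν → ν (Markov G \ X') = 0

variable (E : Type*) [NormedAddCommGroup E] [NormedSpace ℝ E] {M : Type*} [TopologicalSpace M]
  [ChartedSpace E M] [RiemannianBundle fun x : M => TangentSpace 𝓘(ℝ, E) x]

/-- Along the whole orbit of `x`, after `N` more steps the direction `v` is expanded at least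
twice as much as the direction `u`. Norms are those of the Riemannian metric. -/
def DomAt (f : M ≃ M) (N : ℕ) (x : M) (u v : TangentSpace 𝓘(ℝ, E) x) : Prop :=
  u ≠ 0 ∧ v ≠ 0 ∧ ∀ n : ℤ,
    2 * ‖mfderiv 𝓘(ℝ, E) 𝓘(ℝ, E) (zp f (n + N)) x u‖ * ‖mfderiv 𝓘(ℝ, E) 𝓘(ℝ, E) (zp f n) x v‖ ≤
      ‖mfderiv 𝓘(ℝ, E) 𝓘(ℝ, E) (zp f (n + N)) x v‖ * ‖mfderiv 𝓘(ℝ, E) 𝓘(ℝ, E) (zp f n) x u‖

/-- The orbit of `x` has a dominated splitting into two lines. -/
def Dominated (f : M ≃ M) (x : M) : Prop := ∃ N, 0 < N ∧ ∃ u v, DomAt E f N x u v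

end Pool.Agent.P.MP_1672e2_an
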