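import Pool.Agent.P.MP_1672e2_an.Loops

/-! The uniform chart system of a compact manifold (adapted from the files on Anosov maps). -/

set_option autoImplicit false

namespace Pool.Agent.P.MP_1672e2_an

open Bundle Filter Topology Metric
open scoped Manifold ContDiff

section

variable {M E ι : Type*} [MetricSpace M] [NormedAddCommGroup E]

/-- A uniform system of bi-Lipschitz charts. -/
structure CS (A : ι → Set M) (φ : ι → M → E) (ψ : ι → E → M) (r C : ℝ) : Prop where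
  pos : 0 < r
  one_le : 1 ≤ C
  leb : ∀ x, ∃ i, ∀ y, dist y x ≤ r → y ∈ A i
  up : ∀ i x y, x ∈ A i → y ∈ A i → ‖φ i x - φ i y‖ ≤ C * dist x y
  lo : ∀ i x y, x ∈ A i → y ∈ A i → dist x y ≤ C * ‖φ i x - φ i y‖
  inv : ∀ i x v, x ∈ A i → ‖v - φ i x‖ ≤ r → φ i (ψ i v) = v ∧ dist (ψ i v) x ≤ C * ‖v - φ i x‖

variable [NormedSpace ℝ E]

/-- Uniform linear approximation in charts. -/
def Lin (A : ι → Set M) (φ : ι → M → E) (F : M → M) (B : M → ι → ι → E →L[ℝ] E) : Prop :=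
  ∀ θ, 0 < θ → ∃ ρ, 0 < ρ ∧ ∀ x i j y y', x ∈ A i → F x ∈ A j → dist y x ≤ ρ → dist y' x ≤ ρ →
    ‖φ j (F y) - φ j (F y') - B x i j (φ i y - φ i y')‖ ≤ θ * ‖φ i y - φ i y'‖

end

lemma unif_near {M : Type*} [MetricSpace M] [CompactSpace M] {R : M → M → M → Prop}
    (h : ∀ c, ∀ᶠ p : M × M × M in 𝓝 (c, c, c), R p.1 p.2.1 p.2.2) :
    ∃ ρ, 0 < ρ ∧ ∀ x y z, dist y x ≤ ρ → dist z x ≤ ρ → R x y z := by
  obtain ⟨ρ, e1, e2⟩ := (isCompact_range (f := fun c : M => (c, c, c))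
    (by fun_prop)).exists_cthickening_subset_open (t := interior {p | R p.1 p.2.1 p.2.2})
    isOpen_interior (by rintro _ ⟨c, rfl⟩; exact mem_interior_iff_mem_nhds.2 (h c))
  refine ⟨ρ, e1, fun x y z hy hz => ?_⟩
  have := interior_subset (e2 (mem_cthickening_of_dist_le (x, y, z) (x, x, x) ρ _ ⟨x, rfl⟩
    (by simp [Prod.dist_eq, hy, hz])))
  exact this

section

variable {E V : Type*} [NormedAddCommGroup E] [NormedSpace ℝ E] [NormedAddCommGroup V]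
  [NormedSpace ℝ V]

lemma lin_local {G : E → V} {u : E} (hG : ContDiffAt ℝ 1 G u) {θ : ℝ} (hθ : 0 < θ) :
    ∀ᶠ p : E × E × E in 𝓝 (u, u, u),
      ‖G p.2.1 - G p.2.2 - fderiv ℝ G p.1 (p.2.1 - p.2.2)‖ ≤ θ * ‖p.2.1 - p.2.2‖ := by
  have h1 := (hG.hasStrictFDerivAt one_ne_zero).isLittleO.def (half_pos hθ)
  have h2 : ∀ᶠ w in 𝓝 u, dist (fderiv ℝ G w) (fderiv ℝ G u) ≤ θ / 2 :=
    (hG.continuousAt_fderiv one_ne_zero).eventually (closedBall_mem_nhds _ (half_pos hθ))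
  filter_upwards [(continuous_snd.tendsto (u, u, u)).eventually h1,
    (continuous_fst.tendsto (u, u, u)).eventually h2] with p a1 a2
  rw [dist_eq_norm] at a2
  have a3 := (fderiv ℝ G p.1 - fderiv ℝ G u).le_of_opNorm_le a2 (p.2.1 - p.2.2)
  rw [sub_apply, norm_sub_rev] at a3
  linarith [norm_sub_le_norm_sub_add_norm_sub (G p.2.1 - G p.2.2) (fderiv ℝ G u (p.2.1 - p.2.2))
    (fderiv ℝ G p.1 (p.2.1 - p.2.2))]

lemma bilip_local [FiniteDimensional ℝ E] {G : E → V} {u : E} (hG : ContDiffAt ℝ 1 G u)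
    (hi : Function.Injective (fderiv ℝ G u)) : ∃ C, ∀ᶠ p : E × E in 𝓝 (u, u),
      ‖G p.1 - G p.2‖ ≤ C * ‖p.1 - p.2‖ ∧ ‖p.1 - p.2‖ ≤ C * ‖G p.1 - G p.2‖ := by
  obtain ⟨K, k1, k2⟩ := (fderiv ℝ G u : E →ₗ[ℝ] V).exists_antilipschitzWith
    (LinearMap.ker_eq_bot.2 hi)
  have k0 : (0 : ℝ) < K := k1
  refine ⟨‖fderiv ℝ G u‖ + 1 / (2 * K) + 2 * K, ?_⟩
  filter_upwards [(hG.hasStrictFDerivAt one_ne_zero).isLittleO.def
    (show 0 < 1 / (2 * (K : ℝ)) by positivity)] with p a1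
  have a2 := (fderiv ℝ G u).le_opNorm (p.1 - p.2)
  have a3 : ‖p.1 - p.2‖ ≤ K * ‖fderiv ℝ G u (p.1 - p.2)‖ := by
    simpa [dist_eq_norm] using k2.le_mul_dist p.1 p.2
  have a4 := norm_le_norm_add_norm_sub' (G p.1 - G p.2) (fderiv ℝ G u (p.1 - p.2))
  have a5 := norm_le_norm_add_norm_sub (G p.1 - G p.2) (fderiv ℝ G u (p.1 - p.2))
  have a6 : K * (1 / (2 * K) * ‖p.1 - p.2‖) = ‖p.1 - p.2‖ / 2 := by field_simp
  have a7 : 0 ≤ (‖fderiv ℝ G u‖ + 1 / (2 * K)) * ‖G p.1 - G p.2‖ := by positivity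
  constructor
  · nlinarith [norm_nonneg (p.1 - p.2)]
  · nlinarith [mul_le_mul_of_nonneg_left a1 k0.le, mul_le_mul_of_nonneg_left a5 k0.le]

variable {M : Type*} [TopologicalSpace M] [ChartedSpace E M] [IsManifold 𝓘(ℝ, E) 1 M]

variable (E) in
/-- The chart on tangent vectors. -/
noncomputable abbrev J (c x : M) : TangentSpace 𝓘(ℝ, E) x →L[ℝ] E :=
  (trivializationAt E (TangentSpace 𝓘(ℝ, E)) c).continuousLinearMapAt ℝ x

variable (E) in
/-- The inverse chart on tangent vectors. -/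
noncomputable abbrev J' (c x : M) : E →L[ℝ] TangentSpace 𝓘(ℝ, E) x :=
  (trivializationAt E (TangentSpace 𝓘(ℝ, E)) c).symmL ℝ x

lemma J'_J {c x : M} (hx : x ∈ (chartAt E c).source) (v : TangentSpace 𝓘(ℝ, E) x) :
    J' E c x (J E c x v) = v :=
  Trivialization.symmL_continuousLinearMapAt _ (by simpa) v

lemma J_J' {c x : M} (hx : x ∈ (chartAt E c).source) (v : E) : J E c x (J' E c x v) = v :=
  Trivialization.continuousLinearMapAt_symmL _ (by simpa) v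

lemma contMDiffAt_symm {c x : M} (hx : x ∈ (chartAt E c).source) :
    ContMDiffAt 𝓘(ℝ, E) 𝓘(ℝ, E) 1 (extChartAt 𝓘(ℝ, E) c).symm (extChartAt 𝓘(ℝ, E) c x) :=
  (contMDiffOn_extChartAt_symm c).contMDiffAt (extChartAt_target_mem_nhds'
    ((extChartAt 𝓘(ℝ, E) c).map_source (by simpa)))

lemma contDiffAt_chart {g : M → V} {c x : M} (hx : x ∈ (chartAt E c).source)
    (hg : ContMDiffAt 𝓘(ℝ, E) 𝓘(ℝ, V) 1 g x) :
    ContDiffAt ℝ 1 (g ∘ (extChartAt 𝓘(ℝ, E) c).symm) (extChartAt 𝓘(ℝ, E) c x) :=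
  contMDiffAt_iff_contDiffAt.1 (hg.comp_of_eq (contMDiffAt_symm hx)
    ((extChartAt 𝓘(ℝ, E) c).left_inv (by simpa)))

lemma fderiv_chart {g : M → V} {c x : M} (hx : x ∈ (chartAt E c).source)
    (hg : MDifferentiableAt 𝓘(ℝ, E) 𝓘(ℝ, V) g x) (v : E) :
    fderiv ℝ (g ∘ (extChartAt 𝓘(ℝ, E) c).symm) (extChartAt 𝓘(ℝ, E) c x) v =
      mfderiv 𝓘(ℝ, E) 𝓘(ℝ, V) g x (J' E c x v) := by
  have h1 : (extChartAt 𝓘(ℝ, E) c).symm (extChartAt 𝓘(ℝ, E) c x) = x :=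
    (extChartAt 𝓘(ℝ, E) c).left_inv (by simpa)
  rw [← mfderiv_eq_fderiv, mfderiv_comp_of_eq hg
    ((contMDiffAt_symm hx).mdifferentiableAt one_ne_zero) h1, J',
    TangentBundle.symmL_trivializationAt hx, modelWithCornersSelf_coe, Set.range_id,
    mfderivWithin_univ]
  exact congrArg (fun y : M => (mfderiv 𝓘(ℝ, E) 𝓘(ℝ, V) g y : E →L[ℝ] V) _) h1

variable (E) in
/-- The derivative read in two charts. -/
noncomputable def Bd (F : M → M) (c c' x : M) : E →L[ℝ] E :=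
  fderiv ℝ ((extChartAt 𝓘(ℝ, E) c' ∘ F) ∘ (extChartAt 𝓘(ℝ, E) c).symm) (extChartAt 𝓘(ℝ, E) c x)

lemma Bd_apply {F : M → M} {c c' x : M} (hx : x ∈ (chartAt E c).source)
    (hx' : F x ∈ (chartAt E c').source) (hF : MDifferentiableAt 𝓘(ℝ, E) 𝓘(ℝ, E) F x) (v : E) :
    Bd E F c c' x v = J E c' (F x) (mfderiv 𝓘(ℝ, E) 𝓘(ℝ, E) F x (J' E c x v)) := by
  rw [Bd, fderiv_chart hx ((mdifferentiableAt_extChartAt hx').comp x hF),
    mfderiv_comp x (mdifferentiableAt_extChartAt hx') hF, J,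
    TangentBundle.continuousLinearMapAt_trivializationAt hx']
  rfl

lemma Bd_local {F : M → M} {c c' x : M} (hx : x ∈ (chartAt E c).source)
    (hx' : F x ∈ (chartAt E c').source) (hF : ContMDiffAt 𝓘(ℝ, E) 𝓘(ℝ, E) 1 F x) {θ : ℝ}
    (hθ : 0 < θ) : ∀ᶠ p : M × M × M in 𝓝 (x, x, x),
      ‖extChartAt 𝓘(ℝ, E) c' (F p.2.1) - extChartAt 𝓘(ℝ, E) c' (F p.2.2) - Bd E F c c' p.1
        (extChartAt 𝓘(ℝ, E) c p.2.1 - extChartAt 𝓘(ℝ, E) c p.2.2)‖ ≤
        θ * ‖extChartAt 𝓘(ℝ, E) c p.2.1 - extChartAt 𝓘(ℝ, E) c p.2.2‖ := by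
  have h1 := lin_local (contDiffAt_chart hx ((contMDiffAt_extChartAt' hx').comp x hF)) hθ
  have h2 : x ∈ (extChartAt 𝓘(ℝ, E) c).source := by simpa
  have h3 := continuousAt_extChartAt' h2
  have h4 := extChartAt_source_mem_nhds' h2
  filter_upwards [(h3.prodMap (h3.prodMap h3)).eventually h1,
    (continuous_snd.fst.tendsto (x, x, x)).eventually h4,
    (continuous_snd.snd.tendsto (x, x, x)).eventually h4] with p a1 a2 a3
  simp only [Prod.map_fst, Prod.map_snd, Function.comp_apply, (extChartAt 𝓘(ℝ, E) c).left_inv a2,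
    (extChartAt 𝓘(ℝ, E) c).left_inv a3] at a1
  exact a1

end

variable {E V : Type*} [NormedAddCommGroup E] [NormedSpace ℝ E] [NormedAddCommGroup V]
  [NormedSpace ℝ V] [FiniteDimensional ℝ E] {M : Type*} [MetricSpace M] [ChartedSpace E M]
  [IsManifold 𝓘(ℝ, E) 1 M]

lemma chart_local {e : M → V} (he : ∀ x y, dist x y = ‖e x - e y‖)
    (h1 : ContMDiff 𝓘(ℝ, E) 𝓘(ℝ, V) 1 e)
    (h2 : ∀ x, Function.Injective (mfderiv 𝓘(ℝ, E) 𝓘(ℝ, V) e x)) (c : M) {U : Set M}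
    (hU : U ∈ 𝓝 c) : ∃ s, 0 < s ∧ ∃ C, ∀ v ∈ closedBall (extChartAt 𝓘(ℝ, E) c c) s,
      v ∈ (extChartAt 𝓘(ℝ, E) c).target ∧ (extChartAt 𝓘(ℝ, E) c).symm v ∈ U ∧
      ∀ w ∈ closedBall (extChartAt 𝓘(ℝ, E) c c) s,
        dist ((extChartAt 𝓘(ℝ, E) c).symm v) ((extChartAt 𝓘(ℝ, E) c).symm w) ≤ C * ‖v - w‖ ∧
        ‖v - w‖ ≤ C * dist ((extChartAt 𝓘(ℝ, E) c).symm v) ((extChartAt 𝓘(ℝ, E) c).symm w) := by
  have hc := mem_chart_source E c
  obtain ⟨C, hC⟩ := bilip_local (contDiffAt_chart hc (h1 c)) fun v w h => by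
    rw [fderiv_chart hc ((h1 c).mdifferentiableAt one_ne_zero),
      fderiv_chart hc ((h1 c).mdifferentiableAt one_ne_zero)] at h
    rw [← J_J' hc v, h2 c h, J_J' hc]
  rw [nhds_prod_eq] at hC
  obtain ⟨W, w1, w2⟩ := Filter.mem_prod_self_iff.1 hC
  have h3 : (extChartAt 𝓘(ℝ, E) c).symm ⁻¹' U ∈ 𝓝 (extChartAt 𝓘(ℝ, E) c c) :=
    (continuousAt_extChartAt_symm c).preimage_mem_nhds (by simpa)
  obtain ⟨s, s1, s2⟩ := nhds_basis_closedBall.mem_iff.1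
    (inter_mem (inter_mem w1 h3) (extChartAt_target_mem_nhds c))
  refine ⟨s, s1, C, fun v hv => ⟨(s2 hv).2, (s2 hv).1.2, fun w hw => ?_⟩⟩
  rw [he]
  exact w2 (Set.mk_mem_prod (s2 hv).1.1 (s2 hw).1.1)

variable [CompactSpace M] [RiemannianBundle fun x : M => TangentSpace 𝓘(ℝ, E) x]

theorem exists_CS [IsContinuousRiemannianBundle E fun x : M => TangentSpace 𝓘(ℝ, E) x]
    {e : M → V} (he : ∀ x y, dist x y = ‖e x - e y‖) (h1 : ContMDiff 𝓘(ℝ, E) 𝓘(ℝ, V) 1 e)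
    (h2 : ∀ x, Function.Injective (mfderiv 𝓘(ℝ, E) 𝓘(ℝ, V) e x)) {Q : M → M → E →L[ℝ] E}
    (hQ : ∀ c, ContinuousAt (Q c) c) : ∃ (t : Finset M) (A : t → Set M) (r C : ℝ),
      CS A (fun i => extChartAt 𝓘(ℝ, E) i.1) (fun i => (extChartAt 𝓘(ℝ, E) i.1).symm) r C ∧
      (∀ i, IsClosed (A i)) ∧ ∀ i, ∀ x ∈ A i, x ∈ (chartAt E i.1).source ∧
        (∀ v, ‖J E i.1 x v‖ ≤ C * ‖v‖) ∧ (∀ v, ‖J' E i.1 x v‖ ≤ C * ‖v‖) ∧
        ∀ v, ‖Q i x v‖ ≤ C * ‖v‖ ∧ ‖v - Q i x v‖ ≤ C * ‖v‖ := by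
  have key : ∀ c : M, ∃ C, ∀ᶠ x in 𝓝 c, x ∈ (chartAt E c).source ∧
      (∀ v, ‖J E c x v‖ ≤ C * ‖v‖) ∧ (∀ v, ‖J' E c x v‖ ≤ C * ‖v‖) ∧
        ∀ v, ‖Q c x v‖ ≤ C * ‖v‖ ∧ ‖v - Q c x v‖ ≤ C * ‖v‖ := fun c => by
    obtain ⟨C₁, a1, a2⟩ := eventually_norm_trivializationAt_lt E
      (fun x : M => TangentSpace 𝓘(ℝ, E) x) c
    obtain ⟨C₂, a3, a4⟩ := eventually_norm_symmL_trivializationAt_lt E
      (fun x : M => TangentSpace 𝓘(ℝ, E) x) c
    refine ⟨C₁ + C₂ + (‖Q c c‖ + 2), ?_⟩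
    filter_upwards [a2, a4, chart_source_mem_nhds E c,
      (hQ c).norm.eventually_lt_const (lt_add_one ‖Q c c‖)] with x b1 b2 b3 b4
    have b5 := norm_nonneg (Q c c)
    refine ⟨b3, fun v => (ContinuousLinearMap.le_of_opNorm_le _ b1.le v).trans ?_,
      fun v => (ContinuousLinearMap.le_of_opNorm_le _ b2.le v).trans ?_, fun v => ?_⟩
    · gcongr; linarith
    · gcongr; linarith
    · have b6 := ContinuousLinearMap.le_of_opNorm_le _ b4.le v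
      constructor <;> nlinarith [norm_sub_le v (Q c x v), norm_nonneg v]
  choose C₁ hC₁ using key
  choose s s0 C₂ hs using fun c => chart_local he h1 h2 c (hC₁ c)
  set A : M → Set M := fun c =>
    (extChartAt 𝓘(ℝ, E) c).symm '' closedBall (extChartAt 𝓘(ℝ, E) c c) (s c / 2) with hA
  have a0 : ∀ c, closedBall (extChartAt 𝓘(ℝ, E) c c) (s c / 2) ⊆
      closedBall (extChartAt 𝓘(ℝ, E) c c) (s c) := fun c =>
    closedBall_subset_closedBall (by linarith [s0 c])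
  have a1 : ∀ c, A c ∈ 𝓝 c := fun c => by
    filter_upwards [extChartAt_source_mem_nhds (I := 𝓘(ℝ, E)) c, (continuousAt_extChartAt
      (I := 𝓘(ℝ, E)) c).preimage_mem_nhds (closedBall_mem_nhds _ (half_pos (s0 c)))] with x b1 b2
    exact ⟨_, b2, (extChartAt 𝓘(ℝ, E) c).left_inv b1⟩
  obtain ⟨t, -, ht⟩ := (isCompact_univ (X := M)).elim_nhds_subcover (fun c => interior (A c))
    fun c _ => interior_mem_nhds.2 (a1 c)
  obtain ⟨δ, d1, d2⟩ := lebesgue_number_lemma_of_metric (isCompact_univ (X := M))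
    (c := fun i : t => interior (A i)) (fun _ => isOpen_interior) (by rwa [Set.iUnion_subtype])
  obtain ⟨C, hC⟩ := Finite.exists_le fun i : t => max (C₁ i) (C₂ i)
  obtain ⟨R, hR⟩ := Finite.exists_le fun i : t => (s i / 2)⁻¹
  simp only [max_le_iff] at hC
  have a2 : ∀ i : t, (max R 1)⁻¹ ≤ s i / 2 := fun i =>
    inv_le_of_inv_le₀ (half_pos (s0 i)) ((hR i).trans (le_max_left _ _))
  have a3 : ∀ i : t, C₂ i ≤ max C 1 := fun i => (hC i).2.trans (le_max_left _ _)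
  have a4 : ∀ i : t, C₁ i ≤ max C 1 := fun i => (hC i).1.trans (le_max_left _ _)
  refine ⟨t, fun i => A i, min (δ / 2) (max R 1)⁻¹, max C 1, ⟨by positivity, le_max_right _ _,
    fun x => ?_, ?_, ?_, ?_⟩, fun i => ?_, ?_⟩
  · obtain ⟨i, hi⟩ := d2 x trivial
    exact ⟨i, fun y hy => interior_subset (hi (mem_ball.2 (by
      linarith [min_le_left (δ / 2) (max R 1)⁻¹])))⟩
  · rintro i _ _ ⟨v, hv, rfl⟩ ⟨w, hw, rfl⟩
    rw [(extChartAt 𝓘(ℝ, E) i.1).right_inv (hs _ _ (a0 _ hv)).1,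
      (extChartAt 𝓘(ℝ, E) i.1).right_inv (hs _ _ (a0 _ hw)).1]
    exact ((hs _ _ (a0 _ hv)).2.2 _ (a0 _ hw)).2.trans (by gcongr; exact a3 i)
  · rintro i _ _ ⟨v, hv, rfl⟩ ⟨w, hw, rfl⟩
    rw [(extChartAt 𝓘(ℝ, E) i.1).right_inv (hs _ _ (a0 _ hv)).1,
      (extChartAt 𝓘(ℝ, E) i.1).right_inv (hs _ _ (a0 _ hw)).1]
    exact ((hs _ _ (a0 _ hv)).2.2 _ (a0 _ hw)).1.trans (by gcongr; exact a3 i)
  · rintro i _ v ⟨w, hw, rfl⟩ hv
    rw [(extChartAt 𝓘(ℝ, E) i.1).right_inv (hs _ _ (a0 _ hw)).1] at hv ⊢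
    have b1 : v ∈ closedBall (extChartAt 𝓘(ℝ, E) i.1 i.1) (s i) := by
      rw [mem_closedBall] at hw ⊢
      rw [← dist_eq_norm] at hv
      linarith [dist_triangle v w (extChartAt 𝓘(ℝ, E) i.1 i.1), a2 i,
        min_le_right (δ / 2) (max R 1)⁻¹]
    exact ⟨(extChartAt 𝓘(ℝ, E) i.1).right_inv (hs _ _ b1).1,
      ((hs _ _ b1).2.2 _ (a0 _ hw)).1.trans (by gcongr; exact a3 i)⟩
  · exact ((isCompact_closedBall _ _).image_of_continuousOn ((continuousOn_extChartAt_symm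
      i.1).mono fun v hv => (hs _ _ (a0 _ hv)).1)).isClosed
  · rintro i _ ⟨v, hv, rfl⟩
    obtain ⟨b1, b2, b3, b4⟩ := (hs _ _ (a0 _ hv)).2.1
    exact ⟨b1, fun v => (b2 v).trans (by gcongr; exact a4 i),
      fun v => (b3 v).trans (by gcongr; exact a4 i), fun v =>
      ⟨(b4 v).1.trans (by gcongr; exact a4 i), (b4 v).2.trans (by gcongr; exact a4 i)⟩⟩

omit [FiniteDimensional ℝ E] [RiemannianBundle fun x : M => TangentSpace 𝓘(ℝ, E) x] in
lemma lin_chart {t : Finset M} {A : t → Set M} (h1 : ∀ i, IsClosed (A i))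
    (h2 : ∀ i, ∀ x ∈ A i, x ∈ (chartAt E i.1).source) {F : M → M}
    (hF : ContMDiff 𝓘(ℝ, E) 𝓘(ℝ, E) 1 F) :
    Lin A (fun i => extChartAt 𝓘(ℝ, E) i.1) F fun x i j => Bd E F i j x := by
  intro θ hθ
  obtain ⟨ρ, e1, e2⟩ := unif_near (R := fun x y y' => ∀ i j : t, x ∈ A i → F x ∈ A j →
    ‖extChartAt 𝓘(ℝ, E) j.1 (F y) - extChartAt 𝓘(ℝ, E) j.1 (F y') - Bd E F i j x
      (extChartAt 𝓘(ℝ, E) i.1 y - extChartAt 𝓘(ℝ, E) i.1 y')‖ ≤
      θ * ‖extChartAt 𝓘(ℝ, E) i.1 y - extChartAt 𝓘(ℝ, E) i.1 y'‖) fun c => by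
    simp only [eventually_all]
    intro i j
    by_cases c1 : c ∈ A i
    · by_cases c2 : F c ∈ A j
      · exact (Bd_local (h2 _ _ c1) (h2 _ _ c2) (hF c) hθ).mono fun p hp _ _ => hp
      · exact ((hF.continuous.comp continuous_fst).tendsto (c, c, c)).eventually
          ((h1 j).isOpen_compl.mem_nhds c2) |>.mono fun p hp _ h => absurd h hp
    · exact (continuous_fst.tendsto (c, c, c)).eventually
        ((h1 i).isOpen_compl.mem_nhds c1) |>.mono fun p hp h => absurd h hp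
  exact ⟨ρ, e1, fun x i j y y' a1 a2 a3 a4 => e2 x y y' a3 a4 i j a1 a2⟩

end Pool.Agent.P.MP_1672e2_an

/-! Growth of tangent vectors; compactness of the set of dominated pairs. -/

set_option autoImplicit false

namespace Pool.Agent.P.MP_1672e2_an

open MeasureTheory Set Metric Filter Topology Bundle
open scoped Manifold ContDiff

section

variable (E : Type*) [NormedAddCommGroup E] [NormedSpace ℝ E] {M : Type*} [TopologicalSpace M]
  [ChartedSpace E M] [RiemannianBundle fun x : M => TangentSpace 𝓘(ℝ, E) x]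

/-- The norm of the image of a tangent vector at time `n`. -/
noncomputable def dn (f : M ≃ M) (n : ℤ) (p : TangentBundle 𝓘(ℝ, E) M) : ℝ :=
  ‖(tangentMap 𝓘(ℝ, E) 𝓘(ℝ, E) (zp f n) p).2‖

lemma dn_mk (f : M ≃ M) (n : ℤ) (x : M) (u : TangentSpace 𝓘(ℝ, E) x) :
    dn E f n ⟨x, u⟩ = ‖mfderiv 𝓘(ℝ, E) 𝓘(ℝ, E) (zp f n) x u‖ := rfl

/-- Dominated pairs of unit vectors. -/
def Pairs (f : M ≃ M) (N : ℕ) : Set (TangentBundle 𝓘(ℝ, E) M × TangentBundle 𝓘(ℝ, E) M) :=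
  {p | p.1.1 = p.2.1 ∧ ‖p.1.2‖ = 1 ∧ ‖p.2.2‖ = 1 ∧
    ∀ n : ℤ, 2 * dn E f (n + N) p.1 * dn E f n p.2 ≤ dn E f (n + N) p.2 * dn E f n p.1}

end

variable {E : Type*} [NormedAddCommGroup E] [NormedSpace ℝ E] [FiniteDimensional ℝ E] {M : Type*}
  [MetricSpace M] [CompactSpace M] [ChartedSpace E M] [IsManifold 𝓘(ℝ, E) 1 M]
  [RiemannianBundle fun x : M => TangentSpace 𝓘(ℝ, E) x]
  [IsContinuousRiemannianBundle E fun x : M => TangentSpace 𝓘(ℝ, E) x]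
  (f : Diffeomorph 𝓘(ℝ, E) 𝓘(ℝ, E) M M 1)

lemma contMDiff_zp (n : ℤ) : ContMDiff 𝓘(ℝ, E) 𝓘(ℝ, E) 1 (zp f.toEquiv n) := by
  rcases zp_cases n f.toEquiv with ⟨k, h⟩ | ⟨k, h⟩ <;> rw [h]
  · exact f.contMDiff.iterate k
  · exact f.symm.contMDiff.iterate k

lemma dn_zero (p : TangentBundle 𝓘(ℝ, E) M) : dn E f.toEquiv 0 p = ‖p.2‖ := by
  rw [dn, show zp f.toEquiv 0 = id from funext (zp_zero _), tangentMap_id]; rfl

lemma dn_one (x : M) (u : TangentSpace 𝓘(ℝ, E) x) :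
    dn E f.toEquiv 1 ⟨x, u⟩ = ‖mfderiv 𝓘(ℝ, E) 𝓘(ℝ, E) f x u‖ := by
  rw [dn, show zp f.toEquiv 1 = f from funext (zp_one _)]; rfl

lemma dn_add (n m : ℤ) (p : TangentBundle 𝓘(ℝ, E) M) : dn E f.toEquiv (n + m) p =
    dn E f.toEquiv n (tangentMap 𝓘(ℝ, E) 𝓘(ℝ, E) (zp f.toEquiv m) p) := by
  rw [dn, show zp f.toEquiv (n + m) = zp f.toEquiv n ∘ zp f.toEquiv m from funext (zp_add _ _ _),
    tangentMap_comp ((contMDiff_zp f n).mdifferentiable one_ne_zero)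
      ((contMDiff_zp f m).mdifferentiable one_ne_zero)]
  rfl

lemma dn_succ (n : ℤ) (x : M) (u : TangentSpace 𝓘(ℝ, E) x) : dn E f.toEquiv (n + 1) ⟨x, u⟩ =
    dn E f.toEquiv n ⟨f x, mfderiv 𝓘(ℝ, E) 𝓘(ℝ, E) f x u⟩ := by
  rw [dn_add, show zp f.toEquiv 1 = f from funext (zp_one _)]; rfl

lemma mfderiv_surj (x : M) : Function.Surjective (mfderiv 𝓘(ℝ, E) 𝓘(ℝ, E) f x) :=
  (f.mfderivToContinuousLinearEquiv one_ne_zero x).surjective

lemma dn_pos (n : ℤ) (x : M) {u : TangentSpace 𝓘(ℝ, E) x} (hu : u ≠ 0) :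
    0 < dn E f.toEquiv n ⟨x, u⟩ := by
  refine (norm_nonneg _).lt_of_ne' fun h => hu ?_
  have h1 : mfderiv 𝓘(ℝ, E) 𝓘(ℝ, E) (zp f.toEquiv n) x u = 0 := norm_eq_zero.1 h
  have h2 := dn_add f (-n) n ⟨x, u⟩
  rw [neg_add_cancel, dn_zero, tangentMap, h1, dn_mk, map_zero, norm_zero] at h2
  exact norm_eq_zero.1 h2

lemma continuous_nm : Continuous fun p : TangentBundle 𝓘(ℝ, E) M => ‖p.2‖ := by
  have := Continuous.inner_bundle (F := E) (E := fun x : M => TangentSpace 𝓘(ℝ, E) x)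
    (b := fun p : TangentBundle 𝓘(ℝ, E) M => p.1) (v := fun p => p.2) (w := fun p => p.2)
    continuous_id continuous_id
  simpa only [← norm_eq_sqrt_real_inner] using this.sqrt

lemma continuous_dn (n : ℤ) : Continuous (dn E f.toEquiv n) :=
  continuous_nm.comp ((contMDiff_zp f n).continuous_tangentMap le_rfl)

lemma isCompact_unit : IsCompact {p : TangentBundle 𝓘(ℝ, E) M | ‖p.2‖ = 1} := by
  have key : ∀ c : M, ∃ K ∈ 𝓝 c, ∃ S : Set (TangentBundle 𝓘(ℝ, E) M), IsCompact S ∧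
      ∀ p : TangentBundle 𝓘(ℝ, E) M, p.1 ∈ K → ‖p.2‖ = 1 → p ∈ S := fun c => by
    obtain ⟨C, -, h⟩ := eventually_norm_trivializationAt_lt E
      (fun x : M => TangentSpace 𝓘(ℝ, E) x) c
    set e := trivializationAt E (TangentSpace 𝓘(ℝ, E)) c
    obtain ⟨K, k1, k2, k3⟩ := local_compact_nhds (h.and (e.open_baseSet.mem_nhds
      (FiberBundle.mem_baseSet_trivializationAt' c)))
    refine ⟨K, k1, e.toOpenPartialHomeomorph.symm '' (K ×ˢ closedBall 0 C),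
      (k3.prod (isCompact_closedBall 0 C)).image_of_continuousOn
        (e.toOpenPartialHomeomorph.continuousOn_symm.mono fun q hq => e.mem_target.2 (k2 hq.1).2),
      fun p hp h1 => ⟨e p, ⟨by rwa [e.coe_fst' (k2 hp).2], ?_⟩,
        e.toOpenPartialHomeomorph.left_inv (e.mem_source.2 (k2 hp).2)⟩⟩
    have h2 := ContinuousLinearMap.le_of_opNorm_le _ (k2 hp).1.le p.2
    rw [h1, mul_one, Trivialization.continuousLinearMapAt_apply,
      Trivialization.coe_linearMapAt_of_mem _ (k2 hp).2] at h2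
    exact mem_closedBall_zero_iff.2 h2
  choose K k1 S s1 s2 using key
  obtain ⟨t, -, ht⟩ := (isCompact_univ (X := M)).elim_nhds_subcover K fun c _ => k1 c
  refine (t.isCompact_biUnion fun c _ => s1 c).of_isClosed_subset
    (isClosed_eq continuous_nm continuous_const) fun p hp => ?_
  obtain ⟨c, c1, c2⟩ := mem_iUnion₂.1 (ht (mem_univ p.1))
  exact mem_iUnion₂.2 ⟨c, c1, s2 c p c2 hp⟩

lemma dn_bounds (n : ℤ) : ∃ m K : ℝ, 0 < m ∧ 0 < K ∧ ∀ (x : M) (u : TangentSpace 𝓘(ℝ, E) x),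
    m * ‖u‖ ≤ dn E f.toEquiv n ⟨x, u⟩ ∧ dn E f.toEquiv n ⟨x, u⟩ ≤ K * ‖u‖ := by
  obtain ⟨m, m0, hm⟩ := isCompact_unit.exists_forall_le' (continuous_dn f n).continuousOn
    (a := 0) fun p hp => dn_pos f n p.1 (u := p.2) fun e => by simp [e] at hp
  obtain ⟨K, hK⟩ := (isCompact_unit.image (continuous_dn f n)).bddAbove
  refine ⟨m, max K 1, m0, by positivity, fun x u => ?_⟩
  rcases eq_or_ne u 0 with rfl | hu
  · simp [dn_mk]
  have e1 : ‖‖u‖⁻¹ • u‖ = 1 := norm_smul_inv_norm (𝕜 := ℝ) hu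
  have e2 := hm ⟨x, ‖u‖⁻¹ • u⟩ e1
  have e3 := (hK ⟨⟨x, ‖u‖⁻¹ • u⟩, e1, rfl⟩).trans (le_max_left K 1)
  have e4 := norm_pos_iff.2 hu
  rw [dn_mk, map_smul, norm_smul, norm_inv, norm_norm, ← dn_mk, ← div_eq_inv_mul] at e2 e3
  exact ⟨(le_div_iff₀ e4).1 e2, (div_le_iff₀ e4).1 e3⟩

lemma isCompact_pairs (N : ℕ) : IsCompact (Pairs E f.toEquiv N) := by
  have c0 : Continuous fun p : TangentBundle 𝓘(ℝ, E) M => p.1 := FiberBundle.continuous_proj E _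
  have c1 := continuous_dn f
  have c2 := continuous_nm (E := E) (M := M)
  refine (isCompact_unit.prod isCompact_unit).of_isClosed_subset ?_ fun p hp => ⟨hp.2.1, hp.2.2.1⟩
  simp only [Pairs, ofPred_and, ofPred_forall]
  exact (isClosed_eq (c0.comp continuous_fst) (c0.comp continuous_snd)).inter
    ((isClosed_eq (c2.comp continuous_fst) continuous_const).inter
    ((isClosed_eq (c2.comp continuous_snd) continuous_const).inter (isClosed_iInter fun n =>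
      isClosed_le ((continuous_const.mul ((c1 _).comp continuous_fst)).mul
        ((c1 _).comp continuous_snd)) (((c1 _).comp continuous_snd).mul
        ((c1 _).comp continuous_fst)))))

lemma continuousOn_J (c : M) : ContinuousOn (fun p : TangentBundle 𝓘(ℝ, E) M => J E c p.1 p.2)
    {p | p.1 ∈ (chartAt E c).source} := by
  set e := trivializationAt E (TangentSpace 𝓘(ℝ, E)) c
  refine (continuous_snd.comp_continuousOn (e.continuousOn.mono fun p hp =>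
    e.mem_source.2 hp)).congr fun p hp => ?_
  simp only [J, Trivialization.continuousLinearMapAt_apply, Function.comp_apply]
  rw [Trivialization.coe_linearMapAt_of_mem _ (show p.1 ∈ e.baseSet from hp)]

end Pool.Agent.P.MP_1672e2_an

/-! Uniqueness and transversality of dominated directions. -/

set_option autoImplicit false

namespace Pool.Agent.P.MP_1672e2_an

open MeasureTheory Set Metric Filter Topology

lemma semi_half {V : Type*} [AddCommGroup V] [Module ℝ V] {p : ℕ → Seminorm ℝ V}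
    (hp : ∀ n w, w ≠ 0 → 0 < p n w) {u v u' v' : V} (hu : u ≠ 0) (hu' : u' ≠ 0) (hv : v ≠ 0)
    (hv' : v' ≠ 0) (h : ∀ n, 2 * p (n + 1) u * p n v ≤ p (n + 1) v * p n u)
    (h' : ∀ n, 2 * p (n + 1) u' * p n v' ≤ p (n + 1) v' * p n u') {a b c d : ℝ}
    (e : u' = a • u + b • v) (e' : v' = c • u + d • v) : b = 0 := by
  have key : ∀ {u v : V}, u ≠ 0 → v ≠ 0 → (∀ n, 2 * p (n + 1) u * p n v ≤ p (n + 1) v * p n u) →
      Tendsto (fun n => p n u / p n v) atTop (𝓝 0) := fun {u v} hu hv h => by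
    have : ∀ n, p n u / p n v ≤ p 0 u / p 0 v * (1 / 2) ^ n := fun n => by
      induction n with
      | zero => simp
      | succ n ih =>
        have : p (n + 1) u / p (n + 1) v ≤ p n u / p n v * (1 / 2) := by
          rw [div_mul_div_comm, div_le_div_iff₀ (hp _ _ hv) (mul_pos (hp _ _ hv) two_pos)]
          linarith [h n]
        rw [pow_succ, ← mul_assoc]
        exact this.trans (by gcongr)
    refine squeeze_zero (fun n => div_nonneg (apply_nonneg _ _) (apply_nonneg _ _)) this ?_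
    simpa using (tendsto_pow_atTop_nhds_zero_of_lt_one (r := (1 / 2 : ℝ)) (by norm_num)
      (by norm_num)).const_mul (p 0 u / p 0 v)
  have t1 := key hu hv h
  have t2 := key hu' hv' h'
  have t3 := (t2.mul ((t1.const_mul |c|).add_const |d|)).add (t1.const_mul |a|)
  simp only [zero_mul, mul_zero, add_zero] at t3
  refine abs_nonpos_iff.1 (ge_of_tendsto' t3 fun n => ?_)
  have a1 := hp n v hv
  have a2 := hp n v' hv'
  have a3 : p n v' ≤ |c| * p n u + |d| * p n v := by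
    simpa only [← e', map_smul_eq_mul, Real.norm_eq_abs] using map_add_le_add (p n) (c • u) (d • v)
  have a4 : |b| * p n v ≤ p n u' + |a| * p n u := by
    simpa only [e, add_sub_cancel_left, map_smul_eq_mul, Real.norm_eq_abs] using
      map_sub_le_add (p n) u' (a • u)
  have a5 : p n u' ≤ p n u' / p n v' * (|c| * p n u + |d| * p n v) := by
    rw [div_mul_eq_mul_div, le_div_iff₀ a2]
    exact mul_le_mul_of_nonneg_left a3 (apply_nonneg _ _)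
  refine le_of_mul_le_mul_right (a4.trans ((add_le_add_left a5 _).trans (le_of_eq ?_))) a1
  field_simp

lemma semi_unique {V : Type*} [AddCommGroup V] [Module ℝ V] (hV : Module.finrank ℝ V = 2)
    {p : ℤ → Seminorm ℝ V} (hp : ∀ n w, w ≠ 0 → 0 < p n w) {N : ℕ} {u v u' v' : V} (hu : u ≠ 0)
    (hv : v ≠ 0) (hu' : u' ≠ 0) (hv' : v' ≠ 0)
    (h : ∀ n : ℤ, 2 * p (n + N) u * p n v ≤ p (n + N) v * p n u)
    (h' : ∀ n : ℤ, 2 * p (n + N) u' * p n v' ≤ p (n + N) v' * p n u') :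
    (∃ c : ℝ, u' = c • u) ∧ ∃ c : ℝ, v' = c • v := by
  have li : LinearIndependent ℝ ![u, v] := by
    rw [LinearIndependent.pair_iff' hu]
    rintro c rfl
    have h1 := h 0
    have h2 : c ≠ 0 := by rintro rfl; simp at hv
    simp only [map_smul_eq_mul] at h1
    nlinarith [mul_pos (norm_pos_iff.2 h2) (mul_pos (hp (0 + N) u hu) (hp 0 u hu))]
  have sp : ∀ w, ∃ a b : ℝ, w = a • u + b • v := fun w => by
    have : w ∈ Submodule.span ℝ (range ![u, v]) := by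
      rw [li.span_eq_top_of_card_eq_finrank (by simp [hV])]; trivial
    rw [Matrix.range_cons, Matrix.range_cons, Matrix.range_empty, union_empty, singleton_union,
      Submodule.mem_span_pair] at this
    obtain ⟨a, b, e⟩ := this
    exact ⟨a, b, e.symm⟩
  obtain ⟨a, b, e⟩ := sp u'
  obtain ⟨c, d, e'⟩ := sp v'
  have f1 : ∀ n : ℕ, ((n + 1 : ℕ) : ℤ) * N = n * N + N := fun n => by push_cast; ring
  have f2 : ∀ n : ℕ, -((n : ℤ) * N) = -(((n + 1 : ℕ) : ℤ) * N) + N := fun n => by push_cast; ring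
  have hb := semi_half (p := fun n => p (n * N)) (fun n => hp _) hu hu' hv hv'
    (fun n => by simpa only [f1] using h (n * N)) (fun n => by simpa only [f1] using h' (n * N)) e e'
  have hc := semi_half (p := fun n => p (-(n * N))) (fun n => hp _) hv hv' hu hu'
    (fun n => by rw [f2 n]; linarith [h (-(((n + 1 : ℕ) : ℤ) * N))])
    (fun n => by rw [f2 n]; linarith [h' (-(((n + 1 : ℕ) : ℤ) * N))])
    (e'.trans (add_comm _ _)) (e.trans (add_comm _ _))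
  exact ⟨⟨a, by simp [e, hb]⟩, d, by simp [e', hc]⟩

lemma semi_angle {V : Type*} [NormedAddCommGroup V] [NormedSpace ℝ V] {p q : Seminorm ℝ V}
    {m K : ℝ} (hm : 0 < m) (hK : 0 < K) (hp : ∀ w, m * ‖w‖ ≤ p w ∧ p w ≤ K * ‖w‖)
    (hq : ∀ w, m * ‖w‖ ≤ q w ∧ q w ≤ K * ‖w‖) {u v : V} (hu : ‖u‖ = 1) (hv : ‖v‖ = 1)
    (h1 : 2 * p u ≤ p v) (h2 : 2 * q v ≤ q u) (s t : ℝ) :
    m / (2 * K) * ‖(s, t)‖ ≤ ‖s • u + t • v‖ := by
  have key : ∀ {p : Seminorm ℝ V} {u v : V} {s t : ℝ}, (∀ w, m * ‖w‖ ≤ p w ∧ p w ≤ K * ‖w‖) →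
      ‖v‖ = 1 → 2 * p u ≤ p v → ‖s‖ ≤ ‖t‖ → m / (2 * K) * ‖t‖ ≤ ‖s • u + t • v‖ :=
    fun {p u v s t} hp hv h1 h => by
      have a1 := map_sub_le_add p (s • u + t • v) (s • u)
      rw [add_sub_cancel_left, map_smul_eq_mul, map_smul_eq_mul] at a1
      have a2 := (hp v).1
      rw [hv, mul_one] at a2
      rw [div_mul_eq_mul_div, div_le_iff₀ (by positivity)]
      nlinarith [(hp (s • u + t • v)).2, mul_le_mul_of_nonneg_right h (apply_nonneg p u),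
        mul_le_mul_of_nonneg_left h1 (norm_nonneg t), mul_le_mul_of_nonneg_left a2 (norm_nonneg t)]
  rw [Prod.norm_def]
  rcases le_total ‖s‖ ‖t‖ with h | h
  · rw [max_eq_right h]; exact key hp hv h1 h
  · rw [max_eq_left h, add_comm]; exact key hq hu h2 h

/-- Uniform continuity up to sign. -/
lemma unif_sign {X M V : Type*} [TopologicalSpace X] [MetricSpace M] [NormedAddCommGroup V]
    [NormedSpace ℝ V] {K : Set X} (hK : IsCompact K) {π : X → M} (hπ : Continuous π) {h : X → V}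
    (hh : ContinuousOn h K) (he : ∀ p ∈ K, ∀ q ∈ K, π p = π q → h p = h q ∨ h p = -h q) {θ : ℝ}
    (hθ : 0 < θ) : ∃ δ, 0 < δ ∧ ∀ p ∈ K, ∀ q ∈ K, dist (π p) (π q) < δ →
      ∃ σ : ℝ, |σ| = 1 ∧ ‖h p - σ • h q‖ ≤ θ := by
  have := isCompact_iff_compactSpace.1 hK
  have c1 : Continuous fun p : K => h p := hh.domRestrict
  have c2 : Continuous fun p : K => π p := hπ.comp continuous_subtype_val
  obtain ⟨δ, d1, d2⟩ := (isClosed_le (continuous_const (y := θ)) (f := fun _ : K × K => θ)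
    (g := fun p => min ‖h p.1 - h p.2‖ ‖h p.1 + h p.2‖)
    (((c1.comp continuous_fst).sub (c1.comp continuous_snd)).norm.min
      ((c1.comp continuous_fst).add (c1.comp continuous_snd)).norm)).isCompact.exists_forall_le'
    (f := fun p => dist (π p.1) (π p.2)) (by fun_prop) (a := 0) fun p hp => dist_pos.2 fun e => by
      rcases he _ p.1.2 _ p.2.2 e with h1 | h1 <;> simp [h1] at hp <;> linarith
  refine ⟨δ, d1, fun p hp q hq hd => ?_⟩
  have := mt (d2 (⟨p, hp⟩, ⟨q, hq⟩)) (not_le.2 hd)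
  simp only [mem_ofPred_eq, not_le, min_lt_iff] at this
  rcases this with h1 | h1
  · exact ⟨1, abs_one, by simpa using h1.le⟩
  · exact ⟨-1, by simp, by simpa using h1.le⟩

/-- A continuous function on a compact set that is constant on fibres comes from the base. -/
lemma exists_descend {X M : Type*} [TopologicalSpace X] [MetricSpace M] {K : Set X}
    (hK : IsCompact K) {π : X → M} (hπ : Continuous π) {h : X → ℝ} (hh : ContinuousOn h K)
    (he : ∀ p ∈ K, ∀ q ∈ K, π p = π q → h p = h q) :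
    ∃ a : M → ℝ, Continuous a ∧ ∀ p ∈ K, a (π p) = h p := by
  have := isCompact_iff_compactSpace.1 hK
  have c1 : Continuous fun p : K => h p := hh.domRestrict
  have c2 : Continuous fun p : K => π p := hπ.comp continuous_subtype_val
  choose s s1 s2 using fun y : π '' K => y.2
  have c3 : Continuous fun y : π '' K => h (s y) := continuous_iff_isClosed.2 fun C hC => by
    convert (((hC.preimage c1).isCompact.image c2).isClosed).preimage
      (continuous_subtype_val (p := (· ∈ π '' K)))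
    refine Set.ext fun y => ⟨fun hy => ⟨⟨s y, s1 y⟩, hy, s2 y⟩, fun ⟨p, p1, p2⟩ => ?_⟩
    rw [mem_preimage, he _ (s1 y) _ p.2 ((s2 y).trans p2.symm)]
    exact p1
  obtain ⟨a, ha⟩ := ContinuousMap.exists_restrict_eq (hK.image hπ).isClosed ⟨_, c3⟩
  refine ⟨a, a.continuous, fun p hp => ?_⟩
  have := DFunLike.congr_fun ha ⟨π p, p, hp, rfl⟩
  exact this.trans (he _ (s1 _) _ hp (s2 _))

end Pool.Agent.P.MP_1672e2_an

/-! Adapted charts from a uniform chart system. -/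

set_option autoImplicit false

namespace Pool.Agent.P.MP_1672e2_an

open MeasureTheory Set Metric Filter Topology

/-- Coordinates along two independent vectors of a plane. -/
lemma ccs_coord {E : Type*} [NormedAddCommGroup E] [NormedSpace ℝ E]
    (hE : Module.finrank ℝ E = 2) {u v : E} {D : ℝ}
    (h : ∀ s t : ℝ, ‖(s, t)‖ ≤ D * ‖s • u + t • v‖) :
    ∃ N : E →ₗ[ℝ] ℝ × ℝ, (∀ s t : ℝ, N (s • u + t • v) = (s, t)) ∧
      ∀ w, (N w).1 • u + (N w).2 • v = w := by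
  have : FiniteDimensional ℝ E := Module.finite_of_finrank_eq_succ hE
  let L : (ℝ × ℝ) →ₗ[ℝ] E :=
    (LinearMap.fst ℝ ℝ ℝ).smulRight u + (LinearMap.snd ℝ ℝ ℝ).smulRight v
  have hL : ∀ p : ℝ × ℝ, L p = p.1 • u + p.2 • v := fun p => by simp [L]
  have hi : Function.Injective L := by
    rw [← LinearMap.ker_eq_bot, LinearMap.ker_eq_bot']
    intro p hp
    have := h p.1 p.2
    rw [← hL, hp, norm_zero, mul_zero] at this
    exact norm_le_zero_iff.1 this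
  have hs : Function.Surjective L :=
    (LinearMap.injective_iff_surjective_of_finrank_eq_finrank (by simp [hE])).1 hi
  let e := LinearEquiv.ofBijective L ⟨hi, hs⟩
  refine ⟨e.symm.toLinearMap, fun s t => ?_, fun w => ?_⟩
  · have : s • u + t • v = e (s, t) := (hL (s, t)).symm
    rw [this]
    exact e.symm_apply_apply _
  · rw [← hL]
    exact e.apply_symm_apply w

/-- One step in adapted charts. -/
lemma ccs_step {M E ι : Type*} [MetricSpace M] [NormedAddCommGroup E] [NormedSpace ℝ E]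
    [Finite ι] {A : ι → Set M} {φ : ι → M → E} {r : ℝ} (hr : 0 < r) {g : M → M}
    {B : M → ι → ι → E →L[ℝ] E} (hB : Lin A φ g B) {Λ : Set M} (h2 : ∀ x ∈ Λ, g x ∈ Λ)
    {a b : M → ℝ} {K : ℝ} (hK : ∀ x, a x ≤ K ∧ b x ≤ K) {U V : ι → M → E}
    (hf : ∀ x ∈ Λ, ∀ i j, x ∈ A i → g x ∈ A j →
      (∃ σ : ℝ, |σ| = Real.exp (a x) ∧ B x i j (U i x) = σ • U j (g x)) ∧
      ∃ σ : ℝ, |σ| = Real.exp (b x) ∧ B x i j (V i x) = σ • V j (g x))
    (hu : ∀ i θ, 0 < θ → ∃ δ, 0 < δ ∧ ∀ z ∈ Λ ∩ A i, ∀ z' ∈ Λ ∩ A i, dist z z' < δ →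
      (∃ σ : ℝ, |σ| = 1 ∧ ‖U i z - σ • U i z'‖ ≤ θ) ∧ ∃ σ : ℝ, |σ| = 1 ∧ ‖V i z - σ • V i z'‖ ≤ θ)
    {k : M → ι} (hk : ∀ x y, dist y x ≤ r → y ∈ A (k x)) {N : M → E →ₗ[ℝ] ℝ × ℝ} {D : ℝ}
    (hD : 1 ≤ D) (n1 : ∀ x ∈ Λ, ∀ s t : ℝ, N x (s • U (k x) x + t • V (k x) x) = (s, t))
    (n2 : ∀ x ∈ Λ, ∀ w, (N x w).1 • U (k x) x + (N x w).2 • V (k x) x = w)
    (n3 : ∀ x ∈ Λ, ∀ w, ‖N x w‖ ≤ D * ‖w‖ ∧ ‖w‖ ≤ D * ‖N x w‖) :
    Step g Λ a b fun x y => N x (φ (k x) y - φ (k x) x) := by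
  intro η hη
  have eK := Real.exp_pos K
  have D0 : 0 < D := by linarith
  obtain ⟨ρ, hρ, hl⟩ := hB (η / (2 * D ^ 2)) (by positivity)
  choose d d0 hd using fun i => hu i (η / (4 * D * Real.exp K)) (by positivity)
  obtain ⟨δ, δ0, hδ⟩ : ∃ δ, 0 < δ ∧ ∀ i, δ ≤ d i := by
    rcases isEmpty_or_nonempty ι with h | h
    · exact ⟨1, one_pos, fun i => h.elim i⟩
    · obtain ⟨i, hi⟩ := Finite.exists_min d
      exact ⟨d i, d0 i, hi⟩
  refine ⟨min r (min ρ δ), by positivity, fun x hx x' hx' hxx => ?_⟩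
  have a1 : x ∈ A (k x) := hk x x (by simp [hr.le])
  have a2 : x' ∈ A (k x') := hk x' x' (by simp [hr.le])
  have a3 : g x ∈ A (k x') := hk x' _ (hxx.le.trans (min_le_left _ _))
  obtain ⟨⟨σ, s1, s2⟩, σ', s3, s4⟩ := hf x hx _ _ a1 a3
  obtain ⟨⟨τ, t1, t2⟩, τ', t3, t4⟩ := hd (k x') (g x) ⟨h2 x hx, a3⟩ x' ⟨hx', a2⟩
    (hxx.trans_le ((min_le_right _ _).trans ((min_le_right _ _).trans (hδ _))))
  refine ⟨σ * τ, σ' * τ', by rw [abs_mul, s1, t1, mul_one], by rw [abs_mul, s3, t3, mul_one],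
    fun y hy y' hy' => ?_⟩
  have b1 : dist y x ≤ ρ := (mem_ball.1 hy).le.trans ((min_le_right _ _).trans (min_le_left _ _))
  have b2 : dist y' x ≤ ρ := (mem_ball.1 hy').le.trans ((min_le_right _ _).trans (min_le_left _ _))
  have b3 := hl x (k x) (k x') y y' a1 a3 b1 b2
  simp only [← map_sub, sub_sub_sub_cancel_right]
  generalize φ (k x) y - φ (k x) y' = w at b3 ⊢
  generalize φ (k x') (g y) - φ (k x') (g y') = w' at b3 ⊢
  have c1 := n2 x hx w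
  have c2 := (n3 x hx w).2
  generalize N x w = p at c1 c2 ⊢
  have c3 : B x (k x) (k x') w =
      (p.1 * σ) • U (k x') (g x) + (p.2 * σ') • V (k x') (g x) := by
    rw [← c1, map_add, map_smul, map_smul, s2, s4, smul_smul, smul_smul]
  rw [← n1 x' hx' (σ * τ * p.1) (σ' * τ' * p.2), ← map_sub]
  refine (n3 x' hx' _).1.trans ?_
  have c4 : w' - ((σ * τ * p.1) • U (k x') x' + (σ' * τ' * p.2) • V (k x') x') =
      (w' - B x (k x) (k x') w) + ((p.1 * σ) • (U (k x') (g x) - τ • U (k x') x') +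
        (p.2 * σ') • (V (k x') (g x) - τ' • V (k x') x')) := by
    rw [c3]
    module
  have key : ∀ (c s e : ℝ) (z : E), |c| ≤ ‖p‖ → |s| = Real.exp e → e ≤ K →
      ‖z‖ ≤ η / (4 * D * Real.exp K) → ‖(c * s) • z‖ ≤ η / (4 * D) * ‖p‖ := by
    intro c s e z e1 e2 e3 e4
    rw [norm_smul, Real.norm_eq_abs, abs_mul, e2]
    calc |c| * Real.exp e * ‖z‖ ≤ ‖p‖ * Real.exp K * (η / (4 * D * Real.exp K)) := by
          gcongr
      _ = η / (4 * D) * ‖p‖ := by field_simp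
  have c5 := key p.1 σ (a x) _ (by simpa using norm_fst_le p) s1 (hK x).1 t2
  have c6 := key p.2 σ' (b x) _ (by simpa using norm_snd_le p) s3 (hK x).2 t4
  have c7 : ‖w' - B x (k x) (k x') w‖ ≤ η / (2 * D) * ‖p‖ := by
    refine b3.trans ?_
    calc η / (2 * D ^ 2) * ‖w‖ ≤ η / (2 * D ^ 2) * (D * ‖p‖) := by gcongr
      _ = η / (2 * D) * ‖p‖ := by field_simp
  rw [c4]
  calc D * _ ≤ D * (η / (2 * D) * ‖p‖ + (η / (4 * D) * ‖p‖ + η / (4 * D) * ‖p‖)) := by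
        gcongr
        exact (norm_add_le _ _).trans (add_le_add c7 ((norm_add_le _ _).trans (add_le_add c5 c6)))
    _ = η * ‖p‖ := by field_simp; ring

/-- Charts adapted to two line fields, from a uniform chart system. -/
theorem charts_of_CS {M E ι : Type*} [MetricSpace M] [NormedAddCommGroup E] [NormedSpace ℝ E]
    [Finite ι] (hE : Module.finrank ℝ E = 2) {A : ι → Set M} {φ : ι → M → E} {ψ : ι → E → M}
    {r C : ℝ} (S : CS A φ ψ r C) {f : M ≃ₜ M} {B T : M → ι → ι → E →L[ℝ] E} (hB : Lin A φ f B)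
    (hT : Lin A φ id T) {Λ : Set M} (h1 : IsClosed Λ) (h2 : ∀ x, f x ∈ Λ ↔ x ∈ Λ) {a b : M → ℝ}
    (ha : Continuous a) (hb : Continuous b) {K : ℝ} (hK : ∀ x, |a x| ≤ K ∧ |b x| ≤ K)
    {U V : ι → M → E}
    (hf : ∀ x ∈ Λ, ∀ i j, x ∈ A i → f x ∈ A j →
      (∃ σ : ℝ, |σ| = Real.exp (a x) ∧ B x i j (U i x) = σ • U j (f x)) ∧
      ∃ σ : ℝ, |σ| = Real.exp (b x) ∧ B x i j (V i x) = σ • V j (f x))
    (hi : ∀ x ∈ Λ, ∀ i j, x ∈ A i → x ∈ A j → T x i j (U i x) = U j x ∧ T x i j (V i x) = V j x)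
    {D : ℝ} (hD : ∀ x ∈ Λ, ∀ i, x ∈ A i → ∀ s t : ℝ,
      ‖(s, t)‖ ≤ D * ‖s • U i x + t • V i x‖ ∧ ‖s • U i x + t • V i x‖ ≤ D * ‖(s, t)‖)
    (hu : ∀ i θ, 0 < θ → ∃ δ, 0 < δ ∧ ∀ z ∈ Λ ∩ A i, ∀ z' ∈ Λ ∩ A i, dist z z' < δ →
      (∃ σ : ℝ, |σ| = 1 ∧ ‖U i z - σ • U i z'‖ ≤ θ) ∧ ∃ σ : ℝ, |σ| = 1 ∧ ‖V i z - σ • V i z'‖ ≤ θ) :
    ∃ κ, Charts f Λ a b κ := by
  choose k hk using S.leb
  have hr := S.pos
  have hC := S.one_le
  have a1 : ∀ x, x ∈ A (k x) := fun x => hk x x (by simp [hr.le])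
  have hN : ∀ x, ∃ N : E →ₗ[ℝ] ℝ × ℝ, x ∈ Λ →
      (∀ s t : ℝ, N (s • U (k x) x + t • V (k x) x) = (s, t)) ∧
      ∀ w, (N w).1 • U (k x) x + (N w).2 • V (k x) x = w := by
    intro x
    by_cases hx : x ∈ Λ
    · obtain ⟨N, hN⟩ := ccs_coord hE fun s t => (hD x hx _ (a1 x) s t).1
      exact ⟨N, fun _ => hN⟩
    · exact ⟨0, fun h => (hx h).elim⟩
  choose N hN using hN
  have hD1 : (1 : ℝ) ≤ max D 1 := le_max_right _ _
  have hD2 : D ≤ max D 1 := le_max_left _ _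
  generalize max D 1 = D' at hD1 hD2
  have D0 : 0 < D' := by linarith
  have n3 : ∀ x ∈ Λ, ∀ w, ‖N x w‖ ≤ D' * ‖w‖ ∧ ‖w‖ ≤ D' * ‖N x w‖ := by
    intro x hx w
    have e := hD x hx _ (a1 x) (N x w).1 (N x w).2
    rw [(hN x hx).2 w] at e
    exact ⟨e.1.trans (by gcongr), e.2.trans (by gcongr)⟩
  refine ⟨fun x y => N x (φ (k x) y - φ (k x) x), h1, h2, ha, hb, fun x _ => by simp,
    ⟨r / D', C * D', by positivity, one_le_mul_of_one_le_of_one_le hC hD1, fun x hx => ⟨?_, ?_⟩⟩,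
    ?_, ?_⟩
  · intro y hy y' hy'
    have e0 : r / D' ≤ r := div_le_self hr.le hD1
    have e1 := hk x y ((mem_ball.1 hy).le.trans e0)
    have e2 := hk x y' ((mem_ball.1 hy').le.trans e0)
    simp only [← map_sub, sub_sub_sub_cancel_right]
    have e3 := S.up _ _ _ e1 e2
    have e4 := S.lo _ _ _ e1 e2
    obtain ⟨e5, e6⟩ := n3 x hx (φ (k x) y - φ (k x) y')
    constructor
    · calc _ ≤ D' * (C * dist y y') := e5.trans (by gcongr)
        _ = _ := by ring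
    · calc _ ≤ C * (D' * ‖N x (φ (k x) y - φ (k x) y')‖) := e4.trans (by gcongr)
        _ = _ := by ring
  · intro v hv
    have e1 := (hN x hx).1 v.1 v.2
    have e2 := (n3 x hx (v.1 • U (k x) x + v.2 • V (k x) x)).2
    rw [e1] at e2
    generalize v.1 • U (k x) x + v.2 • V (k x) x = w at e1 e2
    have e3 : ‖w‖ ≤ r := e2.trans (by
      calc D' * ‖v‖ ≤ D' * (r / D') := by gcongr
        _ = r := by field_simp)
    obtain ⟨e4, e5⟩ := S.inv (k x) x (w + φ (k x) x) (a1 x) (by simpa using e3)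
    refine ⟨_, e5.trans ?_, ?_⟩
    · rw [add_sub_cancel_right, mul_assoc]
      gcongr
    · simp only [e4, add_sub_cancel_right, e1]
  · exact ccs_step hr hB (fun x hx => (h2 x).2 hx)
      (fun x => ⟨(le_abs_self _).trans (hK x).1, (le_abs_self _).trans (hK x).2⟩) hf hu hk hD1
      (fun x hx => (hN x hx).1) (fun x hx => (hN x hx).2) n3
  · exact ccs_step (K := 0) hr hT (fun x hx => hx) (fun _ => ⟨le_rfl, le_rfl⟩)
      (fun x hx i j e1 e2 => ⟨⟨1, by simp, by simpa using (hi x hx i j e1 e2).1⟩,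
        1, by simp, by simpa using (hi x hx i j e1 e2).2⟩) hu hk hD1
      (fun x hx => (hN x hx).1) (fun x hx => (hN x hx).2) n3

end Pool.Agent.P.MP_1672e2_an

/-! The splitting along the set of dominated orbits. -/

set_option autoImplicit false

namespace Pool.Agent.P.MP_1672e2_an

open MeasureTheory Set Metric Filter Topology Bundle
open scoped Manifold ContDiff

variable {E : Type*} [NormedAddCommGroup E] [NormedSpace ℝ E] [FiniteDimensional ℝ E] {M : Type*}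
  [MetricSpace M] [CompactSpace M] [ChartedSpace E M] [IsManifold 𝓘(ℝ, E) 1 M]
  [RiemannianBundle fun x : M => TangentSpace 𝓘(ℝ, E) x]
  [IsContinuousRiemannianBundle E fun x : M => TangentSpace 𝓘(ℝ, E) x]

variable (E) in
/-- An invariant continuous splitting into lines with its growth rates. -/
structure Split (f : M → M) (N : ℕ) (Λ : Set M) (u v : ∀ x : M, TangentSpace 𝓘(ℝ, E) x)
    (a b : M → ℝ) : Prop where
  closed : IsClosed Λ
  inv : ∀ x, f x ∈ Λ ↔ x ∈ Λ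
  ca : Continuous a
  cb : Continuous b
  mu : ∀ x ∈ Λ, ∃ σ : ℝ, |σ| = Real.exp (a x) ∧ mfderiv 𝓘(ℝ, E) 𝓘(ℝ, E) f x (u x) = σ • u (f x)
  mv : ∀ x ∈ Λ, ∃ σ : ℝ, |σ| = Real.exp (b x) ∧ mfderiv 𝓘(ℝ, E) 𝓘(ℝ, E) f x (v x) = σ • v (f x)
  unit : ∀ x ∈ Λ, ‖u x‖ = 1 ∧ ‖v x‖ = 1
  ang : ∃ c, 0 < c ∧ ∀ x ∈ Λ, ∀ s t : ℝ, c * ‖(s, t)‖ ≤ ‖s • u x + t • v x‖
  uc : ∀ (c : M) (A : Set M), IsClosed A → A ⊆ (chartAt E c).source → ∀ θ, 0 < θ → ∃ δ, 0 < δ ∧
    ∀ z ∈ Λ ∩ A, ∀ z' ∈ Λ ∩ A, dist z z' < δ →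
      (∃ σ : ℝ, |σ| = 1 ∧ ‖J E c z (u z) - σ • J E c z' (u z')‖ ≤ θ) ∧
      ∃ σ : ℝ, |σ| = 1 ∧ ‖J E c z (v z) - σ • J E c z' (v z')‖ ≤ θ
  dom : ∀ x ∈ Λ, birkhoffSum f a N x + Real.log 2 ≤ birkhoffSum f b N x

section

variable (f : Diffeomorph 𝓘(ℝ, E) 𝓘(ℝ, E) M M 1) {N : ℕ} {x : M} {u v u' v' : TangentSpace 𝓘(ℝ, E) x}

/-- The growth seminorms on a tangent space. -/
noncomputable def sn (x : M) (n : ℤ) : Seminorm ℝ (TangentSpace 𝓘(ℝ, E) x) :=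
  (normSeminorm ℝ (TangentSpace 𝓘(ℝ, E) (zp f.toEquiv n x))).comp
    (mfderiv 𝓘(ℝ, E) 𝓘(ℝ, E) (zp f.toEquiv n) x).toLinearMap

lemma sn_apply (n : ℤ) : sn f x n u = dn E f.toEquiv n ⟨x, u⟩ := rfl

lemma dn_smul (n : ℤ) (c : ℝ) : dn E f.toEquiv n ⟨x, c • u⟩ = |c| * dn E f.toEquiv n ⟨x, u⟩ :=
  map_smul_eq_mul (sn f x n) c u

lemma domAt_iff : DomAt E f.toEquiv N x u v ↔ u ≠ 0 ∧ v ≠ 0 ∧ ∀ n : ℤ,
    2 * dn E f.toEquiv (n + N) ⟨x, u⟩ * dn E f.toEquiv n ⟨x, v⟩ ≤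
      dn E f.toEquiv (n + N) ⟨x, v⟩ * dn E f.toEquiv n ⟨x, u⟩ := Iff.rfl

lemma dom_unit (h : DomAt E f.toEquiv N x u v) : ∃ u v : TangentSpace 𝓘(ℝ, E) x, ‖u‖ = 1 ∧
    ‖v‖ = 1 ∧ DomAt E f.toEquiv N x u v := by
  obtain ⟨h1, h2, h3⟩ := (domAt_iff f).1 h
  have e1 : ‖‖u‖⁻¹ • u‖ = 1 := norm_smul_inv_norm (𝕜 := ℝ) h1
  have e2 : ‖‖v‖⁻¹ • v‖ = 1 := norm_smul_inv_norm (𝕜 := ℝ) h2
  refine ⟨_, _, e1, e2, (domAt_iff f).2 ⟨fun h => by rw [h] at e1; simp at e1,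
    fun h => by rw [h] at e2; simp at e2, fun n => ?_⟩⟩
  simp only [dn_smul]
  nlinarith [mul_le_mul_of_nonneg_left (h3 n) (mul_nonneg (abs_nonneg ‖u‖⁻¹) (abs_nonneg ‖v‖⁻¹))]

lemma mfderiv_ne : mfderiv 𝓘(ℝ, E) 𝓘(ℝ, E) f x u ≠ 0 ↔ u ≠ 0 := by
  refine ⟨fun h e => h (by rw [e, map_zero]), fun h e => ?_⟩
  have := dn_pos f 1 x h
  rw [dn_one, e, norm_zero] at this
  exact lt_irrefl _ this

lemma dom_fwd : DomAt E f.toEquiv N (f x) (mfderiv 𝓘(ℝ, E) 𝓘(ℝ, E) f x u)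
    (mfderiv 𝓘(ℝ, E) 𝓘(ℝ, E) f x v) ↔ DomAt E f.toEquiv N x u v := by
  rw [domAt_iff, domAt_iff, mfderiv_ne, mfderiv_ne]
  simp only [← dn_succ]
  refine and_congr_right fun _ => and_congr_right fun _ => ⟨fun h n => ?_, fun h n => ?_⟩
  · simpa only [sub_add_cancel, show n - 1 + N + 1 = n + N by ring] using h (n - 1)
  · simpa only [add_right_comm n 1] using h (n + 1)

lemma dom_unique (hE : Module.finrank ℝ E = 2) (h : DomAt E f.toEquiv N x u v)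
    (h' : DomAt E f.toEquiv N x u' v') : (∃ c : ℝ, u' = c • u) ∧ ∃ c : ℝ, v' = c • v :=
  semi_unique (V := TangentSpace 𝓘(ℝ, E) x) hE (p := sn f x) (fun n _ hw => dn_pos f n x hw) h.1
    h.2.1 h'.1 h'.2.1 h.2.2 h'.2.2

lemma sign_of_unit {c : ℝ} (hu : ‖u‖ = 1) (hu' : ‖u'‖ = 1) (h : u' = c • u) : u' = u ∨ u' = -u := by
  rw [h, norm_smul, hu, mul_one, Real.norm_eq_abs, abs_eq zero_le_one] at hu'
  rcases hu' with rfl | rfl <;> simp [h]

lemma mem_pairs : (⟨x, u⟩, ⟨x, v⟩) ∈ Pairs E f.toEquiv N ↔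
    ‖u‖ = 1 ∧ ‖v‖ = 1 ∧ DomAt E f.toEquiv N x u v :=
  ⟨fun h => ⟨h.2.1, h.2.2.1, fun e => by simpa [e] using h.2.1, fun e => by simpa [e] using h.2.2.1,
    h.2.2.2⟩, fun h => ⟨rfl, h.1, h.2.1, h.2.2.2.2⟩⟩

lemma pairs_sign (hE : Module.finrank ℝ E = 2)
    {p q : TangentBundle 𝓘(ℝ, E) M × TangentBundle 𝓘(ℝ, E) M} (hp : p ∈ Pairs E f.toEquiv N)
    (hq : q ∈ Pairs E f.toEquiv N) (h : p.1.1 = q.1.1) : ∃ (x : M) (u v : TangentSpace 𝓘(ℝ, E) x),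
      q = (⟨x, u⟩, ⟨x, v⟩) ∧ (p.1 = ⟨x, u⟩ ∨ p.1 = ⟨x, -u⟩) ∧ (p.2 = ⟨x, v⟩ ∨ p.2 = ⟨x, -v⟩) := by
  obtain ⟨⟨x, u⟩, y, v⟩ := p
  obtain ⟨⟨x', u'⟩, y', v'⟩ := q
  obtain rfl : x = y := hp.1
  obtain rfl : x' = y' := hq.1
  obtain rfl : x = x' := h
  rw [mem_pairs] at hp hq
  obtain ⟨⟨c, h1⟩, d, h2⟩ := dom_unique f hE hq.2.2 hp.2.2
  exact ⟨x, u', v', rfl, (sign_of_unit hq.1 hp.1 h1).imp (fun e => by rw [e]) fun e => by rw [e],
    (sign_of_unit hq.2.1 hp.2.1 h2).imp (fun e => by rw [e]) fun e => by rw [e]⟩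

lemma dn_neg (n : ℤ) : dn E f.toEquiv n ⟨x, -u⟩ = dn E f.toEquiv n ⟨x, u⟩ :=
  map_neg_eq_map (sn f x n) u

lemma exp_sum {Λ : Set M} (hΛ : ∀ x ∈ Λ, f x ∈ Λ) {w : ∀ x : M, TangentSpace 𝓘(ℝ, E) x}
    {a : M → ℝ} (h1 : ∀ x ∈ Λ, ‖w x‖ = 1) (h2 : ∀ x ∈ Λ, ∃ σ : ℝ, |σ| = Real.exp (a x) ∧
      mfderiv 𝓘(ℝ, E) 𝓘(ℝ, E) f x (w x) = σ • w (f x)) (n : ℕ) :
    ∀ x ∈ Λ, dn E f.toEquiv n ⟨x, w x⟩ = Real.exp (birkhoffSum f a n x) := by
  induction n with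
  | zero => intro x hx; simp [dn_zero, h1 x hx]
  | succ n ih =>
    intro x hx
    obtain ⟨σ, s1, s2⟩ := h2 x hx
    rw [Nat.cast_succ, dn_succ, s2, dn_smul, ih _ (hΛ x hx), s1, birkhoffSum_succ', Real.exp_add]

end

theorem exists_split (hE : Module.finrank ℝ E = 2) (f : Diffeomorph 𝓘(ℝ, E) 𝓘(ℝ, E) M M 1) (N : ℕ) :
    ∃ u v a b, Split E f N {x | ∃ u v, DomAt E f.toEquiv N x u v} u v a b := by
  set Λ := {x | ∃ u v, DomAt E f.toEquiv N x u v} with hΛ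
  have hP := isCompact_pairs f N
  have c0 : Continuous fun p : TangentBundle 𝓘(ℝ, E) M × TangentBundle 𝓘(ℝ, E) M => p.1.1 :=
    (FiberBundle.continuous_proj E _).comp continuous_fst
  have key : ∀ x : M, ∃ u v : TangentSpace 𝓘(ℝ, E) x, x ∈ Λ →
      ‖u‖ = 1 ∧ ‖v‖ = 1 ∧ DomAt E f.toEquiv N x u v := fun x => by
    by_cases hx : x ∈ Λ
    · obtain ⟨u, v, h⟩ := hx
      obtain ⟨u, v, h⟩ := dom_unit f h
      exact ⟨u, v, fun _ => h⟩
    · exact ⟨0, 0, fun h => absurd h hx⟩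
  choose u v h using key
  have hm : ∀ x ∈ Λ, (⟨x, u x⟩, ⟨x, v x⟩) ∈ Pairs E f.toEquiv N := fun x hx =>
    (mem_pairs f).2 (h x hx)
  have hne : ∀ p : TangentBundle 𝓘(ℝ, E) M, ‖p.2‖ = 1 → dn E f.toEquiv 1 p ≠ 0 := fun p hp =>
    (dn_pos f 1 p.1 (u := p.2) fun e => by simp [e] at hp).ne'
  obtain ⟨a, a1, a2⟩ := exists_descend hP c0 (h := fun p => Real.log (dn E f.toEquiv 1 p.1))
    (((continuous_dn f 1).comp continuous_fst).continuousOn.log fun p hp => hne _ hp.2.1)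
    fun p hp q hq e => by
      obtain ⟨x, u, v, rfl, h1 | h1, -⟩ := pairs_sign f hE hp hq e <;> simp only [h1, dn_neg]
  obtain ⟨b, b1, b2⟩ := exists_descend hP c0 (h := fun p => Real.log (dn E f.toEquiv 1 p.2))
    (((continuous_dn f 1).comp continuous_snd).continuousOn.log fun p hp => hne _ hp.2.2.1)
    fun p hp q hq e => by
      obtain ⟨x, u, v, rfl, -, h1 | h1⟩ := pairs_sign f hE hp hq e <;> simp only [h1, dn_neg]
  have inv : ∀ x, f x ∈ Λ ↔ x ∈ Λ := fun x => ⟨fun ⟨u, v, h⟩ => by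
    obtain ⟨u, rfl⟩ := mfderiv_surj f x u
    obtain ⟨v, rfl⟩ := mfderiv_surj f x v
    exact ⟨u, v, (dom_fwd f).1 h⟩, fun ⟨u, v, h⟩ => ⟨_, _, (dom_fwd f).2 h⟩⟩
  have mul : ∀ {x} {w : TangentSpace 𝓘(ℝ, E) x} {w' : TangentSpace 𝓘(ℝ, E) (f x)} {c : ℝ},
      ‖w‖ = 1 → ‖w'‖ = 1 → mfderiv 𝓘(ℝ, E) 𝓘(ℝ, E) f x w = c • w' →
      |c| = Real.exp (Real.log (dn E f.toEquiv 1 ⟨x, w⟩)) := fun {x w w' c} h1 h2 h3 => by
    rw [Real.exp_log (dn_pos f 1 x fun e => by simp [e] at h1), dn_one, h3, norm_smul, h2, mul_one,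
      Real.norm_eq_abs]
  have mu : ∀ x ∈ Λ, ∃ σ : ℝ, |σ| = Real.exp (a x) ∧
      mfderiv 𝓘(ℝ, E) 𝓘(ℝ, E) f x (u x) = σ • u (f x) := fun x hx => by
    obtain ⟨⟨c, h1⟩, -⟩ := dom_unique f hE (h _ ((inv x).2 hx)).2.2 ((dom_fwd f).2 (h x hx).2.2)
    exact ⟨c, (mul (h x hx).1 (h _ ((inv x).2 hx)).1 h1).trans (by rw [← a2 _ (hm x hx)]), h1⟩
  have mv : ∀ x ∈ Λ, ∃ σ : ℝ, |σ| = Real.exp (b x) ∧
      mfderiv 𝓘(ℝ, E) 𝓘(ℝ, E) f x (v x) = σ • v (f x) := fun x hx => by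
    obtain ⟨-, c, h1⟩ := dom_unique f hE (h _ ((inv x).2 hx)).2.2 ((dom_fwd f).2 (h x hx).2.2)
    exact ⟨c, (mul (h x hx).2.1 (h _ ((inv x).2 hx)).2.1 h1).trans (by rw [← b2 _ (hm x hx)]), h1⟩
  refine ⟨u, v, a, b, ?_, inv, a1, b1, mu, mv, fun x hx => ⟨(h x hx).1, (h x hx).2.1⟩, ?_,
    fun c A hA hc θ hθ => ?_, fun x hx => ?_⟩
  · convert (hP.image c0).isClosed
    refine Set.ext fun x => ⟨fun hx => ⟨_, hm x hx, rfl⟩, ?_⟩
    rintro ⟨⟨⟨x, u⟩, y, v⟩, hp, rfl⟩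
    obtain rfl : x = y := hp.1
    exact ⟨u, v, ((mem_pairs f).1 hp).2.2⟩
  · obtain ⟨m, K, m0, K0, h1⟩ := dn_bounds f N
    obtain ⟨m', K', m0', K0', h2⟩ := dn_bounds f (-N)
    refine ⟨min m m' / (2 * max K K'), by positivity, fun x hx s t => ?_⟩
    obtain ⟨e1, e2, -, -, e3⟩ := h x hx
    refine semi_angle (p := sn f x N) (q := sn f x (-N)) (by positivity) (by positivity)
      (fun w => ⟨le_trans (by gcongr; exact min_le_left _ _) (h1 x w).1,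
        (h1 x w).2.trans (by gcongr; exact le_max_left _ _)⟩)
      (fun w => ⟨le_trans (by gcongr; exact min_le_right _ _) (h2 x w).1,
        (h2 x w).2.trans (by gcongr; exact le_max_right _ _)⟩) e1 e2 ?_ ?_ s t
    · have := ((domAt_iff f).1 (h x hx).2.2).2.2 0
      simpa only [sn_apply, zero_add, dn_zero, e1, e2, mul_one] using this
    · have := ((domAt_iff f).1 (h x hx).2.2).2.2 (-N)
      simpa only [sn_apply, neg_add_cancel, dn_zero, e1, e2, mul_one, one_mul] using this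
  · have hK := hP.inter_right (hA.preimage c0)
    obtain ⟨δ, d1, d2⟩ := unif_sign hK c0 (h := fun p => J E c p.1.1 p.1.2)
      ((continuousOn_J c).comp continuous_fst.continuousOn fun p hp => hc hp.2) (fun p hp q hq e => by
        obtain ⟨x, u, v, rfl, h1 | h1, -⟩ := pairs_sign f hE hp.1 hq.1 e <;> rw [h1] <;> simp) hθ
    obtain ⟨δ', d3, d4⟩ := unif_sign hK c0 (h := fun p => J E c p.2.1 p.2.2)
      ((continuousOn_J c).comp continuous_snd.continuousOn fun p hp => hc (hp.1.1 ▸ hp.2))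
      (fun p hp q hq e => by
        obtain ⟨x, u, v, rfl, -, h1 | h1⟩ := pairs_sign f hE hp.1 hq.1 e <;> rw [h1] <;> simp) hθ
    exact ⟨min δ δ', lt_min d1 d3, fun z hz z' hz' hd =>
      ⟨d2 _ ⟨hm z hz.1, hz.2⟩ _ ⟨hm z' hz'.1, hz'.2⟩ (hd.trans_le (min_le_left _ _)),
        d4 _ ⟨hm z hz.1, hz.2⟩ _ ⟨hm z' hz'.1, hz'.2⟩ (hd.trans_le (min_le_right _ _))⟩⟩
  · have := ((domAt_iff f).1 (h x hx).2.2).2.2 0
    simp only [zero_add, dn_zero, (h x hx).1, (h x hx).2.1, mul_one] at this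
    rw [exp_sum f (fun x => (inv x).2) (fun x hx => (h x hx).1) mu N x hx,
      exp_sum f (fun x => (inv x).2) (fun x hx => (h x hx).2.1) mv N x hx] at this
    rw [← Real.exp_le_exp, Real.exp_add, Real.exp_log two_pos, mul_comm]
    exact this

end Pool.Agent.P.MP_1672e2_an

/-! Adapted charts along the set of dominated orbits. -/

set_option autoImplicit false

namespace Pool.Agent.P.MP_1672e2_an

open MeasureTheory Set Metric Filter Topology Bundle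
open scoped Manifold ContDiff

variable {E : Type*} [NormedAddCommGroup E] [NormedSpace ℝ E] [FiniteDimensional ℝ E] {M : Type*}
  [MetricSpace M] [CompactSpace M] [ChartedSpace E M] [IsManifold 𝓘(ℝ, E) 1 M]
  [RiemannianBundle fun x : M => TangentSpace 𝓘(ℝ, E) x]
  [IsContinuousRiemannianBundle E fun x : M => TangentSpace 𝓘(ℝ, E) x]

theorem Split.charts (hE : Module.finrank ℝ E = 2) {V : Type*} [NormedAddCommGroup V]
    [NormedSpace ℝ V] {e : M → V} (he : ∀ x y, dist x y = ‖e x - e y‖)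
    (h1 : ContMDiff 𝓘(ℝ, E) 𝓘(ℝ, V) 1 e)
    (h2 : ∀ x, Function.Injective (mfderiv 𝓘(ℝ, E) 𝓘(ℝ, V) e x))
    (f : Diffeomorph 𝓘(ℝ, E) 𝓘(ℝ, E) M M 1) {N : ℕ} {Λ : Set M}
    {u v : ∀ x : M, TangentSpace 𝓘(ℝ, E) x} {a b : M → ℝ} (h : Split E f N Λ u v a b) :
    ∃ κ, Charts f.toHomeomorph Λ a b κ := by
  obtain ⟨t, A, r, C, S, a1, a2⟩ := exists_CS he h1 h2 (Q := fun _ _ => 0)
    fun _ => continuousAt_const
  obtain ⟨c, c0, c1⟩ := h.ang
  obtain ⟨K₁, k1⟩ := (isCompact_range h.ca.abs).bddAbove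
  obtain ⟨K₂, k2⟩ := (isCompact_range h.cb.abs).bddAbove
  have hC := S.one_le
  have df := f.contMDiff.mdifferentiable one_ne_zero
  refine charts_of_CS hE S (f := f.toHomeomorph)
    (lin_chart a1 (fun i x hx => (a2 i x hx).1) f.contMDiff)
    (lin_chart a1 (fun i x hx => (a2 i x hx).1) contMDiff_id) h.closed h.inv h.ca h.cb
    (K := max K₁ K₂) (fun x => ⟨le_max_of_le_left (k1 ⟨x, rfl⟩), le_max_of_le_right (k2 ⟨x, rfl⟩)⟩)
    (U := fun i x => J E i.1 x (u x)) (V := fun i x => J E i.1 x (v x))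
    (fun x hx i j hi hj => ?_) (fun x hx i j hi hj => ?_) (D := C / c + 2 * C)
    (fun x hx i hi s t => ?_) fun i θ hθ => h.uc i (A i) (a1 i) (fun x hx => (a2 i x hx).1) θ hθ
  · obtain ⟨σ, s1, s2⟩ := h.mu x hx
    obtain ⟨τ, t1, t2⟩ := h.mv x hx
    refine ⟨⟨σ, s1, ?_⟩, τ, t1, ?_⟩
    · rw [Bd_apply (a2 i x hi).1 (a2 j _ hj).1 (df x), J'_J (a2 i x hi).1]
      exact (congrArg (J E j.1 (f x)) s2).trans (map_smul _ _ _)
    · rw [Bd_apply (a2 i x hi).1 (a2 j _ hj).1 (df x), J'_J (a2 i x hi).1]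
      exact (congrArg (J E j.1 (f x)) t2).trans (map_smul _ _ _)
  · constructor <;>
      rw [Bd_apply (a2 i x hi).1 (a2 j x hj).1 mdifferentiableAt_id, J'_J (a2 i x hi).1,
        mfderiv_id] <;> rfl
  · obtain ⟨b1, b2, b3, -⟩ := a2 i x hi
    rw [← map_smul, ← map_smul, ← map_add]
    have e1 := b3 (J E i.1 x (s • u x + t • v x))
    rw [J'_J b1] at e1
    have e2 := c1 x hx s t
    have e3 := b2 (s • u x + t • v x)
    have e4 := norm_add_le (s • u x) (t • v x)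
    rw [norm_smul, norm_smul, (h.unit x hx).1, (h.unit x hx).2] at e4
    have e5 := norm_fst_le (s, t)
    have e6 := norm_snd_le (s, t)
    have e7 : 0 ≤ C / c := by positivity
    have e8 := norm_nonneg (J E i.1 x (s • u x + t • v x))
    have e9 := norm_nonneg (s, t)
    constructor
    · have : ‖(s, t)‖ ≤ C / c * ‖J E i.1 x (s • u x + t • v x)‖ := by
        rw [div_mul_eq_mul_div, le_div_iff₀ c0]; linarith
      nlinarith
    · simp only at e5 e6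
      nlinarith

end Pool.Agent.P.MP_1672e2_an
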