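import Pool.Agent.P.MP_1672e2_an.Loops

/-! Cone estimates for sequences in the plane. -/

set_option autoImplicit false

namespace Pool.Agent.P.MP_1672e2_an

open MeasureTheory Set Metric Filter Topology

/-- Almost diagonal recursion with domination and uniform rates. -/
structure SeqH (A B : ℕ → ℝ) (η q : ℝ) (n : ℕ) : Prop where
  hη : 0 ≤ η
  hq : 0 < q
  hq1 : q ≤ 1
  gap : ∀ i < n, |A i| + 200 * η ≤ |B i|
  pos : ∀ i < n, 0 < |B i| - 100 * η
  ss : ∀ i ≤ n, ∏ j ∈ Finset.range i, (|A j| + 100 * η) ≤ q ^ i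
  us : ∀ i ≤ n, 1 ≤ q ^ (n - i) * ∏ j ∈ Finset.Ico i n, (|B j| - 100 * η)
  last : q ^ n ≤ 1 / 1000

variable {A B : ℕ → ℝ} {η q : ℝ} {n : ℕ}

lemma Seq_coord {a b η : ℝ} {v w : ℝ × ℝ} (h : ‖w - (a * v.1, b * v.2)‖ ≤ η * ‖v‖) :
    |w.1| ≤ |a| * |v.1| + η * max |v.1| |v.2| ∧ |b| * |v.2| - η * max |v.1| |v.2| ≤ |w.2| := by
  have e : ‖v‖ = max |v.1| |v.2| := by rw [Prod.norm_def, Real.norm_eq_abs, Real.norm_eq_abs]
  rw [e] at h
  have h1 : |w.1 - a * v.1| ≤ η * max |v.1| |v.2| := (norm_fst_le (w - (a * v.1, b * v.2))).trans h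
  have h2 : |w.2 - b * v.2| ≤ η * max |v.1| |v.2| := (norm_snd_le (w - (a * v.1, b * v.2))).trans h
  rw [← abs_mul, ← abs_mul]
  have h3 := abs_sub_abs_le_abs_sub w.1 (a * v.1)
  have h4 := abs_sub_abs_le_abs_sub (b * v.2) w.2
  rw [abs_sub_comm] at h4
  constructor <;> linarith

lemma Seq_cone {a b η c x y x' y' : ℝ} (hη : 0 ≤ η) (hc1 : 1 / 100 ≤ c) (hc2 : c ≤ 100)
    (hab : a + 200 * η ≤ b) (ha : 0 ≤ a) (hy : 0 ≤ y) (h1 : x' ≤ a * x + η * max x y)
    (h2 : b * y - η * max x y ≤ y') (h : x ≤ c * y) :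
    x' ≤ c * y' ∧ (b - 100 * η) * y ≤ y' := by
  have hN : max x y * (1 + c) ≤ 200 * c * y := by
    rcases le_total x y with h3 | h3
    · rw [max_eq_right h3]; nlinarith
    · rw [max_eq_left h3]
      have : c * y * (1 + c) ≤ 200 * c * y := by
        have : 0 ≤ c * y := by positivity
        nlinarith
      nlinarith
  have hN' : max x y ≤ 100 * y := max_le (by nlinarith) (by linarith)
  have k1 := mul_le_mul_of_nonneg_left hN hη
  have k2 := mul_le_mul_of_nonneg_left hN' hη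
  have hc0 : 0 ≤ c := by linarith
  have k3 := mul_le_mul_of_nonneg_left h2 hc0
  have k4 := mul_le_mul_of_nonneg_left h ha
  have k5 := mul_le_mul_of_nonneg_right hab (mul_nonneg hc0 hy)
  constructor <;> nlinarith

lemma SeqH.fwd (h : SeqH A B η q n) {d : ℕ → ℝ × ℝ}
    (hd : ∀ i < n, ‖d (i + 1) - (A i * (d i).1, B i * (d i).2)‖ ≤ η * ‖d i‖) {c : ℝ}
    (hc1 : 1 / 100 ≤ c) (hc2 : c ≤ 100) {i : ℕ} (hi : |(d i).1| ≤ c * |(d i).2|) :
    ∀ j, i ≤ j → j ≤ n → |(d j).1| ≤ c * |(d j).2| ∧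
      (∏ k ∈ Finset.Ico i j, (|B k| - 100 * η)) * |(d i).2| ≤ |(d j).2| := by
  intro j hj
  induction j, hj using Nat.le_induction with
  | base => intro _; simpa using hi
  | succ j hj ih =>
    intro hn
    obtain ⟨h1, h2⟩ := ih (by omega)
    obtain ⟨k1, k2⟩ := Seq_coord (hd j (by omega))
    obtain ⟨k3, k4⟩ := Seq_cone h.hη hc1 hc2 (h.gap j (by omega)) (abs_nonneg _) (abs_nonneg _)
      k1 k2 h1
    refine ⟨k3, le_trans ?_ k4⟩
    rw [Finset.prod_Ico_succ_top hj, mul_comm (∏ k ∈ Finset.Ico i j, _), mul_assoc]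
    exact mul_le_mul_of_nonneg_left h2 (h.pos j (by omega)).le

lemma SeqH.inside (h : SeqH A B η q n) {d : ℕ → ℝ × ℝ}
    (hd : ∀ i < n, ‖d (i + 1) - (A i * (d i).1, B i * (d i).2)‖ ≤ η * ‖d i‖) {c : ℝ}
    (hc1 : 1 / 100 ≤ c) (hc2 : c ≤ 100) {i : ℕ} (hn : i ≤ n) (hi : |(d i).1| ≤ c * |(d i).2|) :
    |(d i).2| ≤ q ^ (n - i) * |(d n).2| := by
  have h1 := (h.fwd hd hc1 hc2 hi n hn le_rfl).2
  have h2 := mul_le_mul_of_nonneg_right (h.us i hn) (abs_nonneg (d i).2)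
  have h3 := mul_le_mul_of_nonneg_left h1 (pow_pos h.hq (n - i)).le
  rw [one_mul, mul_assoc] at h2
  exact h2.trans h3

lemma SeqH.outside (h : SeqH A B η q n) {d : ℕ → ℝ × ℝ}
    (hd : ∀ i < n, ‖d (i + 1) - (A i * (d i).1, B i * (d i).2)‖ ≤ η * ‖d i‖) {c : ℝ}
    (hc1 : 1 / 100 ≤ c) (hc2 : c ≤ 100) {i : ℕ} (hn : i ≤ n)
    (hi : ¬ |(d i).1| ≤ c * |(d i).2|) : |(d i).1| ≤ q ^ i * |(d 0).1| := by
  have key : ∀ j ≤ i, |(d j).1| ≤ (∏ k ∈ Finset.range j, (|A k| + 100 * η)) * |(d 0).1| := by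
    intro j
    induction j with
    | zero => intro _; simp
    | succ j ih =>
      intro hj
      have h1 := ih (by omega)
      have h2 : ¬ |(d j).1| ≤ c * |(d j).2| := fun h' =>
        hi (h.fwd hd hc1 hc2 h' i (by omega) hn).1
      have k1 := (Seq_coord (hd j (by omega))).1
      have hx := abs_nonneg (d j).1
      have hy := abs_nonneg (d j).2
      have hN : max |(d j).1| |(d j).2| ≤ 100 * |(d j).1| :=
        max_le (by linarith) (by push Not at h2; nlinarith)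
      have k2 := mul_le_mul_of_nonneg_left hN h.hη
      have k3 : 0 ≤ |A j| + 100 * η := by have := h.hη; positivity
      have k4 := mul_le_mul_of_nonneg_left h1 k3
      rw [Finset.prod_range_succ]
      nlinarith
  exact (key i le_rfl).trans (mul_le_mul_of_nonneg_right (h.ss i hn) (abs_nonneg _))

lemma SeqH.est (h : SeqH A B η q n) {d : ℕ → ℝ × ℝ}
    (hd : ∀ i < n, ‖d (i + 1) - (A i * (d i).1, B i * (d i).2)‖ ≤ η * ‖d i‖) :
    |(d 0).2| ≤ max |(d 0).1| |(d n).2| / 100 ∧ |(d n).1| ≤ max |(d 0).1| |(d n).2| / 100 ∧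
      ∀ i ≤ n, ‖d i‖ ≤ max (q ^ i * |(d 0).1|) (q ^ (n - i) * |(d n).2|) := by
  have m1 := le_max_left |(d 0).1| |(d n).2|
  have m2 := le_max_right |(d 0).1| |(d n).2|
  have p1 := abs_nonneg (d 0).1
  have p2 := abs_nonneg (d n).2
  have l1 := mul_le_mul_of_nonneg_right h.last p1
  have l2 := mul_le_mul_of_nonneg_right h.last p2
  refine ⟨?_, ?_, fun i hi => ?_⟩
  · by_cases hc : |(d 0).1| ≤ 100 * |(d 0).2|
    · have := h.inside hd (by norm_num) le_rfl (Nat.zero_le n) hc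
      rw [Nat.sub_zero] at this
      linarith
    · push Not at hc
      linarith
  · by_cases hc : |(d n).1| ≤ 1 / 100 * |(d n).2|
    · linarith
    · have := h.outside hd le_rfl (by norm_num) le_rfl hc
      linarith
  · rw [Prod.norm_def, Real.norm_eq_abs, Real.norm_eq_abs]
    by_cases hc : |(d i).1| ≤ 1 * |(d i).2|
    · have := h.inside hd (by norm_num) (by norm_num) hi hc
      rw [one_mul] at hc
      rw [max_eq_right hc]
      exact this.trans (le_max_right _ _)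
    · have := h.outside hd (by norm_num) (by norm_num) hi hc
      rw [one_mul, not_le] at hc
      rw [max_eq_left hc.le]
      exact this.trans (le_max_left _ _)

lemma Seq_cont {a b η : ℝ} {G : ℝ × ℝ → ℝ × ℝ}
    (hG : ∀ v w, ‖G v - G w - (a * (v - w).1, b * (v - w).2)‖ ≤ η * ‖v - w‖) : Continuous G := by
  rw [continuous_iff_continuousAt]
  intro w
  rw [ContinuousAt, tendsto_iff_norm_sub_tendsto_zero]
  have hc : Continuous fun v : ℝ × ℝ =>
      η * ‖v - w‖ + ‖((a * (v - w).1, b * (v - w).2) : ℝ × ℝ)‖ := by fun_prop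
  have h0 := hc.tendsto w
  simp only [sub_self, norm_zero, mul_zero, Prod.fst_zero, Prod.snd_zero, Prod.mk_zero_zero,
    add_zero] at h0
  refine squeeze_zero (fun _ => norm_nonneg _) (fun v => ?_) h0
  have h1 := hG v w
  have h2 := norm_add_le (G v - G w - (a * (v - w).1, b * (v - w).2))
    (a * (v - w).1, b * (v - w).2)
  rw [sub_add_cancel] at h2
  linarith

/-- Boundary value problem for global almost diagonal maps. -/
lemma SeqH.bvp (h : SeqH A B η q n) {G : ℕ → ℝ × ℝ → ℝ × ℝ}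
    (hG : ∀ i < n, ∀ v w, ‖G i v - G i w - (A i * (v - w).1, B i * (v - w).2)‖ ≤ η * ‖v - w‖)
    (s u : ℝ) : ∃ V : ℕ → ℝ × ℝ, (V 0).1 = s ∧ (V n).2 = u ∧ ∀ i < n, V (i + 1) = G i (V i) := by
  obtain ⟨V, hV0, hV⟩ : ∃ V : ℝ → ℕ → ℝ × ℝ, (∀ t, V t 0 = (s, t)) ∧
      ∀ t i, V t (i + 1) = G i (V t i) :=
    ⟨fun t i => Nat.rec (s, t) (fun i v => G i v) i, fun _ => rfl, fun _ _ => rfl⟩
  have hc : ∀ i ≤ n, Continuous fun t => V t i := by
    intro i
    induction i with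
    | zero => intro _; simp only [hV0]; fun_prop
    | succ i ih =>
      intro hi
      simp only [hV]
      exact (Seq_cont (hG i (by omega))).comp (ih (by omega))
  have hφ : Continuous fun t => (V t n).2 := continuous_snd.comp (hc n le_rfl)
  have hexp : ∀ t t', |t - t'| ≤ |(V t n).2 - (V t' n).2| / 100 := by
    intro t t'
    have := (h.est (d := fun i => V t i - V t' i) (fun i hi => by
      simp only [hV]
      exact hG i hi _ _)).1
    simpa [hV0] using this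
  have hinj : Function.Injective fun t => (V t n).2 := by
    intro t t' ht
    have := hexp t t'
    simp only at ht
    rw [ht, sub_self, abs_zero, zero_div] at this
    exact sub_eq_zero.1 (abs_nonpos_iff.1 this)
  obtain ⟨T, hT⟩ : ∃ T, T = |u - (V 0 n).2| := ⟨_, rfl⟩
  have hT0 : 0 ≤ T := hT ▸ abs_nonneg _
  have a1 := hexp T 0
  have a2 := hexp (-T) 0
  rw [sub_zero, abs_of_nonneg hT0] at a1
  rw [sub_zero, abs_neg, abs_of_nonneg hT0] at a2
  have b1 := le_abs_self (u - (V 0 n).2)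
  have b2 := neg_abs_le (u - (V 0 n).2)
  have : u ∈ Set.range fun t => (V t n).2 := by
    apply mem_range_of_exists_le_of_exists_ge hφ
    · rcases hφ.strictMono_of_inj hinj with hm | hm
      · have := hm.monotone (show -T ≤ 0 by linarith)
        rw [abs_of_nonpos (by simpa using this)] at a2
        exact ⟨-T, by linarith⟩
      · have := hm.antitone hT0
        rw [abs_of_nonpos (by simpa using this)] at a1
        exact ⟨T, by linarith⟩
    · rcases hφ.strictMono_of_inj hinj with hm | hm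
      · have := hm.monotone hT0
        rw [abs_of_nonneg (by simpa using this)] at a1
        exact ⟨T, by linarith⟩
      · have := hm.antitone (show -T ≤ 0 by linarith)
        rw [abs_of_nonneg (by simpa using this)] at a2
        exact ⟨-T, by linarith⟩
  obtain ⟨t, ht⟩ := this
  exact ⟨V t, by rw [hV0], ht, fun i _ => hV t i⟩

/-- Extension of an almost diagonal map from a square to the plane. -/
lemma exists_extend {a b η r : ℝ} (hη : 0 ≤ η) (hr : 0 ≤ r) {g : ℝ × ℝ → ℝ × ℝ}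
    (hg : ∀ v w, ‖v‖ ≤ r → ‖w‖ ≤ r →
      ‖g v - g w - (a * (v - w).1, b * (v - w).2)‖ ≤ η * ‖v - w‖) :
    ∃ G : ℝ × ℝ → ℝ × ℝ, (∀ v, ‖v‖ ≤ r → G v = g v) ∧
      ∀ v w, ‖G v - G w - (a * (v - w).1, b * (v - w).2)‖ ≤ η * ‖v - w‖ := by
  obtain ⟨k, hk⟩ : ∃ k : ℝ → ℝ, ∀ x, k x = max (-r) (min r x) := ⟨_, fun _ => rfl⟩
  have k1 : ∀ x, |k x| ≤ r := fun x => by
    rw [hk, abs_le]
    exact ⟨le_max_left _ _, max_le (by linarith) (min_le_left _ _)⟩
  have k2 : ∀ x, |x| ≤ r → k x = x := fun x hx => by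
    rw [abs_le] at hx
    rw [hk, min_eq_right hx.2, max_eq_right hx.1]
  have k3 : ∀ x y, |k x - k y| ≤ |x - y| := fun x y => by
    rw [hk, hk, max_comm (-r), max_comm (-r)]
    refine (abs_max_sub_max_le_abs _ _ _).trans ?_
    have h1 := le_abs_self (x - y)
    have h2 := neg_abs_le (x - y)
    rw [abs_le]
    simp only [min_def]
    constructor <;> split_ifs <;> linarith
  have k4 : ∀ v : ℝ × ℝ, ‖((k v.1, k v.2) : ℝ × ℝ)‖ ≤ r := fun v => by
    rw [Prod.norm_def]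
    exact max_le (k1 _) (k1 _)
  refine ⟨fun v => g (k v.1, k v.2) + (a * (v.1 - k v.1), b * (v.2 - k v.2)), fun v hv => ?_,
    fun v w => ?_⟩
  · have h1 := k2 v.1 ((norm_fst_le v).trans hv)
    have h2 := k2 v.2 ((norm_snd_le v).trans hv)
    simp [h1, h2]
  · have h1 := hg _ _ (k4 v) (k4 w)
    have h2 : ‖((k v.1, k v.2) : ℝ × ℝ) - (k w.1, k w.2)‖ ≤ ‖v - w‖ := by
      rw [Prod.norm_def]
      exact max_le ((k3 _ _).trans (norm_fst_le (v - w))) ((k3 _ _).trans (norm_snd_le (v - w)))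
    refine le_trans (le_of_eq (congrArg _ ?_)) (h1.trans (mul_le_mul_of_nonneg_left h2 hη))
    ext <;> simp <;> ring

lemma card_le_of_sep {ρ ε : ℝ} (hρ : 0 ≤ ρ) (hε : 0 < ε) (S : Finset ℝ) (h1 : ∀ s ∈ S, |s| ≤ ρ)
    (h2 : ∀ s ∈ S, ∀ t ∈ S, s ≠ t → ε < |s - t|) : (S.card : ℝ) ≤ 2 * ρ / ε + 1 := by
  have hle : S.card ≤ (Finset.range (⌊2 * ρ / ε⌋₊ + 1)).card := by
    refine Finset.card_le_card_of_injOn (fun s => ⌊(s + ρ) / ε⌋₊) (fun s hs => ?_)
      (fun s hs t ht h => ?_)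
    · have := abs_le.1 (h1 s hs)
      simp only [Finset.coe_range, Set.mem_Iio]
      exact Nat.lt_succ_of_le (Nat.floor_le_floor
        (div_le_div_of_nonneg_right (by linarith) hε.le))
    · by_contra hne
      have h3 := h2 s hs t ht hne
      have a1 := abs_le.1 (h1 s hs)
      have a2 := abs_le.1 (h1 t ht)
      have b1 := Nat.floor_le (div_nonneg (show 0 ≤ s + ρ by linarith) hε.le)
      have b2 := Nat.floor_le (div_nonneg (show 0 ≤ t + ρ by linarith) hε.le)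
      have c1 := Nat.lt_floor_add_one ((s + ρ) / ε)
      have c2 := Nat.lt_floor_add_one ((t + ρ) / ε)
      simp only at h
      rw [h] at b1 c1
      rw [le_div_iff₀ hε] at b1 b2
      rw [div_lt_iff₀ hε] at c1 c2
      have : |s - t| < ε := by
        rw [abs_lt]
        constructor <;> nlinarith
      linarith
  rw [Finset.card_range] at hle
  have h3 : (⌊2 * ρ / ε⌋₊ : ℝ) ≤ 2 * ρ / ε := Nat.floor_le (by positivity)
  have h4 : (S.card : ℝ) ≤ ⌊2 * ρ / ε⌋₊ + 1 := by exact_mod_cast hle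
  linarith

end Pool.Agent.P.MP_1672e2_an

/-! Pairs of points in a tube. -/

set_option autoImplicit false

namespace Pool.Agent.P.MP_1672e2_an

open MeasureTheory Set Metric Filter Topology

variable {M : Type*} [MetricSpace M] {f : M ≃ₜ M} {Λ : Set M} {a b : M → ℝ} {κ : M → M → ℝ × ℝ}
  {C Δ δ η ρ χ L : ℝ} {x₀ : M} {n : ℕ} {x x' y y' : M}

lemma Box.dpos (h : Box f Λ a b κ C Δ δ η ρ χ L x₀) : 0 < δ := by
  have := h.hC; have := h.hρ; have := h.hδ
  nlinarith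

lemma Box.iter_mem (h : Box f Λ a b κ C Δ δ η ρ χ L x₀) (hx : x ∈ Λ) (i : ℕ) : f^[i] x ∈ Λ := by
  induction i with
  | zero => exact hx
  | succ i ih => rw [Function.iterate_succ_apply']; exact (h.inv _).2 ih

lemma Box.cen_mem (h : Box f Λ a b κ C Δ δ η ρ χ L x₀) (hx : x ∈ Λ) (i : ℕ) :
    cen f x₀ n x i ∈ Λ := by
  unfold cen
  split_ifs
  · exact h.mem
  · exact h.iter_mem hx i

lemma Box.dist_Q (h : Box f Λ a b κ C Δ δ η ρ χ L x₀) (hy : y ∈ Qb κ x₀ δ ρ) :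
    dist y x₀ ≤ C * ρ := by
  have h0 := h.dpos
  have h1 := h.lo x₀ h.mem y (mem_ball.2 (by linarith [hy.1, h.hΔ])) x₀
    (mem_ball_self (by linarith [h.hΔ]))
  rw [h.zero x₀ h.mem, sub_zero] at h1
  exact h1.trans (mul_le_mul_of_nonneg_left hy.2 (by linarith [h.hC]))

lemma dist_cen (hy : y ∈ tube f (Qb κ x₀ δ ρ) δ n x) {i : ℕ} (hi : i ≤ n) :
    dist (f^[i] y) (cen f x₀ n x i) < δ := by
  unfold cen
  split_ifs with h
  · rcases h with rfl | rfl
    · exact hy.1.1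
    · exact hy.2.1.1
  · exact hy.2.2 i hi

lemma pair_bs (f : M ≃ₜ M) (b : M → ℝ) (w : M) (m i : ℕ) :
    bs f.toEquiv b m (f^[i + m] w) = ∑ j ∈ Finset.Ico i (i + m), b (f^[j] w) := by
  induction m generalizing i with
  | zero => simp [bs]
  | succ m ih =>
    have h1 := ih (i + 1)
    have e : i + 1 + m = i + (m + 1) := by omega
    rw [e] at h1
    rw [Finset.sum_eq_sum_Ico_succ_bot (by omega), ← h1]
    simp only [bs]
    rw [Finset.sum_range_succ, add_comm]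
    congr 2
    rw [add_comm i, Function.iterate_add_apply f]
    exact (Function.LeftInverse.iterate f.toEquiv.left_inv (m + 1)) _

lemma pair_max_le (hχ : 0 < χ) (i j : ℕ) :
    max (Real.exp (-(χ / 2)) ^ i) (Real.exp (-(χ / 2)) ^ j) ≤ 1 := by
  have h1 : Real.exp (-(χ / 2)) ≤ 1 := Real.exp_le_one_iff.2 (by linarith)
  exact max_le (pow_le_one₀ (Real.exp_pos _).le h1) (pow_le_one₀ (Real.exp_pos _).le h1)

/-- The multipliers along a good branch. -/
lemma Box.exists_seq (h : Box f Λ a b κ C Δ δ η ρ χ L x₀) (g : Good f Λ a b κ δ ρ χ x₀ n x x') :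
    ∃ A B : ℕ → ℝ, SeqH A B η (Real.exp (-(χ / 2))) n ∧ (∀ i < n, max |A i| |B i| + η ≤ L) ∧
      ∀ i < n, ∀ y ∈ ball (cen f x₀ n x i) Δ, ∀ y' ∈ ball (cen f x₀ n x i) Δ,
        ‖κ (cen f x₀ n x (i + 1)) (f y) - κ (cen f x₀ n x (i + 1)) (f y') -
          (A i * (κ (cen f x₀ n x i) y - κ (cen f x₀ n x i) y').1,
            B i * (κ (cen f x₀ n x i) y - κ (cen f x₀ n x i) y').2)‖ ≤
          η * ‖κ (cen f x₀ n x i) y - κ (cen f x₀ n x i) y'‖ := by
  have h0 := h.dpos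
  have hΔ := h.hΔ
  have hη := h.hη
  have hc : ∀ i, cen f x₀ n x i ∈ Λ := h.cen_mem g.mem
  have key : ∀ i, ∃ A B : ℝ, i < n → (|A| = Real.exp (a (cen f x₀ n x i)) ∧
      |B| = Real.exp (b (cen f x₀ n x i)) ∧
      ∀ y ∈ ball (cen f x₀ n x i) Δ, ∀ y' ∈ ball (cen f x₀ n x i) Δ,
        ‖κ (cen f x₀ n x (i + 1)) (f y) - κ (cen f x₀ n x (i + 1)) (f y') -
          (A * (κ (cen f x₀ n x i) y - κ (cen f x₀ n x i) y').1,
            B * (κ (cen f x₀ n x i) y - κ (cen f x₀ n x i) y').2)‖ ≤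
          η * ‖κ (cen f x₀ n x i) y - κ (cen f x₀ n x i) y'‖) := by
    intro i
    by_cases hi : i < n
    · have h1 := dist_cen g.self hi.le
      have h2 := dist_cen g.self (show i + 1 ≤ n from hi)
      have h3 := h.uc (cen f x₀ n x i) (f^[i] x) (by rw [dist_comm]; linarith)
      rw [Function.iterate_succ_apply'] at h2
      obtain ⟨A, B, hAB⟩ := h.step _ (hc i) _ (hc (i + 1))
        (by linarith [dist_triangle (f (cen f x₀ n x i)) (f (f^[i] x)) (cen f x₀ n x (i + 1))])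
      exact ⟨A, B, fun _ => hAB⟩
    · exact ⟨0, 0, fun h1 => absurd h1 hi⟩
  choose A B hAB using key
  have hgap : ∀ i < n, |A i| + 200 * η ≤ |B i| := fun i hi => by
    rw [(hAB i hi).1, (hAB i hi).2.1]; exact h.gap _ (hc i)
  refine ⟨A, B, ⟨hη, Real.exp_pos _, Real.exp_le_one_iff.2 (by linarith [h.hχ]), hgap,
    fun i hi => ?_, fun i hi => ?_, fun i hi => ?_, h.ret x g.self.1 n g.pos g.self.2.1⟩,
    fun i hi => ?_, fun i hi => (hAB i hi).2.2⟩
  · have h1 := hgap i hi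
    have h2 := Real.exp_pos (a (cen f x₀ n x i))
    rw [← (hAB i hi).1] at h2
    linarith
  · have h1 : ∏ j ∈ Finset.range i, (|A j| + 100 * η) ≤
        ∏ j ∈ Finset.range i, Real.exp (a (f^[j] x) + χ / 2) := by
      refine Finset.prod_le_prod (fun j _ => by positivity) fun j hj => ?_
      have hj' : j < n := lt_of_lt_of_le (Finset.mem_range.1 hj) hi
      rw [(hAB j hj').1]
      exact h.ra _ (hc j) _ (h.iter_mem g.mem j) (by rw [dist_comm]; exact dist_cen g.self hj'.le)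
    refine h1.trans ?_
    rw [← Real.exp_sum, ← Real.exp_nat_mul, Finset.sum_add_distrib, Real.exp_le_exp]
    have h2 := g.ss i hi
    simp only [birkhoffSum] at h2
    simp only [Finset.sum_const, Finset.card_range, nsmul_eq_mul]
    linarith
  · have h1 : ∏ j ∈ Finset.Ico i n, Real.exp (b (f^[j] x') - χ / 2) ≤
        ∏ j ∈ Finset.Ico i n, (|B j| - 100 * η) := by
      refine Finset.prod_le_prod (fun j _ => by positivity) fun j hj => ?_
      have hj' : j < n := (Finset.mem_Ico.1 hj).2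
      rw [(hAB j hj').2.1]
      exact h.rb _ (hc j) _ (h.iter_mem g.mem' j)
        (by rw [dist_comm]; exact dist_cen g.self' hj'.le)
    refine le_trans ?_ (mul_le_mul_of_nonneg_left h1 (by positivity))
    rw [← Real.exp_sum, ← Real.exp_nat_mul, ← Real.exp_add, Finset.sum_sub_distrib,
      Real.one_le_exp_iff]
    have h2 := g.us (n - i) (Nat.sub_le _ _)
    have h3 := pair_bs f b x' (n - i) i
    rw [show i + (n - i) = n by omega] at h3
    rw [h3] at h2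
    simp only [Finset.sum_const, Nat.card_Ico, nsmul_eq_mul]
    linarith
  · have h1 := hgap i hi
    have h2 := h.bd _ (hc i)
    rw [← (hAB i hi).2.1] at h2
    rw [max_eq_right (by linarith)]
    exact h2

lemma Box.pair (h : Box f Λ a b κ C Δ δ η ρ χ L x₀) (g : Good f Λ a b κ δ ρ χ x₀ n x x')
    (hy : y ∈ tube f (Qb κ x₀ δ ρ) δ n x) (hy' : y' ∈ tube f (Qb κ x₀ δ ρ) δ n x) :
    |(κ x₀ y - κ x₀ y').2| ≤
        max |(κ x₀ y - κ x₀ y').1| |(κ x₀ (f^[n] y) - κ x₀ (f^[n] y')).2| / 100 ∧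
      |(κ x₀ (f^[n] y) - κ x₀ (f^[n] y')).1| ≤
        max |(κ x₀ y - κ x₀ y').1| |(κ x₀ (f^[n] y) - κ x₀ (f^[n] y')).2| / 100 ∧
      ∀ i ≤ n, ‖κ (cen f x₀ n x i) (f^[i] y) - κ (cen f x₀ n x i) (f^[i] y')‖ ≤
        2 * ρ * max (Real.exp (-(χ / 2)) ^ i) (Real.exp (-(χ / 2)) ^ (n - i)) := by
  obtain ⟨A, B, hS, -, hd⟩ := h.exists_seq g
  have h0 := h.dpos
  have hΔ := h.hΔ
  have hρ := h.hρ
  have e0 : cen f x₀ n x 0 = x₀ := by simp [cen]
  have en : cen f x₀ n x n = x₀ := by simp [cen]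
  have est := hS.est (d := fun i => κ (cen f x₀ n x i) (f^[i] y) - κ (cen f x₀ n x i) (f^[i] y'))
    (fun i hi => by
      simp only [Function.iterate_succ_apply']
      exact hd i hi _ (mem_ball.2 (by linarith [dist_cen hy hi.le])) _
        (mem_ball.2 (by linarith [dist_cen hy' hi.le])))
  simp only [e0, en, Function.iterate_zero, id_eq] at est
  refine ⟨est.1, est.2.1, fun i hi => (est.2.2 i hi).trans ?_⟩
  have b1 : |(κ x₀ y - κ x₀ y').1| ≤ 2 * ρ := by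
    have := norm_fst_le (κ x₀ y - κ x₀ y')
    rw [Real.norm_eq_abs] at this
    linarith [norm_sub_le (κ x₀ y) (κ x₀ y'), hy.1.2, hy'.1.2]
  have b2 : |(κ x₀ (f^[n] y) - κ x₀ (f^[n] y')).2| ≤ 2 * ρ := by
    have := norm_snd_le (κ x₀ (f^[n] y) - κ x₀ (f^[n] y'))
    rw [Real.norm_eq_abs] at this
    linarith [norm_sub_le (κ x₀ (f^[n] y)) (κ x₀ (f^[n] y')), hy.2.1.2, hy'.2.1.2]
  have q1 : 0 ≤ Real.exp (-(χ / 2)) ^ i := by positivity
  have q2 : 0 ≤ Real.exp (-(χ / 2)) ^ (n - i) := by positivity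
  refine max_le ?_ ?_
  · refine (mul_le_mul_of_nonneg_left b1 q1).trans ?_
    rw [mul_comm]
    exact mul_le_mul_of_nonneg_left (le_max_left _ _) (by linarith)
  · refine (mul_le_mul_of_nonneg_left b2 q2).trans ?_
    rw [mul_comm]
    exact mul_le_mul_of_nonneg_left (le_max_right _ _) (by linarith)

lemma Box.norm_le (h : Box f Λ a b κ C Δ δ η ρ χ L x₀) (g : Good f Λ a b κ δ ρ χ x₀ n x x')
    (hy : y ∈ tube f (Qb κ x₀ δ ρ) δ n x) {i : ℕ} (hi : i ≤ n) :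
    ‖κ (cen f x₀ n x i) (f^[i] y)‖ ≤ 2 * ρ := by
  have hρ := h.hρ
  by_cases hc : i = 0 ∨ i = n
  · have e : cen f x₀ n x i = x₀ := by simp [cen, hc]
    rw [e]
    rcases hc with rfl | rfl
    · rw [Function.iterate_zero_apply]
      linarith [hy.1.2]
    · linarith [hy.2.1.2]
  · have h1 := (h.pair g hy g.self).2.2 i hi
    have e : cen f x₀ n x i = f^[i] x := by simp only [cen, if_neg hc]
    have h2 : κ (cen f x₀ n x i) (f^[i] x) = 0 := by
      rw [e]; exact h.zero _ (h.iter_mem g.mem i)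
    rw [h2, sub_zero] at h1
    have h3 := pair_max_le h.hχ i (n - i)
    nlinarith

lemma Box.close (h : Box f Λ a b κ C Δ δ η ρ χ L x₀) (g : Good f Λ a b κ δ ρ χ x₀ n x x')
    (hy : y ∈ tube f (Qb κ x₀ δ ρ) δ n x) (hy' : y' ∈ tube f (Qb κ x₀ δ ρ) δ n x) {i : ℕ}
    (hi : i ≤ n) : dist (f^[i] y) (f^[i] y') ≤ δ / 16 := by
  have h0 := h.dpos
  have hΔ := h.hΔ
  have hρ := h.hρ
  have hC := h.hC
  have h1 := (h.pair g hy hy').2.2 i hi
  have h2 := h.lo _ (h.cen_mem (n := n) g.mem i) _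
    (mem_ball.2 (by linarith [dist_cen hy hi])) _ (mem_ball.2 (by linarith [dist_cen hy' hi]))
  have h3 := pair_max_le h.hχ i (n - i)
  have h4 : ‖κ (cen f x₀ n x i) (f^[i] y) - κ (cen f x₀ n x i) (f^[i] y')‖ ≤ 2 * ρ := by
    nlinarith
  have h5 := mul_le_mul_of_nonneg_left h4 (show 0 ≤ C by linarith)
  linarith [h.hδ]

/-- Inner visits to the small box. -/
lemma Box.visit (h : Box f Λ a b κ C Δ δ η ρ χ L x₀) (g : Good f Λ a b κ δ ρ χ x₀ n x x')
    (hy : y ∈ tube f (Qb κ x₀ δ ρ) δ n x) (hy' : y' ∈ tube f (Qb κ x₀ δ ρ) δ n x) {i : ℕ}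
    (h0 : 0 < i) (hi : i < n) (hv : f^[i] y ∈ Qb κ x₀ δ (ρ / 2)) : f^[i] y' ∈ Qb κ x₀ δ ρ := by
  have hd := h.dpos
  have hΔ := h.hΔ
  have hρ := h.hρ
  have hv' : f^[i] y ∈ Qb κ x₀ δ ρ := ⟨hv.1, by linarith [hv.2]⟩
  have r1 := h.ret y hy.1 i h0 hv'
  have r2 := h.ret _ hv' (n - i) (by omega) (by
    rw [← Function.iterate_add_apply, show n - i + i = n by omega]; exact hy.2.1)
  have h1 := (h.pair g hy hy').2.2 i hi.le
  have h2 := max_le r1 r2
  have c1 := dist_cen hy hi.le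
  have c2 := dist_cen hy' hi.le
  have h3 := h.comp _ (h.cen_mem (n := n) g.mem i) x₀ h.mem
    (by linarith [dist_triangle_left (cen f x₀ n x i) x₀ (f^[i] y), hv.1]) _
    (mem_ball.2 (show dist (f^[i] y) _ < Δ by linarith)) _
    (mem_ball.2 (show dist (f^[i] y') _ < Δ by linarith))
  have h4 : ‖κ (cen f x₀ n x i) (f^[i] y) - κ (cen f x₀ n x i) (f^[i] y')‖ ≤ ρ / 500 := by
    nlinarith
  have h5 := h.close g hy hy' hi.le
  have h6 := h.dist_Q hv'
  refine ⟨?_, ?_⟩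
  · linarith [dist_triangle_left (f^[i] y') x₀ (f^[i] y), h.hδ]
  · have h7 := norm_le_norm_add_norm_sub (κ x₀ (f^[i] y)) (κ x₀ (f^[i] y'))
    linarith [hv.2]

end Pool.Agent.P.MP_1672e2_an

/-! The boundary value problem in a tube, and the number of tubes. -/

set_option autoImplicit false

namespace Pool.Agent.P.MP_1672e2_an

open MeasureTheory Set Metric Filter Topology

variable {M : Type*} [MetricSpace M] {f : M ≃ₜ M} {Λ : Set M} {a b : M → ℝ} {κ : M → M → ℝ × ℝ}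
  {C Δ δ η ρ χ L : ℝ} {x₀ : M} {n : ℕ} {x x' : M}

omit [MetricSpace M] in
lemma bvp_cen_zero (g : M → M) : cen g x₀ n x 0 = x₀ := by simp [cen]

omit [MetricSpace M] in
lemma bvp_cen_last (g : M → M) : cen g x₀ n x n = x₀ := by simp [cen]

lemma Box.bvp_inj (h : Box f Λ a b κ C Δ δ η ρ χ L x₀) {c y y' : M} (hc : c ∈ Λ)
    (hy : y ∈ ball c Δ) (hy' : y' ∈ ball c Δ) (e : κ c y = κ c y') : y = y' := by
  have := h.lo c hc y hy y' hy'
  rw [e, sub_self, norm_zero, mul_zero] at this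
  exact dist_le_zero.1 this

lemma Box.bvp_next (h : Box f Λ a b κ C Δ δ η ρ χ L x₀) {y z : M}
    (hy : y ∈ tube f (Qb κ x₀ δ ρ) δ n x) {i : ℕ} (hi : i + 1 ≤ n)
    (hz : dist z (f^[i] y) < 2 * δ) : f z ∈ ball (cen f x₀ n x (i + 1)) Δ := by
  have h1 := h.uc _ _ hz
  have h2 := dist_cen hy hi
  rw [Function.iterate_succ_apply'] at h2
  have h3 := dist_triangle (f z) (f (f^[i] y)) (cen f x₀ n x (i + 1))
  have h4 := h.hΔ
  have h5 := h.dpos
  rw [mem_ball]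
  linarith

lemma Box.bvp_ball (h : Box f Λ a b κ C Δ δ η ρ χ L x₀) {y : M}
    (hy : y ∈ tube f (Qb κ x₀ δ ρ) δ n x) {i : ℕ} (hi : i ≤ n) :
    f^[i] y ∈ ball (cen f x₀ n x i) Δ := by
  have h2 := dist_cen hy hi
  have h4 := h.hΔ
  have h5 := h.dpos
  rw [mem_ball]
  linarith

lemma Box.bvp (h : Box f Λ a b κ C Δ δ η ρ χ L x₀) (g : Good f Λ a b κ δ ρ χ x₀ n x x') {s u : ℝ}
    (hs : |s| ≤ ρ) (hu : |u| ≤ ρ) : ∃ y ∈ tube f (Qb κ x₀ δ ρ) δ n x,
      (κ x₀ y).1 = s ∧ (κ x₀ (f^[n] y)).2 = u := by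
  obtain ⟨A, B, hS, -, hAB⟩ := h.exists_seq g
  set c : ℕ → M := cen f x₀ n x with hc
  have hcm : ∀ i, c i ∈ Λ := fun i => h.cen_mem g.mem i
  have hc0 : c 0 = x₀ := bvp_cen_zero _
  have hcn : c n = x₀ := bvp_cen_last _
  have hρ := h.hρ
  have hC := h.hC
  have hδ := h.hδ
  have hΔ := h.hΔ
  have hd := h.dpos
  have hCρ : 0 < C * ρ := by positivity
  have hon : ∀ (i : ℕ) (v : ℝ × ℝ), ∃ y : M,
      ‖v‖ ≤ 4 * ρ → dist y (c i) ≤ C * ‖v‖ ∧ κ (c i) y = v := by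
    intro i v
    by_cases hv : ‖v‖ ≤ 4 * ρ
    · obtain ⟨y, hy⟩ := h.onto (c i) (hcm i) v hv
      exact ⟨y, fun _ => hy⟩
    · exact ⟨x₀, fun h' => absurd h' hv⟩
  choose ι hι using hon
  have hιd : ∀ i v, ‖v‖ ≤ 4 * ρ → dist (ι i v) (c i) < δ := by
    intro i v hv
    have h1 := (hι i v hv).1
    have h2 : C * ‖v‖ ≤ C * (4 * ρ) := mul_le_mul_of_nonneg_left hv (by linarith)
    nlinarith
  have hιb : ∀ i v, ‖v‖ ≤ 4 * ρ → ι i v ∈ ball (c i) Δ := by
    intro i v hv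
    have := hιd i v hv
    rw [mem_ball]; linarith
  have hext : ∀ i : ℕ, ∃ G : ℝ × ℝ → ℝ × ℝ, i < n →
      (∀ v, ‖v‖ ≤ 4 * ρ → G v = κ (c (i + 1)) (f (ι i v))) ∧
        ∀ v w, ‖G v - G w - (A i * (v - w).1, B i * (v - w).2)‖ ≤ η * ‖v - w‖ := by
    intro i
    by_cases hi : i < n
    · obtain ⟨G, hG⟩ := exists_extend (a := A i) (b := B i) (r := 4 * ρ) h.hη (by linarith)
        (g := fun v => κ (c (i + 1)) (f (ι i v))) (by
          intro v w hv hw
          have := hAB i hi _ (hιb i v hv) _ (hιb i w hw)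
          rwa [(hι i v hv).2, (hι i w hw).2] at this)
      exact ⟨G, fun _ => hG⟩
    · exact ⟨id, fun h' => absurd h' hi⟩
  choose G hG using hext
  obtain ⟨V, hV0, hVn, hV⟩ := hS.bvp (G := G) (fun i hi => (hG i hi).2) s u
  have key : ∀ y ∈ tube f (Qb κ x₀ δ ρ) δ n x,
      |(V 0 - κ x₀ y).2| ≤ 2 * ρ / 100 ∧ |(V n - κ x₀ (f^[n] y)).1| ≤ 2 * ρ / 100 ∧
        ∀ i ≤ n, ‖V i - κ (c i) (f^[i] y)‖ ≤ 2 * ρ := by
    intro y hy
    have hr : ∀ i ≤ n, ‖κ (c i) (f^[i] y)‖ ≤ 4 * ρ := fun i hi => by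
      have := h.norm_le g hy hi
      rw [← hc] at this
      linarith
    have hstep : ∀ i < n, κ (c (i + 1)) (f^[i + 1] y) = G i (κ (c i) (f^[i] y)) := by
      intro i hi
      have e : ι i (κ (c i) (f^[i] y)) = f^[i] y :=
        h.bvp_inj (hcm i) (hιb i _ (hr i hi.le)) (h.bvp_ball hy hi.le) (hι i _ (hr i hi.le)).2
      rw [(hG i hi).1 _ (hr i hi.le), e, Function.iterate_succ_apply']
    have hest := hS.est (d := fun i => V i - κ (c i) (f^[i] y)) (by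
      intro i hi
      rw [hV i hi, hstep i hi]
      exact (hG i hi).2 _ _)
    simp only [hc0, hcn, Function.iterate_zero, id] at hest
    have b0 : |(V 0 - κ x₀ y).1| ≤ 2 * ρ := by
      have h1 : |(κ x₀ y).1| ≤ ρ := (norm_fst_le (κ x₀ y)).trans hy.1.2
      rw [Prod.fst_sub, hV0]
      have := abs_sub s (κ x₀ y).1
      linarith
    have bn : |(V n - κ x₀ (f^[n] y)).2| ≤ 2 * ρ := by
      have h1 : |(κ x₀ (f^[n] y)).2| ≤ ρ := (norm_snd_le (κ x₀ (f^[n] y))).trans hy.2.1.2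
      rw [Prod.snd_sub, hVn]
      have := abs_sub u (κ x₀ (f^[n] y)).2
      linarith
    have bm := max_le b0 bn
    refine ⟨by linarith [hest.1], by linarith [hest.2.1], fun i hi => (hest.2.2 i hi).trans ?_⟩
    have q1 : ∀ k : ℕ, Real.exp (-(χ / 2)) ^ k ≤ 1 := fun k => pow_le_one₀ hS.hq.le hS.hq1
    refine max_le ?_ ?_
    · exact (mul_le_of_le_one_left (abs_nonneg _) (q1 _)).trans b0
    · exact (mul_le_of_le_one_left (abs_nonneg _) (q1 _)).trans bn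
  obtain ⟨k1, -, k3⟩ := key x g.self
  obtain ⟨-, k2, -⟩ := key x' g.self'
  have hVb : ∀ i ≤ n, ‖V i‖ ≤ 4 * ρ := by
    intro i hi
    have h1 := h.norm_le g g.self hi
    rw [← hc] at h1
    have h2 := k3 i hi
    have h3 := norm_add_le (V i - κ (c i) (f^[i] x)) (κ (c i) (f^[i] x))
    rw [sub_add_cancel] at h3
    linarith
  have hclose : ∀ i ≤ n, dist (ι i (V i)) (f^[i] x) < δ := by
    intro i hi
    have h1 := h.lo (c i) (hcm i) _ (hιb i _ (hVb i hi)) _ (h.bvp_ball g.self hi)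
    rw [(hι i _ (hVb i hi)).2] at h1
    have h2 : C * ‖V i - κ (c i) (f^[i] x)‖ ≤ C * (2 * ρ) :=
      mul_le_mul_of_nonneg_left (k3 i hi) (by linarith)
    nlinarith
  have horb : ∀ i ≤ n, f^[i] (ι 0 (V 0)) = ι i (V i) := by
    intro i
    induction i with
    | zero => intro _; rfl
    | succ i ih =>
      intro hi
      have hi' : i < n := hi
      rw [Function.iterate_succ_apply', ih hi'.le]
      refine h.bvp_inj (hcm (i + 1)) (h.bvp_next g.self hi (by linarith [hclose i hi'.le]))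
        (hιb _ _ (hVb _ hi)) ?_
      rw [(hι _ _ (hVb _ hi)).2, hV i hi', (hG i hi').1 _ (hVb i hi'.le)]
  have e0 : κ x₀ (ι 0 (V 0)) = V 0 := by
    have := (hι 0 _ (hVb 0 (Nat.zero_le n))).2
    rwa [hc0] at this
  have en : κ x₀ (f^[n] (ι 0 (V 0))) = V n := by
    have := (hι n _ (hVb n le_rfl)).2
    rwa [hcn, ← horb n le_rfl] at this
  refine ⟨ι 0 (V 0), ⟨⟨?_, ?_⟩, ⟨?_, ?_⟩, fun i hi => ?_⟩, by rw [e0, hV0], by rw [en, hVn]⟩
  · have := hιd 0 _ (hVb 0 (Nat.zero_le n))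
    rwa [hc0] at this
  · rw [e0, Prod.norm_def, Real.norm_eq_abs, Real.norm_eq_abs, hV0]
    refine max_le hs ?_
    have h1 := g.ux
    have h2 := abs_add_le (V 0 - κ x₀ x).2 (κ x₀ x).2
    rw [Prod.snd_sub, sub_add_cancel] at h2
    rw [Prod.snd_sub] at k1
    linarith
  · have := hιd n _ (hVb n le_rfl)
    rwa [hcn, ← horb n le_rfl] at this
  · rw [en, Prod.norm_def, Real.norm_eq_abs, Real.norm_eq_abs, hVn]
    refine max_le ?_ hu
    have h1 := g.sx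
    have h2 := abs_add_le (V n - κ x₀ (f^[n] x')).1 (κ x₀ (f^[n] x')).1
    rw [Prod.fst_sub, sub_add_cancel] at h2
    rw [Prod.fst_sub] at k2
    linarith
  · rw [horb i hi]
    exact hclose i hi

/-- A point of the box very close to a point of the tube stays close. -/
lemma Box.mem_tube (h : Box f Λ a b κ C Δ δ η ρ χ L x₀) (g : Good f Λ a b κ δ ρ χ x₀ n x x')
    {y y' : M} (hy : y ∈ tube f (Qb κ x₀ δ ρ) δ n x) (h0 : y' ∈ Qb κ x₀ δ ρ)
    (h1 : f^[n] y' ∈ Qb κ x₀ δ ρ) (h2 : ‖κ x₀ y - κ x₀ y'‖ ≤ ρ / L ^ n) :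
    y' ∈ tube f (Qb κ x₀ δ ρ) δ n x := by
  obtain ⟨A, B, hS, hL, hAB⟩ := h.exists_seq g
  set c : ℕ → M := cen f x₀ n x with hc
  have hcm : ∀ i, c i ∈ Λ := fun i => h.cen_mem g.mem i
  have hc0 : c 0 = x₀ := bvp_cen_zero _
  have hρ := h.hρ
  have hC := h.hC
  have hδ := h.hδ
  have hΔ := h.hΔ
  have hd := h.dpos
  have hL1 := h.hL
  have hCρ : 0 < C * ρ := by positivity
  have hLn : 0 < L ^ n := by positivity
  have hb : ∀ i ≤ n, L ^ i * (ρ / L ^ n) ≤ ρ := by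
    intro i hi
    have h3 : L ^ i ≤ L ^ n := pow_le_pow_right₀ hL1 hi
    calc L ^ i * (ρ / L ^ n) ≤ L ^ n * (ρ / L ^ n) :=
          mul_le_mul_of_nonneg_right h3 (by positivity)
      _ = ρ := by field_simp
  have hdist : ∀ i ≤ n, f^[i] y' ∈ ball (c i) Δ →
      ‖κ (c i) (f^[i] y) - κ (c i) (f^[i] y')‖ ≤ L ^ i * (ρ / L ^ n) →
      dist (f^[i] y') (f^[i] y) ≤ δ / 32 := by
    intro i hi hb1 hb2
    have h3 := h.lo (c i) (hcm i) _ (h.bvp_ball hy hi) _ hb1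
    have h4 : C * ‖κ (c i) (f^[i] y) - κ (c i) (f^[i] y')‖ ≤ C * ρ :=
      mul_le_mul_of_nonneg_left (hb2.trans (hb i hi)) (by linarith)
    rw [dist_comm]
    nlinarith
  have main : ∀ i ≤ n, f^[i] y' ∈ ball (c i) Δ ∧
      ‖κ (c i) (f^[i] y) - κ (c i) (f^[i] y')‖ ≤ L ^ i * (ρ / L ^ n) := by
    intro i
    induction i with
    | zero =>
      intro _
      have h3 : dist y' x₀ < δ := h0.1
      refine ⟨?_, ?_⟩
      · rw [hc0, mem_ball, Function.iterate_zero, id]; linarith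
      · simpa [hc0] using h2
    | succ i ih =>
      intro hi
      have hi' : i < n := hi
      obtain ⟨i1, i2⟩ := ih hi'.le
      have h3 := hdist i hi'.le i1 i2
      refine ⟨?_, ?_⟩
      · rw [Function.iterate_succ_apply']
        exact h.bvp_next hy hi (by linarith)
      · have h4 := hAB i hi' _ (h.bvp_ball hy hi'.le) _ i1
        rw [Function.iterate_succ_apply', Function.iterate_succ_apply']
        set D := κ (c i) (f^[i] y) - κ (c i) (f^[i] y') with hD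
        have h5 : ‖((A i * D.1, B i * D.2) : ℝ × ℝ)‖ ≤ max |A i| |B i| * ‖D‖ := by
          rw [Prod.norm_def, Real.norm_eq_abs, Real.norm_eq_abs, abs_mul, abs_mul]
          refine max_le ?_ ?_
          · exact mul_le_mul (le_max_left _ _) (norm_fst_le D) (abs_nonneg _)
              ((abs_nonneg _).trans (le_max_left _ _))
          · exact mul_le_mul (le_max_right _ _) (norm_snd_le D) (abs_nonneg _)
              ((abs_nonneg _).trans (le_max_left _ _))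
        have h6 := norm_add_le
          (κ (c (i + 1)) (f (f^[i] y)) - κ (c (i + 1)) (f (f^[i] y')) - (A i * D.1, B i * D.2))
          ((A i * D.1, B i * D.2) : ℝ × ℝ)
        rw [sub_add_cancel] at h6
        have h7 : (max |A i| |B i| + η) * ‖D‖ ≤ L * ‖D‖ :=
          mul_le_mul_of_nonneg_right (hL i hi') (norm_nonneg _)
        have h8 : L * ‖D‖ ≤ L * (L ^ i * (ρ / L ^ n)) :=
          mul_le_mul_of_nonneg_left i2 (by linarith)
        rw [pow_succ', mul_assoc]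
        linarith
  refine ⟨h0, h1, fun i hi => ?_⟩
  have h3 := hdist i hi (main i hi).1 (main i hi).2
  have h4 := h.close g hy g.self hi
  have h5 := dist_triangle (f^[i] y') (f^[i] y) (f^[i] x)
  linarith

end Pool.Agent.P.MP_1672e2_an

/-! Good branches form a system of tubes. -/

set_option autoImplicit false

namespace Pool.Agent.P.MP_1672e2_an

open MeasureTheory Set Metric Filter Topology

variable {M : Type*} [MetricSpace M] {f : M ≃ₜ M} {Λ : Set M} {a b : M → ℝ} {κ : M → M → ℝ × ℝ}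
  {C Δ δ η ρ χ L : ℝ} {x₀ : M}

lemma TubeF_fst {v w : ℝ × ℝ} {r : ℝ} (hv : ‖v‖ ≤ r) (hw : ‖w‖ ≤ r) : |(v - w).1| ≤ 2 * r := by
  have h1 : ‖(v - w).1‖ ≤ ‖v - w‖ := norm_fst_le _
  have h2 := norm_sub_le v w
  rw [Real.norm_eq_abs] at h1
  linarith

lemma TubeF_snd {v w : ℝ × ℝ} {r : ℝ} (hv : ‖v‖ ≤ r) (hw : ‖w‖ ≤ r) : |(v - w).2| ≤ 2 * r := by
  have h1 : ‖(v - w).2‖ ≤ ‖v - w‖ := norm_snd_le _
  have h2 := norm_sub_le v w
  rw [Real.norm_eq_abs] at h1
  linarith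

lemma Box.TubeF_ball (h : Box f Λ a b κ C Δ δ η ρ χ L x₀) {y : M} (hy : dist y x₀ < δ) :
    y ∈ ball x₀ Δ := by
  have := h.dpos
  have := h.hΔ
  rw [mem_ball]
  linarith

lemma Box.TubeF_sub (h : Box f Λ a b κ C Δ δ η ρ χ L x₀) {n : ℕ} {x x' u u' y : M}
    (g : Good f Λ a b κ δ ρ χ x₀ n x x') (g' : Good f Λ a b κ δ ρ χ x₀ n u u')
    (hy : y ∈ tube f (Qb κ x₀ δ ρ) δ n x) (hy' : y ∈ tube f (Qb κ x₀ δ ρ) δ n u) :
    tube f (Qb κ x₀ δ ρ) δ n x ⊆ tube f (Qb κ x₀ δ ρ) δ n u := by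
  intro z hz
  refine ⟨hz.1, hz.2.1, fun i hi => ?_⟩
  have h1 := h.close g hz hy hi
  have h2 := h.close g' hy' g'.self hi
  have h3 := dist_triangle (f^[i] z) (f^[i] y) (f^[i] u)
  have := h.dpos
  linarith

lemma Box.TubeF_uniq (h : Box f Λ a b κ C Δ δ η ρ χ L x₀) (n : ℕ) (T T' : Set M) (y : M)
    (hT : IsTube f Λ a b κ δ ρ χ x₀ n T) (hT' : IsTube f Λ a b κ δ ρ χ x₀ n T') (hy : y ∈ T)
    (hy' : y ∈ T') : T = T' := by
  obtain ⟨x, x', g, rfl⟩ := hT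
  obtain ⟨u, u', g', rfl⟩ := hT'
  exact Subset.antisymm (h.TubeF_sub g g' hy hy') (h.TubeF_sub g' g hy' hy)

lemma Box.TubeF_inner (h : Box f Λ a b κ C Δ δ η ρ χ L x₀) (n : ℕ) (T : Set M) (n' : ℕ)
    (T' : Set M) (z : M) (hT : IsTube f Λ a b κ δ ρ χ x₀ n T)
    (hT' : IsTube f Λ a b κ δ ρ χ x₀ n' T') (hz : z ∈ T) (hz' : f^[n] z ∈ T') :
    f^[n] z ∈ Qb κ x₀ δ (ρ / 2) := by
  obtain ⟨x, x', g, rfl⟩ := hT
  obtain ⟨u, u', g', rfl⟩ := hT'
  have hρ := h.hρ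
  refine ⟨hz.2.1.1, ?_⟩
  have p1 := (h.pair g hz g.self').2.1
  have p2 := (h.pair g' hz' g'.self).1
  have a1 := TubeF_fst hz.1.2 g.self'.1.2
  have a2 := TubeF_snd hz.2.1.2 g.self'.2.1.2
  have a3 := TubeF_fst hz'.1.2 g'.self.1.2
  have a4 := TubeF_snd hz'.2.1.2 g'.self.2.1.2
  have b1 := max_le a1 a2
  have b2 := max_le a3 a4
  have c1 := g.sx
  have c2 := g'.ux
  have d1 : |(κ x₀ (f^[n] z) - κ x₀ (f^[n] x')).1| ≤ 2 * ρ / 100 := by linarith
  have d2 : |(κ x₀ (f^[n] z) - κ x₀ u).2| ≤ 2 * ρ / 100 := by linarith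
  rw [Prod.fst_sub] at d1
  rw [Prod.snd_sub] at d2
  rw [Prod.norm_def, Real.norm_eq_abs, Real.norm_eq_abs]
  rw [abs_le] at d1 d2 c1 c2
  refine max_le (abs_le.2 ⟨?_, ?_⟩) (abs_le.2 ⟨?_, ?_⟩) <;> linarith [d1.1, d1.2, d2.1, d2.2, c1.1,
    c1.2, c2.1, c2.2]

lemma Box.TubeF_reparse (h : Box f Λ a b κ C Δ δ η ρ χ L x₀) (n : ℕ) (T : Set M) (n' : ℕ)
    (T' : Set M) (w : M) (k m : ℕ) (hT : IsTube f Λ a b κ δ ρ χ x₀ n T)
    (hT' : IsTube f Λ a b κ δ ρ χ x₀ n' T') (hw : w ∈ T') (hk : f^[k] w ∈ T) (hkm : k + m = n')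
    (hm : 0 < m) (hmn : m ≤ n) (h1 : k = 0 ∨ f^[k] w ∈ Qb κ x₀ δ (ρ / 2))
    (h2 : m = n ∨ f^[n'] w ∈ Qb κ x₀ δ (ρ / 2)) :
    ∃ T'', IsTube f Λ a b κ δ ρ χ x₀ m T'' ∧ f^[k] w ∈ T'' := by
  obtain ⟨x, x', g, rfl⟩ := hT
  obtain ⟨u, u', g', rfl⟩ := hT'
  have hδ := h.dpos
  have e : ∀ (i : ℕ) (v : M), f^[i] (f^[k] v) = f^[i + k] v := fun i v =>
    (Function.iterate_add_apply _ i k v).symm
  have em : ∀ v : M, f^[m] (f^[k] v) = f^[n'] v := fun v => by
    rw [e, add_comm, hkm]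
  have q1 : f^[m] x ∈ Qb κ x₀ δ ρ := by
    rcases eq_or_lt_of_le hmn with hh | hh
    · rw [hh]; exact g.self.2.1
    · rcases h2 with h2 | h2
      · omega
      · exact h.visit g hk g.self hm hh (by rw [em]; exact h2)
  have q2 : f^[k] u' ∈ Qb κ x₀ δ ρ := by
    rcases Nat.eq_zero_or_pos k with hh | hh
    · rw [hh]; exact g'.self'.1
    · rcases h1 with h1 | h1
      · omega
      · exact h.visit g' hw g'.self' hh (by omega) h1
  refine ⟨tube f (Qb κ x₀ δ ρ) δ m x, ⟨x, f^[k] u', ⟨hm, g.mem, h.iter_mem g'.mem' k,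
    ⟨g.self.1, q1, fun i _ => by simpa using hδ⟩, ⟨q2, by rw [em]; exact g'.self'.2.1, ?_⟩,
    fun j hj => g.ss j (hj.trans hmn), fun j hj => ?_, g.ux, ?_⟩, rfl⟩,
    ⟨hk.1, by rw [em]; exact hw.2.1, fun i hi => hk.2.2 i (hi.trans hmn)⟩⟩
  · intro i hi
    have c1 := h.close g' g'.self' hw (i := i + k) (by omega)
    have c2 := h.close g hk g.self (hi.trans hmn)
    rw [← e, ← e] at c1
    have c3 := dist_triangle (f^[i] (f^[k] u')) (f^[i] (f^[k] w)) (f^[i] x)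
    linarith
  · rw [em]; exact g'.us j (by omega)
  · rw [em]; exact g'.sx

lemma Box.TubeF_transfer (h : Box f Λ a b κ C Δ δ η ρ χ L x₀) (n : ℕ) (T : Set M) (k : ℕ)
    (T' : Set M) (z z' : M) (i : ℕ) (hT : IsTube f Λ a b κ δ ρ χ x₀ n T)
    (hT' : IsTube f Λ a b κ δ ρ χ x₀ k T') (hz : z ∈ T) (hz' : z' ∈ T) (hik : i + k ≤ n)
    (hi : f^[i] z' ∈ T') (h1 : i = 0 ∨ f^[i] z' ∈ Qb κ x₀ δ (ρ / 2))
    (h2 : i + k = n ∨ f^[i + k] z' ∈ Qb κ x₀ δ (ρ / 2)) : f^[i] z ∈ T' := by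
  obtain ⟨x, x', g, rfl⟩ := hT
  obtain ⟨u, u', g', rfl⟩ := hT'
  have hδ := h.dpos
  have hk := g'.pos
  have e : ∀ (j : ℕ) (v : M), f^[j] (f^[i] v) = f^[j + i] v := fun j v =>
    (Function.iterate_add_apply _ j i v).symm
  refine ⟨?_, ?_, fun j hj => ?_⟩
  · rcases Nat.eq_zero_or_pos i with hh | hh
    · rw [hh]; exact hz.1
    · rcases h1 with h1 | h1
      · omega
      · exact h.visit g hz' hz hh (by omega) h1
  · rw [e, add_comm]
    rcases eq_or_lt_of_le hik with hh | hh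
    · rw [hh]; exact hz.2.1
    · rcases h2 with h2 | h2
      · omega
      · exact h.visit g hz' hz (by omega) hh h2
  · have c1 := h.close g hz hz' (i := j + i) (by omega)
    have c2 := h.close g' hi g'.self hj
    rw [← e, ← e] at c1
    have c3 := dist_triangle (f^[j] (f^[i] z)) (f^[j] (f^[i] z')) (f^[j] u)
    linarith

lemma Box.TubeF_count (h : Box f Λ a b κ C Δ δ η ρ χ L x₀) (n : ℕ) (S : Finset (Set M))
    (hS : ∀ T ∈ S, IsTube f Λ a b κ δ ρ χ x₀ n T) : (S.card : ℝ) ≤ (3 * L) ^ n := by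
  classical
  have hρ := h.hρ
  have hL := h.hL
  rcases S.eq_empty_or_nonempty with rfl | ⟨T₀, hT₀⟩
  · simp only [Finset.card_empty, Nat.cast_zero]
    positivity
  have hn : 0 < n := by
    obtain ⟨x, x', g, _⟩ := hS T₀ hT₀
    exact g.pos
  have hex : ∀ T, T ∈ S → ∃ y ∈ T, (κ x₀ y).1 = 0 := by
    intro T hT
    obtain ⟨x, x', g, rfl⟩ := hS T hT
    obtain ⟨y, hy, h1, _⟩ := h.bvp g (s := 0) (u := 0) (by simpa using hρ.le) (by simpa using hρ.le)
    exact ⟨y, hy, h1⟩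
  have : Nonempty M := ⟨x₀⟩
  choose! Y hY hY0 using hex
  have hLn : 0 < L ^ n := by positivity
  have hsep : ∀ T ∈ S, ∀ T' ∈ S, T ≠ T' →
      ρ / L ^ n < |(κ x₀ (Y T)).2 - (κ x₀ (Y T')).2| := by
    intro T hT T' hT' hne
    by_contra hc
    rw [not_lt] at hc
    apply hne
    have m1 := hY T hT
    have m2 := hY T' hT'
    refine h.TubeF_uniq n T T' (Y T') (hS T hT) (hS T' hT') ?_ m2
    obtain ⟨x, x', g, e1⟩ := hS T hT
    obtain ⟨u, u', g', e2⟩ := hS T' hT'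
    have m2' : Y T' ∈ tube f (Qb κ x₀ δ ρ) δ n u := e2 ▸ m2
    have m1' : Y T ∈ tube f (Qb κ x₀ δ ρ) δ n x := e1 ▸ m1
    have key : Y T' ∈ tube f (Qb κ x₀ δ ρ) δ n x := by
      refine h.mem_tube g m1' m2'.1 m2'.2.1 ?_
      rw [Prod.norm_def, Prod.fst_sub, Prod.snd_sub, hY0 T hT, hY0 T' hT', Real.norm_eq_abs,
        Real.norm_eq_abs]
      refine max_le ?_ hc
      simp only [sub_self, abs_zero]
      positivity
    rw [e1]
    exact key
  have hinj : Set.InjOn (fun T => (κ x₀ (Y T)).2) S := by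
    intro T hT T' hT' he
    by_contra hne
    have := hsep T hT T' hT' hne
    simp only at he
    rw [he, sub_self, abs_zero] at this
    exact absurd this (not_lt.2 (by positivity))
  have hcard := card_le_of_sep hρ.le (div_pos hρ hLn) (S.image fun T => (κ x₀ (Y T)).2) ?_ ?_
  · rw [Finset.card_image_of_injOn hinj] at hcard
    have e : 2 * ρ / (ρ / L ^ n) = 2 * L ^ n := by field_simp
    rw [e] at hcard
    have h1 : 1 ≤ L ^ n := one_le_pow₀ hL
    have h3 : (3 : ℝ) ≤ 3 ^ n := by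
      simpa using pow_le_pow_right₀ (by norm_num : (1 : ℝ) ≤ 3) hn
    rw [mul_pow]
    nlinarith
  · intro s hs
    obtain ⟨T, hT, rfl⟩ := Finset.mem_image.1 hs
    obtain ⟨x, x', g, e1⟩ := hS T hT
    have m1 : Y T ∈ tube f (Qb κ x₀ δ ρ) δ n x := e1 ▸ hY T hT
    have := norm_snd_le (κ x₀ (Y T))
    rw [Real.norm_eq_abs] at this
    exact this.trans m1.1.2
  · intro s hs t ht hne
    obtain ⟨T, hT, rfl⟩ := Finset.mem_image.1 hs
    obtain ⟨T', hT', rfl⟩ := Finset.mem_image.1 ht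
    exact hsep T hT T' hT' fun e => hne (by rw [e])

theorem Box.tubes (h : Box f Λ a b κ C Δ δ η ρ χ L x₀) :
    Tubes f (Qb κ x₀ δ ρ) (Qb κ x₀ δ (ρ / 2)) (κ x₀) ρ C (3 * L) (IsTube f Λ a b κ δ ρ χ x₀) := by
  refine ⟨h.hρ, by linarith [h.hL], fun y hy => hy.2,
    fun y hy y' hy' => h.lo x₀ h.mem y (h.TubeF_ball hy.1) y' (h.TubeF_ball hy'.1), ?_, ?_,
    h.TubeF_uniq, h.TubeF_inner, h.TubeF_reparse, h.TubeF_transfer, h.TubeF_count⟩
  · rintro n T ⟨x, x', g, _⟩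
    exact g.pos
  · rintro n T ⟨x, x', g, rfl⟩
    exact ⟨fun y hy => ⟨hy.1, hy.2.1⟩, fun s u hs hu => h.bvp g hs hu,
      fun y hy y' hy' => (h.pair g hy hy').1, fun y hy y' hy' => (h.pair g hy hy').2.1⟩

lemma Box.TubeF_small (h : Box f Λ a b κ C Δ δ η ρ χ L x₀) {z : M}
    (hz : z ∈ ball x₀ (ρ / (3 * C))) : dist z x₀ < δ ∧ ‖κ x₀ z‖ ≤ ρ / 3 := by
  have hρ := h.hρ
  have hC := h.hC
  have hδ := h.hδ
  rw [mem_ball] at hz
  have h1 : ρ / (3 * C) ≤ ρ := by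
    rw [div_le_iff₀ (by positivity)]
    nlinarith
  have h2 : dist z x₀ < δ := by nlinarith
  refine ⟨h2, ?_⟩
  have h3 := h.up x₀ h.mem z (h.TubeF_ball h2) x₀ (h.TubeF_ball (by simpa using h.dpos))
  rw [h.zero x₀ h.mem, sub_zero] at h3
  have h4 : C * dist z x₀ ≤ C * (ρ / (3 * C)) := mul_le_mul_of_nonneg_left hz.le (by linarith)
  have h5 : C * (ρ / (3 * C)) = ρ / 3 := by field_simp
  linarith

lemma Box.tube_of_K (h : Box f Λ a b κ C Δ δ η ρ χ L x₀) {z : M} {n : ℕ} (hn : 0 < n)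
    (h0 : z ∈ Kset f Λ a b χ ∩ ball x₀ (ρ / (3 * C)))
    (h1 : f^[n] z ∈ Kset f Λ a b χ ∩ ball x₀ (ρ / (3 * C))) :
    ∃ T, IsTube f Λ a b κ δ ρ χ x₀ n T ∧ z ∈ T := by
  have hρ := h.hρ
  obtain ⟨a1, a2⟩ := h.TubeF_small h0.2
  obtain ⟨b1, b2⟩ := h.TubeF_small h1.2
  have hz : z ∈ tube f (Qb κ x₀ δ ρ) δ n z :=
    ⟨⟨a1, by linarith⟩, ⟨b1, by linarith⟩, fun i _ => by simpa using h.dpos⟩
  refine ⟨_, ⟨z, z, ⟨hn, h0.1.1, h0.1.1, hz, hz, fun j _ => h0.1.2.1 j, fun j _ => h1.1.2.2 j,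
    ?_, ?_⟩, rfl⟩, hz⟩
  · have := norm_snd_le (κ x₀ z)
    rw [Real.norm_eq_abs] at this
    linarith
  · have := norm_fst_le (κ x₀ (f^[n] z))
    rw [Real.norm_eq_abs] at this
    linarith

end Pool.Agent.P.MP_1672e2_an
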