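import Pool.Agent.P.MP_1672e2_an.Ergodic

/-! Kraft inequality and counting of lists. -/

set_option autoImplicit false

namespace Pool.Agent.P.MP_1672e2_an

open MeasureTheory Set Metric Filter Topology

variable {l : ℕ → ℕ}

lemma Wt_nonneg {ω : List ℕ → ℕ → ℝ} (h0 : ∀ u γ, 0 ≤ ω u γ) (u v : List ℕ) : 0 ≤ Wt ω u v := by
  induction v generalizing u with
  | nil => simp [Wt]
  | cons γ v ih => exact mul_nonneg (h0 _ _) (ih _)

lemma Wt_append (ω : List ℕ → ℕ → ℝ) (u v w : List ℕ) :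
    Wt ω u (v ++ w) = Wt ω u v * Wt ω (u ++ v) w := by
  induction v generalizing u with
  | nil => simp [Wt]
  | cons γ v ih => simp [Wt, ih, mul_assoc]

lemma kraft_aux {ω : List ℕ → ℕ → ℝ} (h0 : ∀ u γ, 0 ≤ ω u γ)
    (h1 : ∀ u (F : Finset ℕ), (∀ γ ∈ F, 0 < l γ) → ∑ γ ∈ F, ω u γ ≤ 1) (N : ℕ) :
    ∀ (u : List ℕ) (S : Finset (List ℕ)), (∀ v ∈ S, v.length < N) → (∀ v ∈ S, Pos l v) →
      (∀ v ∈ S, ∀ w ∈ S, v <+: w → v = w) → ∑ v ∈ S, Wt ω u v ≤ 1 := by
  classical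
  induction N with
  | zero =>
    intro u S hN _ _
    rw [Finset.sum_eq_zero fun v hv => absurd (hN v hv) (Nat.not_lt_zero _)]
    exact zero_le_one
  | succ N ih =>
    intro u S hN hS hp
    by_cases h : [] ∈ S
    · have : S = {[]} := Finset.eq_singleton_iff_unique_mem.2
        ⟨h, fun w hw => (hp _ h w hw List.nil_prefix).symm⟩
      simp [this, Wt]
    have hc : ∀ v ∈ S, v = v.headI :: v.tail := fun v hv => by
      cases v with
      | nil => exact absurd hv h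
      | cons γ t => rfl
    rw [← Finset.sum_fiberwise_of_maps_to (g := List.headI) (t := S.image List.headI)
      fun v hv => Finset.mem_image_of_mem _ hv]
    refine le_trans (Finset.sum_le_sum fun γ _ => ?_) (h1 u (S.image List.headI) fun γ hγ => ?_)
    · have hm : ∀ t ∈ (S.filter fun v => v.headI = γ).image List.tail, γ :: t ∈ S := by
        intro t ht
        obtain ⟨v, hv, rfl⟩ := Finset.mem_image.1 ht
        obtain ⟨hv', e⟩ := Finset.mem_filter.1 hv
        rwa [← e, ← hc v hv']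
      have key := ih (u ++ [γ]) ((S.filter fun v => v.headI = γ).image List.tail)
        (fun t ht => by simpa using hN _ (hm t ht)) (fun t ht => (pos_cons.1 (hS _ (hm t ht))).2)
        fun t ht t' ht' e => by
          simpa using hp _ (hm t ht) _ (hm t' ht') ((List.prefix_cons_inj γ).2 e)
      rw [Finset.sum_image fun v hv w hw e => by
        obtain ⟨hv, e1⟩ := Finset.mem_filter.1 (Finset.mem_coe.1 hv)
        obtain ⟨hw, e2⟩ := Finset.mem_filter.1 (Finset.mem_coe.1 hw)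
        rw [hc v hv, hc w hw, e, e1, e2]] at key
      calc ∑ v ∈ S with v.headI = γ, Wt ω u v
          = ω u γ * ∑ v ∈ S with v.headI = γ, Wt ω (u ++ [γ]) v.tail := by
            rw [Finset.mul_sum]
            refine Finset.sum_congr rfl fun v hv => ?_
            obtain ⟨hv, e⟩ := Finset.mem_filter.1 hv
            conv_lhs => rw [hc v hv, e, Wt]
        _ ≤ ω u γ * 1 := mul_le_mul_of_nonneg_left key (h0 _ _)
        _ = ω u γ := mul_one _
    · obtain ⟨v, hv, rfl⟩ := Finset.mem_image.1 hγ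
      have := hS v hv
      rw [hc v hv] at this
      exact (pos_cons.1 this).1

/-- Kraft inequality for lists none of which is an initial segment of another. -/
lemma kraft {ω : List ℕ → ℕ → ℝ} (h0 : ∀ u γ, 0 ≤ ω u γ)
    (h1 : ∀ u (F : Finset ℕ), (∀ γ ∈ F, 0 < l γ) → ∑ γ ∈ F, ω u γ ≤ 1) (u : List ℕ)
    (S : Finset (List ℕ)) (hS : ∀ v ∈ S, Pos l v) (hp : ∀ v ∈ S, ∀ w ∈ S, v <+: w → v = w) :
    ∑ v ∈ S, Wt ω u v ≤ 1 :=
  kraft_aux h0 h1 (S.sup List.length + 1) u S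
    (fun _ hv => Nat.lt_succ_of_le (Finset.le_sup hv)) hS hp

lemma Phi_mono {F F' : Finset ℕ} (h : F ⊆ F') {z : ℝ} (hz : 0 < z) : Phi l F z ≤ Phi l F' z :=
  Finset.sum_le_sum_of_subset_of_nonneg (Finset.filter_subset_filter _ h)
    fun _ _ _ => by positivity

lemma card_le_of_Phi {z : ℝ} (hz : 0 < z) {A : Set ℕ}
    (h : ∀ F : Finset ℕ, (∀ γ ∈ F, γ ∈ A) → Phi l F z ≤ 1) (g : ℕ) (S : Finset (List ℕ))
    (hS : ∀ v ∈ S, Pos l v ∧ len l v = g ∧ ∀ γ ∈ v, γ ∈ A) : (S.card : ℝ) ≤ z ^ g := by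
  classical
  set ω : List ℕ → ℕ → ℝ := fun _ γ => if γ ∈ A then (z ^ l γ)⁻¹ else 0 with hω
  have hw : ∀ v u, (∀ γ ∈ v, γ ∈ A) → Wt ω u v = (z ^ len l v)⁻¹ := by
    intro v
    induction v with
    | nil => intro u _; simp [Wt]
    | cons γ v ih =>
      intro u hv
      rw [Wt, ih _ fun δ hδ => hv δ (List.mem_cons_of_mem _ hδ), len_cons, pow_add, mul_inv]
      simp only [hω, if_pos (hv γ List.mem_cons_self)]
  have key := kraft (l := l) (ω := ω) (fun u γ => by simp only [hω]; split_ifs <;> positivity)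
    (fun u F hF => by
      refine le_trans (le_of_eq ?_) (h (F.filter (· ∈ A)) fun γ hγ => (Finset.mem_filter.1 hγ).2)
      rw [Phi, Finset.filter_true_of_mem fun γ hγ => hF γ (Finset.mem_filter.1 hγ).1,
        Finset.sum_filter])
    [] S (fun v hv => (hS v hv).1) fun v hv w hw e => by
      obtain ⟨r, rfl⟩ := e
      by_contra hne
      have h2 := (pos_append.1 (hS _ hw).1).2.len_pos fun e => hne (by simp [e])
      have h3 := (hS _ hw).2.1
      rw [len_append, (hS v hv).2.1] at h3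
      omega
  rw [Finset.sum_congr rfl fun v hv => by rw [hw v [] (hS v hv).2.2, (hS v hv).2.1],
    Finset.sum_const, nsmul_eq_mul, ← div_eq_mul_inv, div_le_one (by positivity)] at key
  exact key

lemma exists_lists (l : ℕ → ℕ) (F : Finset ℕ) (z : ℝ) (N : ℕ) : ∃ T : Finset (List ℕ),
    (∀ v ∈ T, v.length = N ∧ len l v ≤ N * F.sup l ∧ Pos l v ∧ ∀ γ ∈ v, γ ∈ F) ∧
      ∑ v ∈ T, (z ^ len l v)⁻¹ = Phi l F z ^ N := by
  classical
  induction N with
  | zero => exact ⟨{[]}, by simp, by simp⟩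
  | succ N ih =>
    obtain ⟨T, hT, hs⟩ := ih
    refine ⟨((F.filter fun γ => 0 < l γ) ×ˢ T).image fun p => p.1 :: p.2, fun v hv => ?_, ?_⟩
    · obtain ⟨⟨γ, t⟩, hp, rfl⟩ := Finset.mem_image.1 hv
      obtain ⟨h1, h2⟩ := Finset.mem_product.1 hp
      obtain ⟨h1, h3⟩ := Finset.mem_filter.1 h1
      obtain ⟨a1, a2, a3, a4⟩ := hT t h2
      refine ⟨by simp [a1], ?_, pos_cons.2 ⟨h3, a3⟩, fun δ hδ => ?_⟩
      · have : l γ ≤ F.sup l := Finset.le_sup h1
        rw [len_cons, Nat.succ_mul, add_comm]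
        exact add_le_add a2 this
      · rcases List.mem_cons.1 hδ with rfl | hδ
        exacts [h1, a4 δ hδ]
    · rw [Finset.sum_image fun p _ q _ e => Prod.ext (List.cons.inj e).1 (List.cons.inj e).2,
        Finset.sum_product, pow_succ', ← hs, Phi, Finset.sum_mul_sum]
      simp only [len_cons, pow_add, mul_inv]

lemma growth {F : Finset ℕ} {z : ℝ} (hz : 0 < z) (h : 1 < Phi l F z) (K : ℝ) :
    ∃ (N g : ℕ) (S : Finset (List ℕ)), 0 < N ∧
      (∀ v ∈ S, v.length = N ∧ len l v = g ∧ Pos l v ∧ ∀ γ ∈ v, γ ∈ F) ∧ K * z ^ g < S.card := by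
  classical
  have h0 : 0 < Phi l F z := zero_lt_one.trans h
  obtain ⟨N, hN, hN0⟩ := ((((tendsto_pow_const_div_const_pow_of_one_lt 1 h).const_mul
    (((F.sup l : ℕ) + 1) * |K|)).eventually (gt_mem_nhds (show _ * (0 : ℝ) < 1 by simp))).and
    (eventually_gt_atTop 0)).exists
  obtain ⟨T, hT, hs⟩ := exists_lists l F z N
  by_contra hc
  push Not at hc
  have h1 : Phi l F z ^ N ≤ ∑ g ∈ Finset.range (N * F.sup l + 1), |K| := by
    rw [← hs, ← Finset.sum_fiberwise_of_maps_to (g := len l) (t := Finset.range (N * F.sup l + 1))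
      fun v hv => Finset.mem_range.2 (Nat.lt_succ_of_le (hT v hv).2.1)]
    refine Finset.sum_le_sum fun g _ => ?_
    have := hc N g (T.filter fun v => len l v = g) hN0 fun v hv => by
      obtain ⟨hv, e⟩ := Finset.mem_filter.1 hv
      exact ⟨(hT v hv).1, e, (hT v hv).2.2⟩
    rw [Finset.sum_congr rfl fun v hv => by rw [(Finset.mem_filter.1 hv).2], Finset.sum_const,
      nsmul_eq_mul, ← div_eq_mul_inv, div_le_iff₀ (by positivity)]
    exact this.trans (mul_le_mul_of_nonneg_right (le_abs_self K) (by positivity))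
  rw [Finset.sum_const, Finset.card_range, nsmul_eq_mul] at h1
  rw [pow_one, ← mul_div_assoc, div_lt_one (by positivity)] at hN
  have h2 : (1 : ℝ) ≤ N := by exact_mod_cast hN0
  push_cast at h1
  nlinarith [mul_nonneg (sub_nonneg.2 h2) (abs_nonneg K)]

lemma two_loops {F : Finset ℕ} {z : ℝ} (hz : 1 ≤ z) (h : 1 < Phi l F z) :
    ∃ a ∈ F, ∃ b ∈ F, a ≠ b ∧ 0 < l a ∧ 0 < l b := by
  have h1 : Phi l F z ≤ (F.filter fun γ => 0 < l γ).card := by
    rw [Phi, Finset.card_eq_sum_ones]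
    push_cast
    exact Finset.sum_le_sum fun γ _ => inv_le_one_of_one_le₀ (one_le_pow₀ hz)
  have h2 : 1 < (F.filter fun γ => 0 < l γ).card := by exact_mod_cast h.trans_le h1
  obtain ⟨a, ha, b, hb, hab⟩ := Finset.one_lt_card.1 h2
  exact ⟨a, (Finset.mem_filter.1 ha).1, b, (Finset.mem_filter.1 hb).1, hab,
    (Finset.mem_filter.1 ha).2, (Finset.mem_filter.1 hb).2⟩

lemma exists_gcd_finset (l : ℕ → ℕ) : ∃ F : Finset ℕ, ∀ d, (∀ γ ∈ F, d ∣ l γ) → ∀ γ, d ∣ l γ := by
  classical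
  by_cases h : ∀ γ, l γ = 0
  · exact ⟨∅, fun d _ γ => by simp [h γ]⟩
  push Not at h
  obtain ⟨γ₀, h⟩ := h
  have hex : ∃ n, 0 < n ∧ ∃ F : Finset ℕ, F.gcd l = n :=
    ⟨l γ₀, Nat.pos_of_ne_zero h, {γ₀}, by simp⟩
  obtain ⟨hpos, F, hF⟩ := Nat.find_spec hex
  refine ⟨F, fun d hd γ => ?_⟩
  have h1 : (insert γ F).gcd l ∣ F.gcd l := Finset.gcd_mono (Finset.subset_insert _ _)
  have h2 : 0 < (insert γ F).gcd l := Nat.pos_of_dvd_of_pos h1 (hF ▸ hpos)
  have h3 : F.gcd l ≤ (insert γ F).gcd l := hF ▸ Nat.find_min' hex ⟨h2, _, rfl⟩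
  have h4 : (insert γ F).gcd l = F.gcd l := le_antisymm (Nat.le_of_dvd (hF ▸ hpos) h1) h3
  exact (Finset.dvd_gcd hd).trans (h4 ▸ Finset.gcd_dvd (Finset.mem_insert_self γ F))

lemma exists_filler (l : ℕ → ℕ) (F : Finset ℕ) : ∃ R, ∀ g, R ≤ g →
    (∀ d, (∀ γ ∈ F, d ∣ l γ) → d ∣ g) → ∃ v, Pos l v ∧ len l v = g ∧ ∀ γ ∈ v, γ ∈ F := by
  obtain ⟨R, hR⟩ := Nat.exists_mem_closure_of_ge (l '' F)
  refine ⟨R, fun g hg hd => ?_⟩
  have hm := hR g hg (hd _ fun γ hγ => Nat.setGcd_dvd_of_mem ⟨γ, hγ, rfl⟩)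
  clear hg hd
  induction hm using AddSubmonoid.closure_induction with
  | mem x hx =>
    obtain ⟨γ, hγ, rfl⟩ := hx
    rcases (l γ).eq_zero_or_pos with e | e
    · exact ⟨[], pos_nil, by simp [e], by simp⟩
    · exact ⟨[γ], pos_cons.2 ⟨e, pos_nil⟩, by simp, by simpa using hγ⟩
  | zero => exact ⟨[], pos_nil, rfl, by simp⟩
  | add x y _ _ h1 h2 =>
    obtain ⟨v, a1, rfl, a3⟩ := h1
    obtain ⟨w, b1, rfl, b3⟩ := h2
    exact ⟨v ++ w, pos_append.2 ⟨a1, b1⟩, len_append, fun γ hγ =>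
      (List.mem_append.1 hγ).elim (a3 γ) (b3 γ)⟩

/-- The critical value of a loop system. -/
lemma exists_crit {z₀ : ℝ} (h0 : 1 ≤ z₀) (h : Rate l z₀) :
    ∃ lam, 1 ≤ lam ∧ Rate l lam ∧ ∀ z, 1 ≤ z → z < lam → ∃ F, 1 < Phi l F z := by
  have hc : IsClosed {z : ℝ | 1 ≤ z ∧ Rate l z} := by
    have : {z : ℝ | 1 ≤ z ∧ Rate l z} = ⋂ F, Ici 1 ∩ Phi l F ⁻¹' Iic 1 := by
      ext z
      simp only [Rate, mem_iInter, mem_inter_iff, mem_Ici, mem_preimage, mem_Iic]
      exact ⟨fun h F => ⟨h.1, h.2 F⟩, fun h => ⟨(h ∅).1, fun F => (h F).2⟩⟩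
    rw [this]
    refine isClosed_iInter fun F => ContinuousOn.preimage_isClosed_of_isClosed ?_ isClosed_Ici
      isClosed_Iic
    exact continuousOn_finsetSum _ fun γ _ => (continuous_pow _).continuousOn.inv₀
      fun z hz => (pow_pos (zero_lt_one.trans_le hz) _).ne'
  have hb : BddBelow {z : ℝ | 1 ≤ z ∧ Rate l z} := ⟨1, fun z hz => hz.1⟩
  have hm := hc.csInf_mem ⟨z₀, h0, h⟩ hb
  refine ⟨_, hm.1, hm.2, fun z hz hlt => ?_⟩
  by_contra hn
  push Not at hn
  exact absurd (csInf_le hb ⟨hz, hn⟩) (not_le.2 hlt)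

lemma rate_of_count {K : ℝ} (hK : 1 ≤ K)
    (h : ∀ n (F : Finset ℕ), (∀ γ ∈ F, l γ = n) → 0 < n → (F.card : ℝ) ≤ K ^ n) :
    Rate l (2 * K) := by
  classical
  intro F
  have hK0 : 0 < K := zero_lt_one.trans_le hK
  rw [Phi, ← Finset.sum_fiberwise_of_maps_to (g := fun γ => l γ - 1) (t := Finset.range (F.sup l))
    fun γ hγ => by
      obtain ⟨h1, h2⟩ := Finset.mem_filter.1 hγ
      have : l γ ≤ F.sup l := Finset.le_sup h1
      exact Finset.mem_range.2 (by omega)]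
  calc _ ≤ ∑ n ∈ Finset.range (F.sup l), (1 / 2 : ℝ) / 2 ^ n := Finset.sum_le_sum fun n _ => by
        have e : ∀ γ ∈ (F.filter fun γ => 0 < l γ).filter fun γ => l γ - 1 = n, l γ = n + 1 := by
          intro γ hγ
          obtain ⟨h1, h2⟩ := Finset.mem_filter.1 hγ
          have := (Finset.mem_filter.1 h1).2
          omega
        rw [Finset.sum_congr rfl fun γ hγ => by rw [e γ hγ], Finset.sum_const, nsmul_eq_mul,
          ← div_eq_mul_inv, div_le_iff₀ (by positivity)]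
        refine (h _ _ e n.succ_pos).trans (le_of_eq ?_)
        rw [mul_pow, pow_succ 2 n]
        field_simp
    _ ≤ 1 := by
        have := (hasSum_geometric_two' 1).summable.sum_le_tsum (Finset.range (F.sup l))
          fun n _ => by positivity
        rwa [tsum_geometric_two'] at this

end Pool.Agent.P.MP_1672e2_an

/-! Many code words of every large length. -/

set_option autoImplicit false

namespace Pool.Agent.P.MP_1672e2_an

open MeasureTheory Set Metric Filter Topology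

lemma norun_short {r a : ℕ} {u : List ℕ} (h : u.length < r) : ¬ List.replicate r a <:+: u := by
  intro h'
  have := h'.length_le
  rw [List.length_replicate] at this
  omega

lemma norun_join {r a b : ℕ} (hr : 0 < r) (hab : a ≠ b) {u v : List ℕ}
    (hu : ¬ List.replicate r a <:+: u) (hv : ¬ List.replicate r a <:+: v) :
    ¬ List.replicate r a <:+: u ++ b :: v := by
  have key : ∀ p : List ℕ, p <+: b :: v → (∀ x ∈ p, x = a) → p = [] := by
    intro p hp hall
    cases p with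
    | nil => rfl
    | cons x p =>
      have h1 := (List.cons_prefix_cons.1 hp).1
      have h2 := hall x (by simp)
      exact absurd (h2.symm.trans h1) hab
  intro h
  rcases List.infix_append_iff.1 h with h | h | ⟨p, q, e, hp, hq⟩
  · exact hu h
  · rcases List.infix_cons_iff.1 h with h | h
    · have := key _ h fun x hx => List.eq_of_mem_replicate hx
      have h2 := congrArg List.length this
      simp at h2
      omega
    · exact hv h
  · have hq0 : q = [] := key q hq fun x hx =>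
      List.eq_of_mem_replicate (n := r) (by rw [e]; exact List.mem_append_right _ hx)
    subst hq0
    rw [List.append_nil] at e
    exact hu (e ▸ hp.isInfix)

lemma exists_blocks {l : ℕ → ℕ} {F : Finset ℕ} {a b r N g₀ : ℕ} (hb : b ∈ F) (hab : a ≠ b)
    (hb' : 0 < l b) (hN : N < r) {S : Finset (List ℕ)}
    (hS : ∀ v ∈ S, v.length = N ∧ len l v = g₀ ∧ Pos l v ∧ ∀ γ ∈ v, γ ∈ F) {t : List ℕ}
    (ht : Pos l t) (ht' : ∀ γ ∈ t, γ ∈ F) (ht'' : t.length < r) (j : ℕ) :
    ∃ T : Finset (List ℕ), T.card = S.card ^ j ∧ ∀ s ∈ T, Pos l s ∧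
      len l s = j * (g₀ + l b) + len l t + l b ∧ (∀ γ ∈ s, γ ∈ F) ∧
      ¬ List.replicate r a <:+: s ∧ ∃ u, s = u ++ [b] := by
  classical
  have hr : 0 < r := by omega
  induction j with
  | zero =>
    refine ⟨{t ++ [b]}, by simp, fun s hs => ?_⟩
    rw [Finset.mem_singleton] at hs
    subst hs
    refine ⟨by simp [ht, hb'], by simp, ?_, norun_join hr hab (norun_short ht'')
      (norun_short (by simpa using hr)), t, rfl⟩
    intro γ hγ
    rcases List.mem_append.1 hγ with h | h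
    · exact ht' γ h
    · rw [List.mem_singleton.1 h]; exact hb
  | succ j ih =>
    obtain ⟨T, hT, hT'⟩ := ih
    refine ⟨(S ×ˢ T).image fun p => p.1 ++ b :: p.2, ?_, fun s hs => ?_⟩
    · rw [Finset.card_image_of_injOn, Finset.card_product, hT, pow_succ']
      rintro ⟨u, v⟩ h ⟨u', v'⟩ h' e
      rw [Finset.mem_coe, Finset.mem_product] at h h'
      have := List.append_inj e ((hS u h.1).1.trans (hS u' h'.1).1.symm)
      exact Prod.ext this.1 (List.cons.inj this.2).2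
    · obtain ⟨⟨u, v⟩, h, rfl⟩ := Finset.mem_image.1 hs
      rw [Finset.mem_product] at h
      obtain ⟨h1, h2, h3, h4⟩ := hS u h.1
      obtain ⟨k1, k2, k3, k4, y, k5⟩ := hT' v h.2
      dsimp only at *
      refine ⟨by simp [h3, hb', k1], ?_, ?_, norun_join hr hab (norun_short (by omega)) k4,
        u ++ b :: y, by rw [k5]; simp⟩
      · rw [len_append, len_cons, h2, k2]; ring
      · intro γ hγ
        rcases List.mem_append.1 hγ with h | h
        · exact h4 γ h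
        · rcases List.mem_cons.1 h with h | h
          · rw [h]; exact hb
          · exact k3 γ h

lemma len_replicate (l : ℕ → ℕ) (r a : ℕ) : len l (List.replicate r a) = r * l a := by
  simp [len]

lemma count_CW {l : ℕ → ℕ} {F : Finset ℕ} {z : ℝ} (hz : 1 ≤ z) (h : 1 < Phi l F z) {a b : ℕ}
    (ha : a ∈ F) (hb : b ∈ F) (hab : a ≠ b) (ha' : 0 < l a) (hb' : 0 < l b) {w : List ℕ}
    (hw : Pos l w) (hw' : ∀ γ ∈ w, γ ∈ F) : ∃ r₀, ∀ r, r₀ ≤ r → ∃ n₁, ∀ g, n₁ ≤ g →
      (∀ d, (∀ γ ∈ F, d ∣ l γ) → d ∣ g) → ∃ S : Finset (List ℕ), z ^ g ≤ S.card ∧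
        ∀ s ∈ S, Pos l s ∧ len l s = g ∧ (∀ γ ∈ s, γ ∈ F) ∧ CW r a b s ∧ w <:+: s := by
  classical
  have hz0 : 0 < z := by linarith
  obtain ⟨N, g₀, S₀, -, hS, hc⟩ := growth hz0 h (2 * z ^ l b)
  obtain ⟨R, hR⟩ := exists_filler l F
  have hne : S₀.Nonempty := by
    rw [← Finset.card_pos]
    have : (0 : ℝ) < S₀.card := lt_trans (by positivity) hc
    exact_mod_cast this
  obtain ⟨v₀, hv₀⟩ := hne
  set t₀ := g₀ + l b with ht₀
  have ht0 : 0 < t₀ := by omega
  refine ⟨w.length + N + R + t₀ + 1, fun r hr => ?_⟩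
  set c := r * l a + 3 * l b + len l w with hcdef
  obtain ⟨J, hJ⟩ := pow_unbounded_of_one_lt (z ^ (c + R + t₀)) (one_lt_two : (1 : ℝ) < 2)
  refine ⟨c + R + J * t₀, fun g hg hd => ?_⟩
  set j := (g - c - R) / t₀ with hj
  set f := R + (g - c - R) % t₀ with hf
  have hdm : t₀ * j + (g - c - R) % t₀ = g - c - R := Nat.div_add_mod _ _
  have hlt : (g - c - R) % t₀ < t₀ := Nat.mod_lt _ ht0
  have hg' : g = c + f + j * t₀ := by
    rw [mul_comm j]
    have : c + R ≤ g := le_trans (Nat.le_add_right _ _) hg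
    omega
  have hJj : J ≤ j := by
    rw [hj, Nat.le_div_iff_mul_le ht0]
    omega
  obtain ⟨t, ht1, ht2, ht3⟩ := hR f (by omega) (by
    intro d hdF
    have h1 : d ∣ g := hd d hdF
    have h2 : d ∣ c := by
      refine dvd_add (dvd_add ((hdF a ha).mul_left _) ((hdF b hb).mul_left _)) ?_
      exact dvd_len fun γ hγ => hdF γ (hw' γ hγ)
    have h3 : d ∣ t₀ := by
      refine dvd_add ?_ (hdF b hb)
      rw [← (hS v₀ hv₀).2.1]
      exact dvd_len fun γ hγ => hdF γ ((hS v₀ hv₀).2.2.2 γ hγ)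
    rw [hg'] at h1
    exact (Nat.dvd_add_right h2).1 ((Nat.dvd_add_left (h3.mul_left _)).1 h1))
  have htl : t.length < r := by
    have := ht1.length_le
    omega
  obtain ⟨T, hT, hT'⟩ := exists_blocks (a := a) hb hab hb' (show N < r by omega) hS ht1 ht3 htl j
  refine ⟨T.image fun s => List.replicate r a ++ b :: (w ++ b :: s), ?_, fun s hs => ?_⟩
  · rw [Finset.card_image_of_injective _ (fun s s' e => by simpa using e), hT]
    push_cast
    have h1 : 2 * z ^ t₀ ≤ (S₀.card : ℝ) := by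
      refine le_trans (le_of_eq ?_) hc.le
      rw [ht₀, pow_add]; ring
    calc z ^ g ≤ z ^ (c + R + t₀ + t₀ * j) :=
          pow_le_pow_right₀ hz (by rw [mul_comm t₀ j]; omega)
      _ = z ^ (c + R + t₀) * (z ^ t₀) ^ j := by rw [pow_add, pow_mul]
      _ ≤ 2 ^ j * (z ^ t₀) ^ j := by
          refine mul_le_mul_of_nonneg_right (hJ.le.trans ?_) (by positivity)
          exact pow_le_pow_right₀ one_le_two hJj
      _ = (2 * z ^ t₀) ^ j := by rw [mul_pow]
      _ ≤ _ := pow_le_pow_left₀ (by positivity) h1 j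
  · obtain ⟨y, hy, rfl⟩ := Finset.mem_image.1 hs
    obtain ⟨k1, k2, k3, k4, u, k5⟩ := hT' y hy
    refine ⟨?_, ?_, ?_, ⟨⟨_, rfl, ?_⟩, List.replicate r a ++ b :: (w ++ b :: u), ?_⟩, ?_⟩
    · simp only [pos_append, pos_cons]
      refine ⟨fun γ hγ => ?_, hb', hw, hb', k1⟩
      rw [List.eq_of_mem_replicate hγ]; exact ha'
    · rw [len_append, len_cons, len_append, len_cons, len_replicate, k2, ht2, hg', hcdef]
      ring
    · intro γ hγ
      simp only [List.mem_append, List.mem_cons] at hγ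
      rcases hγ with h | h | h | h | h
      · rw [List.eq_of_mem_replicate h]; exact ha
      · rw [h]; exact hb
      · exact hw' γ h
      · rw [h]; exact hb
      · exact k3 γ h
    · exact norun_join (by omega) hab (norun_short (by omega)) k4
    · rw [k5]; simp
    · exact ⟨List.replicate r a ++ [b], b :: y, by simp⟩

/-- An injective code for the lists of the guest. -/
lemma exists_code {l l' : ℕ → ℕ} {F : Finset ℕ} {z : ℝ} (h : Fit l F l' z) {a b : ℕ}
    (ha : a ∈ F) (hb : b ∈ F) (hab : a ≠ b) (ha' : 0 < l a) (hb' : 0 < l b) {w : List ℕ}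
    (hw : Pos l w) (hw' : ∀ γ ∈ w, γ ∈ F) : ∃ r₀, ∀ r, r₀ ≤ r → ∃ n₁, ∃ ω : List ℕ → List ℕ,
      InjOn ω {v | Pos l' v ∧ n₁ ≤ len l' v} ∧ ∀ v, Pos l' v → n₁ ≤ len l' v →
        Pos l (ω v) ∧ len l (ω v) = len l' v ∧ (∀ γ ∈ ω v, γ ∈ F) ∧ CW r a b (ω v) ∧
          w <:+: ω v := by
  classical
  obtain ⟨hz, hrate, hphi, hdiv⟩ := h
  have hz0 : 0 < z := by linarith
  obtain ⟨r₀, hr₀⟩ := count_CW hz hphi ha hb hab ha' hb' hw hw'
  refine ⟨r₀, fun r hr => ?_⟩
  obtain ⟨n₁, hn⟩ := hr₀ r hr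
  have hcard : ∀ g (S : Finset (List ℕ)), (∀ v ∈ S, Pos l' v ∧ len l' v = g) →
      (S.card : ℝ) ≤ z ^ g := fun g S hS =>
    card_le_of_Phi (l := l') hz0 (A := univ) (fun F' _ => hrate F') g S
      fun v hv => ⟨(hS v hv).1, (hS v hv).2, fun _ _ => mem_univ _⟩
  have hfin : ∀ g, {v | Pos l' v ∧ len l' v = g}.Finite := by
    intro g
    by_contra hinf
    obtain ⟨n, hn'⟩ := exists_nat_gt (z ^ g)
    obtain ⟨S, hS, hS'⟩ := Set.Infinite.exists_subset_card_eq hinf n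
    have := hcard g S fun v hv => hS hv
    rw [hS'] at this
    linarith
  have key : ∀ g, ∃ e : List ℕ → List ℕ, n₁ ≤ g → InjOn e {v | Pos l' v ∧ len l' v = g} ∧
      ∀ v, Pos l' v → len l' v = g → Pos l (e v) ∧ len l (e v) = g ∧ (∀ γ ∈ e v, γ ∈ F) ∧
        CW r a b (e v) ∧ w <:+: e v := by
    intro g
    by_cases hg : n₁ ≤ g
    swap
    · exact ⟨id, fun h => absurd h hg⟩
    by_cases hne : ∃ v, Pos l' v ∧ len l' v = g
    swap
    · exact ⟨id, fun _ => ⟨fun v hv => absurd ⟨v, hv⟩ hne, fun v h1 h2 => absurd ⟨v, h1, h2⟩ hne⟩⟩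
    obtain ⟨v₀, -, hv₀⟩ := hne
    obtain ⟨S, hS, hS'⟩ := hn g hg fun d hd => hv₀ ▸ dvd_len fun γ _ => hdiv d hd γ
    have hle : (hfin g).toFinset.card ≤ S.card := by
      have := (hcard g (hfin g).toFinset fun v hv => (hfin g).mem_toFinset.1 hv).trans hS
      exact_mod_cast this
    obtain ⟨e, he, he'⟩ := (hfin g).exists_injOn_of_encard_le (t := (S : Set (List ℕ))) (by
      rw [(hfin g).encard_eq_coe_toFinset_card, Set.encard_coe_eq_coe_finsetCard]
      exact_mod_cast hle)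
    exact ⟨e, fun _ => ⟨he', fun v h1 h2 => hS' _ (he ⟨h1, h2⟩)⟩⟩
  choose e he using key
  refine ⟨n₁, fun v => e (len l' v) v, fun v hv v' hv' hvv => ?_, fun v h1 h2 =>
    (he _ h2).2 v h1 rfl⟩
  have h1 := ((he _ hv.2).2 v hv.1 rfl).2.1
  have h2 := ((he _ hv'.2).2 v' hv'.1 rfl).2.1
  have h3 : len l' v = len l' v' := by
    rw [← h1, ← h2]; exact congrArg _ hvv
  dsimp only at hvv
  rw [← h3] at hvv
  exact (he _ hv.2).1 ⟨hv.1, rfl⟩ ⟨hv'.1, h3.symm⟩ hvv

end Pool.Agent.P.MP_1672e2_an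

/-! Cutting at the visits to a set; markers. -/

set_option autoImplicit false

namespace Pool.Agent.P.MP_1672e2_an

open MeasureTheory Set Metric Filter Topology

variable {l : ℕ → ℕ}

/-- All lists between successive visits to `B` lie in `W`. -/
def Words (l : ℕ → ℕ) (B : Set Om) (W : Set (List ℕ)) (x : Om) : Prop :=
  ∀ t v, v ≠ [] → Occ l x t v → zp sh t x ∈ B → zp sh (t + len l v) x ∈ B →
    (∀ s, t < s → s < t + len l v → zp sh s x ∉ B) → v ∈ W

lemma dec_bijective : Function.Bijective dec :=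
  (Denumerable.eqv (List ℕ)).symm.bijective

lemma wl_pos {W : Set (List ℕ)} (hW : ∀ v ∈ W, Pos l v) (γ : ℕ) (h : 0 < wl l W γ) :
    dec γ ∈ W ∧ Pos l (dec γ) ∧ len l (dec γ) = wl l W γ := by
  by_cases hγ : dec γ ∈ W
  · exact ⟨hγ, hW _ hγ, by simp [wl, hγ]⟩
  · simp [wl, hγ] at h

lemma reparse {W : Set (List ℕ)} (hW : ∀ v ∈ W, Pos l v) {B : Set Om} (hB : MeasurableSet B)
    (hB' : ∀ x ∈ B, (x 0).2 = 0) : ∃ D, Emb sh sh D (sub l dec) ∧ D ⊆ LS (wl l W) ∧
      MapsTo (sub l dec) D (LS l) ∧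
      ∀ x ∈ LS l, Recur sh B x → Words l B W x → x ∈ sub l dec '' D := by
  have hω : ∀ γ, 0 < wl l W γ → Pos l (dec γ) ∧ len l (dec γ) = wl l W γ :=
    fun γ h => (wl_pos hW γ h).2
  refine ⟨{y | y ∈ LS (wl l W) ∧ ∀ t, (y t).2 = 0 ↔ zp sh t (sub l dec y) ∈ B},
    ⟨measurable_sub, ?_, ?_, ?_, fun _ _ => rfl⟩, fun y hy => hy.1,
    fun y hy => sub_mem hω hy.1, ?_⟩
  · have h1 : ∀ t : ℤ, MeasurableSet {y : Om | zp sh t (sub l dec y) ∈ B} := fun t =>
      ((measurable_zp_sh t).comp measurable_sub) hB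
    have h2 : ∀ t : ℤ, MeasurableSet {y : Om | (y t).2 = 0 ↔ zp sh t (sub l dec y) ∈ B} :=
      fun t => (measurableSet_start t).iff (h1 t)
    have h3 : {y : Om | y ∈ LS (wl l W) ∧ ∀ t, (y t).2 = 0 ↔ zp sh t (sub l dec y) ∈ B} =
        LS (wl l W) ∩ ⋂ t : ℤ, {y : Om | (y t).2 = 0 ↔ zp sh t (sub l dec y) ∈ B} := by
      ext y; simp
    rw [h3]
    exact measurableSet_LS.inter (MeasurableSet.iInter h2)
  · intro y
    simp only [mem_ofPred_eq, LS_sh, sub_sh, ← zp_succ, sh_apply]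
    refine and_congr_right fun _ => ⟨fun h t => ?_, fun h t => h _⟩
    simpa using h (t - 1)
  · intro y hy y' hy' e
    refine sub_inj hω dec_bijective.1.injOn hy.1 hy'.1 (fun t => ?_) e
    rw [hy.2 t, hy'.2 t, e]
  · intro x hx hR hWd
    have hst : ∀ t, zp sh t x ∈ B → (x t).2 = 0 := fun t ht => by simpa using hB' _ ht
    have key : ∀ t : ℤ, ∃ g : ℕ, zp sh t x ∈ B → Occ l x t (dec g) ∧ 0 < wl l W g ∧
        len l (dec g) = wl l W g ∧ zp sh (t + wl l W g) x ∈ B ∧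
        ∀ s, t < s → s < t + wl l W g → zp sh s x ∉ B := by
      intro t
      by_cases ht : zp sh t x ∈ B
      swap
      · exact ⟨0, fun h => absurd h ht⟩
      obtain ⟨t0, t', h1, h2, h3, h4, h5⟩ := exists_block (P := fun t => zp sh t x ∈ B) hR t
      obtain rfl : t0 = t := by
        by_contra hne
        exact h5 t (lt_of_le_of_ne h1 hne) h2 ht
      obtain ⟨v, hv, hv'⟩ := exists_occ hx (hst _ h3) (hst _ h4) h2.le
      have hv0 : v ≠ [] := by
        rintro rfl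
        simp at hv'
        omega
      have hvW : v ∈ W := hWd t0 v hv0 hv h3 (by rwa [hv']) (by rw [hv']; exact h5)
      obtain ⟨g, rfl⟩ := dec_bijective.2 v
      have hw : wl l W g = len l (dec g) := by simp [wl, hvW]
      refine ⟨g, fun _ => ⟨hv, ?_, hw.symm, by rwa [hw, hv'], by rw [hw, hv']; exact h5⟩⟩
      rw [hw]
      omega
    choose g hg using key
    obtain ⟨y, hy, hyo⟩ := exists_of_cuts (l := wl l W) (P := fun t => zp sh t x ∈ B) hR
      (V := fun t => [g t]) (fun t ht => by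
        obtain ⟨-, h2, -, h4, h5⟩ := hg t ht
        refine ⟨by simpa using h2, by simp, by simpa using h4, by simpa using h5⟩)
    have hblock : ∀ s : ℤ, ∃ t : ℤ, ∃ j : ℕ, s = t + j ∧ zp sh t x ∈ B ∧ j < wl l W (g t) ∧
        y s = (g t, j) := by
      intro s
      obtain ⟨t, t', h1, h2, h3, h4, h5⟩ := exists_block (P := fun t => zp sh t x ∈ B) hR s
      obtain ⟨-, k2, -, k4, -⟩ := hg t h3
      have hlt : t' ≤ t + wl l W (g t) := by
        by_contra hc
        exact h5 _ (by omega) (by omega) k4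
      obtain ⟨j, rfl⟩ : ∃ j : ℕ, s = t + j := ⟨(s - t).toNat, by omega⟩
      have hj : j < wl l W (g t) := by omega
      refine ⟨t, j, rfl, h3, hj, ?_⟩
      have := LS_run hy ((occ_single hy).1 (hyo t h3)) (i := j) (by omega)
      simpa using this
    have hxy : sub l dec y = x := by
      funext s
      obtain ⟨t, j, rfl, h1, h2, h3⟩ := hblock s
      obtain ⟨k1, -, k3, -, -⟩ := hg t h1
      rw [k1.vtx hx (by omega), sub, h3]
    refine ⟨y, ⟨hy, fun s => ?_⟩, hxy⟩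
    rw [hxy]
    obtain ⟨t, j, rfl, h1, h2, h3⟩ := hblock s
    obtain ⟨-, -, -, -, k5⟩ := hg t h1
    rw [h3]
    constructor
    · rintro (rfl : j = 0)
      simpa using h1
    · intro h
      by_contra hj
      exact k5 _ (by have : j ≠ 0 := hj; omega) (by omega) h

lemma marker (l : ℕ → ℕ) (n₁ : ℕ) : ∃ B : Set Om, MeasurableSet B ∧ (∀ x ∈ B, (x 0).2 = 0) ∧
    (∀ x ∈ B, ∀ t : ℤ, 0 < t → t < n₁ → zp sh t x ∉ B) ∧ ∀ ν : Measure Om,
      IsProbabilityMeasure ν → Ergodic sh ν → ν (LS l)ᶜ = 0 → Aper sh ν →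
        ν {x | Recur sh B x}ᶜ = 0 := by
  classical
  obtain ⟨c, hc⟩ := exists_surjective_nat (Finset (ℤ × ℕ × ℕ))
  obtain ⟨C, hC⟩ : ∃ C : ℕ → Set Om, ∀ j, C j = {y | ∀ p ∈ c j, y p.1 = p.2} := ⟨_, fun _ => rfl⟩
  have hCm : ∀ j, MeasurableSet (C j) := by
    intro j
    have h3 : C j = ⋂ p ∈ c j, (fun y : Om => y p.1) ⁻¹' {p.2} := by
      rw [hC]; ext y; simp
    rw [h3]
    exact Finset.measurableSet_biInter _ fun p _ =>
      measurable_pi_apply p.1 (measurableSet_singleton _)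
  obtain ⟨G, hG⟩ : ∃ G : ℕ → Prop, ∀ j, G j ↔ (∀ x ∈ C j, (x 0).2 = 0) ∧
      ∀ x ∈ C j, ∀ t : ℤ, 0 < t → t < n₁ → zp sh t x ∉ C j := ⟨_, fun _ => Iff.rfl⟩
  have hRz : ∀ (A : Set Om) (t : ℤ) (x : Om), Recur sh A (zp sh t x) ↔ Recur sh A x :=
    fun A t x => inv_zp (D := {x | Recur sh A x}) (fun _ => Recur_apply) t x
  have hRm : ∀ j, MeasurableSet {x : Om | Recur sh (C j) x} := fun j =>
    measurableSet_Recur measurable_sh measurable_sh_symm (hCm j)
  refine ⟨{x | ∃ j, G j ∧ x ∈ C j ∧ Recur sh (C j) x ∧ ∀ i < j, G i → ¬ Recur sh (C i) x},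
    ?_, ?_, ?_, ?_⟩
  · have h3 : {x | ∃ j, G j ∧ x ∈ C j ∧ Recur sh (C j) x ∧ ∀ i < j, G i → ¬ Recur sh (C i) x} =
        ⋃ j, ⋃ _ : G j, C j ∩ ({x | Recur sh (C j) x} ∩
          ⋂ i, ⋂ _ : i < j, ⋂ _ : G i, {x | Recur sh (C i) x}ᶜ) := by
      ext x
      simp only [mem_ofPred_eq, mem_iUnion, mem_inter_iff, mem_iInter, mem_compl_iff, exists_prop]
    rw [h3]
    exact MeasurableSet.iUnion fun j => MeasurableSet.iUnion fun _ => (hCm j).inter
      ((hRm j).inter (MeasurableSet.iInter fun i => MeasurableSet.iInter fun _ =>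
        MeasurableSet.iInter fun _ => (hRm i).compl))
  · rintro x ⟨j, h1, h2, -⟩
    exact ((hG j).1 h1).1 x h2
  · rintro x ⟨j, h1, h2, h3, h4⟩ t ht ht' ⟨j', k1, k2, k3, k4⟩
    simp only [hRz] at k3 k4
    rcases lt_trichotomy j j' with h | rfl | h
    · exact k4 j h h1 h3
    · exact ((hG j).1 h1).2 x h2 t ht ht' k2
    · exact h4 j' h k1 k3
  · intro ν _ he hL hA
    have hS : ν {x : Om | (x 0).2 = 0} ≠ 0 := by
      refine ne_zero_of_visit he.toMeasurePreserving measurable_sh_symm (measurableSet_start 0) ?_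
      have : ∀ᵐ x ∂ν, x ∈ LS l := hL
      filter_upwards [this] with x hx
      obtain ⟨t, -, ht⟩ := (LS_starts hx 0).1
      exact ⟨t, by simpa using ht⟩
    have hcov : {x : Om | (x 0).2 = 0} ⊆
        {x | ∃ n : ℕ, 0 < n ∧ sh^[n] x = x} ∪ ⋃ j, ⋃ _ : G j, C j := by
      intro x hx
      by_cases hp : ∃ n : ℕ, 0 < n ∧ sh^[n] x = x
      · exact Or.inl hp
      right
      have hs : ∀ t : ℤ, ∃ s : ℤ, 0 < t → x (s + t) ≠ x s := by
        intro t
        by_contra hcon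
        push Not at hcon
        have ht := (hcon 0).1
        refine hp ⟨t.toNat, by omega, ?_⟩
        rw [← zp_natCast]
        funext s
        rw [zp_sh, Int.toNat_of_nonneg ht.le]
        exact (hcon s).2
      choose s hs using hs
      obtain ⟨j, hj⟩ := hc (insert (0, x 0) ((Finset.Ioo (0 : ℤ) n₁).image (fun t => (s t, x (s t))) ∪
        (Finset.Ioo (0 : ℤ) n₁).image (fun t => (s t + t, x (s t + t)))))
      have hmem : ∀ y, y ∈ C j ↔ y 0 = x 0 ∧ (∀ t : ℤ, 0 < t → t < n₁ → y (s t) = x (s t)) ∧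
          ∀ t : ℤ, 0 < t → t < n₁ → y (s t + t) = x (s t + t) := by
        intro y
        rw [hC, hj]
        simp only [mem_ofPred_eq, Finset.forall_mem_insert, Finset.forall_mem_union,
          Finset.forall_mem_image, Finset.mem_Ioo, and_imp]
      refine mem_iUnion₂.2 ⟨j, (hG j).2 ⟨fun y hy => ?_, fun y hy t ht ht' hy' => ?_⟩, ?_⟩
      · rw [((hmem y).1 hy).1]; exact hx
      · have a1 := ((hmem y).1 hy).2.2 t ht ht'
        have a2 := ((hmem _).1 hy').2.1 t ht ht'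
        rw [zp_sh] at a2
        exact hs t ht (a1.symm.trans a2)
      · exact (hmem x).2 ⟨rfl, fun _ _ _ => rfl, fun _ _ _ => rfl⟩
    obtain ⟨j, hj, hj0⟩ : ∃ j, G j ∧ ν (C j) ≠ 0 := by
      by_contra hcon
      push Not at hcon
      refine hS (measure_mono_null hcov (measure_union_null hA ?_))
      exact measure_iUnion_null fun j => measure_iUnion_null fun hj => hcon j hj
    refine measure_mono_null (compl_subset_compl.2 fun x hx => ?_)
      (ae_recur he measurable_sh_symm (hCm j) hj0)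
    have hex : ∃ i, G i ∧ Recur sh (C i) x := ⟨j, hj, hx⟩
    obtain ⟨h1, h2⟩ := Nat.find_spec hex
    have hin : ∀ t : ℤ, zp sh t x ∈ C (Nat.find hex) → zp sh t x ∈
        {x | ∃ j, G j ∧ x ∈ C j ∧ Recur sh (C j) x ∧ ∀ i < j, G i → ¬ Recur sh (C i) x} :=
      fun t ht => ⟨_, h1, ht, (hRz _ _ _).2 h2, fun i hi hi' hr =>
        Nat.find_min hex hi ⟨hi', (hRz _ _ _).1 hr⟩⟩
    intro m
    obtain ⟨⟨t, a1, a2⟩, t', a3, a4⟩ := h2 m
    exact ⟨⟨t, a1, hin t a2⟩, t', a3, hin t' a4⟩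

end Pool.Agent.P.MP_1672e2_an

/-! Uniqueness of the exceptional measure. -/

set_option autoImplicit false

namespace Pool.Agent.P.MP_1672e2_an

open MeasureTheory Set Metric Filter Topology

/-- The cylinder of radius `R` around `y`. -/
def uCyl (R : ℕ) (y : Om) : Set Om := {x | ∀ i : ℤ, -(R : ℤ) ≤ i → i ≤ R → x i = y i}

lemma measurableSet_uCyl (R : ℕ) (y : Om) : MeasurableSet (uCyl R y) := by
  have : uCyl R y = ⋂ i : ℤ, ⋂ (_ : -(R : ℤ) ≤ i), ⋂ (_ : i ≤ R), (fun x : Om => x i) ⁻¹' {y i} := by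
    ext x; simp [uCyl]
  rw [this]
  exact MeasurableSet.iInter fun i => MeasurableSet.iInter fun _ => MeasurableSet.iInter fun _ =>
    measurable_pi_apply i (measurableSet_singleton _)

lemma uCyl_eq {R : ℕ} {y z : Om} (h : z ∈ uCyl R y) : uCyl R y = uCyl R z := by
  ext x
  exact ⟨fun hx i h1 h2 => (hx i h1 h2).trans (h i h1 h2).symm,
    fun hx i h1 h2 => (hx i h1 h2).trans (h i h1 h2)⟩

lemma uCyl_anti {R R' : ℕ} (h : R ≤ R') (y : Om) : uCyl R' y ⊆ uCyl R y :=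
  fun _ hx i h1 h2 => hx i (by omega) (by omega)

lemma isPiSystem_uCyl : IsPiSystem {C : Set Om | ∃ R y, C = uCyl R y} := by
  rintro _ ⟨R, y, rfl⟩ _ ⟨R', y', rfl⟩ ⟨z, hz, hz'⟩
  rw [uCyl_eq hz, uCyl_eq hz']
  rcases le_total R R' with h | h
  · exact ⟨R', z, inter_eq_right.2 (uCyl_anti h z)⟩
  · exact ⟨R, z, inter_eq_left.2 (uCyl_anti h z)⟩

lemma generate_uCyl : (inferInstance : MeasurableSpace Om) =
    MeasurableSpace.generateFrom {C : Set Om | ∃ R y, C = uCyl R y} := by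
  apply le_antisymm
  · refine iSup_le fun t => ?_
    rintro _ ⟨S, -, rfl⟩
    let R : ℕ := t.natAbs
    let e : (Finset.Icc (-(R : ℤ)) R → ℕ × ℕ) → Om := fun w i =>
      if h : i ∈ Finset.Icc (-(R : ℤ)) R then w ⟨i, h⟩ else (0, 0)
    have ht : t ∈ Finset.Icc (-(R : ℤ)) R := by
      rw [Finset.mem_Icc]; omega
    have : (fun x : Om => x t) ⁻¹' S = ⋃ w : Finset.Icc (-(R : ℤ)) R → ℕ × ℕ,
        ⋃ (_ : w ⟨t, ht⟩ ∈ S), uCyl R (e w) := by
      ext x
      simp only [mem_preimage, mem_iUnion]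
      constructor
      · intro hx
        refine ⟨fun i => x i, hx, fun i h1 h2 => ?_⟩
        have hi : i ∈ Finset.Icc (-(R : ℤ)) R := Finset.mem_Icc.2 ⟨h1, h2⟩
        simp only [e, dif_pos hi]
      · rintro ⟨w, hw, hx⟩
        have h := hx t (Finset.mem_Icc.1 ht).1 (Finset.mem_Icc.1 ht).2
        simp only [e, dif_pos ht] at h
        rwa [h]
    rw [this]
    exact MeasurableSet.iUnion fun w => MeasurableSet.iUnion fun _ =>
      MeasurableSpace.measurableSet_generateFrom ⟨R, e w, rfl⟩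
  · refine MeasurableSpace.generateFrom_le ?_
    rintro _ ⟨R, y, rfl⟩
    exact measurableSet_uCyl R y

lemma run_eq {l : ℕ → ℕ} {x y : Om} (hx : x ∈ LS l) (hy : y ∈ LS l) {t i : ℤ} {γ : ℕ}
    (h1 : x t = (γ, 0)) (h2 : y t = (γ, 0)) (hi : t ≤ i) (hi' : i < t + l γ) : x i = y i := by
  obtain ⟨k, rfl⟩ : ∃ k : ℕ, i = t + k := ⟨(i - t).toNat, by omega⟩
  rw [LS_run hx h1 (i := k) (by omega), LS_run hy h2 (i := k) (by omega)]

lemma exists_window {l : ℕ → ℕ} {y : Om} (hy : y ∈ LS l) (b : ℤ) (n : ℕ) :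
    ∀ t : ℤ, (y t).2 = 0 → t ≤ b → b - t ≤ n → ∃ c, Pos l c ∧
      ∀ x ∈ LS l, (Occ l x t c ↔ ∀ i, t ≤ i → i ≤ b → x i = y i) := by
  induction n using Nat.strong_induction_on with
  | _ n ih =>
    intro t ht hb hn
    obtain ⟨γ, hγ⟩ : ∃ γ, y t = (γ, 0) := ⟨(y t).1, Prod.ext rfl ht⟩
    have hpos : 0 < l γ := by
      have := LS_lt hy t
      rw [hγ] at this
      exact this
    by_cases hlt : b < t + l γ
    · refine ⟨[γ], by simp [hpos], fun x hx => ?_⟩
      rw [occ_single hx]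
      exact ⟨fun h i h1 h2 => run_eq hx hy h hγ h1 (by omega),
        fun h => (h t le_rfl hb).trans hγ⟩
    · obtain ⟨c, hc, H⟩ := ih (n - 1) (by omega) (t + l γ) (LS_next hy hγ) (by omega) (by omega)
      refine ⟨γ :: c, by simp [hpos, hc], fun x hx => ?_⟩
      change (x t = (γ, 0) ∧ Occ l x (t + l γ) c) ↔ _
      rw [H x hx]
      constructor
      · rintro ⟨h1, h2⟩ i hi hi'
        by_cases hlt' : i < t + l γ
        · exact run_eq hx hy h1 hγ hi hlt'
        · exact h2 i (by omega) hi'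
      · intro h
        exact ⟨(h t le_rfl hb).trans hγ, fun i hi hi' => h i (by omega) hi'⟩

lemma exists_occ_uCyl {l : ℕ → ℕ} {y : Om} (hy : y ∈ LS l) (R : ℕ) :
    ∃ t c, Pos l c ∧ ∀ x ∈ LS l, (Occ l x t c ↔ x ∈ uCyl R y) := by
  obtain ⟨γ, j, hγ⟩ : ∃ γ j, y (-(R : ℤ)) = (γ, j) := ⟨_, _, rfl⟩
  have hj : j < l γ := by
    have := LS_lt hy (-(R : ℤ))
    rw [hγ] at this
    exact this
  have h0 := LS_back hy hγ
  obtain ⟨c, hc, H⟩ := exists_window hy R (2 * R + j) (-(R : ℤ) - j) (by rw [h0]) (by omega)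
    (by omega)
  refine ⟨-(R : ℤ) - j, c, hc, fun x hx => ?_⟩
  rw [H x hx]
  refine ⟨fun h i h1 h2 => h i (by omega) h2, fun h i h1 h2 => ?_⟩
  by_cases hi : -(R : ℤ) ≤ i
  · exact h i hi h2
  · have hx0 := LS_back hx ((h _ le_rfl (by omega)).trans hγ)
    exact run_eq hx hy hx0 h0 h1 (by omega)

lemma meas_occ_shift {l : ℕ → ℕ} {ν : Measure Om} (h1 : MeasurePreserving sh ν ν) (t : ℤ)
    (c : List ℕ) : ν {x | Occ l x t c} = ν {x | Occ l x 0 c} := by
  rw [← (measurePreserving_zp measurable_sh_symm h1 t).measure_preimage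
    (measurableSet_occ 0 c).nullMeasurableSet]
  congr 1
  ext x
  simp only [mem_preimage, mem_ofPred_eq, occ_zp, zero_add]

lemma start_ne_zero {l : ℕ → ℕ} {ν : Measure Om} [IsProbabilityMeasure ν]
    (h1 : MeasurePreserving sh ν ν) (h2 : ν (LS l)ᶜ = 0) : ν {x | (x 0).2 = 0} ≠ 0 := by
  intro h0
  have ht : ∀ t : ℤ, ν {x | (x t).2 = 0} = 0 := fun t =>
    (meas_occ_shift (l := l) h1 t []).trans h0
  have hL : ν (LS l) = 0 := by
    refine measure_mono_null (t := ⋃ t : ℤ, {x | (x t).2 = 0}) (fun x hx => ?_)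
      (measure_iUnion_null ht)
    obtain ⟨t, -, h⟩ := (LS_starts hx 0).1
    exact mem_iUnion.2 ⟨t, h⟩
  have : ν univ = 0 := by
    rw [← union_compl_self (LS l)]
    exact measure_union_null hL h2
  simp at this

lemma real_uCyl {l : ℕ → ℕ} (lam : ℝ) (R : ℕ) (y : Om) : ∃ a : ℝ, ∀ ν : Measure Om,
    MeasurePreserving sh ν ν → ν (LS l)ᶜ = 0 → Exc l lam ν →
      ν.real (uCyl R y) = a * ν.real {x | (x 0).2 = 0} := by
  by_cases hne : ∃ z ∈ uCyl R y, z ∈ LS l
  · obtain ⟨z, hz, hzL⟩ := hne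
    obtain ⟨t, c, hc, H⟩ := exists_occ_uCyl hzL R
    refine ⟨(lam ^ len l c)⁻¹, fun ν h1 h2 h => ?_⟩
    rw [← h c hc, uCyl_eq hz, Measure.real, Measure.real, ← meas_occ_shift h1 t c]
    congr 1
    apply measure_congr
    have : ∀ᵐ x ∂ν, x ∈ LS l := h2
    filter_upwards [this] with x hx
    exact propext (H x hx).symm
  · refine ⟨0, fun ν _ h2 _ => ?_⟩
    have : ν (uCyl R y) = 0 :=
      measure_mono_null (fun x hx hxL => hne ⟨x, hx, hxL⟩) h2
    simp [Measure.real, this]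

lemma exc_unique {l : ℕ → ℕ} {lam : ℝ} {ν ν' : Measure Om} [IsProbabilityMeasure ν]
    [IsProbabilityMeasure ν'] (h1 : MeasurePreserving sh ν ν) (h1' : MeasurePreserving sh ν' ν')
    (h2 : ν (LS l)ᶜ = 0) (h2' : ν' (LS l)ᶜ = 0) (h : Exc l lam ν) (h' : Exc l lam ν') :
    ν = ν' := by
  have key : ν' {x | (x 0).2 = 0} • ν = ν {x | (x 0).2 = 0} • ν' := by
    refine Measure.ext_of_generateFrom_of_iUnion {C : Set Om | ∃ R y, C = uCyl R y}
      (fun n => uCyl 0 fun _ => Nat.unpair n) generate_uCyl isPiSystem_uCyl ?_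
      (fun n => ⟨0, _, rfl⟩) (fun n => ?_) ?_
    · refine eq_univ_of_forall fun x => mem_iUnion.2 ⟨Nat.pair (x 0).1 (x 0).2, ?_⟩
      intro i hi hi'
      obtain rfl : i = 0 := by omega
      simp
    · rw [Measure.smul_apply, smul_eq_mul]
      exact ENNReal.mul_ne_top (measure_ne_top _ _) (measure_ne_top _ _)
    · rintro _ ⟨R, y, rfl⟩
      obtain ⟨a, ha⟩ := real_uCyl (l := l) lam R y
      have e1 := ha ν h1 h2 h
      have e2 := ha ν' h1' h2' h'
      rw [Measure.smul_apply, Measure.smul_apply, smul_eq_mul, smul_eq_mul,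
        ← ENNReal.toReal_eq_toReal_iff' (ENNReal.mul_ne_top (measure_ne_top _ _) (measure_ne_top _ _))
          (ENNReal.mul_ne_top (measure_ne_top _ _) (measure_ne_top _ _)),
        ENNReal.toReal_mul, ENNReal.toReal_mul]
      simp only [Measure.real] at e1 e2
      rw [e1, e2]
      ring
  have hs : ν' {x | (x 0).2 = 0} = ν {x | (x 0).2 = 0} := by
    have := congrArg (fun m : Measure Om => m univ) key
    simpa using this
  have h0 := start_ne_zero h1 h2
  ext s _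
  have := congrArg (fun m : Measure Om => m s) key
  simp only [Measure.smul_apply, smul_eq_mul, hs] at this
  exact (ENNReal.mul_right_inj h0 (measure_ne_top _ _)).1 this

lemma exists_of_not_exc {l : ℕ → ℕ} {lam : ℝ} {ν : Measure Om} (h : ¬ Exc l lam ν) :
    ∃ c γ, Pos l c ∧ 0 < l γ ∧
      ν.real {x | Occ l x 0 (c ++ [γ])} ≠ (lam ^ l γ)⁻¹ * ν.real {x | Occ l x 0 c} := by
  by_contra H
  apply h
  intro c
  induction c using List.reverseRecOn with
  | nil => intro _; simp [Occ]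
  | append_singleton c γ ih =>
    intro hc
    rw [pos_append, pos_cons] at hc
    have e : ν.real {x | Occ l x 0 (c ++ [γ])} = (lam ^ l γ)⁻¹ * ν.real {x | Occ l x 0 c} := by
      by_contra hne
      exact H ⟨c, γ, hc.1, hc.2.1, hne⟩
    rw [e, ih hc.1, len_append, len_cons, len_nil, add_zero, pow_add, mul_inv]
    ring

end Pool.Agent.P.MP_1672e2_an
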